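import Pool.Agent.H15.V.Stm
import Pool.Graph.R_pool_sql_team_seeded_63374d34.N334.W.ASY

/-!
# Project V, part ASY (helper87): size of the classical determinant
-/

open Filter Topology

namespace Pool.Agent.H15.V

open Pool.Agent.N334.W (mu UInt nx vd MT cv wcl Dcl G2 Hn PS)

namespace ASY_

open Pool.Agent.N334.W.R0_ Pool.Agent.N334.W.ASY_

/-- the logarithm of the determinant -/
lemma log_Dcl (v : ℕ) : Real.log (Dcl (32 * (v + 4)) (3 * (v + 4) + 5) (12 * (v + 4) - 1)) =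
    ∑ i ∈ Finset.range (12 * v + 47), (2 * Real.log ((3 * v + 16 + i).factorial : ℝ) -
      2 * Real.log ((29 * v + 110 - i).factorial : ℝ) + 2 * Real.log (i.factorial : ℝ) -
      Real.log ((26 * v + 94 - i).factorial : ℝ) + Real.log ((14 * v + 47 - i).factorial : ℝ)) := by
  unfold Dcl
  have hN : 12 * (v + 4) - 1 = 12 * v + 47 := by omega
  rw [hN, Real.log_prod]
  · refine Finset.sum_congr rfl fun i hi => ?_
    rw [Finset.mem_range] at hi
    have e1 : 3 * (v + 4) + 5 + i - 1 = 3 * v + 16 + i := by omega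
    have e2 : 32 * (v + 4) - (3 * (v + 4) + 5) - i - 1 = 29 * v + 110 - i := by omega
    rw [e1, e2]
    have e3 : ∏ j ∈ Finset.range (12 * v + 47),
        (((32 * (v + 4) : ℕ) : ℝ) - 2 * ((3 * (v + 4) + 5 : ℕ) : ℝ) - i - j) =
        ∏ j ∈ Finset.range (12 * v + 47), (((26 * v + 94 - i : ℕ) : ℝ) - j) := by
      refine Finset.prod_congr rfl fun j _ => ?_
      rw [Nat.cast_sub (by omega)]
      push_cast
      ring
    rw [e3]
    have hpos : 0 < ∏ j ∈ Finset.range (12 * v + 47), (((26 * v + 94 - i : ℕ) : ℝ) - j) := by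
      refine Finset.prod_pos fun j hj => ?_
      rw [Finset.mem_range] at hj
      have : j < 26 * v + 94 - i := by omega
      have : (j : ℝ) < ((26 * v + 94 - i : ℕ) : ℝ) := by exact_mod_cast this
      linarith
    rw [Real.log_mul (by positivity) (by positivity), Real.log_pow,
      Real.log_div (by positivity) (by positivity), Real.log_div (by positivity) hpos.ne',
      Real.log_pow, desc _ _ (by omega)]
    have e4 : 26 * v + 94 - i - (12 * v + 47) = 14 * v + 47 - i := by omega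
    rw [e4]
    push_cast
    ring
  · intro i hi
    rw [Finset.mem_range] at hi
    have e3 : ∏ j ∈ Finset.range (12 * v + 47),
        (((32 * (v + 4) : ℕ) : ℝ) - 2 * ((3 * (v + 4) + 5 : ℕ) : ℝ) - i - j) =
        ∏ j ∈ Finset.range (12 * v + 47), (((26 * v + 94 - i : ℕ) : ℝ) - j) := by
      refine Finset.prod_congr rfl fun j _ => ?_
      rw [Nat.cast_sub (by omega)]
      push_cast
      ring
    rw [e3]
    have hpos : 0 < ∏ j ∈ Finset.range (12 * v + 47), (((26 * v + 94 - i : ℕ) : ℝ) - j) := by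
      refine Finset.prod_pos fun j hj => ?_
      rw [Finset.mem_range] at hj
      have : j < 26 * v + 94 - i := by omega
      have : (j : ℝ) < ((26 * v + 94 - i : ℕ) : ℝ) := by exact_mod_cast this
      linarith
    positivity

noncomputable def U (n : ℝ) : ℝ :=
  3 * n * (n * (13 * Real.log n + 10)) +
    2 * (T (15 / 4) 3 n - T (3 / 4) 4 n) - 2 * (T (29 / 4) (-6) n - T (17 / 4) (-5) n) +
    2 * T 3 (-1) n - (T (13 / 2) (-10) n - T (7 / 2) (-9) n) +
    (T (7 / 2) (-8) n - T (1 / 2) (-7) n) + (30 * n * Real.log (8 * n) + 24 * n)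

lemma bound (v : ℕ) : (12 * ((v + 4 : ℕ) : ℝ) - 1) *
      (4 * ((v + 4 : ℕ) : ℝ) * (13 * Real.log (4 * ((v + 4 : ℕ) : ℝ)) + 10)) +
      Real.log (Dcl (32 * (v + 4)) (3 * (v + 4) + 5) (12 * (v + 4) - 1)) ≤
    U (4 * ((v + 4 : ℕ) : ℝ)) := by
  rw [log_Dcl]
  have h12 : (12 * ((v + 4 : ℕ) : ℝ) - 1) = 3 * (4 * ((v + 4 : ℕ) : ℝ)) - 1 := by ring
  rw [h12]
  set n : ℝ := 4 * ((v + 4 : ℕ) : ℝ) with hn
  have hv : (0 : ℝ) ≤ v := Nat.cast_nonneg v
  have hn20 : 16 ≤ n := by rw [hn]; push_cast; linarith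
  set L : ℝ := Real.log (8 * n) with hL
  have hL0 : 0 ≤ L := Real.log_nonneg (by linarith)
  have hlog : ∀ k : ℕ, k + 1 ≤ 32 * v + 128 → Real.log ((k : ℝ) + 1) ≤ L := by
    intro k hk
    refine Real.log_le_log (by positivity) ?_
    have : ((k + 1 : ℕ) : ℝ) ≤ ((32 * v + 128 : ℕ) : ℝ) := by exact_mod_cast hk
    push_cast at this
    rw [hn]
    push_cast
    linarith
  have hterm : ∀ i ∈ Finset.range (12 * v + 47),
      (2 * Real.log ((3 * v + 16 + i).factorial : ℝ) -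
      2 * Real.log ((29 * v + 110 - i).factorial : ℝ) + 2 * Real.log (i.factorial : ℝ) -
      Real.log ((26 * v + 94 - i).factorial : ℝ) + Real.log ((14 * v + 47 - i).factorial : ℝ)) ≤
      2 * ph ((3 * v + 16 + i : ℕ) : ℝ) - 2 * ph ((29 * v + 110 - i : ℕ) : ℝ) +
      2 * ph ((0 + i : ℕ) : ℝ) -
      ph ((26 * v + 94 - i : ℕ) : ℝ) + ph ((14 * v + 47 - i : ℕ) : ℝ) + 10 * L := by
    intro i hi
    rw [Finset.mem_range] at hi
    have q1 := le_ph (3 * v + 16 + i)
    have q2 := ph_le (29 * v + 110 - i)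
    have q3 := le_ph i
    have q4 := ph_le (26 * v + 94 - i)
    have q5 := le_ph (14 * v + 47 - i)
    have r1 := hlog (3 * v + 16 + i) (by omega)
    have r3 := hlog i (by omega)
    have r5 := hlog (14 * v + 47 - i) (by omega)
    rw [zero_add]
    linarith
  have hsum := Finset.sum_le_sum hterm
  have hN : (((12 * v + 47 : ℕ) : ℝ)) = 3 * n - 1 := by rw [hn]; push_cast; ring
  have s1 := up (3 * v + 16) (12 * v + 47)
  have s2 := lo (17 * v + 63) (12 * v + 47)
  have s3 := up 0 (12 * v + 47)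
  have s4 := lo (14 * v + 47) (12 * v + 47)
  have s5 := up (2 * v + 1) (12 * v + 47)
  have t2 : ∑ i ∈ Finset.range (12 * v + 47), ph ((29 * v + 110 - i : ℕ) : ℝ) =
      ∑ i ∈ Finset.range (12 * v + 47), ph ((17 * v + 63 + i + 1 : ℕ) : ℝ) := by
    rw [refl_sum (29 * v + 110) (12 * v + 47) (by omega) (fun k => ph (k : ℝ))]
    refine Finset.sum_congr rfl fun i _ => ?_
    congr 2
    omega
  have t4 : ∑ i ∈ Finset.range (12 * v + 47), ph ((26 * v + 94 - i : ℕ) : ℝ) =
      ∑ i ∈ Finset.range (12 * v + 47), ph ((14 * v + 47 + i + 1 : ℕ) : ℝ) := by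
    rw [refl_sum (26 * v + 94) (12 * v + 47) (by omega) (fun k => ph (k : ℝ))]
    refine Finset.sum_congr rfl fun i _ => ?_
    congr 2
    omega
  have t5 : ∑ i ∈ Finset.range (12 * v + 47), ph ((14 * v + 47 - i : ℕ) : ℝ) =
      ∑ i ∈ Finset.range (12 * v + 47), ph ((2 * v + 1 + i : ℕ) : ℝ) := by
    rw [refl_sum (14 * v + 47) (12 * v + 47) (by omega) (fun k => ph (k : ℝ))]
    refine Finset.sum_congr rfl fun i _ => ?_
    congr 2
    omega
  simp only [Finset.sum_add_distrib, Finset.sum_sub_distrib, ← Finset.mul_sum, t2, t4, t5,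
    Finset.sum_const, Finset.card_range, nsmul_eq_mul] at hsum
  have hG0 : G2 0 = 0 := by simp [G2]
  have u1 : ((3 * v + 16 + (12 * v + 47) : ℕ) : ℝ) = 15 / 4 * n + 3 := by
    rw [hn]; push_cast; ring
  have u1' : ((3 * v + 16 : ℕ) : ℝ) = 3 / 4 * n + 4 := by rw [hn]; push_cast; ring
  have u2 : ((17 * v + 63 + (12 * v + 47) : ℕ) : ℝ) = 29 / 4 * n + -6 := by
    rw [hn]; push_cast; ring
  have u2' : ((17 * v + 63 : ℕ) : ℝ) = 17 / 4 * n + -5 := by rw [hn]; push_cast; ring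
  have u3 : ((0 + (12 * v + 47) : ℕ) : ℝ) = 3 * n + -1 := by rw [hn]; push_cast; ring
  have u4 : ((14 * v + 47 + (12 * v + 47) : ℕ) : ℝ) = 13 / 2 * n + -10 := by
    rw [hn]; push_cast; ring
  have u4' : ((14 * v + 47 : ℕ) : ℝ) = 7 / 2 * n + -9 := by rw [hn]; push_cast; ring
  have u5 : ((2 * v + 1 + (12 * v + 47) : ℕ) : ℝ) = 7 / 2 * n + -8 := by
    rw [hn]; push_cast; ring
  have u5' : ((2 * v + 1 : ℕ) : ℝ) = 1 / 2 * n + -7 := by rw [hn]; push_cast; ring
  rw [u1, u1', hN] at s1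
  rw [u2, u2', hN] at s2
  rw [u3, hN, Nat.cast_zero, hG0] at s3
  rw [u4, u4', hN] at s4
  rw [u5, u5', hN] at s5
  rw [hN] at hsum
  -- the first term
  have f5 : 0 ≤ n * (13 * Real.log n + 10) := by
    have := Real.log_nonneg (show (1 : ℝ) ≤ n by linarith)
    nlinarith
  have f6 : (3 * n - 1) * (n * (13 * Real.log n + 10)) ≤ 3 * n * (n * (13 * Real.log n + 10)) :=
    mul_le_mul_of_nonneg_right (by linarith) f5
  have f7 : (3 * n - 1) * (10 * L) ≤ 30 * n * L := by nlinarith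
  have f8 : 0 ≤ n * L := mul_nonneg (by linarith) hL0
  unfold U T
  rw [← hL]
  simp only [Finset.sum_add_distrib, Finset.sum_sub_distrib, ← Finset.mul_sum]
  linarith

lemma log8_lim : Tendsto (fun n : ℝ => (30 * n * Real.log (8 * n) + 24 * n) / n ^ 2) atTop (𝓝 0) := by
  have h3 : Tendsto (fun n : ℝ => Real.log n / n) atTop (𝓝 0) :=
    Real.isLittleO_log_id_atTop.tendsto_div_nhds_zero
  have h4 : Tendsto (fun n : ℝ => 1 / n) atTop (𝓝 0) := tendsto_const_nhds.div_atTop tendsto_id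
  have h5 := (h3.const_mul 30).add (h4.const_mul (30 * Real.log 8 + 24))
  simp only [mul_zero, add_zero] at h5
  refine h5.congr' ?_
  filter_upwards [eventually_gt_atTop 0] with n hn0
  rw [Real.log_mul (by norm_num) hn0.ne']
  field_simp
  ring

lemma U_lim : Tendsto (fun n : ℝ => U n / n ^ 2 - 18 * Real.log n) atTop (𝓝 a1) := by
  have h := (((((T_lim (15 / 4) 3 (by norm_num)).sub (T_lim (3 / 4) 4 (by norm_num))).const_mul 2).sub
    (((T_lim (29 / 4) (-6) (by norm_num)).sub (T_lim (17 / 4) (-5) (by norm_num))).const_mul 2)).add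
    ((T_lim 3 (-1) (by norm_num)).const_mul 2)).sub
    ((T_lim (13 / 2) (-10) (by norm_num)).sub (T_lim (7 / 2) (-9) (by norm_num)))
  have h2 := ((h.add ((T_lim (7 / 2) (-8) (by norm_num)).sub (T_lim (1 / 2) (-7) (by norm_num)))).add
    log8_lim).add (tendsto_const_nhds (x := (30 : ℝ)))
  have e : 2 * (G2 (15 / 4) - G2 (3 / 4)) - 2 * (G2 (29 / 4) - G2 (17 / 4)) + 2 * G2 3 -
      (G2 (13 / 2) - G2 (7 / 2)) + (G2 (7 / 2) - G2 (1 / 2)) + 0 +
      30 = a1 := by
    unfold a1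
    ring
  rw [e] at h2
  refine h2.congr' ?_
  filter_upwards [eventually_gt_atTop 0] with n hn0
  unfold U
  field_simp
  ring

end ASY_

open ASY_

theorem ASY : S_ASY := by
  intro ε hε
  have h1 : Tendsto (fun ν : ℕ => 4 * (ν : ℝ)) atTop atTop :=
    tendsto_natCast_atTop_atTop.const_mul_atTop (by norm_num)
  have h2 := (U_lim.comp h1).eventually (gt_mem_nhds (lt_add_of_pos_right a1 hε))
  filter_upwards [h2, eventually_ge_atTop 4] with ν hν hν2
  obtain ⟨v, rfl⟩ := Nat.exists_eq_add_of_le' hν2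
  refine (bound v).trans ?_
  simp only [Function.comp_apply] at hν
  have hn : (0 : ℝ) < 4 * ((v + 4 : ℕ) : ℝ) := by positivity
  generalize (4 : ℝ) * ((v + 4 : ℕ) : ℝ) = n at hν hn
  have hn2 : 0 < n ^ 2 := by positivity
  have h3 : U n / n ^ 2 < 18 * Real.log n + a1 + ε := by linarith
  rw [div_lt_iff₀ hn2] at h3
  linarith

end Pool.Agent.H15.V
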