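import Pool.Agent.H15.V.Stm
import Pool.Graph.R_seed8.H337R2.PBd

/-!
# Project V, part CLU: the leading term of the linear form at a residue class with two poles
-/

open Polynomial Pool.Agent.H337R2

namespace Pool.Agent.H15.V

open Pool.Agent.N334.W (mu UInt nx vd MT cv wcl Dcl G2 Hn PS)

noncomputable section

/-! ### the series `(1 - X)^(-d)` -/

/-- the series `(1 - X)^(-d)` -/
def CLUv (d : ℕ) : PowerSeries ℚ := (PowerSeries.invOneSubPow ℚ d).val

lemma CLUv_add (d e : ℕ) : CLUv (d + e) = CLUv d * CLUv e := by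
  unfold CLUv
  rw [PowerSeries.invOneSubPow_add, Units.val_mul]

lemma CLUv_one : CLUv 1 = PowerSeries.mk 1 := by
  unfold CLUv
  have := PowerSeries.invOneSubPow_val_succ_eq_mk_add_choose ℚ 0
  rw [this]
  ext j
  simp

lemma CLUv_pow (h : ℕ) : CLUv 1 ^ h = CLUv h := by
  induction h with
  | zero =>
    unfold CLUv
    rw [pow_zero, PowerSeries.invOneSubPow_zero, Units.val_one]
  | succ h ih => rw [pow_succ, ih, ← CLUv_add]

lemma CLUv_succ (d j : ℕ) : PowerSeries.coeff j (CLUv (d + 1)) = ((Nat.choose (j + d) j : ℕ) : ℚ) := by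
  unfold CLUv
  rw [PowerSeries.invOneSubPow_val_succ_eq_mk_add_choose, PowerSeries.coeff_mk, Nat.add_comm d j,
    Nat.choose_symm_add]

/-! ### congruences modulo `p` -/

section
variable {p : ℕ} [hp : Fact p.Prime]

lemma CLU_sub {A : ℚ} {f g : PowerSeries ℚ} (hf : PB p 1 A f) (hg : PB p 1 A g) : PB p 1 A (f - g) := by
  intro j
  rw [map_sub]
  exact padicNorm.sub.trans (max_le (hf j) (hg j))

lemma CLU_add {A : ℚ} {f g : PowerSeries ℚ} (hf : PB p 1 A f) (hg : PB p 1 A g) : PB p 1 A (f + g) := by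
  intro j
  rw [map_add]
  exact padicNorm.nonarchimedean.trans (max_le (hf j) (hg j))

lemma CLU_pinv : (0 : ℚ) ≤ (p : ℚ)⁻¹ := inv_nonneg.2 p_pos'.le

lemma CLU_pinv1 : (p : ℚ)⁻¹ ≤ 1 := inv_le_one_of_one_le₀ p_one'

/-- congruence modulo `p` of power series with `p`-integral coefficients -/
def CLUc (p : ℕ) (f g : PowerSeries ℚ) : Prop := PB p 1 1 f ∧ PB p 1 1 g ∧ PB p 1 (p : ℚ)⁻¹ (f - g)

lemma CLUc.refl {f : PowerSeries ℚ} (hf : PB p 1 1 f) : CLUc p f f := by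
  refine ⟨hf, hf, ?_⟩
  intro j
  rw [sub_self, map_zero, padicNorm.zero, one_pow, mul_one]
  exact CLU_pinv

omit hp in
lemma CLUc.symm {f g : PowerSeries ℚ} (h : CLUc p f g) : CLUc p g f := by
  refine ⟨h.2.1, h.1, ?_⟩
  intro j
  have := h.2.2 j
  rw [← neg_sub, map_neg, padicNorm.neg]
  exact this

lemma CLUc.trans {f g k : PowerSeries ℚ} (h : CLUc p f g) (h' : CLUc p g k) : CLUc p f k := by
  refine ⟨h.1, h'.2.1, ?_⟩
  rw [show f - k = (f - g) + (g - k) by ring]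
  exact CLU_add h.2.2 h'.2.2

lemma CLUc.mul {f g f' g' : PowerSeries ℚ} (h : CLUc p f g) (h' : CLUc p f' g') : CLUc p (f * f') (g * g') := by
  have hi := CLU_pinv (p := p)
  refine ⟨by simpa using PB.mul zero_le_one zero_le_one zero_le_one h.1 h'.1,
    by simpa using PB.mul zero_le_one zero_le_one zero_le_one h.2.1 h'.2.1, ?_⟩
  rw [show f * f' - g * g' = f * (f' - g') + (f - g) * g' by ring]
  apply CLU_add
  · simpa using PB.mul zero_le_one zero_le_one hi h.1 h'.2.2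
  · simpa using PB.mul zero_le_one hi zero_le_one h.2.2 h'.2.1

lemma CLUc.pow {f g : PowerSeries ℚ} (h : CLUc p f g) (n : ℕ) : CLUc p (f ^ n) (g ^ n) := by
  induction n with
  | zero => rw [pow_zero, pow_zero]; exact CLUc.refl (PB.one zero_le_one)
  | succ n ih => rw [pow_succ, pow_succ]; exact ih.mul h

lemma CLUc.prod {ι : Type*} (s : Finset ι) (f g : ι → PowerSeries ℚ) (h : ∀ i ∈ s, CLUc p (f i) (g i)) :
    CLUc p (∏ i ∈ s, f i) (∏ i ∈ s, g i) := by
  classical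
  induction s using Finset.induction_on with
  | empty => simpa using CLUc.refl (p := p) (PB.one zero_le_one)
  | insert a s ha ih =>
    rw [Finset.prod_insert ha, Finset.prod_insert ha]
    exact (h a (Finset.mem_insert_self _ _)).mul (ih fun i hi => h i (Finset.mem_insert_of_mem hi))

lemma CLUc.C {a b : ℚ} (ha : padicNorm p a ≤ 1) (hb : padicNorm p b ≤ 1)
    (hab : padicNorm p (a - b) ≤ (p : ℚ)⁻¹) : CLUc p (PowerSeries.C a) (PowerSeries.C b) := by
  refine ⟨PB.C zero_le_one zero_le_one ha, PB.C zero_le_one zero_le_one hb, ?_⟩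
  rw [← map_sub]
  exact PB.C zero_le_one CLU_pinv hab

lemma CLUc.Cinv {a b : ℚ} (ha : padicNorm p a = 1) (hb : padicNorm p b = 1)
    (hab : padicNorm p (a - b) ≤ (p : ℚ)⁻¹) : CLUc p (PowerSeries.C a⁻¹) (PowerSeries.C b⁻¹) := by
  have ha0 : a ≠ 0 := by rintro rfl; simp at ha
  have hb0 : b ≠ 0 := by rintro rfl; simp at hb
  have e1 : padicNorm p a⁻¹ = 1 := by
    rw [← one_div, padicNorm.div, ha, padicNorm.one, div_one]
  have e2 : padicNorm p b⁻¹ = 1 := by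
    rw [← one_div, padicNorm.div, hb, padicNorm.one, div_one]
  refine CLUc.C e1.le e2.le ?_
  have e : a⁻¹ - b⁻¹ = -((a - b) * (a⁻¹ * b⁻¹)) := by field_simp; ring
  rw [e, padicNorm.neg, padicNorm.mul, padicNorm.mul, e1, e2, mul_one, mul_one]
  exact hab

lemma CLU_p : padicNorm p (p : ℚ) = (p : ℚ)⁻¹ := padicNorm.padicNorm_p_of_prime

lemma CLU_pB (z : ℤ) : padicNorm p ((p : ℚ) * z) ≤ (p : ℚ)⁻¹ := by
  rw [padicNorm.mul, CLU_p]
  exact mul_le_of_le_one_right CLU_pinv (padicNorm.of_int z)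

/-- a linear polynomial in `p X` -/
lemma CLUc.lin {u a b : ℤ} {x y : ℚ} (hx : x = a) (hy : y = b) (hab : (p : ℤ) ∣ a - b) :
    CLUc p (PowerSeries.C (u : ℚ) * (PowerSeries.C (p : ℚ) * PowerSeries.X) + PowerSeries.C x)
      (PowerSeries.C y) := by
  have h1 : PB p 1 (p : ℚ)⁻¹ (PowerSeries.C (u : ℚ) * (PowerSeries.C (p : ℚ) * PowerSeries.X) +
      PowerSeries.C (0 : ℚ)) := by
    have := PB.lin (p := p) (ρ := 1) (A := (p : ℚ)⁻¹) (a := 0) (u := (u : ℚ) * p) zero_le_one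
      CLU_pinv (by rw [padicNorm.zero]; exact CLU_pinv) (by
        rw [mul_one, mul_comm]; exact CLU_pB u)
    rwa [map_mul, mul_assoc] at this
  rw [map_zero, add_zero] at h1
  have h2 : padicNorm p (x - y) ≤ (p : ℚ)⁻¹ := by
    obtain ⟨z, hz⟩ := hab
    rw [hx, hy, ← Int.cast_sub, hz, Int.cast_mul, Int.cast_natCast]
    exact CLU_pB z
  have hx1 : padicNorm p x ≤ 1 := by rw [hx]; exact padicNorm.of_int a
  have hy1 : padicNorm p y ≤ 1 := by rw [hy]; exact padicNorm.of_int b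
  refine ⟨CLU_add (h1.mono zero_le_one CLU_pinv1) (PB.C zero_le_one zero_le_one hx1),
    PB.C zero_le_one zero_le_one hy1, ?_⟩
  rw [add_sub_assoc, ← map_sub]
  exact CLU_add h1 (PB.C zero_le_one CLU_pinv h2)

/-! ### rescaled series -/

omit hp in
lemma CLU_rs_X : PowerSeries.rescale (p : ℚ) PowerSeries.X = PowerSeries.C (p : ℚ) * PowerSeries.X := by
  rw [PowerSeries.rescale_X]

omit hp in
lemma CLU_rs_lin (a : ℚ) : PowerSeries.rescale (p : ℚ) (PowerSeries.X + PowerSeries.C a) =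
    PowerSeries.C (p : ℚ) * PowerSeries.X + PowerSeries.C a := by
  rw [map_add, PowerSeries.rescale_X, rescale_C']

lemma CLU_rs_partner : PowerSeries.rescale (p : ℚ) (iv (-(p : ℚ))) =
    PowerSeries.C (-(p : ℚ)⁻¹) * CLUv 1 := by
  have hp0 : (p : ℚ) ≠ 0 := p_pos'.ne'
  ext j
  rw [PowerSeries.coeff_rescale, PowerSeries.coeff_C_mul, CLUv_one]
  simp only [iv, PowerSeries.coeff_mk, Pi.one_apply, mul_one]
  rw [neg_pow (p : ℚ) (j + 1), pow_succ (-1 : ℚ) j]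
  have h1 : ((-1 : ℚ)) ^ j ≠ 0 := pow_ne_zero _ (by norm_num)
  field_simp
  ring

lemma CLU_rs_unit {a : ℚ} (ha : padicNorm p a = 1) :
    CLUc p (PowerSeries.rescale (p : ℚ) (iv a)) (PowerSeries.C a⁻¹) := by
  have ha0 : a ≠ 0 := by rintro rfl; simp at ha
  have e1 : padicNorm p a⁻¹ = 1 := by
    rw [← one_div, padicNorm.div, ha, padicNorm.one, div_one]
  have hc : ∀ j, padicNorm p (PowerSeries.coeff j (PowerSeries.rescale (p : ℚ) (iv a))) = (p : ℚ)⁻¹ ^ j := by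
    intro j
    rw [PowerSeries.coeff_rescale]
    simp only [iv, PowerSeries.coeff_mk]
    have h3 : padicNorm p ((-1 : ℚ) ^ j) = 1 := by
      rcases neg_one_pow_eq_or ℚ j with h | h <;> rw [h] <;> simp
    rw [padicNorm.mul, padicNorm.div, h3, padicNorm_pow', padicNorm_pow', ha, CLU_p, one_pow, div_one,
      mul_one]
  have h1 : PB p 1 1 (PowerSeries.rescale (p : ℚ) (iv a)) := by
    intro j
    rw [hc, one_pow, mul_one]
    exact pow_le_one₀ CLU_pinv CLU_pinv1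
  refine ⟨h1, PB.C zero_le_one zero_le_one e1.le, ?_⟩
  intro j
  rw [one_pow, mul_one, map_sub, PowerSeries.coeff_C]
  split_ifs with hj
  · rw [hj, PowerSeries.coeff_rescale]
    simp only [iv, PowerSeries.coeff_mk]
    have : (p : ℚ) ^ 0 * ((-1) ^ 0 / a ^ (0 + 1)) - a⁻¹ = 0 := by
      rw [pow_zero, pow_zero, zero_add, pow_one, one_mul, one_div, sub_self]
    rw [this, padicNorm.zero]
    exact CLU_pinv
  · rw [sub_zero, hc]
    calc (p : ℚ)⁻¹ ^ j ≤ (p : ℚ)⁻¹ ^ 1 := pow_le_pow_of_le_one CLU_pinv CLU_pinv1 (by omega)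
      _ = (p : ℚ)⁻¹ := pow_one _

/-- `lam` as a coefficient of the rescaled series -/
lemma CLU_lam (b h n k : ℕ) (Q : ℚ[X]) (hh : 1 ≤ h) :
    lam b h n p k Q = ((p : ℚ) ^ (h + b))⁻¹ * PowerSeries.coeff (h - 1)
      (PowerSeries.rescale (p : ℚ) (TS (-(k : ℚ)) (PN h n * Q.comp (xp n)) *
        VV ((sN n).erase k) (mu h) (-(k : ℚ))) * CLUv (b + 1)) := by
  have hp0 : (p : ℚ) ≠ 0 := p_pos'.ne'
  rw [PowerSeries.coeff_mul, Finset.Nat.sum_antidiagonal_eq_sum_range_succ_mk, Finset.mul_sum]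
  unfold lam
  have hI : Finset.Icc 1 h = Finset.Ico 1 (h + 1) := by ext; simp
  rw [hI, Finset.sum_Ico_eq_sum_range, show h + 1 - 1 = h - 1 + 1 by omega, ← Finset.sum_range_reflect]
  apply Finset.sum_congr rfl
  intro x hx
  rw [Finset.mem_range] at hx
  have e1 : h - 1 + 1 - 1 - x = h - 1 - x := by omega
  rw [e1, CLUv_succ, PowerSeries.coeff_rescale]
  have e2 : 1 + (h - 1 - x) ≤ h := by omega
  have e3 : 1 + (h - 1 - x) - 1 = h - 1 - x := by omega
  have e4 : h - (1 + (h - 1 - x)) = x := by omega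
  unfold pa
  rw [if_pos e2]
  unfold pfc
  rw [e4, e3]
  have e5 : (p : ℚ) ^ (h + b) = p ^ x * p ^ (1 + (h - 1 - x) + b) := by
    rw [← pow_add]; congr 1; omega
  rw [e5]
  have := pow_ne_zero x hp0
  field_simp

/-- the rescaled product of the other linear factors -/
lemma CLU_VV (h k' : ℕ) (R : Finset ℕ) (hR : ∀ m ∈ R, ¬ (p : ℤ) ∣ (m : ℤ) - k') :
    CLUc p (PowerSeries.rescale (p : ℚ) (VV R (N334.W.mu h) (-(k' : ℚ))))
      (PowerSeries.C (∏ m ∈ R, (((m : ℚ) - k')⁻¹) ^ h)) := by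
  unfold VV
  rw [map_prod, map_prod]
  apply CLUc.prod
  intro m hm
  rw [map_pow, map_pow]
  apply CLUc.pow
  have h1 : padicNorm p ((m : ℚ) - k') = 1 := by
    have := (padicNorm.int_eq_one_iff (p := p) _).2 (hR m hm)
    push_cast at this
    exact this
  have h2 := CLU_rs_unit h1
  rwa [show (m : ℚ) - k' = -(k' : ℚ) + m by ring] at h2 ⊢

/-- the rescaled series of the numerator -/
lemma CLU_PN (h n k' : ℕ) : PowerSeries.rescale (p : ℚ) (TS (-(k' : ℚ)) (PN h n)) =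
    PowerSeries.C ((p : ℚ) ^ h) * (PowerSeries.C ((((6 * n).factorial : ℚ) / p) ^ h) *
      (PowerSeries.C ((2 : ℤ) : ℚ) * (PowerSeries.C (p : ℚ) * PowerSeries.X) +
        PowerSeries.C (8 * n - 2 * k' : ℚ))) := by
  have hp0 : (p : ℚ) ≠ 0 := p_pos'.ne'
  have e1 : PowerSeries.C (((6 * n).factorial : ℚ) ^ h) =
      PowerSeries.C ((p : ℚ) ^ h) * PowerSeries.C ((((6 * n).factorial : ℚ) / p) ^ h) := by
    rw [← map_mul, ← mul_pow, mul_div_cancel₀ _ hp0]
  have e2 : (2 * -(k' : ℚ) + ((8 * n : ℕ) : ℚ)) = 8 * n - 2 * k' := by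
    push_cast
    ring
  unfold PN
  rw [map_mul, TS_C, TS_lin2, map_mul, map_add, map_mul, rescale_C', rescale_C', rescale_C', CLU_rs_X,
    e1, e2]
  push_cast
  ring

omit hp in
/-- the rescaled series of `(x - x(-k))^l` -/
lemma CLU_Q (n k k' l : ℕ) : PowerSeries.rescale (p : ℚ) (TS (-(k' : ℚ))
      (((X - C ((nd n k : ℤ) : ℚ)) ^ l).comp (xp n))) =
    ((PowerSeries.C (p : ℚ) * PowerSeries.X + PowerSeries.C (k - k' : ℚ)) *
      (PowerSeries.C (p : ℚ) * PowerSeries.X + PowerSeries.C (8 * n - k - k' : ℚ))) ^ l := by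
  have e : ((X - C ((nd n k : ℤ) : ℚ)) ^ l).comp (xp n) =
      ((X + C (k : ℚ)) * (X + C (8 * n - k : ℚ))) ^ l := by
    rw [Polynomial.pow_comp, Polynomial.sub_comp, Polynomial.X_comp, Polynomial.C_comp]
    congr 1
    unfold xp nd
    push_cast
    simp only [Polynomial.C_mul, Polynomial.C_sub, Polynomial.C_add, Polynomial.C_neg]
    ring
  have e2 : (-(k' : ℚ) + k) = k - k' := by ring
  have e3 : (-(k' : ℚ) + (8 * n - k)) = 8 * n - k - k' := by ring
  rw [e, map_pow, map_pow, map_mul, map_mul, TS_lin, TS_lin, CLU_rs_lin, CLU_rs_lin, e2, e3]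

/-- the rescaled series at a pole with a partner -/
lemma CLU_F (h n k' k'' : ℕ) (hh : Even h) (hk'' : k'' ∈ sN n) (hkk : k' = k'' + p) (Q : ℚ[X]) :
    PowerSeries.rescale (p : ℚ) (TS (-(k' : ℚ)) (PN h n * Q.comp (xp n)) *
        VV ((sN n).erase k') (N334.W.mu h) (-(k' : ℚ))) =
    PowerSeries.C ((((6 * n).factorial : ℚ) / p) ^ h) *
      (PowerSeries.C ((2 : ℤ) : ℚ) * (PowerSeries.C (p : ℚ) * PowerSeries.X) +
        PowerSeries.C (8 * n - 2 * k' : ℚ)) *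
      PowerSeries.rescale (p : ℚ) (TS (-(k' : ℚ)) (Q.comp (xp n))) * CLUv h *
      PowerSeries.rescale (p : ℚ) (VV (((sN n).erase k').erase k'') (N334.W.mu h) (-(k' : ℚ))) := by
  have hp0 : (p : ℚ) ≠ 0 := p_pos'.ne'
  have hmem : k'' ∈ (sN n).erase k' := by
    rw [Finset.mem_erase]
    have := hp.out.pos
    exact ⟨by omega, hk''⟩
  have e1 : VV ((sN n).erase k') (N334.W.mu h) (-(k' : ℚ)) =
      iv (-(p : ℚ)) ^ h * VV (((sN n).erase k').erase k'') (N334.W.mu h) (-(k' : ℚ)) := by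
    unfold VV
    rw [← Finset.mul_prod_erase _ _ hmem]
    congr 3
    rw [hkk]
    push_cast
    ring
  rw [e1, map_mul, map_mul, map_mul, map_mul, map_pow, CLU_rs_partner, CLU_PN, mul_pow, CLUv_pow,
    ← map_pow]
  have e2 : (-(p : ℚ)⁻¹) ^ h = ((p : ℚ) ^ h)⁻¹ := by rw [hh.neg_pow, inv_pow]
  have e3 : PowerSeries.C ((p : ℚ) ^ h) * PowerSeries.C (((p : ℚ) ^ h)⁻¹) = 1 := by
    rw [← map_mul, mul_inv_cancel₀ (pow_ne_zero _ hp0), map_one]
  rw [e2]
  linear_combination (PowerSeries.C ((((6 * n).factorial : ℚ) / p) ^ h) *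
      (PowerSeries.C ((2 : ℤ) : ℚ) * (PowerSeries.C (p : ℚ) * PowerSeries.X) +
        PowerSeries.C (8 * n - 2 * k' : ℚ)) *
      PowerSeries.rescale (p : ℚ) (TS (-(k' : ℚ)) (Q.comp (xp n))) * CLUv h *
      PowerSeries.rescale (p : ℚ) (VV (((sN n).erase k').erase k'') (N334.W.mu h) (-(k' : ℚ)))) * e3

lemma CLU_X : PB p 1 1 PowerSeries.X := by
  have := PB.linX (p := p) (ρ := 1) (A := 1) (a := 0) zero_le_one zero_le_one (by simp) (by simp)
  simpa using this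

lemma CLU_v (d : ℕ) : PB p 1 1 (CLUv d) := by
  have h1 : PB p 1 1 (CLUv 1) := by
    rw [CLUv_one]
    intro j
    simp
  have := PB.pow (p := p) zero_le_one zero_le_one h1 d
  rwa [CLUv_pow, one_pow] at this

/-- the first pole of a class, `-(k+p)` -/
lemma CLU_one (h n k l : ℕ) (w : ℚ) (hw : padicNorm p w = 1) (R : Finset ℕ)
    (hR : ∀ m ∈ R, ¬ (p : ℤ) ∣ (m : ℤ) - (k + p : ℕ)) :
    ∃ G : PowerSeries ℚ, PowerSeries.C (w ^ h) *
      (PowerSeries.C ((2 : ℤ) : ℚ) * (PowerSeries.C (p : ℚ) * PowerSeries.X) +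
        PowerSeries.C (8 * n - 2 * (k + p : ℕ) : ℚ)) *
      ((PowerSeries.C (p : ℚ) * PowerSeries.X + PowerSeries.C (k - (k + p : ℕ) : ℚ)) *
      (PowerSeries.C (p : ℚ) * PowerSeries.X + PowerSeries.C (8 * n - k - (k + p : ℕ) : ℚ))) ^ l *
      CLUv h * PowerSeries.rescale (p : ℚ) (VV R (N334.W.mu h) (-((k + p : ℕ) : ℚ))) =
      PowerSeries.C ((p : ℚ) ^ l) * G ∧
      CLUc p G (PowerSeries.C (w ^ h) * PowerSeries.C (8 * n - 2 * k : ℚ) *
        ((PowerSeries.X - 1) * PowerSeries.C (8 * n - 2 * k : ℚ)) ^ l * CLUv h *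
        PowerSeries.C (∏ m ∈ R, (((m : ℚ) - (k + p : ℕ))⁻¹) ^ h)) := by
  have hX1 : PB p 1 1 (PowerSeries.X - 1) := CLU_sub CLU_X (PB.one zero_le_one)
  have hwh : padicNorm p (w ^ h) ≤ 1 := by rw [padicNorm_pow', hw, one_pow]
  refine ⟨PowerSeries.C (w ^ h) *
      (PowerSeries.C ((2 : ℤ) : ℚ) * (PowerSeries.C (p : ℚ) * PowerSeries.X) +
        PowerSeries.C (8 * n - 2 * (k + p : ℕ) : ℚ)) *
      ((PowerSeries.X - 1) * (PowerSeries.C ((1 : ℤ) : ℚ) * (PowerSeries.C (p : ℚ) * PowerSeries.X) +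
        PowerSeries.C (8 * n - k - (k + p : ℕ) : ℚ))) ^ l *
      CLUv h * PowerSeries.rescale (p : ℚ) (VV R (N334.W.mu h) (-((k + p : ℕ) : ℚ))), ?_, ?_⟩
  · have e : PowerSeries.C (p : ℚ) * PowerSeries.X + PowerSeries.C ((k : ℚ) - (k + p : ℕ)) =
        PowerSeries.C (p : ℚ) * (PowerSeries.X - 1) := by
      push_cast
      rw [show (k : ℚ) - (k + p) = -p by ring, map_neg]
      ring
    rw [e, map_pow (PowerSeries.C) (p : ℚ) l, Int.cast_one, map_one, one_mul, mul_assoc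
      (PowerSeries.C (p : ℚ)) (PowerSeries.X - 1), mul_pow (PowerSeries.C (p : ℚ))]
    ring
  · refine CLUc.mul (CLUc.mul (CLUc.mul (CLUc.mul (CLUc.refl (PB.C zero_le_one zero_le_one hwh)) ?_)
      (CLUc.pow (CLUc.mul (CLUc.refl hX1) ?_) l)) (CLUc.refl (CLU_v h))) (CLU_VV h _ R hR)
    · refine CLUc.lin (a := 8 * n - 2 * (k + p)) (b := 8 * n - 2 * k) (by push_cast; ring)
        (by push_cast; ring) ?_
      exact ⟨-2, by ring⟩
    · refine CLUc.lin (a := 8 * n - k - (k + p)) (b := 8 * n - 2 * k) (by push_cast; ring)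
        (by push_cast; ring) ?_
      exact ⟨-1, by ring⟩

/-- the second pole, `-(8n-k)` -/
lemma CLU_two (h n k l : ℕ) (hk : k ≤ 8 * n) (w : ℚ) (hw : padicNorm p w = 1) (R : Finset ℕ)
    (hR : ∀ m ∈ R, ¬ (p : ℤ) ∣ (m : ℤ) - (8 * n - k : ℕ)) :
    ∃ G : PowerSeries ℚ, PowerSeries.C (w ^ h) *
      (PowerSeries.C ((2 : ℤ) : ℚ) * (PowerSeries.C (p : ℚ) * PowerSeries.X) +
        PowerSeries.C (8 * n - 2 * (8 * n - k : ℕ) : ℚ)) *
      ((PowerSeries.C (p : ℚ) * PowerSeries.X + PowerSeries.C (k - (8 * n - k : ℕ) : ℚ)) *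
      (PowerSeries.C (p : ℚ) * PowerSeries.X + PowerSeries.C (8 * n - k - (8 * n - k : ℕ) : ℚ))) ^ l *
      CLUv h * PowerSeries.rescale (p : ℚ) (VV R (N334.W.mu h) (-((8 * n - k : ℕ) : ℚ))) =
      PowerSeries.C ((p : ℚ) ^ l) * G ∧
      CLUc p G (PowerSeries.C (w ^ h) * PowerSeries.C (2 * k - 8 * n : ℚ) *
        (PowerSeries.X * PowerSeries.C (2 * k - 8 * n : ℚ)) ^ l * CLUv h *
        PowerSeries.C (∏ m ∈ R, (((m : ℚ) - (8 * n - k : ℕ))⁻¹) ^ h)) := by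
  have hwh : padicNorm p (w ^ h) ≤ 1 := by rw [padicNorm_pow', hw, one_pow]
  have hcast : ((8 * n - k : ℕ) : ℚ) = 8 * n - k := by push_cast [Nat.cast_sub hk]; ring
  refine ⟨PowerSeries.C (w ^ h) *
      (PowerSeries.C ((2 : ℤ) : ℚ) * (PowerSeries.C (p : ℚ) * PowerSeries.X) +
        PowerSeries.C (8 * n - 2 * (8 * n - k : ℕ) : ℚ)) *
      (PowerSeries.X * (PowerSeries.C ((1 : ℤ) : ℚ) * (PowerSeries.C (p : ℚ) * PowerSeries.X) +
        PowerSeries.C (k - (8 * n - k : ℕ) : ℚ))) ^ l *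
      CLUv h * PowerSeries.rescale (p : ℚ) (VV R (N334.W.mu h) (-((8 * n - k : ℕ) : ℚ))), ?_, ?_⟩
  · have e : PowerSeries.C (p : ℚ) * PowerSeries.X + PowerSeries.C (8 * n - k - (8 * n - k : ℕ) : ℚ) =
        PowerSeries.C (p : ℚ) * PowerSeries.X := by
      rw [hcast, sub_self, map_zero, add_zero]
    rw [e, map_pow (PowerSeries.C) (p : ℚ) l, Int.cast_one, map_one, one_mul]
    have e2 : ∀ Y : PowerSeries ℚ, (Y * (PowerSeries.C (p : ℚ) * PowerSeries.X)) ^ l =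
        PowerSeries.C (p : ℚ) ^ l * (PowerSeries.X * Y) ^ l := by
      intro Y
      rw [← mul_pow]
      ring
    rw [e2]
    ring
  · refine CLUc.mul (CLUc.mul (CLUc.mul (CLUc.mul (CLUc.refl (PB.C zero_le_one zero_le_one hwh)) ?_)
      (CLUc.pow (CLUc.mul (CLUc.refl CLU_X) ?_) l)) (CLUc.refl (CLU_v h))) (CLU_VV h _ R hR)
    · refine CLUc.lin (a := 2 * k - 8 * n) (b := 2 * k - 8 * n) (by rw [hcast]; push_cast; ring)
        (by push_cast; ring) ?_
      exact ⟨0, by ring⟩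
    · refine CLUc.lin (a := 2 * k - 8 * n) (b := 2 * k - 8 * n) (by rw [hcast]; push_cast; ring)
        (by push_cast; ring) ?_
      exact ⟨0, by ring⟩

end

/-- the local functional over the rational numbers -/
lemma CLU_Lam (h b l : ℕ) : ((Lam h (b + 1) (X ^ l : ℤ[X]) : ℤ) : ℚ) =
    PowerSeries.coeff (h - 1) (((1 - PowerSeries.X) ^ l - PowerSeries.X ^ l) * (CLUv h * CLUv (b + 1))) := by
  unfold Lam
  rw [← eq_intCast (Int.castRingHom ℚ), ← PowerSeries.coeff_map, map_mul, ← polynomial_map_coe]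
  congr 2
  · rw [Polynomial.X_pow_comp, Polynomial.map_sub, Polynomial.map_pow, Polynomial.map_pow,
      Polynomial.map_sub, Polynomial.map_X, Polynomial.map_one]
    push_cast
    rfl
  · rw [← CLUv_add]
    ext j
    rw [← Nat.add_assoc, CLUv_succ, PowerSeries.coeff_map, PowerSeries.coeff_mk]
    simp only [eq_intCast, Int.cast_natCast, Nat.cast_inj]
    congr 1
    omega

/-- the leading term of the linear form at a class with two poles -/
theorem CLU : S_CLU := by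
  intro b h n p k hb hh hh2 hn hpp h4 h6 hk h2k
  have hp : Fact p.Prime := ⟨hpp⟩
  have hp0 : (0 : ℚ) < p := p_pos'
  have hpc : Prime (p : ℤ) := Nat.prime_iff_prime_int.1 hpp
  -- elements of `[n, 7n]` not congruent to the class
  have hdvd : ∀ (x y : ℕ), x ∈ sN n → (x : ℤ) ≠ y → (x : ℤ) ≠ y + p → (x : ℤ) ≠ y - p →
      (x : ℤ) < y + 2 * p → (y : ℤ) < x + 2 * p → ¬ (p : ℤ) ∣ (x : ℤ) - y := by
    rintro x y - h1 h2 h3 h4 h5 ⟨c, hc⟩
    have h6 : (0 : ℤ) < p := by exact_mod_cast hpp.pos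
    have hc1 : c < 2 := by nlinarith
    have hc2 : -2 < c := by nlinarith
    have : c = -1 ∨ c = 0 ∨ c = 1 := by omega
    rcases this with rfl | rfl | rfl
    · apply h3; linarith
    · apply h1; linarith
    · apply h2; linarith
  obtain ⟨R1, hR1⟩ : ∃ R1, R1 = ((sN n).erase (k + p)).erase k := ⟨_, rfl⟩
  obtain ⟨R2, hR2⟩ : ∃ R2, R2 = ((sN n).erase (8 * n - k)).erase (8 * n - k - p) := ⟨_, rfl⟩
  have hmem1 : ∀ m, m ∈ R1 ↔ (n ≤ m ∧ m ≤ 7 * n ∧ m ≠ k + p ∧ m ≠ k) := by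
    intro m; rw [hR1, Finset.mem_erase, Finset.mem_erase, Finset.mem_Icc]; tauto
  have hmem2 : ∀ m, m ∈ R2 ↔ (n ≤ m ∧ m ≤ 7 * n ∧ m ≠ 8 * n - k ∧ m ≠ 8 * n - k - p) := by
    intro m; rw [hR2, Finset.mem_erase, Finset.mem_erase, Finset.mem_Icc]; tauto
  have hd1 : ∀ m ∈ R1, ¬ (p : ℤ) ∣ (m : ℤ) - (k + p : ℕ) := by
    intro m hm
    obtain ⟨h1, h2, h3, h5⟩ := (hmem1 m).1 hm
    exact hdvd m (k + p) (Finset.mem_Icc.2 ⟨h1, h2⟩) (by omega) (by omega) (by omega) (by omega) (by omega)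
  have hd1' : ∀ m ∈ R1, ¬ (p : ℤ) ∣ (m : ℤ) - k := by
    intro m hm
    obtain ⟨h1, h2, h3, h5⟩ := (hmem1 m).1 hm
    exact hdvd m k (Finset.mem_Icc.2 ⟨h1, h2⟩) (by omega) (by omega) (by omega) (by omega) (by omega)
  have hd2 : ∀ m ∈ R2, ¬ (p : ℤ) ∣ (m : ℤ) - (8 * n - k : ℕ) := by
    intro m hm
    obtain ⟨h1, h2, h3, h5⟩ := (hmem2 m).1 hm
    exact hdvd m (8 * n - k) (Finset.mem_Icc.2 ⟨h1, h2⟩) (by omega) (by omega) (by omega) (by omega)
      (by omega)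
  obtain ⟨w, hwdef⟩ : ∃ w : ℚ, w = ((6 * n).factorial : ℚ) / p := ⟨_, rfl⟩
  have hw : padicNorm p w = 1 := by
    rw [hwdef, padicNorm.div, CLU_p, norm_factorial (by nlinarith)]
    have : 6 * n / p = 1 := by
      apply Nat.div_eq_of_lt_le <;> omega
    rw [this]
    simp [hp0.ne']
  have hu : padicNorm p (8 * n - 2 * k : ℚ) = 1 := by
    have h1 : ¬ (p : ℤ) ∣ ((8 * n - k : ℕ) : ℤ) - k :=
      hdvd (8 * n - k) k (Finset.mem_Icc.2 ⟨by omega, by omega⟩) (by omega) (by omega) (by omega) (by omega)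
        (by omega)
    have h2 := (padicNorm.int_eq_one_iff (p := p) _).2 h1
    rw [Nat.cast_sub (by omega : k ≤ 8 * n)] at h2
    push_cast at h2
    rw [← h2]
    congr 1
    ring
  have hnorm : ∀ m ∈ R1, padicNorm p ((m : ℚ) - (k + p : ℕ)) = 1 := by
    intro m hm
    have := (padicNorm.int_eq_one_iff (p := p) _).2 (hd1 m hm)
    push_cast at this ⊢
    exact this
  have hnorm' : ∀ m ∈ R1, padicNorm p ((m : ℚ) - k) = 1 := by
    intro m hm
    have := (padicNorm.int_eq_one_iff (p := p) _).2 (hd1' m hm)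
    push_cast at this
    exact this
  obtain ⟨T, hT⟩ : ∃ T : ℚ, T = ∏ m ∈ R1, (((m : ℚ) - (k + p : ℕ))⁻¹) ^ h := ⟨_, rfl⟩
  have hTn : padicNorm p T = 1 := by
    rw [hT, padicNorm_prod']
    apply Finset.prod_eq_one
    intro m hm
    rw [padicNorm_pow', ← one_div, padicNorm.div, hnorm m hm, padicNorm.one, div_one, one_pow]
  -- the product for the second pole
  have hT2 : CLUc p (PowerSeries.C (∏ m ∈ R2, (((m : ℚ) - (8 * n - k : ℕ))⁻¹) ^ h)) (PowerSeries.C T) := by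
    have e : ∏ m ∈ R2, (((m : ℚ) - (8 * n - k : ℕ))⁻¹) ^ h = ∏ m ∈ R1, (((m : ℚ) - k)⁻¹) ^ h := by
      apply Finset.prod_bij (fun m _ => 8 * n - m)
      · intro m hm
        rw [hmem2] at hm
        rw [hmem1]
        omega
      · intro m1 h1 m2 h2 he
        rw [hmem2] at h1 h2
        omega
      · intro m hm
        rw [hmem1] at hm
        refine ⟨8 * n - m, ?_, by omega⟩
        rw [hmem2]
        omega
      · intro m hm
        rw [hmem2] at hm
        rw [Nat.cast_sub (by omega : k ≤ 8 * n), Nat.cast_sub (by omega : m ≤ 8 * n),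
          show (m : ℚ) - (((8 * n : ℕ) : ℚ) - k) = -(((8 * n : ℕ) : ℚ) - m - k) by ring, inv_neg,
          hh.neg_pow]
    rw [e, hT, map_prod, map_prod]
    apply CLUc.prod
    intro m hm
    rw [map_pow, map_pow]
    apply CLUc.pow
    apply CLUc.Cinv (hnorm' m hm) (hnorm m hm)
    have : (m : ℚ) - k - (m - (k + p : ℕ)) = (p : ℚ) * (1 : ℤ) := by push_cast; ring
    rw [this]
    exact CLU_pB 1
  obtain ⟨U, hU⟩ : ∃ U : ℚ, U = w ^ h * (8 * n - 2 * k) * T := ⟨_, rfl⟩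
  refine ⟨U, ?_, ?_⟩
  · rw [hU, padicNorm.mul, padicNorm.mul, padicNorm_pow', hw, hu, hTn, one_pow, one_mul, one_mul]
  intro l
  obtain ⟨G1, hG1, hc1⟩ := CLU_one (p := p) h n k l w hw R1 hd1
  obtain ⟨G2, hG2, hc2⟩ := CLU_two (p := p) h n k l (by omega) w hw R2 hd2
  have hF1 := CLU_F (p := p) h n (k + p) k hh (Finset.mem_Icc.2 ⟨hk, by omega⟩) rfl
    ((X - C ((nd n k : ℤ) : ℚ)) ^ l)
  have hF2 := CLU_F (p := p) h n (8 * n - k) (8 * n - k - p) hh (Finset.mem_Icc.2 ⟨by omega, by omega⟩)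
    (by omega) ((X - C ((nd n k : ℤ) : ℚ)) ^ l)
  rw [CLU_Q, ← hwdef, ← hR1, hG1] at hF1
  rw [CLU_Q, ← hwdef, ← hR2, hG2] at hF2
  rw [CLU_lam b h n (k + p) _ (by omega), CLU_lam b h n (8 * n - k) _ (by omega), hF1, hF2, CLU_Lam]
  -- the congruence
  have hc2' : CLUc p G2 (PowerSeries.C (w ^ h) * PowerSeries.C (2 * k - 8 * n : ℚ) *
        (PowerSeries.X * PowerSeries.C (2 * k - 8 * n : ℚ)) ^ l * CLUv h * PowerSeries.C T) := by
    refine hc2.trans (CLUc.mul (CLUc.refl ?_) hT2)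
    have hwh : padicNorm p (w ^ h) ≤ 1 := by rw [padicNorm_pow', hw, one_pow]
    have hu' : padicNorm p (2 * k - 8 * n : ℚ) ≤ 1 := by
      rw [← padicNorm.neg, neg_sub, hu]
    have b1 := PB.C (p := p) (ρ := 1) zero_le_one zero_le_one hwh
    have b2 := PB.C (p := p) (ρ := 1) zero_le_one zero_le_one hu'
    have b3 := PB.mul (p := p) (ρ := 1) zero_le_one zero_le_one zero_le_one CLU_X b2
    have b4 := PB.pow (p := p) (ρ := 1) zero_le_one (by norm_num) b3 l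
    have b5 := PB.mul (p := p) (ρ := 1) zero_le_one zero_le_one zero_le_one b1 b2
    have b6 := PB.mul (p := p) (ρ := 1) zero_le_one (by norm_num) (by norm_num) b5 b4
    have b7 := PB.mul (p := p) (ρ := 1) zero_le_one (by norm_num) (by norm_num) b6 (CLU_v h)
    simpa using b7
  have hD := CLU_add hc1.2.2 hc2'.2.2
  have hD2 := PB.mul (p := p) (ρ := 1) zero_le_one CLU_pinv zero_le_one hD (CLU_v (b + 1))
  have hD3 := hD2 (h - 1)
  rw [one_pow, mul_one, mul_one] at hD3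
  rw [← hT] at hD3
  have key : ((p : ℚ) ^ (h + b))⁻¹ * PowerSeries.coeff (h - 1) (PowerSeries.C ((p : ℚ) ^ l) * G1 * CLUv (b + 1)) +
      ((p : ℚ) ^ (h + b))⁻¹ * PowerSeries.coeff (h - 1) (PowerSeries.C ((p : ℚ) ^ l) * G2 * CLUv (b + 1)) -
      U * ((2 * k : ℚ) - 8 * n) ^ l * (p : ℚ) ^ ((l : ℤ) - h - b) *
        PowerSeries.coeff (h - 1) (((1 - PowerSeries.X) ^ l - PowerSeries.X ^ l) * (CLUv h * CLUv (b + 1))) =
      (p : ℚ) ^ ((l : ℤ) - h - b) * PowerSeries.coeff (h - 1)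
        ((G1 - PowerSeries.C (w ^ h) * PowerSeries.C (8 * n - 2 * k : ℚ) *
        ((PowerSeries.X - 1) * PowerSeries.C (8 * n - 2 * k : ℚ)) ^ l * CLUv h *
        PowerSeries.C T + (G2 - PowerSeries.C (w ^ h) * PowerSeries.C (2 * k - 8 * n : ℚ) *
        (PowerSeries.X * PowerSeries.C (2 * k - 8 * n : ℚ)) ^ l * CLUv h * PowerSeries.C T)) *
          CLUv (b + 1)) := by
    have e1 : (p : ℚ) ^ ((l : ℤ) - h - b) = ((p : ℚ) ^ (h + b))⁻¹ * (p : ℚ) ^ l := by
      rw [sub_sub, zpow_sub₀ hp0.ne', zpow_natCast, ← Nat.cast_add, zpow_natCast]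
      field_simp
    have e2 : (G1 - PowerSeries.C (w ^ h) * PowerSeries.C (8 * n - 2 * k : ℚ) *
        ((PowerSeries.X - 1) * PowerSeries.C (8 * n - 2 * k : ℚ)) ^ l * CLUv h *
        PowerSeries.C T + (G2 - PowerSeries.C (w ^ h) * PowerSeries.C (2 * k - 8 * n : ℚ) *
        (PowerSeries.X * PowerSeries.C (2 * k - 8 * n : ℚ)) ^ l * CLUv h * PowerSeries.C T)) *
          CLUv (b + 1) = G1 * CLUv (b + 1) + G2 * CLUv (b + 1) -
          PowerSeries.C (U * ((2 * k : ℚ) - 8 * n) ^ l) *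
          (((1 - PowerSeries.X) ^ l - PowerSeries.X ^ l) * (CLUv h * CLUv (b + 1))) := by
      have e3 : (PowerSeries.C (8 * n - 2 * k : ℚ)) = - PowerSeries.C (2 * k - 8 * n : ℚ) := by
        rw [← map_neg]; congr 1; ring
      have e4 : PowerSeries.C (U * ((2 * k : ℚ) - 8 * n) ^ l) =
          - (PowerSeries.C (w ^ h) * PowerSeries.C (2 * k - 8 * n : ℚ) * PowerSeries.C T) *
          PowerSeries.C (2 * k - 8 * n : ℚ) ^ l := by
        rw [hU, map_mul, map_mul, map_mul, e3, map_pow (PowerSeries.C) ((2 * k : ℚ) - 8 * n) l]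
        ring
      rw [e3, e4, show (PowerSeries.X - 1 : PowerSeries ℚ) * -PowerSeries.C (2 * k - 8 * n : ℚ) =
        (1 - PowerSeries.X) * PowerSeries.C (2 * k - 8 * n : ℚ) by ring, mul_pow, mul_pow]
      ring
    rw [e2, e1, map_sub, map_add, mul_assoc (PowerSeries.C ((p : ℚ) ^ l)) G1,
      mul_assoc (PowerSeries.C ((p : ℚ) ^ l)) G2, PowerSeries.coeff_C_mul, PowerSeries.coeff_C_mul,
      PowerSeries.coeff_C_mul]
    ring
  rw [key, padicNorm.mul]
  have e5 : padicNorm p ((p : ℚ) ^ ((l : ℤ) - h - b)) = (p : ℚ) ^ ((h : ℤ) + b - l) := by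
    have hz : ∀ z : ℤ, padicNorm p ((p : ℚ) ^ z) = (p : ℚ) ^ (-z) := by
      intro z
      obtain ⟨m, rfl | rfl⟩ := z.eq_nat_or_neg
      · rw [zpow_natCast, padicNorm_pow', CLU_p, zpow_neg, zpow_natCast, inv_pow]
      · rw [neg_neg, zpow_neg, zpow_natCast, ← one_div, padicNorm.div, padicNorm.one, padicNorm_pow',
          CLU_p, inv_pow, one_div, inv_inv]
    rw [hz]
    congr 1
    ring
  have e6 : (p : ℚ) ^ ((h : ℤ) + b - l - 1) = (p : ℚ) ^ ((h : ℤ) + b - l) * (p : ℚ)⁻¹ := by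
    rw [zpow_sub_one₀ hp0.ne']
  rw [e5, e6]
  exact mul_le_mul_of_nonneg_left hD3 (by positivity)

end

end Pool.Agent.H15.V
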