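import Pool.Agent.H15.V.Stm
import Pool.Graph.R_pool_sql_team_seeded_63374d34.N334.W.R0
import Pool.Graph.R_pool_sql_team_seeded_63374d34.N334.W.NUM

/-!
# Project V, part DOM (helper87): domination by the classical weight
-/

open Filter Topology Finset

namespace Pool.Agent.H15.V

open Pool.Agent.N334.W (mu UInt nx vd MT cv wcl Dcl G2 Hn PS)

namespace DOM_

open Pool.Agent.N334.W.R0_ Pool.Agent.N334.W.NUMaux

lemma ph_deriv {x : ℝ} (hx : 0 < x) : HasDerivAt ph (Real.log x) x := by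
  have h1 := ((hasDerivAt_id x).mul (Real.hasDerivAt_log hx.ne')).sub (hasDerivAt_id x)
  have e : (1 : ℝ) * Real.log x + id x * x⁻¹ - 1 = Real.log x := by
    simp only [id]
    field_simp
    ring
  rw [e] at h1
  exact h1

/-- convexity of `x log x - x` -/
lemma ph_sub_ge {x y : ℝ} (hx : 0 < x) (hy : 0 < y) : (y - x) * Real.log x ≤ ph y - ph x := by
  unfold ph
  have h1 : 1 - x / y ≤ Real.log (y / x) := by
    have := Real.one_sub_inv_le_log_of_pos (x := y / x) (by positivity)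
    rwa [inv_div] at this
  rw [Real.log_div hy.ne' hx.ne'] at h1
  have h2 : y - x ≤ y * (Real.log y - Real.log x) := by
    have := mul_le_mul_of_nonneg_left h1 hy.le
    have e : y * (1 - x / y) = y - x := by field_simp
    linarith
  nlinarith

lemma ph_scale {n x : ℝ} (hn : 0 < n) (hx : 0 < x) : ph (n * x) = n * ph x + n * x * Real.log n := by
  unfold ph
  rw [Real.log_mul hn.ne' hx.ne']
  ring

/-! ### the two functions of one variable -/

noncomputable def Fd (τ : ℝ) : ℝ :=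
  11 / 5 * (ph 6 - ph (τ + 7) + ph (τ + 1)) + 2 * (ph (τ + 29 / 4) - ph (τ + 3 / 4))

noncomputable def Gd (τ : ℝ) : ℝ :=
  11 / 5 * (0 - Real.log (τ + 7) + Real.log (τ + 1)) + 2 * (Real.log (τ + 29 / 4) - Real.log (τ + 3 / 4))

noncomputable def Hd (τ : ℝ) : ℝ :=
  11 / 5 * (0 - 1 / (τ + 7) + 1 / (τ + 1)) + 2 * (1 / (τ + 29 / 4) - 1 / (τ + 3 / 4))

lemma ph_shift (c τ : ℝ) (h : 0 < τ + c) : HasDerivAt (fun τ => ph (τ + c)) (Real.log (τ + c)) τ := by
  exact (ph_deriv h).comp_add_const τ c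

lemma log_shift (c τ : ℝ) (h : 0 < τ + c) :
    HasDerivAt (fun τ => Real.log (τ + c)) (1 / (τ + c)) τ := by
  have h1 := (Real.hasDerivAt_log h.ne').comp_add_const τ c
  rwa [← one_div] at h1

lemma Fd_deriv {τ : ℝ} (h : 0 ≤ τ) : HasDerivAt Fd (Gd τ) τ := by
  have h1 := (((hasDerivAt_const τ (ph 6)).sub (ph_shift 7 τ (by linarith))).add
    (ph_shift 1 τ (by linarith))).const_mul (11 / 5)
  have h2 := ((ph_shift (29 / 4) τ (by linarith)).sub (ph_shift (3 / 4) τ (by linarith))).const_mul 2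
  exact h1.add h2

lemma Gd_deriv {τ : ℝ} (h : 0 ≤ τ) : HasDerivAt Gd (Hd τ) τ := by
  have h1 := (((hasDerivAt_const τ (0 : ℝ)).sub (log_shift 7 τ (by linarith))).add
    (log_shift 1 τ (by linarith))).const_mul (11 / 5)
  have h2 := ((log_shift (29 / 4) τ (by linarith)).sub (log_shift (3 / 4) τ (by linarith))).const_mul 2
  exact h1.add h2

lemma Hd_eq {τ : ℝ} (h : 0 ≤ τ) : Hd τ = (1 / 5 * (τ ^ 2 + 8 * τ) - 769 / 40) /
    ((τ + 7) * (τ + 1) * ((τ + 29 / 4) * (τ + 3 / 4))) := by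
  have a1 : τ + 7 ≠ 0 := by linarith
  have a2 : τ + 1 ≠ 0 := by linarith
  have a3 : τ + 29 / 4 ≠ 0 := by linarith
  have a4 : τ + 3 / 4 ≠ 0 := by linarith
  unfold Hd
  rw [eq_div_iff (by positivity)]
  field_simp
  ring

lemma Gd_anti (τs : ℝ) (hs : τs ^ 2 + 8 * τs = 769 / 8) (hs0 : 0 ≤ τs) :
    AntitoneOn Gd (Set.Icc 0 τs) := by
  apply antitoneOn_of_deriv_nonpos (convex_Icc 0 τs)
  · exact fun x hx => (Gd_deriv hx.1).continuousAt.continuousWithinAt
  · intro x hx
    rw [interior_Icc] at hx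
    exact (Gd_deriv hx.1.le).differentiableAt.differentiableWithinAt
  · intro x hx
    rw [interior_Icc] at hx
    rw [(Gd_deriv hx.1.le).deriv, Hd_eq hx.1.le]
    have hx0 := hx.1
    apply div_nonpos_of_nonpos_of_nonneg
    · nlinarith [hx.2]
    · positivity

lemma Gd_mono (τs : ℝ) (hs : τs ^ 2 + 8 * τs = 769 / 8) (hs0 : 0 ≤ τs) :
    MonotoneOn Gd (Set.Ici τs) := by
  apply monotoneOn_of_deriv_nonneg (convex_Ici τs)
  · exact fun x hx => (Gd_deriv (hs0.trans hx)).continuousAt.continuousWithinAt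
  · intro x hx
    rw [interior_Ici] at hx
    exact (Gd_deriv (hs0.trans (le_of_lt hx))).differentiableAt.differentiableWithinAt
  · intro x hx
    rw [interior_Ici] at hx
    have hx' : τs < x := hx
    have hx0 : 0 ≤ x := hs0.trans hx'.le
    rw [(Gd_deriv hx0).deriv, Hd_eq hx0]
    apply div_nonneg
    · nlinarith
    · positivity

lemma Gd_nonpos {τ : ℝ} (h : 31 / 2 ≤ τ) : Gd τ ≤ 0 := by
  have h1 : 1 + (11 / 10) * (6 / (τ + 1)) ≤ (1 + 6 / (τ + 1)) ^ (11 / 10 : ℝ) :=
    one_add_mul_self_le_rpow_one_add (by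
      have : 0 ≤ 6 / (τ + 1) := by positivity
      linarith) (by norm_num)
  have e1 : 1 + 6 / (τ + 1) = (τ + 7) / (τ + 1) := by
    have : τ + 1 ≠ 0 := by linarith
    field_simp
    ring
  have h2 : (τ + 29 / 4) / (τ + 3 / 4) ≤ 1 + (11 / 10) * (6 / (τ + 1)) := by
    have a2 : 0 < τ + 1 := by linarith
    have a4 : 0 < τ + 3 / 4 := by linarith
    rw [div_le_iff₀ a4]
    have e : (1 + (11 / 10) * (6 / (τ + 1))) * (τ + 3 / 4) =
        (τ + 3 / 4) + (33 / 5) * ((τ + 3 / 4) / (τ + 1)) := by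
      field_simp
      ring
    rw [e]
    have h3 : 65 / 66 ≤ (τ + 3 / 4) / (τ + 1) := by
      rw [div_le_div_iff₀ (by norm_num) a2]
      linarith
    linarith
  have h3 := h2.trans h1
  rw [e1] at h3
  have h4 := Real.log_le_log (by
    have a4 : 0 < τ + 3 / 4 := by linarith
    positivity) h3
  rw [Real.log_rpow (by
    have a4 : 0 < τ + 1 := by linarith
    positivity), Real.log_div (by linarith) (by linarith), Real.log_div (by linarith) (by linarith)] at h4
  unfold Gd
  linarith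

set_option exponentiation.threshold 2000 in
lemma l7 : (306 : ℝ) / 109 * Real.log 2 ≤ Real.log 7 ∧ Real.log 7 ≤ 379 / 135 * Real.log 2 := by
  constructor
  · have := le_log_of_pow (x := 7) (k := 109) (m := 306) (by norm_num) (by norm_num)
    push_cast at this
    exact this
  · have := log_le_of_pow (x := 7) (by norm_num) (k := 135) (m := 379) (by norm_num) (by norm_num)
    push_cast at this
    exact this

set_option exponentiation.threshold 2000 in
lemma l13 : Real.log 13 ≤ 766 / 207 * Real.log 2 := by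
  have := log_le_of_pow (x := 13) (by norm_num) (k := 207) (m := 766) (by norm_num) (by norm_num)
  push_cast at this
  exact this

set_option exponentiation.threshold 2000 in
lemma l19 : (1011 : ℝ) / 238 * Real.log 2 ≤ Real.log 19 ∧ Real.log 19 ≤ 514 / 121 * Real.log 2 := by
  constructor
  · have := le_log_of_pow (x := 19) (k := 238) (m := 1011) (by norm_num) (by norm_num)
    push_cast at this
    exact this
  · have := log_le_of_pow (x := 19) (by norm_num) (k := 121) (m := 514) (by norm_num) (by norm_num)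
    push_cast at this
    exact this

lemma log_q (a b : ℝ) (ha : 0 < a) (hb : 0 < b) : Real.log (a / b) = Real.log a - Real.log b :=
  Real.log_div ha.ne' hb.ne'

lemma log4 : Real.log 4 = 2 * Real.log 2 := by
  rw [show (4 : ℝ) = 2 ^ 2 by norm_num, Real.log_pow]
  push_cast
  ring

lemma Gd_val : 0 ≤ Gd (5 / 2) ∧ Gd (5 / 2) ≤ 3 / 5000 := by
  have e1 : Real.log (5 / 2 + 7) = Real.log 19 - Real.log 2 := by
    rw [← log_q _ _ (by norm_num) (by norm_num)]; norm_num
  have e2 : Real.log (5 / 2 + 1) = Real.log 7 - Real.log 2 := by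
    rw [← log_q _ _ (by norm_num) (by norm_num)]; norm_num
  have e3 : Real.log (5 / 2 + 29 / 4) = Real.log 39 - Real.log 4 := by
    rw [← log_q _ _ (by norm_num) (by norm_num)]; norm_num
  have e4 : Real.log (5 / 2 + 3 / 4) = Real.log 13 - Real.log 4 := by
    rw [← log_q _ _ (by norm_num) (by norm_num)]; norm_num
  have e5 : Real.log 39 = Real.log 3 + Real.log 13 := by
    rw [← Real.log_mul (by norm_num) (by norm_num)]; norm_num
  unfold Gd
  rw [e1, e2, e3, e4, e5]
  have a := Real.log_two_gt_d9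
  have a' := Real.log_two_lt_d9
  have b := Real.log_three_gt_d9
  have b' := Real.log_three_lt_d9
  have c := l7
  have e := l19
  constructor
  · linarith [c.1, e.2]
  · linarith [c.2, e.1]

lemma Fd_val : Fd (5 / 2) ≤ 99921 / 10000 := by
  have e1 : Real.log (5 / 2 + 7) = Real.log 19 - Real.log 2 := by
    rw [← log_q _ _ (by norm_num) (by norm_num)]; norm_num
  have e2 : Real.log (5 / 2 + 1) = Real.log 7 - Real.log 2 := by
    rw [← log_q _ _ (by norm_num) (by norm_num)]; norm_num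
  have e3 : Real.log (5 / 2 + 29 / 4) = Real.log 39 - Real.log 4 := by
    rw [← log_q _ _ (by norm_num) (by norm_num)]; norm_num
  have e4 : Real.log (5 / 2 + 3 / 4) = Real.log 13 - Real.log 4 := by
    rw [← log_q _ _ (by norm_num) (by norm_num)]; norm_num
  have e5 : Real.log 39 = Real.log 3 + Real.log 13 := by
    rw [← Real.log_mul (by norm_num) (by norm_num)]; norm_num
  have e6 : Real.log 6 = Real.log 2 + Real.log 3 := by
    rw [← Real.log_mul (by norm_num) (by norm_num)]; norm_num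
  unfold Fd ph
  rw [e1, e2, e3, e4, e5, e6, log4]
  have a := Real.log_two_gt_d9
  have a' := Real.log_two_lt_d9
  have b := Real.log_three_gt_d9
  have b' := Real.log_three_lt_d9
  have c := l7
  have e := l19
  have d := l13
  linarith [c.2, e.1]

/-- the maximum of `F` -/
lemma Fd_le {τ : ℝ} (h : 0 ≤ τ) : Fd τ ≤ 10 := by
  obtain ⟨τs, hτs⟩ : ∃ τs : ℝ, τs = Real.sqrt (897 / 8) - 4 := ⟨_, rfl⟩
  have hsq : Real.sqrt (897 / 8) ^ 2 = 897 / 8 := Real.sq_sqrt (by norm_num)
  have hs10 : 10 < Real.sqrt (897 / 8) := by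
    rw [Real.lt_sqrt (by norm_num)]; norm_num
  have hs11 : Real.sqrt (897 / 8) < 11 := by
    rw [Real.sqrt_lt' (by norm_num)]; norm_num
  have hs : τs ^ 2 + 8 * τs = 769 / 8 := by
    rw [hτs]
    nlinarith
  have h6 : 6 < τs := by rw [hτs]; linarith
  have h7 : τs < 7 := by rw [hτs]; linarith
  have hanti := Gd_anti τs hs (by linarith)
  have hmono := Gd_mono τs hs (by linarith)
  have hG1 : ∀ x ∈ Set.Icc (0 : ℝ) (5 / 2), 0 ≤ Gd x := by
    intro x hx
    exact Gd_val.1.trans (hanti ⟨hx.1, by linarith [hx.2]⟩ ⟨by norm_num, by linarith⟩ hx.2)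
  have hG2 : ∀ x ∈ Set.Icc (5 / 2 : ℝ) (31 / 2), Gd x ≤ 3 / 5000 := by
    intro x hx
    rcases le_total x τs with h1 | h1
    · exact (hanti ⟨by norm_num, by linarith⟩ ⟨by linarith [hx.1], h1⟩ hx.1).trans Gd_val.2
    · have h2 := hmono h1 (show τs ≤ 31 / 2 by linarith) hx.2
      have h3 := Gd_nonpos (τ := 31 / 2) le_rfl
      linarith
  -- first interval
  have hF1 : MonotoneOn Fd (Set.Icc 0 (5 / 2)) := by
    apply monotoneOn_of_deriv_nonneg (convex_Icc _ _)
    · exact fun x hx => (Fd_deriv hx.1).continuousAt.continuousWithinAt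
    · intro x hx
      rw [interior_Icc] at hx
      exact (Fd_deriv hx.1.le).differentiableAt.differentiableWithinAt
    · intro x hx
      rw [interior_Icc] at hx
      rw [(Fd_deriv hx.1.le).deriv]
      exact hG1 x ⟨hx.1.le, hx.2.le⟩
  -- second interval
  have hF2 : AntitoneOn (fun x => Fd x - 3 / 5000 * x) (Set.Icc (5 / 2) (31 / 2)) := by
    have hd : ∀ x : ℝ, 0 ≤ x → HasDerivAt (fun x => Fd x - 3 / 5000 * x) (Gd x - 3 / 5000) x := by
      intro x hx
      have h1 := (Fd_deriv hx).sub ((hasDerivAt_id x).const_mul (3 / 5000 : ℝ))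
      rw [mul_one] at h1
      exact h1
    apply antitoneOn_of_deriv_nonpos (convex_Icc _ _)
    · exact fun x hx => (hd x (by linarith [hx.1])).continuousAt.continuousWithinAt
    · intro x hx
      rw [interior_Icc] at hx
      exact (hd x (by linarith [hx.1])).differentiableAt.differentiableWithinAt
    · intro x hx
      rw [interior_Icc] at hx
      rw [(hd x (by linarith [hx.1])).deriv]
      have := hG2 x ⟨hx.1.le, hx.2.le⟩
      linarith
  have hF3 : AntitoneOn Fd (Set.Ici (31 / 2)) := by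
    apply antitoneOn_of_deriv_nonpos (convex_Ici _)
    · intro x hx
      have hx' : (31 / 2 : ℝ) ≤ x := hx
      exact (Fd_deriv (by linarith)).continuousAt.continuousWithinAt
    · intro x hx
      rw [interior_Ici] at hx
      have hx' : (31 / 2 : ℝ) < x := hx
      exact (Fd_deriv (by linarith)).differentiableAt.differentiableWithinAt
    · intro x hx
      rw [interior_Ici] at hx
      have hx' : (31 / 2 : ℝ) < x := hx
      rw [(Fd_deriv (by linarith)).deriv]
      exact Gd_nonpos hx'.le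
  have hv := Fd_val
  have hmid : ∀ x ∈ Set.Icc (5 / 2 : ℝ) (31 / 2), Fd x ≤ 10 := by
    intro x hx
    have h1 := hF2 ⟨le_rfl, by norm_num⟩ hx hx.1
    simp only at h1
    linarith [hx.2]
  rcases le_total τ (5 / 2) with h1 | h1
  · have := hF1 ⟨h, h1⟩ ⟨by norm_num, le_rfl⟩ h1
    linarith
  · rcases le_total τ (31 / 2) with h2 | h2
    · exact hmid τ ⟨h1, h2⟩
    · have h3 := hF3 (Set.mem_Ici.2 le_rfl) (Set.mem_Ici.2 h2) h2
      have h4 := hmid (31 / 2) ⟨by norm_num, le_rfl⟩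
      linarith

/-- the other function -/
lemma gd_le {τ : ℝ} (h : 0 ≤ τ) : ph 6 - ph (τ + 7) + ph (τ + 1) ≤ -(287 / 100) := by
  have hm : MonotoneOn (fun x => ph (x + 7) - ph (x + 1)) (Set.Ici 0) := by
    have hd : ∀ x : ℝ, 0 ≤ x → HasDerivAt (fun x => ph (x + 7) - ph (x + 1))
        (Real.log (x + 7) - Real.log (x + 1)) x := fun x hx =>
      (ph_shift 7 x (by linarith)).sub (ph_shift 1 x (by linarith))
    apply monotoneOn_of_deriv_nonneg (convex_Ici _)
    · exact fun x hx => (hd x hx).continuousAt.continuousWithinAt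
    · intro x hx
      rw [interior_Ici] at hx
      exact (hd x (le_of_lt hx)).differentiableAt.differentiableWithinAt
    · intro x hx
      rw [interior_Ici] at hx
      have hx' : (0 : ℝ) < x := hx
      rw [(hd x hx'.le).deriv]
      have := Real.log_le_log (by linarith : 0 < x + 1) (by linarith : x + 1 ≤ x + 7)
      linarith
  have h1 : ph (0 + 7) - ph (0 + 1) ≤ ph (τ + 7) - ph (τ + 1) :=
    hm (Set.mem_Ici.2 le_rfl) (Set.mem_Ici.2 h) h
  rw [zero_add, zero_add] at h1
  have e6 : Real.log 6 = Real.log 2 + Real.log 3 := by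
    rw [← Real.log_mul (by norm_num) (by norm_num)]; norm_num
  have h2 : ph 6 - (ph 7 - ph 1) ≤ -(287 / 100) := by
    unfold ph
    rw [e6, Real.log_one]
    have a := Real.log_two_gt_d9
    have a' := Real.log_two_lt_d9
    have b := Real.log_three_gt_d9
    have b' := Real.log_three_lt_d9
    have c := l7
    linarith [c.1]
  linarith

/-! ### sums of logarithms -/

lemma sum_ge (t : ℝ) (a m : ℕ) (h : 1 ≤ t + a) :
    ph (t + ((a + m : ℕ) : ℝ)) - ph (t + a) ≤ ∑ k ∈ Finset.Icc a (a + m), Real.log (t + k) := by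
  induction m with
  | zero =>
    simp only [add_zero, Finset.Icc_self, Finset.sum_singleton, sub_self]
    exact Real.log_nonneg h
  | succ m ih =>
    rw [← add_assoc, Finset.sum_Icc_succ_top (by omega)]
    have hm : (0 : ℝ) ≤ m := Nat.cast_nonneg m
    have h1 := ph_sub_ge (x := t + ((a + m + 1 : ℕ) : ℝ)) (y := t + ((a + m : ℕ) : ℝ))
      (by push_cast; linarith) (by push_cast; linarith)
    have e : t + ((a + m : ℕ) : ℝ) - (t + ((a + m + 1 : ℕ) : ℝ)) = -1 := by push_cast; ring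
    rw [e] at h1
    linarith

lemma sum_le (t : ℝ) (a m : ℕ) (h : 0 < t + a) :
    ∑ k ∈ Finset.Icc a (a + m), Real.log (t + k) ≤ ph (t + ((a + m + 1 : ℕ) : ℝ)) - ph (t + a) := by
  induction m with
  | zero =>
    simp only [add_zero, Finset.Icc_self, Finset.sum_singleton]
    have h1 := ph_sub_ge (x := t + (a : ℝ)) (y := t + ((a + 1 : ℕ) : ℝ)) h (by push_cast; linarith)
    have e : t + ((a + 1 : ℕ) : ℝ) - (t + (a : ℝ)) = 1 := by push_cast; ring
    rw [e] at h1
    linarith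
  | succ m ih =>
    rw [← add_assoc, Finset.sum_Icc_succ_top (by omega)]
    have hm : (0 : ℝ) ≤ m := Nat.cast_nonneg m
    have h1 := ph_sub_ge (x := t + ((a + m + 1 : ℕ) : ℝ)) (y := t + ((a + m + 1 + 1 : ℕ) : ℝ))
      (by push_cast; linarith) (by push_cast; linarith)
    have e : t + ((a + m + 1 + 1 : ℕ) : ℝ) - (t + ((a + m + 1 : ℕ) : ℝ)) = 1 := by push_cast; ring
    rw [e] at h1
    linarith

lemma log_prod_Icc (t : ℝ) (a b : ℕ) (h : 0 < t + a) :
    Real.log (∏ k ∈ Finset.Icc a b, (t + (k : ℝ))) = ∑ k ∈ Finset.Icc a b, Real.log (t + k) := by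
  rw [Real.log_prod]
  intro k hk
  rw [Finset.mem_Icc] at hk
  have : (a : ℝ) ≤ k := by exact_mod_cast hk.1
  linarith

lemma prod_pos_Icc (t : ℝ) (a b : ℕ) (h : 0 < t + a) :
    0 < ∏ k ∈ Finset.Icc a b, (t + (k : ℝ)) := by
  apply Finset.prod_pos
  intro k hk
  rw [Finset.mem_Icc] at hk
  have : (a : ℝ) ≤ k := by exact_mod_cast hk.1
  linarith

end DOM_

open DOM_ Pool.Agent.N334.W.R0_

theorem DOM : S_DOM := by
  intro s h K ε hs hh hK hε
  have hs' : (1 : ℝ) ≤ s := by exact_mod_cast hs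
  have hh' : 11 * (s : ℝ) ≤ 5 * h := by exact_mod_cast hh
  obtain ⟨δ, hδ⟩ : ∃ δ : ℝ, δ = (h : ℝ) - 11 / 5 * s := ⟨_, rfl⟩
  have hδ0 : 0 ≤ δ := by rw [hδ]; linarith
  have hhe : (h : ℝ) = 11 / 5 * s + δ := by rw [hδ]; ring
  have l11 : 0 ≤ Real.log 11 := Real.log_nonneg (by norm_num)
  have ev1 := log_small ε hε (2 * δ + 22 / 5 * s) 25 (by norm_num)
  have ev2 : ∀ᶠ ν : ℕ in atTop, |Real.log K| + 8 * s * Real.log 11 ≤ 3 * ε * (ν : ℝ) := by
    have := (tendsto_natCast_atTop_atTop (R := ℝ)).const_mul_atTop (show 0 < 3 * ε by positivity)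
    exact this.eventually_ge_atTop _
  filter_upwards [ev1, ev2, eventually_ge_atTop 2] with ν h1 h2 hν t
  have hν2 : (2 : ℝ) ≤ ν := by exact_mod_cast hν
  have ht0 : (0 : ℝ) ≤ t := Nat.cast_nonneg t
  obtain ⟨n, hn⟩ : ∃ n : ℝ, n = 4 * (ν : ℝ) := ⟨_, rfl⟩
  have hn8 : 8 ≤ n := by rw [hn]; linarith
  have hn0 : 0 < n := by linarith
  obtain ⟨τ, hτ⟩ : ∃ τ : ℝ, τ = t / n := ⟨_, rfl⟩
  have hτ0 : 0 ≤ τ := by rw [hτ]; positivity
  have htτ : (t : ℝ) = n * τ := by rw [hτ]; field_simp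
  -- the two products
  obtain ⟨P, hP⟩ : ∃ P : ℝ, P = ∏ k ∈ Finset.Icc (4 * ν) (7 * (4 * ν)), ((t : ℝ) + k) := ⟨_, rfl⟩
  obtain ⟨O, hO⟩ : ∃ O : ℝ, O = ∏ k ∈ Finset.Icc (3 * ν + 5) (32 * ν - (3 * ν + 5)), ((t : ℝ) + k) :=
    ⟨_, rfl⟩
  have q1 : (0 : ℝ) < t + ((4 * ν : ℕ) : ℝ) := by push_cast; linarith
  have q2 : (0 : ℝ) < t + ((3 * ν + 5 : ℕ) : ℝ) := by push_cast; linarith
  have hP0 : 0 < P := by rw [hP]; exact prod_pos_Icc _ _ _ q1
  have hO0 : 0 < O := by rw [hO]; exact prod_pos_Icc _ _ _ q2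
  have hlP : ph (t + 7 * n) - ph (t + n) ≤ Real.log P := by
    rw [hP, log_prod_Icc _ _ _ q1]
    have := sum_ge t (4 * ν) (24 * ν) (by push_cast; linarith)
    rw [show 4 * ν + 24 * ν = 7 * (4 * ν) by ring] at this
    refine le_trans (le_of_eq ?_) this
    rw [hn]
    push_cast
    rfl
  obtain ⟨l3, hl3⟩ : ∃ l3 : ℝ, l3 = Real.log (t + 3 / 4 * n) := ⟨_, rfl⟩
  have hl30 : 0 ≤ l3 := by rw [hl3]; exact Real.log_nonneg (by linarith)
  have hlO : Real.log O ≤ ph (t + 29 / 4 * n) - ph (t + 3 / 4 * n) - 9 * l3 := by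
    rw [hO, log_prod_Icc _ _ _ q2]
    have h3 := sum_le t (3 * ν + 5) (26 * ν - 10) q2
    rw [show 3 * ν + 5 + (26 * ν - 10) = 32 * ν - (3 * ν + 5) by omega] at h3
    have e1 : ((32 * ν - (3 * ν + 5) + 1 : ℕ) : ℝ) = 29 / 4 * n - 4 := by
      rw [show 32 * ν - (3 * ν + 5) + 1 = 29 * ν - 4 by omega, Nat.cast_sub (by omega), hn]
      push_cast
      ring
    have e2 : ((3 * ν + 5 : ℕ) : ℝ) = 3 / 4 * n + 5 := by
      rw [hn]
      push_cast
      ring
    rw [e1, e2] at h3
    have h4 := ph_sub_ge (x := t + 3 / 4 * n) (y := t + (3 / 4 * n + 5)) (by positivity) (by positivity)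
    have h5 := ph_sub_ge (x := t + (29 / 4 * n - 4)) (y := t + 29 / 4 * n) (by linarith) (by positivity)
    have h6 : l3 ≤ Real.log (t + (29 / 4 * n - 4)) := by
      rw [hl3]
      exact Real.log_le_log (by positivity) (by linarith)
    rw [← hl3] at h4
    have e3 : t + (3 / 4 * n + 5) - (t + 3 / 4 * n) = 5 := by ring
    have e4 : t + 29 / 4 * n - (t + (29 / 4 * n - 4)) = 4 := by ring
    rw [e3] at h4
    rw [e4] at h5
    linarith
  -- the factorial
  obtain ⟨A, hA⟩ : ∃ A : ℝ, A = Real.log ((24 * ν).factorial : ℝ) := ⟨_, rfl⟩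
  obtain ⟨l1, hl1⟩ : ∃ l1 : ℝ, l1 = Real.log (25 * (ν : ℝ)) := ⟨_, rfl⟩
  have hl10 : 0 ≤ l1 := by rw [hl1]; exact Real.log_nonneg (by linarith)
  have hAle : A ≤ ph (6 * n) + 2 * l1 := by
    rw [hA]
    refine (le_ph (24 * ν)).trans ?_
    have e1 : ((24 * ν : ℕ) : ℝ) = 6 * n := by rw [hn]; push_cast; ring
    rw [e1]
    have h3 : Real.log (6 * n + 1) ≤ l1 := by
      rw [hl1]
      apply Real.log_le_log (by positivity)
      rw [hn]
      linarith
    linarith
  -- scaling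
  have c1 : ph (6 * n) = n * ph 6 + n * 6 * Real.log n := by
    rw [mul_comm, ph_scale hn0 (by norm_num)]
  have c2 : ph (t + 7 * n) = n * ph (τ + 7) + n * (τ + 7) * Real.log n := by
    rw [← ph_scale hn0 (by linarith), htτ]; congr 1; ring
  have c3 : ph (t + n) = n * ph (τ + 1) + n * (τ + 1) * Real.log n := by
    rw [← ph_scale hn0 (by linarith), htτ]; congr 1; ring
  have c4 : ph (t + 29 / 4 * n) = n * ph (τ + 29 / 4) + n * (τ + 29 / 4) * Real.log n := by
    rw [← ph_scale hn0 (by linarith), htτ]; congr 1; ring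
  have c5 : ph (t + 3 / 4 * n) = n * ph (τ + 3 / 4) + n * (τ + 3 / 4) * Real.log n := by
    rw [← ph_scale hn0 (by linarith), htτ]; congr 1; ring
  have hF := Fd_le hτ0
  have hg := gd_le hτ0
  unfold Fd at hF
  have hAP : A - Real.log P ≤ n * (ph 6 - ph (τ + 7) + ph (τ + 1)) + 2 * l1 := by
    rw [c1] at hAle
    rw [c2, c3] at hlP
    linarith
  have hAP2 : A - Real.log P ≤ -(287 / 100) * n + 2 * l1 := by
    have := mul_le_mul_of_nonneg_left hg hn0.le
    linarith
  have hmain : 11 / 5 * (A - Real.log P) + 2 * Real.log O ≤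
      n * (13 * Real.log n + 10) + 22 / 5 * l1 - 18 * l3 := by
    rw [c4, c5] at hlO
    have := mul_le_mul_of_nonneg_left hF hn0.le
    linarith
  -- the other logarithms
  have hl32 : Real.log ((t : ℝ) + 32 * ν) ≤ Real.log 11 + l3 := by
    rw [hl3, ← Real.log_mul (by norm_num) (by positivity)]
    apply Real.log_le_log (by positivity)
    rw [hn]
    linarith
  have hl64 : 0 ≤ Real.log (2 * (t : ℝ) + 32 * ν) := Real.log_nonneg (by linarith)
  -- take logarithms
  have hRt : Rt h (4 * ν) t = ((24 * ν).factorial : ℝ) ^ h * (2 * t + 32 * ν) / P ^ h := by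
    unfold Rt
    rw [← hP, show 6 * (4 * ν) = 24 * ν by ring]
    push_cast
    ring
  have hw : wcl (32 * ν) (3 * ν + 5) t = (2 * t + 32 * ν) / O ^ 2 := by
    unfold wcl
    rw [← hO]
    push_cast
    ring
  have hB : (0 : ℝ) < 2 * t + 32 * ν := by positivity
  have hC : (0 : ℝ) < t + 32 * ν := by positivity
  have hL : 0 < K * (((24 * ν).factorial : ℝ) ^ h * (2 * t + 32 * ν) / P ^ h) *
      ((t : ℝ) + 32 * ν) ^ (6 * s + 2) := by positivity
  have hR : 0 < Real.exp (4 * (ν : ℝ) * ((s : ℝ) * (13 * Real.log (4 * (ν : ℝ)) + 10) -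
        ((h : ℝ) - 11 / 5 * s) * (287 / 100) + ε)) * ((2 * t + 32 * ν) / O ^ 2) ^ s := by positivity
  rw [hRt, hw]
  apply (Real.log_le_log_iff hL hR).1
  rw [Real.log_mul (by positivity) (by positivity), Real.log_mul (by positivity) (by positivity),
    Real.log_div (by positivity) (by positivity), Real.log_mul (by positivity) (by positivity),
    Real.log_pow, Real.log_pow, Real.log_pow, Real.log_mul (by positivity) (by positivity),
    Real.log_exp, Real.log_pow, Real.log_div (by positivity) (by positivity), Real.log_pow, ← hA, ← hn,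
    ← hδ, hhe]
  have f1 : δ * (A - Real.log P) ≤ δ * (-(287 / 100) * n + 2 * l1) := mul_le_mul_of_nonneg_left hAP2 hδ0
  have f2 : (s : ℝ) * (11 / 5 * (A - Real.log P) + 2 * Real.log O) ≤
      s * (n * (13 * Real.log n + 10) + 22 / 5 * l1 - 18 * l3) :=
    mul_le_mul_of_nonneg_left hmain (by linarith)
  have f3 : ((6 * s + 2 : ℕ) : ℝ) * Real.log ((t : ℝ) + 32 * ν) ≤ 8 * s * (Real.log 11 + l3) := by
    have g1 : ((6 * s + 2 : ℕ) : ℝ) ≤ 8 * s := by push_cast; linarith
    calc ((6 * s + 2 : ℕ) : ℝ) * Real.log ((t : ℝ) + 32 * ν) ≤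
          ((6 * s + 2 : ℕ) : ℝ) * (Real.log 11 + l3) := mul_le_mul_of_nonneg_left hl32 (Nat.cast_nonneg _)
      _ ≤ _ := mul_le_mul_of_nonneg_right g1 (by linarith)
  have f4 : Real.log (2 * (t : ℝ) + 32 * ν) ≤ s * Real.log (2 * (t : ℝ) + 32 * ν) := by
    nlinarith
  have f5 : 8 * (s : ℝ) * l3 ≤ 18 * s * l3 := by
    have : 0 ≤ (s : ℝ) * l3 := by positivity
    linarith
  have f6 : Real.log K + (2 * δ + 22 / 5 * s) * l1 + 8 * s * Real.log 11 ≤ n * ε := by
    rw [← hl1] at h1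
    have := le_abs_self (Real.log K)
    rw [hn]
    linarith
  push_cast at f3 ⊢
  linarith

end Pool.Agent.H15.V
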