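import Pool.Graph.R_pool_sql_team_seeded_63374d34.N334.W.Stm

/-!
# Windows of odd zeta values, ratio `16/5`: definitions

`b` even, `h` even, `s = b + 1`, `R(t) = ((6n)!)^h (2t+8n) / ∏_{k=n}^{7n} (t+k)^h`, `x(t) = t (t+8n)`, and the linear form
`Q ↦ ∑_{t ≥ 0} (1/b!) (d/dt)^b [R(t) Q(x(t))]`. The Hankel determinants have the size `m = s (3n-1)`.

This is the construction of `N334.W` (poles in `[n, 3n]`, `x = t (t+4n)`, `m = s (n-1)`) with other parameters; the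
general notions `mu, UInt, nx, vd, MT, cv, wcl, Dcl, G2, Hn, PS` and the general parts
`AND, GV, PT, RR, ARCH, CL1, CL2, CL, GB, GR, ME, PN` of `N334.W` are used as they are.
-/

open Polynomial Pool.Agent.H337R2

namespace Pool.Agent.H15.V

noncomputable section

open Pool.Agent.N334.W (mu UInt nx vd MT cv wcl Dcl G2 Hn PS)

/-- the poles are at `-k`, `k ∈ [n, 7n]` -/
abbrev sN (n : ℕ) : Finset ℕ := Finset.Icc n (7 * n)

/-- numerator `((6n)!)^h (2t+8n)` of `R` -/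
def PN (h n : ℕ) : ℚ[X] := C (((6 * n).factorial : ℚ) ^ h) * (2 * X + C ((8 * n : ℕ) : ℚ))

/-- `x(t) = t (t+8n)` -/
def xp (n : ℕ) : ℚ[X] := X * (X + C ((8 * n : ℕ) : ℚ))

/-- the linear form as a function of the numerator `P`; `u e` stands for `ζ(e)` -/
def xf (b h n : ℕ) (u : ℕ → ℚ) (P : ℚ[X]) : ℚ :=
  ∑ i ∈ Finset.Icc 1 h, ((Nat.choose (i - 1 + b) (i - 1) : ℕ) : ℚ) *
    ((∑ k ∈ sN n, pa (sN n) (mu h) P k i) * u (i + b) -
      ∑ k ∈ sN n, pa (sN n) (mu h) P k i * hs (i + b) (k - 1))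

/-- `xf` as a linear map of the numerator -/
def xfL (b h n : ℕ) (u : ℕ → ℚ) : ℚ[X] →ₗ[ℚ] ℚ where
  toFun := xf b h n u
  map_add' P Q := by
    unfold xf
    rw [← Finset.sum_add_distrib]
    apply Finset.sum_congr rfl
    intro i _
    simp only [N334.W.pa_add, add_mul, Finset.sum_add_distrib]
    ring
  map_smul' c P := by
    rw [Polynomial.smul_eq_C_mul]
    unfold xf
    simp only [N334.W.pa_C_mul, RingHom.id_apply, smul_eq_mul]
    rw [Finset.mul_sum]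
    apply Finset.sum_congr rfl
    intro i _
    rw [← Finset.mul_sum]
    have : ∑ k ∈ sN n, c * pa (sN n) (mu h) P k i * hs (i + b) (k - 1)
        = c * ∑ k ∈ sN n, pa (sN n) (mu h) P k i * hs (i + b) (k - 1) := by
      rw [Finset.mul_sum]
      apply Finset.sum_congr rfl
      intro k _
      ring
    rw [this]
    ring

/-- the functional `Q ↦ N(Q)` -/
def NL (b h n : ℕ) (u : ℕ → ℚ) : ℚ[X] →ₗ[ℚ] ℚ where
  toFun Q := xfL b h n u (PN h n * Q.comp (xp n))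
  map_add' P Q := by
    rw [← map_add]
    congr 1
    rw [Polynomial.add_comp, mul_add]
  map_smul' c P := by
    rw [RingHom.id_apply, ← map_smul]
    congr 1
    rw [Polynomial.smul_comp, mul_smul_comm]

lemma NL_apply (b h n : ℕ) (u : ℕ → ℚ) (Q : ℚ[X]) : NL b h n u Q = xf b h n u (PN h n * Q.comp (xp n)) := rfl

/-- Hankel determinant -/
def DET (b h n : ℕ) (u : ℕ → ℚ) (m : ℕ) : ℚ :=
  (Matrix.of fun i j : Fin m => NL b h n u (X ^ (i.1 + j.1))).det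

/-- the coefficient of the `k`-th derivative (divided by `k!`) of `Q` at `x(t)` in the `t`-th term of the
linear form: `ω(t, k)`, the coefficient of `ε^b` in `R(t+ε) (x(t+ε) - x(t))^k` -/
def om (b h n : ℕ) (t : ℚ) (k : ℕ) : ℚ :=
  PowerSeries.coeff b (RS (sN n) (mu h) (PN h n) t *
    (PowerSeries.X * (PowerSeries.X + PowerSeries.C (2 * t + ((8 * n : ℕ) : ℚ)))) ^ k)

/-- `R(t)` -/
def Rt (h n : ℕ) (t : ℕ) : ℝ :=
  ((6 * n).factorial : ℝ) ^ h * (2 * t + 8 * n) / (∏ k ∈ Finset.Icc n (7 * n), ((t : ℝ) + k)) ^ h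

/-- number of poles in the residue class of `k` modulo `p` -/
def Np (n p k : ℕ) : ℕ := ((Finset.Icc n (7 * n)).filter fun k' => k' ≡ k [MOD p]).card

/-- the node polynomial `x - x(-r)` -/
def XN (n r : ℕ) : ℚ[X] := X + C ((r : ℚ) * (8 * n - r))

/-- the node `x(-c)` as an integer -/
def nd (n c : ℕ) : ℤ := -(c : ℤ) * (-(c : ℤ) + ((8 * n : ℕ) : ℤ))

/-- exponent of `p` in the bound for the determinant, `√(8n) < p ≤ 8n`; `s = b + 1`, `m = s (3n-1)` -/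
def EP (b h n p : ℕ) : ℝ :=
  -2 * (((b + 1) * (3 * n - 1) : ℕ) : ℝ) ^ 2 / p +
    ((b : ℝ) + 1 + h * ((6 * n % p : ℕ) : ℝ) / p) * (((b + 1) * (3 * n - 1) : ℕ) : ℝ) +
    (h : ℝ) ^ 2 * (((6 * n % p : ℕ) : ℝ) / p) * (1 - ((6 * n % p : ℕ) : ℝ) / p) * p / 8 +
    (4 * (((b + 1) * (3 * n - 1) : ℕ) : ℝ) / p + h) ^ 2 / 4

/-- exponent of `p` in the bound for the determinant, `4n < p ≤ 6n` -/
def EN (b h n p : ℕ) : ℤ :=
  -(h : ℤ) * ((b + 1) * (3 * n - 1) : ℕ) + ((6 * n - p + 1) / 2 : ℕ) * (((h + b / 2) * (h + b / 2 + 1) : ℕ) : ℤ) +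
    (((n - 1) * ((b + 1) * h) : ℕ) : ℤ)

/-- the constant of the archimedean part -/
def a1 : ℝ := 30 +
  (2 * (G2 (15 / 4) - G2 (3 / 4)) - 2 * (G2 (29 / 4) - G2 (17 / 4)) + 2 * G2 3 -
    (G2 (13 / 2) - 2 * G2 (7 / 2) + G2 (1 / 2)))

/-- the `p`-adic exponent sum over `6n/J < p ≤ 21n/5`, per `n^2` -/
def e0 (s h : ℕ) (J : ℕ) : ℝ :=
  -(9 / 2) * ((h : ℝ) - 2 * s) ^ 2 * Real.log J + (18 * (s : ℝ) ^ 2 + 9 / 2 * (h : ℝ) ^ 2) * (1 - 1 / J) +
    (9 * (h : ℝ) ^ 2 - 18 * s * h) * (Hn J - 1) - 9 / 4 * (h : ℝ) ^ 2 * (Hn (J - 1) + Hn J - 1) -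
    (-(9 / 2) * ((h : ℝ) - 2 * s) ^ 2 * Real.log (10 / 7) +
      9 / 5 * (3 * (s : ℝ) ^ 2 - 3 * s * h + 9 / 4 * (h : ℝ) ^ 2) - 459 / 200 * (h : ℝ) ^ 2)

/-! ### the residue classes with two poles, `4n < p ≤ 6n` -/

/-- the part of the linear form with the highest powers of `p` in the denominators that comes from the pole `-k`:
`∑_i binom(i-1+b, i-1) pa(k, i) p^(-i-b)`, as a function of `Q` -/
def lam (b h n p k : ℕ) (Q : ℚ[X]) : ℚ :=
  ∑ i ∈ Finset.Icc 1 h, ((Nat.choose (i - 1 + b) (i - 1) : ℕ) : ℚ) *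
    pa (sN n) (mu h) (PN h n * Q.comp (xp n)) k i / (p : ℚ) ^ (i + b)

/-- the sum over the nodes `-c`, `1 ≤ c ≤ n - 1` -/
def NS (b h n : ℕ) (Q : ℚ[X]) : ℚ :=
  ∑ c ∈ Finset.Icc 1 (n - 1), ∑ k ∈ Finset.range (b + 1), om b h n (-(c : ℚ)) k *
      (hasseDeriv k Q).eval (-(c : ℚ) * (-(c : ℚ) + ((8 * n : ℕ) : ℚ)))

/-- the local linear functional: the coefficient of `e^(h-1)` in `(G(1-e) - G(e)) (1-e)^(-(h+s))` -/
def Lam {F : Type*} [CommRing F] (h s : ℕ) (G : F[X]) : F :=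
  PowerSeries.coeff (h - 1) (((G.comp (1 - X) - G : F[X]) : PowerSeries F) *
    PowerSeries.mk fun i => ((Nat.choose (h + s - 1 + i) i : ℕ) : F))

end

end Pool.Agent.H15.V
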