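import Pool.Agent.H15.V.Stm

/-!
# Project WD: EPB, the primes `√(4n) < p ≤ 2n`
-/

set_option autoImplicit false

open Polynomial Pool.Agent.H337R2 Filter Topology

namespace Pool.Agent.H15.V

open Pool.Agent.N334.W (mu UInt nx vd MT cv wcl Dcl G2 Hn PS S_GB S_GR S_PN)

noncomputable section

namespace EPB_

/-! ### the involution of the residues -/

/-- the involution `r ↦ 4n - r` of the residues modulo `p` -/
def sg (n p r : ℕ) : ℕ := (8 * n - r) % p

lemma sg_lt {n p : ℕ} (hp : 0 < p) (r : ℕ) : sg n p r < p := Nat.mod_lt _ hp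

lemma sg_modEq (n p r : ℕ) : sg n p r ≡ 8 * n - r [MOD p] := Nat.mod_modEq _ _

lemma sub_congr {n p r k : ℕ} (hr : r ≤ 8 * n) (hk : k ≤ 8 * n) (h : r ≡ 8 * n - k [MOD p]) :
    8 * n - r ≡ k [MOD p] := by
  rw [← Int.natCast_modEq_iff] at h ⊢
  rw [Nat.cast_sub hk] at h
  rw [Nat.cast_sub hr]
  have h1 := (Int.ModEq.refl ((8 * n : ℕ) : ℤ) (n := (p : ℤ))).sub h
  have h2 : ((8 * n : ℕ) : ℤ) - (((8 * n : ℕ) : ℤ) - k) = k := by ring
  rwa [h2] at h1

lemma sg_sg {n p r : ℕ} (hp : 0 < p) (hpn : p ≤ 6 * n) (hr : r < p) : sg n p (sg n p r) = r := by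
  have h1 : 8 * n - sg n p r ≡ r [MOD p] :=
    sub_congr (by have := sg_lt (n := n) hp r; omega) (by omega) (sg_modEq n p r)
  have h2 : sg n p (sg n p r) % p = r % p := (sg_modEq n p (sg n p r)).trans h1
  rwa [Nat.mod_eq_of_lt (sg_lt hp _), Nat.mod_eq_of_lt hr] at h2

lemma fix_uniq {n p r r' : ℕ} (hp : p.Prime) (hp2 : p ≠ 2) (hpn : p ≤ 6 * n) (hr : r < p) (hr' : r' < p)
    (h : r = sg n p r) (h' : r' = sg n p r') : r = r' := by
  have key : ∀ x, x < p → x = sg n p x → (p : ℤ) ∣ 2 * x - 8 * n := by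
    intro x hx hx'
    have h1 := sg_modEq n p x
    rw [← hx', ← Int.natCast_modEq_iff, Nat.cast_sub (by omega)] at h1
    have h2 := h1.symm.dvd
    push_cast at h2
    have h3 : (x : ℤ) - (8 * n - x) = 2 * x - 8 * n := by ring
    rwa [h3] at h2
  have h1 := dvd_sub (key r hr h) (key r' hr' h')
  have h2 : (2 * (r : ℤ) - 8 * n) - (2 * r' - 8 * n) = 2 * ((r : ℤ) - r') := by ring
  rw [h2] at h1
  have hpI : Prime (p : ℤ) := Nat.prime_iff_prime_int.mp hp
  rcases hpI.dvd_or_dvd h1 with h3 | h3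
  · exfalso
    have h4 : p ∣ 2 := by exact_mod_cast h3
    exact hp2 ((Nat.prime_dvd_prime_iff_eq hp Nat.prime_two).mp h4)
  · have h5 : (r : ℤ) - r' = 0 := by
      apply Int.eq_zero_of_abs_lt_dvd h3
      rw [abs_lt]
      constructor <;> omega
    omega

lemma card_half {n p : ℕ} (hp : p.Prime) (hp2 : p ≠ 2) (hpn : p ≤ 6 * n) (S : Finset ℕ)
    (hS : ∀ r ∈ S, r < p ∧ sg n p r ∈ S) :
    2 * (S.filter (fun r => r ≤ sg n p r)).card ≤ S.card + 1 := by
  have hp0 := hp.pos
  have h1 : (S.filter (fun r => r ≤ sg n p r)).card = (S.filter (fun r => sg n p r ≤ r)).card := by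
    apply Finset.card_nbij' (fun r => sg n p r) (fun r => sg n p r)
    · intro r hr
      rw [Finset.coe_filter, Set.mem_ofPred_eq] at hr ⊢
      refine ⟨(hS r hr.1).2, ?_⟩
      rw [sg_sg hp0 hpn (hS r hr.1).1]
      exact hr.2
    · intro r hr
      rw [Finset.coe_filter, Set.mem_ofPred_eq] at hr ⊢
      refine ⟨(hS r hr.1).2, ?_⟩
      rw [sg_sg hp0 hpn (hS r hr.1).1]
      exact hr.2
    · intro r hr
      rw [Finset.coe_filter, Set.mem_ofPred_eq] at hr
      exact sg_sg hp0 hpn (hS r hr.1).1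
    · intro r hr
      rw [Finset.coe_filter, Set.mem_ofPred_eq] at hr
      exact sg_sg hp0 hpn (hS r hr.1).1
  have h2 := Finset.card_union_add_card_inter (S.filter (fun r => r ≤ sg n p r))
    (S.filter (fun r => sg n p r ≤ r))
  have h3 : (S.filter (fun r => r ≤ sg n p r) ∪ S.filter (fun r => sg n p r ≤ r)).card ≤ S.card := by
    apply Finset.card_le_card
    apply Finset.union_subset <;> exact Finset.filter_subset _ _
  have h4 : (S.filter (fun r => r ≤ sg n p r) ∩ S.filter (fun r => sg n p r ≤ r)).card ≤ 1 := by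
    rw [Finset.card_le_one]
    intro a ha b hb
    rw [Finset.mem_inter, Finset.mem_filter, Finset.mem_filter] at ha hb
    exact fix_uniq hp hp2 hpn (hS a ha.1.1).1 (hS b hb.1.1).1 (le_antisymm ha.1.2 ha.2.2)
      (le_antisymm hb.1.2 hb.2.2)
  omega

/-! ### the number of poles in a class -/

lemma Np_congr {n p k k' : ℕ} (h : k ≡ k' [MOD p]) : Np n p k = Np n p k' := by
  unfold Np
  congr 1
  apply Finset.filter_congr
  intro x _
  exact ⟨fun hx => hx.trans h, fun hx => hx.trans h.symm⟩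

lemma Np_refl {n p k : ℕ} (hk : k ≤ 8 * n) : Np n p (8 * n - k) = Np n p k := by
  unfold Np
  apply Finset.card_nbij' (fun x => 8 * n - x) (fun x => 8 * n - x)
  · intro x hx
    rw [Finset.coe_filter, Set.mem_ofPred_eq, Finset.mem_Icc] at hx ⊢
    have e1 : n ≤ 8 * n - x := by omega
    have e2 : 8 * n - x ≤ 7 * n := by omega
    exact ⟨⟨e1, e2⟩, sub_congr (by omega) hk hx.2⟩
  · intro x hx
    rw [Finset.coe_filter, Set.mem_ofPred_eq, Finset.mem_Icc] at hx ⊢
    have e1 : n ≤ 8 * n - x := by omega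
    have e2 : 8 * n - x ≤ 7 * n := by omega
    refine ⟨⟨e1, e2⟩, ?_⟩
    apply sub_congr (by omega) (by omega)
    have : 8 * n - (8 * n - k) = k := by omega
    rw [this]
    exact hx.2
  · intro x hx
    rw [Finset.coe_filter, Set.mem_ofPred_eq, Finset.mem_Icc] at hx
    show 8 * n - (8 * n - x) = x
    omega
  · intro x hx
    rw [Finset.coe_filter, Set.mem_ofPred_eq, Finset.mem_Icc] at hx
    show 8 * n - (8 * n - x) = x
    omega

lemma Np_sg {n p r : ℕ} (hr : r ≤ 8 * n) : Np n p (sg n p r) = Np n p r := by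
  rw [Np_congr (sg_modEq n p r), Np_refl hr]

lemma Np_cases {n p : ℕ} (hn : 1 ≤ n) (hp : 0 < p) (r : ℕ) :
    Np n p r = 6 * n / p ∨ Np n p r = 6 * n / p + 1 := by
  have hI : Finset.Icc n (7 * n) = Finset.Ioc (n - 1) (7 * n) := by
    ext x
    simp only [Finset.mem_Icc, Finset.mem_Ioc]
    omega
  have h := Nat.Ioc_filter_modEq_card (n - 1) (7 * n) (r := p) hp r
  have hp0 : (0 : ℚ) < p := by exact_mod_cast hp
  set x : ℚ := (((n - 1 : ℕ) : ℚ) - r) / p with hx
  set y : ℚ := ((6 * n + 1 : ℕ) : ℚ) / p with hy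
  have hxy : (((7 * n : ℕ) : ℚ) - r) / p = x + y := by
    rw [hx, hy, ← add_div]
    congr 1
    rw [Nat.cast_sub hn]
    push_cast
    ring
  rw [hxy] at h
  have hdiv := Nat.div_add_mod (6 * n) p
  have hmod := Nat.mod_lt (6 * n) hp
  have hy1 : ((6 * n / p : ℕ) : ℚ) ≤ y := by
    rw [hy, le_div_iff₀ hp0]
    have : 6 * n / p * p ≤ 6 * n + 1 := by
      have := Nat.div_mul_le_self (6 * n) p
      omega
    exact_mod_cast this
  have hy2 : y ≤ ((6 * n / p : ℕ) : ℚ) + 1 := by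
    rw [hy, div_le_iff₀ hp0]
    have : 6 * n + 1 ≤ (6 * n / p + 1) * p := by
      have h1 : (6 * n / p + 1) * p = p * (6 * n / p) + p := by ring
      omega
    exact_mod_cast this
  have f1 := Int.floor_le x
  have f2 := Int.lt_floor_add_one x
  have f3 := Int.floor_le (x + y)
  have f4 := Int.lt_floor_add_one (x + y)
  have g1 : ((6 * n / p : ℕ) : ℤ) < ⌊x + y⌋ - ⌊x⌋ + 1 := by
    generalize 6 * n / p = Q at hy1 hy2 ⊢
    rw [← Int.cast_lt (R := ℚ)]
    push_cast
    linarith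
  have g2 : ⌊x + y⌋ - ⌊x⌋ < ((6 * n / p : ℕ) : ℤ) + 2 := by
    generalize 6 * n / p = Q at hy1 hy2 ⊢
    rw [← Int.cast_lt (R := ℚ)]
    push_cast
    linarith
  have g3 : ((Np n p r : ℕ) : ℤ) = ⌊x + y⌋ - ⌊x⌋ := by
    unfold Np
    rw [hI, h]
    apply max_eq_left
    have h0 : (0 : ℤ) ≤ ((6 * n / p : ℕ) : ℤ) := Int.natCast_nonneg _
    linarith
  omega

lemma Np_sum {n p : ℕ} (hp : 0 < p) : ∑ r ∈ Finset.range p, Np n p r = 6 * n + 1 := by
  have h := Finset.card_eq_sum_card_fiberwise (s := Finset.Icc n (7 * n)) (t := Finset.range p)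
    (f := fun k => k % p) (by
      intro k _
      simp only [Finset.coe_range, Set.mem_Iio]
      exact Nat.mod_lt _ hp)
  rw [Nat.card_Icc] at h
  have h2 : ∀ r ∈ Finset.range p, Np n p r = ((Finset.Icc n (7 * n)).filter (fun k => k % p = r)).card := by
    intro r hr
    unfold Np
    congr 1
    apply Finset.filter_congr
    intro x _
    unfold Nat.ModEq
    rw [Nat.mod_eq_of_lt (Finset.mem_range.mp hr)]
  rw [Finset.sum_congr rfl h2, ← h]
  omega

lemma card_A {n p : ℕ} (hn : 1 ≤ n) (hp : 0 < p) :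
    ((Finset.range p).filter (fun r => Np n p r = 6 * n / p + 1)).card = 6 * n % p + 1 := by
  have h := Np_sum (n := n) hp
  have h2 : ∀ r ∈ Finset.range p, Np n p r = 6 * n / p + (if Np n p r = 6 * n / p + 1 then 1 else 0) := by
    intro r _
    rcases Np_cases hn hp r with h3 | h3
    · rw [if_neg (by omega)]; omega
    · rw [if_pos h3]; exact h3
  rw [Finset.sum_congr rfl h2, Finset.sum_add_distrib, Finset.sum_const, Finset.card_range,
    ← Finset.card_filter, smul_eq_mul] at h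
  have hdiv := Nat.div_add_mod (6 * n) p
  omega

lemma card_B {n p : ℕ} (hn : 1 ≤ n) (hp : 0 < p) :
    ((Finset.range p).filter (fun r => ¬ Np n p r = 6 * n / p + 1)).card + (6 * n % p + 1) = p := by
  have h := Finset.card_filter_add_card_filter_not (s := Finset.range p)
    (fun r => Np n p r = 6 * n / p + 1)
  rw [card_A hn hp, Finset.card_range] at h
  omega

/-! ### representatives -/

/-- representatives of the orbits -/
def Rps (n p : ℕ) : Finset ℕ := (Finset.range p).filter (fun r => r ≤ sg n p r)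

/-- the representative of `k` -/
def rp (n p k : ℕ) : ℕ := min (k % p) (sg n p (k % p))

lemma rp_mem {n p : ℕ} (hp : 0 < p) (hpn : p ≤ 6 * n) (k : ℕ) : rp n p k ∈ Rps n p := by
  have hk := Nat.mod_lt k hp
  have h1 := sg_lt (n := n) hp (k % p)
  unfold Rps rp
  rw [Finset.mem_filter, Finset.mem_range]
  rcases le_total (k % p) (sg n p (k % p)) with h | h
  · rw [min_eq_left h]
    exact ⟨hk, h⟩
  · rw [min_eq_right h, sg_sg hp hpn hk]
    exact ⟨h1, h⟩

lemma rp_cases {n p : ℕ} (hp : 0 < p) (hpn : p ≤ 6 * n) (k : ℕ) :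
    (rp n p k ≡ k [MOD p] ∨ 8 * n - rp n p k ≡ k [MOD p]) ∧ Np n p (rp n p k) = Np n p k := by
  have hk := Nat.mod_lt k hp
  have h1 := sg_lt (n := n) hp (k % p)
  unfold rp
  rcases le_total (k % p) (sg n p (k % p)) with h | h
  · rw [min_eq_left h]
    exact ⟨Or.inl (Nat.mod_modEq k p), Np_congr (Nat.mod_modEq k p)⟩
  · rw [min_eq_right h]
    refine ⟨Or.inr ?_, ?_⟩
    · exact (sub_congr (by omega) (by omega) (sg_modEq n p (k % p))).trans (Nat.mod_modEq k p)
    · rw [Np_sg (by omega)]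
      exact Np_congr (Nat.mod_modEq k p)

lemma card_RepA {n p : ℕ} (hn : 1 ≤ n) (hp : p.Prime) (hp2 : p ≠ 2) (hpn : p ≤ 6 * n) :
    2 * ((Rps n p).filter (fun r => Np n p r = 6 * n / p + 1)).card ≤ 6 * n % p + 2 := by
  have h := card_half hp hp2 hpn ((Finset.range p).filter (fun r => Np n p r = 6 * n / p + 1)) (by
    intro r hr
    rw [Finset.mem_filter, Finset.mem_range] at hr ⊢
    exact ⟨hr.1, sg_lt hp.pos r, by rw [Np_sg (by omega)]; exact hr.2⟩)
  rw [card_A hn hp.pos, Finset.filter_comm] at h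
  exact h

lemma card_RepB {n p : ℕ} (hn : 1 ≤ n) (hp : p.Prime) (hp2 : p ≠ 2) (hpn : p ≤ 6 * n) :
    2 * ((Rps n p).filter (fun r => ¬ Np n p r = 6 * n / p + 1)).card + 6 * n % p ≤ p := by
  have h := card_half hp hp2 hpn ((Finset.range p).filter (fun r => ¬ Np n p r = 6 * n / p + 1)) (by
    intro r hr
    rw [Finset.mem_filter, Finset.mem_range] at hr ⊢
    exact ⟨hr.1, sg_lt hp.pos r, by rw [Np_sg (by omega)]; exact hr.2⟩)
  rw [Finset.filter_comm] at h
  have h2 := card_B hn hp.pos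
  unfold Rps
  omega

/-! ### the sum over the representatives -/

lemma sum_Rep {n p : ℕ} (hn : 1 ≤ n) (hp : p.Prime) (hp2 : p ≠ 2) (hpn : p ≤ 6 * n) (U h : ℝ) :
    ∑ r ∈ Rps n p, (U + h * ((Np n p r : ℝ) - ((6 * n / p : ℕ) : ℝ))) ^ 2 / 4 ≤
      (((6 * n % p : ℕ) : ℝ) + 2) / 2 * ((U + h) ^ 2 / 4) +
        ((p : ℝ) - ((6 * n % p : ℕ) : ℝ)) / 2 * (U ^ 2 / 4) := by
  rw [← Finset.sum_filter_add_sum_filter_not (Rps n p) (fun r => Np n p r = 6 * n / p + 1)]
  have e1 : ∑ r ∈ (Rps n p).filter (fun r => Np n p r = 6 * n / p + 1),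
      (U + h * ((Np n p r : ℝ) - ((6 * n / p : ℕ) : ℝ))) ^ 2 / 4 =
      (((Rps n p).filter (fun r => Np n p r = 6 * n / p + 1)).card : ℝ) * ((U + h) ^ 2 / 4) := by
    rw [← nsmul_eq_mul, ← Finset.sum_const]
    apply Finset.sum_congr rfl
    intro r hr
    rw [Finset.mem_filter] at hr
    rw [hr.2]
    push_cast
    ring
  have e2 : ∑ r ∈ (Rps n p).filter (fun r => ¬ Np n p r = 6 * n / p + 1),
      (U + h * ((Np n p r : ℝ) - ((6 * n / p : ℕ) : ℝ))) ^ 2 / 4 =
      (((Rps n p).filter (fun r => ¬ Np n p r = 6 * n / p + 1)).card : ℝ) * (U ^ 2 / 4) := by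
    rw [← nsmul_eq_mul, ← Finset.sum_const]
    apply Finset.sum_congr rfl
    intro r hr
    rw [Finset.mem_filter] at hr
    have h3 : Np n p r = 6 * n / p := by
      rcases Np_cases hn hp.pos r with h | h
      · exact h
      · exact absurd h hr.2
    rw [h3]
    ring
  rw [e1, e2]
  have c1 : (2 : ℝ) * (((Rps n p).filter (fun r => Np n p r = 6 * n / p + 1)).card : ℝ) ≤
      ((6 * n % p : ℕ) : ℝ) + 2 := by exact_mod_cast card_RepA hn hp hp2 hpn
  have c2 : (2 : ℝ) * (((Rps n p).filter (fun r => ¬ Np n p r = 6 * n / p + 1)).card : ℝ) +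
      ((6 * n % p : ℕ) : ℝ) ≤ p := by exact_mod_cast card_RepB hn hp hp2 hpn
  apply add_le_add
  · apply mul_le_mul_of_nonneg_right _ (by positivity)
    linarith
  · apply mul_le_mul_of_nonneg_right _ (by positivity)
    linarith

lemma final_ineq (m p r0 h s : ℝ) (hm : 0 ≤ m) (hp : 0 < p) (hr : 0 ≤ r0) (hrp : r0 ≤ p) (hh : 0 ≤ h) :
    -((4 * m / p - h * r0 / p - s) * m) +
      ((r0 + 2) / 2 * (((4 * m / p - h * r0 / p) + h) ^ 2 / 4) +
        (p - r0) / 2 * ((4 * m / p - h * r0 / p) ^ 2 / 4)) ≤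
    -2 * m ^ 2 / p + (s + h * r0 / p) * m + h ^ 2 * (r0 / p) * (1 - r0 / p) * p / 8 +
      (4 * m / p + h) ^ 2 / 4 := by
  have h1 : 0 ≤ 4 * m / p - h * r0 / p + h := by
    have h2 : h * r0 / p ≤ h := by
      rw [div_le_iff₀ hp]
      exact mul_le_mul_of_nonneg_left hrp hh
    have h3 : 0 ≤ 4 * m / p := by positivity
    linarith
  have h2 : 4 * m / p - h * r0 / p + h ≤ 4 * m / p + h := by
    have : 0 ≤ h * r0 / p := by positivity
    linarith
  have h3 : (4 * m / p - h * r0 / p + h) ^ 2 ≤ (4 * m / p + h) ^ 2 := pow_le_pow_left₀ h1 h2 2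
  have h4 : -((4 * m / p - h * r0 / p - s) * m) +
      ((r0 + 2) / 2 * (((4 * m / p - h * r0 / p) + h) ^ 2 / 4) +
        (p - r0) / 2 * ((4 * m / p - h * r0 / p) ^ 2 / 4)) =
      -2 * m ^ 2 / p + (s + h * r0 / p) * m + h ^ 2 * (r0 / p) * (1 - r0 / p) * p / 8 +
      (4 * m / p - h * r0 / p + h) ^ 2 / 4 := by
    field_simp
    ring
  rw [h4]
  linarith

/-! ### the exponents -/

/-- the product of two products of node polynomials -/
lemma prod_split (n i j : ℕ) (rr : ℕ → ℕ) :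
    (∏ l ∈ Finset.range i, XN n (rr l)) * (∏ l ∈ Finset.range j, XN n (rr l)) =
      ∏ l ∈ Finset.range (i + j), XN n (if l < i then rr l else rr (l - i)) := by
  rw [Finset.prod_range_add]
  congr 1
  · apply Finset.prod_congr rfl
    intro l hl
    rw [if_pos (Finset.mem_range.mp hl)]
  · apply Finset.prod_congr rfl
    intro l _
    rw [if_neg (by omega), Nat.add_sub_cancel_left]

lemma count_split (i j : ℕ) (rr : ℕ → ℕ) (P : ℕ → Prop) [DecidablePred P] :
    ((Finset.range (i + j)).filter fun l => P (if l < i then rr l else rr (l - i))).card =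
      ((Finset.range i).filter fun l => P (rr l)).card + ((Finset.range j).filter fun l => P (rr l)).card := by
  rw [Finset.card_filter, Finset.card_filter, Finset.card_filter, Finset.sum_range_add]
  congr 1
  · apply Finset.sum_congr rfl
    intro l hl
    rw [if_pos (Finset.mem_range.mp hl)]
  · apply Finset.sum_congr rfl
    intro l _
    rw [if_neg (show ¬ (i + l < i) by omega), Nat.add_sub_cancel_left]

end EPB_

open EPB_ in
theorem EPB_of (hCBD : S_CBD) (hGR : S_GR) (hGB : S_GB) : S_EPB := by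
  intro b h n q p u hn hp h4n hpn hu
  have hp0 := hp.pos
  have hp2 : p ≠ 2 := by rintro rfl; omega
  have hpR : (0 : ℝ) < p := by exact_mod_cast hp0
  have hp1R : (1 : ℝ) < p := by exact_mod_cast hp.one_lt
  -- representatives
  obtain ⟨M, hM⟩ : ∃ M, (Rps n p).card = M + 1 := by
    have : 0 < (Rps n p).card := Finset.card_pos.mpr ⟨_, rp_mem hp0 hpn 0⟩
    exact ⟨(Rps n p).card - 1, by omega⟩
  let φ : Fin (M + 1) ≃ {x // x ∈ Rps n p} := ((Rps n p).equivFinOfCardEq hM).symm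
  let e : Fin (M + 1) → ℤ := fun a =>
    -(h : ℤ) * ((Np n p (φ a).1 : ℤ) - ((6 * n / p : ℕ) : ℤ)) - b
  obtain ⟨c, w, hw1, hw2⟩ := hGR M e
  let rr : ℕ → ℕ := fun l => (φ (c l)).1
  have hrr : ∀ l, rr l ∈ Rps n p := fun l => (φ (c l)).2
  have hrr4 : ∀ l, rr l ≤ 8 * n := by
    intro l
    have := hrr l
    unfold Rps at this
    rw [Finset.mem_filter, Finset.mem_range] at this
    omega
  let B : ℕ → ℚ[X] := fun i => ∏ l ∈ Finset.range i, XN n (rr l)
  have hXN : ∀ r, (XN n r).Monic ∧ (XN n r).natDegree = 1 := by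
    intro r
    unfold XN
    exact ⟨monic_X_add_C _, natDegree_X_add_C _⟩
  have hB : ∀ i, (B i).Monic ∧ (B i).natDegree = i := by
    intro i
    refine ⟨monic_prod_of_monic _ _ (fun l _ => (hXN _).1), ?_⟩
    show (∏ l ∈ Finset.range i, XN n (rr l)).natDegree = i
    rw [natDegree_prod_of_monic _ _ (fun l _ => (hXN _).1), Finset.sum_congr rfl (fun l _ => (hXN (rr l)).2)]
    simp
  let L : ℚ[X] →ₗ[ℚ] ℚ := (q : ℚ) • NL b h n u
  have hL : ∀ P, L P = (q : ℚ) * NL b h n u P := fun P => rfl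
  let ρ : ℕ → ℝ := fun i => (p : ℝ) ^ (-(w i : ℝ) / 2)
  have hρ : ∀ i, 0 ≤ ρ i := fun i => Real.rpow_nonneg hpR.le _
  set m := (b + 1) * (3 * n - 1) with hm
  have hBB : ∀ i j, i < m → j < m → ((padicNorm p (L (B i * B j)) : ℚ) : ℝ) ≤ ρ i * ρ j := by
    intro i j _ _
    have h1 := hCBD b h n q p (i + j) u (fun l => if l < i then rr l else rr (l - i)) (-(w i + w j) / 2)
      hn hp h4n hu (by intro l; split_ifs <;> exact hrr4 _) (by
        intro k _
        rw [Int.le_ediv_iff_mul_le (by norm_num)]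
        rw [count_split i j rr (fun x => x ≡ k [MOD p] ∨ 8 * n - x ≡ k [MOD p])]
        -- the index of the orbit of `k`
        let a : Fin (M + 1) := φ.symm ⟨rp n p k, rp_mem hp0 hpn k⟩
        have ha : (φ a).1 = rp n p k := by simp [a]
        obtain ⟨hr1, hr2⟩ := rp_cases hp0 hpn k
        have hcnt : ∀ i, ((Finset.range i).filter fun l => c l = a).card ≤
            ((Finset.range i).filter fun l => rr l ≡ k [MOD p] ∨ 8 * n - rr l ≡ k [MOD p]).card := by
          intro i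
          apply Finset.card_le_card
          intro l hl
          rw [Finset.mem_filter] at hl ⊢
          refine ⟨hl.1, ?_⟩
          have h3 : rr l = rp n p k := by
            show (φ (c l)).1 = rp n p k
            rw [hl.2, ha]
          rw [h3]
          exact hr1
        have g1 := hw1 i a
        have g2 := hw1 j a
        have g3 : e a = -(h : ℤ) * ((Np n p k : ℤ) - ((6 * n / p : ℕ) : ℤ)) - b := by
          show -(h : ℤ) * ((Np n p (φ a).1 : ℤ) - ((6 * n / p : ℕ) : ℤ)) - b = _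
          rw [ha, hr2]
        have g4 : (((Finset.range i).filter fun l => c l = a).card : ℤ) ≤
            (((Finset.range i).filter fun l => rr l ≡ k [MOD p] ∨ 8 * n - rr l ≡ k [MOD p]).card : ℤ) := by
          exact_mod_cast hcnt i
        have g5 : (((Finset.range j).filter fun l => c l = a).card : ℤ) ≤
            (((Finset.range j).filter fun l => rr l ≡ k [MOD p] ∨ 8 * n - rr l ≡ k [MOD p]).card : ℤ) := by
          exact_mod_cast hcnt j
        rw [g3] at g1 g2
        push_cast at g1 g2 g4 g5 ⊢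
        linarith)
    have h2 : (q : ℚ) * NL b h n u (∏ l ∈ Finset.range (i + j), XN n (if l < i then rr l else rr (l - i))) =
        L (B i * B j) := by
      rw [hL]
      show _ = (q : ℚ) * NL b h n u ((∏ l ∈ Finset.range i, XN n (rr l)) * (∏ l ∈ Finset.range j, XN n (rr l)))
      rw [prod_split]
    rw [h2] at h1
    have h3 : ((padicNorm p (L (B i * B j)) : ℚ) : ℝ) ≤ (((p : ℚ) ^ (-(w i + w j) / 2) : ℚ) : ℝ) := by
      exact_mod_cast h1
    refine h3.trans ?_
    show (((p : ℚ) ^ (-(w i + w j) / 2) : ℚ) : ℝ) ≤ (p : ℝ) ^ (-(w i : ℝ) / 2) * (p : ℝ) ^ (-(w j : ℝ) / 2)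
    rw [← Real.rpow_add hpR]
    push_cast
    rw [← Real.rpow_intCast]
    apply Real.rpow_le_rpow_of_exponent_le hp1R.le
    have h4 : ((-(w i + w j) / 2 : ℤ) : ℝ) * 2 ≤ ((-(w i + w j) : ℤ) : ℝ) := by
      have := Int.ediv_mul_le (-(w i + w j)) (show (2 : ℤ) ≠ 0 by norm_num)
      exact_mod_cast this
    push_cast at h4
    linarith
  have hdet := hGB p hp L m B ρ hB hρ hBB
  have hdet2 : (Matrix.of fun i j : Fin m => L (X ^ (i.1 + j.1))).det =
      (q : ℚ) ^ m * DET b h n u m := by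
    have : (Matrix.of fun i j : Fin m => L (X ^ (i.1 + j.1))) =
        (q : ℚ) • (Matrix.of fun i j : Fin m => NL b h n u (X ^ (i.1 + j.1))) := by
      ext i j
      rfl
    rw [this, Matrix.det_smul, Fintype.card_fin]
    rfl
  rw [hdet2] at hdet
  refine hdet.trans ?_
  -- the product
  have hprod : ∏ i ∈ Finset.range m, ρ i ^ 2 = (p : ℝ) ^ (-∑ i ∈ Finset.range m, (w i : ℝ)) := by
    rw [← Finset.sum_neg_distrib, Real.rpow_sum_of_pos hpR]
    apply Finset.prod_congr rfl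
    intro i _
    show ((p : ℝ) ^ (-(w i : ℝ) / 2)) ^ 2 = _
    rw [← Real.rpow_natCast, ← Real.rpow_mul hpR.le]
    congr 1
    push_cast
    ring
  rw [hprod]
  apply Real.rpow_le_rpow_of_exponent_le hp1R.le
  -- the exponent
  set U : ℝ := 4 * (m : ℝ) / p - h * ((6 * n % p : ℕ) : ℝ) / p with hU
  have h5 := hw2 m (U - ((b : ℝ) + 1))
  have h6 : ∑ a, ((U - ((b : ℝ) + 1)) - e a + 1) ^ 2 / 4 =
      ∑ r ∈ Rps n p, (U + h * ((Np n p r : ℝ) - ((6 * n / p : ℕ) : ℝ))) ^ 2 / 4 := by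
    rw [← Finset.sum_coe_sort (Rps n p), ← Equiv.sum_comp φ]
    apply Finset.sum_congr rfl
    intro a _
    have : ((e a : ℤ) : ℝ) = -(h : ℝ) * ((Np n p (φ a).1 : ℝ) - ((6 * n / p : ℕ) : ℝ)) - b := by
      show (((-(h : ℤ) * ((Np n p (φ a).1 : ℤ) - ((6 * n / p : ℕ) : ℤ)) - b : ℤ)) : ℝ) = _
      rw [Int.cast_sub, Int.cast_mul, Int.cast_sub, Int.cast_neg, Int.cast_natCast, Int.cast_natCast,
        Int.cast_natCast, Int.cast_natCast]
    rw [this]
    congr 1
    ring
  rw [h6] at h5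
  have h7 := sum_Rep hn hp hp2 hpn U h
  have hmod := Nat.mod_lt (6 * n) hp0
  have h8 := final_ineq (m : ℝ) p ((6 * n % p : ℕ) : ℝ) h ((b : ℝ) + 1) (Nat.cast_nonneg _) hpR
    (Nat.cast_nonneg _) (by exact_mod_cast hmod.le) (Nat.cast_nonneg _)
  rw [← hU] at h8
  unfold EP
  rw [← hm]
  linarith

end

end Pool.Agent.H15.V
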