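import Pool.Agent.H15.V.Stm
import Pool.Graph.R_pool_sql_team_seeded_63374d34.N334.W.Fin
import Pool.Graph.R_pool_sql_team_seeded_63374d34.N334.W.SE

/-! Assembly of the windows theorem. -/

open Polynomial Pool.Agent.H337R2 Filter Topology

namespace Pool.Agent.H15.V

open Pool.Agent.N334.W (UInt PS mem_PSf)

noncomputable section

/-- the local factors -/
def Bs (b h n p : ℕ) : ℝ :=
  (((p : ℝ) ^ Nat.log p (2 * ((b + 1) * (3 * n - 1)) + 8 * n)) ^ ((h + b) * ((b + 1) * (3 * n - 1))) *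
      ∏ i ∈ Finset.range ((b + 1) * (3 * n - 1)),
        ((padicNorm p (((2 * i - 1).factorial : ℕ) : ℚ) : ℚ) : ℝ) ^ 2)

def Bf (b h n J p : ℕ) : ℝ := by
  classical exact
    if (p : ℝ) ≤ 6 / J * n then Bs b h n p else if (p : ℝ) ≤ 21 / 5 * n then (p : ℝ) ^ EP b h n p else
      if (p : ℝ) ≤ 6 * n then (p : ℝ) ^ EN b h n p else
      (p : ℝ) ^ (((h * (b + 1) * (7 * n - p) : ℕ) : ℝ))

lemma Bs_pos (b h n p : ℕ) (hp : p.Prime) : 0 < Bs b h n p := by
  have : Fact p.Prime := ⟨hp⟩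
  have hp0 : (0 : ℝ) < p := by exact_mod_cast hp.pos
  unfold Bs
  apply mul_pos (by positivity)
  apply Finset.prod_pos
  intro i _
  apply pow_pos
  have : 0 < padicNorm p (((2 * i - 1).factorial : ℕ) : ℚ) :=
    lt_of_le_of_ne (padicNorm.nonneg _) (Ne.symm (padicNorm.nonzero (by exact_mod_cast Nat.factorial_ne_zero _)))
  exact_mod_cast this

lemma Bf_pos (b h n J p : ℕ) (hp : p.Prime) : 0 < Bf b h n J p := by
  have hp0 : (0 : ℝ) < p := by exact_mod_cast hp.pos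
  unfold Bf
  split_ifs
  · exact Bs_pos b h n p hp
  · exact Real.rpow_pos_of_pos hp0 _
  · exact zpow_pos hp0 _
  · exact Real.rpow_pos_of_pos hp0 _

lemma prod_log_Bf (b h n J : ℕ) (hJ : 2 ≤ J) (hn : 1 ≤ n) :
    Real.log (∏ p ∈ PS 0 7 n, Bf b h n J p) =
      ∑ p ∈ PS 0 (6 / J) n, Real.log (Bs b h n p) +
      ∑ p ∈ PS (6 / J) (21 / 5) n, EP b h n p * Real.log p +
      ∑ p ∈ PS (21 / 5) 6 n, (EN b h n p : ℝ) * Real.log p +
      ∑ p ∈ PS 6 7 n, ((h * (b + 1) * (7 * n - p) : ℕ) : ℝ) * Real.log p := by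
  classical
  have hJ0 : (2 : ℝ) ≤ J := by exact_mod_cast hJ
  have hn0 : (0 : ℝ) < n := by exact_mod_cast hn
  have hJ2 : (6 : ℝ) / J ≤ 21 / 5 := by
    rw [div_le_iff₀ (by linarith)]
    linarith
  have hJ3 : (0 : ℝ) < 6 / J := by positivity
  rw [Real.log_prod (fun p hp => (Bf_pos b h n J p ((mem_PSf (by norm_num)).1 hp).1).ne')]
  rw [Pool.Agent.N334.W.PS_split le_rfl (show (0 : ℝ) ≤ 6 by norm_num) (show (6 : ℝ) ≤ 7 by norm_num),
    Pool.Agent.N334.W.PS_split le_rfl (show (0 : ℝ) ≤ 21 / 5 by norm_num) (show (21 / 5 : ℝ) ≤ 6 by norm_num),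
    Pool.Agent.N334.W.PS_split le_rfl hJ3.le hJ2]
  have hJn : (6 : ℝ) / J * n ≤ 21 / 5 * n := mul_le_mul_of_nonneg_right hJ2 hn0.le
  congr 1
  · congr 1
    · congr 1
      · apply Finset.sum_congr rfl
        intro p hp
        rw [mem_PSf hJ3.le] at hp
        unfold Bf
        rw [if_pos hp.2.2]
      · apply Finset.sum_congr rfl
        intro p hp
        rw [mem_PSf (by norm_num)] at hp
        unfold Bf
        rw [if_neg (not_le.2 hp.2.1), if_pos hp.2.2, Real.log_rpow (by exact_mod_cast hp.1.pos)]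
    · apply Finset.sum_congr rfl
      intro p hp
      rw [mem_PSf (by norm_num)] at hp
      unfold Bf
      rw [if_neg (by linarith [hp.2.1]), if_neg (not_le.2 hp.2.1), if_pos hp.2.2, Real.log_zpow]
  · apply Finset.sum_congr rfl
    intro p hp
    rw [mem_PSf (by norm_num)] at hp
    unfold Bf
    rw [if_neg (by nlinarith [hp.2.1]), if_neg (by nlinarith [hp.2.1]), if_neg (not_le.2 hp.2.1),
      Real.log_rpow (by exact_mod_cast hp.1.pos)]

lemma prod_formula (hLP : S_LP) (hNOD : S_NOD) (hEPB : S_EPB) (hSM : S_SM) (b h n q J : ℕ) (u : ℕ → ℚ)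
    (hb : Even b) (heh : Even h)
    (hh : 2 * (b + 1) ≤ h) (hn : 1 ≤ n) (hJ : 2 ≤ J) (hJn : J ^ 2 < n) (hu : UInt q u)
    (hne : DET b h n u ((b + 1) * (3 * n - 1)) ≠ 0) :
    0 ≤ ((b + 1) * (3 * n - 1) : ℕ) * Real.log q +
      Real.log |((DET b h n u ((b + 1) * (3 * n - 1)) : ℚ) : ℝ)| +
      Real.log (∏ p ∈ PS 0 7 n, Bf b h n J p) := by
  classical
  have hJ0 : (0 : ℝ) < J := by exact_mod_cast (by omega : 0 < J)
  have hn0 : (0 : ℝ) < n := by exact_mod_cast hn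
  have hq0 : (0 : ℝ) < q := by exact_mod_cast hu.1
  have hq1 : (q : ℚ) ≠ 0 := by exact_mod_cast hu.1.ne'
  have hz : (q : ℚ) ^ ((b + 1) * (3 * n - 1)) * DET b h n u ((b + 1) * (3 * n - 1)) ≠ 0 :=
    mul_ne_zero (pow_ne_zero _ hq1) hne
  have key := H336R2.HD.A5_prod_formula ((q : ℚ) ^ ((b + 1) * (3 * n - 1)) *
    DET b h n u ((b + 1) * (3 * n - 1))) hz
    (PS 0 7 n) (fun p hp => ((mem_PSf (by norm_num)).1 hp).1) (Bf b h n J) (by
      intro p hp
      rw [mem_PSf (by norm_num)] at hp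
      unfold Bf
      split_ifs with h1 h2 h2b
      · have h3 := hSM b h n q p (Nat.log p (2 * ((b + 1) * (3 * n - 1)) + 8 * n)) u hn hp.1
          (Nat.lt_pow_succ_log_self hp.1.one_lt _) hu
        have h4 : ((padicNorm p ((q : ℚ) ^ ((b + 1) * (3 * n - 1)) *
            DET b h n u ((b + 1) * (3 * n - 1))) : ℚ) : ℝ) ≤
          ((((p : ℚ) ^ Nat.log p (2 * ((b + 1) * (3 * n - 1)) + 8 * n)) ^
              ((h + b) * ((b + 1) * (3 * n - 1))) *
            ∏ i ∈ Finset.range ((b + 1) * (3 * n - 1)),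
              padicNorm p (((2 * i - 1).factorial : ℕ) : ℚ) ^ 2 : ℚ) : ℝ) := by
          exact_mod_cast h3
        refine h4.trans (le_of_eq ?_)
        unfold Bs
        push_cast
        rfl
      · apply hEPB b h n q p u hn hp.1 _ _ hu
        · have h3 : 6 / (J : ℝ) * n < p := not_le.1 h1
          have h4 : (8 : ℝ) * n < (p : ℝ) ^ 2 := by
            have h5 : (6 / (J : ℝ) * n) ^ 2 < (p : ℝ) ^ 2 := pow_lt_pow_left₀ h3 (by positivity) (by norm_num)
            have h6 : ((J : ℝ)) ^ 2 < n := by exact_mod_cast hJn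
            have h7 : (8 : ℝ) * n < (6 / (J : ℝ) * n) ^ 2 := by
              have : (6 / (J : ℝ) * n) ^ 2 = 36 * n * (n / (J : ℝ) ^ 2) := by
                field_simp
                ring
              rw [this]
              have h8 : (1 : ℝ) < n / (J : ℝ) ^ 2 := by
                rw [lt_div_iff₀ (by positivity)]
                linarith
              have h9 : (0 : ℝ) < 36 * n := by positivity
              nlinarith
            linarith
          exact_mod_cast h4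
        · have h3 : (p : ℝ) ≤ 6 * n := by nlinarith
          exact_mod_cast h3
      · have h3 : 4 * n < p := by
          have h4 : (4 : ℝ) * n < p := by nlinarith [not_le.1 h2]
          exact_mod_cast h4
        have h5 := hNOD b h n q p u hb heh hh hn hp.1 h3 (by exact_mod_cast h2b) hu
        have h6 : ((padicNorm p ((q : ℚ) ^ ((b + 1) * (3 * n - 1)) *
            DET b h n u ((b + 1) * (3 * n - 1))) : ℚ) : ℝ) ≤
          (((p : ℚ) ^ EN b h n p : ℚ) : ℝ) := by exact_mod_cast h5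
        refine h6.trans (le_of_eq ?_)
        push_cast
        rfl
      · have h3 := hLP b h n q p u hb hh hn hp.1 (by exact_mod_cast not_le.1 h2b) hu
        have h4 : ((padicNorm p ((q : ℚ) ^ ((b + 1) * (3 * n - 1)) *
            DET b h n u ((b + 1) * (3 * n - 1))) : ℚ) : ℝ) ≤
          (((p : ℚ) ^ (h * (b + 1) * (7 * n - p)) : ℚ) : ℝ) := by exact_mod_cast h3
        refine h4.trans (le_of_eq ?_)
        rw [Real.rpow_natCast]
        push_cast
        rfl) (by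
      intro p hp hp2
      rw [mem_PSf (by norm_num)] at hp2
      have h1 : 7 * n < p := by
        by_contra h2
        apply hp2
        have h3 : p ≤ 7 * n := not_lt.1 h2
        refine ⟨hp, ?_, by exact_mod_cast h3⟩
        rw [zero_mul]
        exact_mod_cast hp.pos
      have h3 := hLP b h n q p u hb hh hn hp (by omega) hu
      rw [show 7 * n - p = 0 by omega, mul_zero, pow_zero] at h3
      exact h3)
  have hpos : 0 < ∏ p ∈ PS 0 7 n, Bf b h n J p :=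
    Finset.prod_pos fun p hp => Bf_pos b h n J p ((mem_PSf (by norm_num)).1 hp).1
  have hne' : ((DET b h n u ((b + 1) * (3 * n - 1)) : ℚ) : ℝ) ≠ 0 := by exact_mod_cast hne
  have h1 := Real.log_nonneg key
  rw [Rat.cast_mul, Rat.cast_pow, Rat.cast_natCast, abs_mul, abs_of_pos (pow_pos hq0 _), Real.log_mul, Real.log_mul,
    Real.log_pow] at h1
  · exact h1
  · exact (pow_pos hq0 _).ne'
  · exact abs_ne_zero.2 hne'
  · exact mul_ne_zero (pow_pos hq0 _).ne' (abs_ne_zero.2 hne')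
  · exact hpos.ne'

theorem main_of (hAR : S_AR) (hNV : S_NV) (hLP : S_LP) (hNOD : S_NOD) (hEPB : S_EPB) (hSM : S_SM) (hSE : S_SE)
    (hSN : S_SN) (hSL : S_SL)
    (hSS : S_SS) (hNUM : S_NUM) (b h : ℕ) (hb : Even b) (hb2 : 2 ≤ b) (hh : Even h) (h11 : 11 * (b + 1) ≤ 5 * h)
    (h12 : 5 * h ≤ 12 * (b + 1)) : ∃ e, Odd e ∧ b + 3 ≤ e ∧ e < b + h ∧ Irrational (zr e) := by
  classical
  by_contra hcon
  push Not at hcon
  have hr : ∀ e, Odd e → b + 3 ≤ e → e < b + h → ∃ r : ℚ, (r : ℝ) = zr e := by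
    intro e h1 h2 h3
    have h4 := hcon e h1 h2 h3
    unfold Irrational at h4
    rw [not_not] at h4
    obtain ⟨r, hr⟩ := h4
    exact ⟨r, hr⟩
  -- the rational numbers
  obtain ⟨u, hu, hu0⟩ : ∃ u : ℕ → ℚ, (∀ e, Odd e → b + 3 ≤ e → e < b + h → ((u e : ℚ) : ℝ) = zr e) ∧
      ∀ e, b + h ≤ e → u e = 0 := by
    refine ⟨fun e => if hc : Odd e ∧ b + 3 ≤ e ∧ e < b + h then (hr e hc.1 hc.2.1 hc.2.2).choose else 0, ?_, ?_⟩
    · intro e h1 h2 h3
      have hc : Odd e ∧ b + 3 ≤ e ∧ e < b + h := ⟨h1, h2, h3⟩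
      simp only [dif_pos hc]
      exact (hr e hc.1 hc.2.1 hc.2.2).choose_spec
    · intro e he
      have : ¬ (Odd e ∧ b + 3 ≤ e ∧ e < b + h) := by
        rintro ⟨_, _, h3⟩
        omega
      simp only [dif_neg this]
  obtain ⟨q, hq⟩ : ∃ q : ℕ, UInt q u := by
    refine ⟨∏ e ∈ Finset.range (b + h), (u e).den, Finset.prod_pos fun e _ => (u e).den_pos, ?_⟩
    intro e
    by_cases he : e < b + h
    · refine ⟨(∏ e' ∈ (Finset.range (b + h)).erase e, ((u e').den : ℤ)) * (u e).num, ?_⟩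
      rw [← Finset.mul_prod_erase (Finset.range (b + h)) (fun e => (u e).den) (Finset.mem_range.2 he)]
      push_cast
      have h1 : ((u e).den : ℚ) * u e = (u e).num := by
        rw [mul_comm]
        exact Rat.mul_den_eq_num (u e)
      calc ((u e).den : ℚ) * (∏ x ∈ (Finset.range (b + h)).erase e, ((u x).den : ℚ)) * u e
          = (∏ x ∈ (Finset.range (b + h)).erase e, ((u x).den : ℚ)) * (((u e).den : ℚ) * u e) := by ring
        _ = _ := by rw [h1]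
    · exact ⟨0, by rw [hu0 e (not_lt.1 he)]; simp⟩
  obtain ⟨C, hC⟩ := hSS b h
  obtain ⟨J, hJ, hT⟩ := hNUM (b + 1) h C (by omega) h11 h12
  obtain ⟨s, hs⟩ : ∃ s : ℝ, s = (b : ℝ) + 1 := ⟨_, rfl⟩
  have hs2 : ((b + 1 : ℕ) : ℝ) = s := by rw [hs]; push_cast; ring
  rw [hs2] at hT
  obtain ⟨δ, hδ⟩ : ∃ δ : ℝ, δ = -(s ^ 2 * a1 - s * (5 * h - 11 * s) / 5 * (861 / 100) -
    18 * s ^ 2 * Real.log 6 + 18 * s ^ 2 * Real.log J +
    18 * s ^ 2 * Real.eulerMascheroniConstant + C / J + e0 (b + 1) h J +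
    (-(18 / 5) * s * h + 81 / 400 * (2 * (h : ℝ) + s) ^ 2) + h * s / 2) / 7 := ⟨_, rfl⟩
  have hδ0 : 0 < δ := by rw [hδ]; linarith
  have hs1 : 1 ≤ s := by rw [hs]; linarith [(Nat.cast_nonneg b : (0 : ℝ) ≤ b)]
  -- the sequence
  obtain ⟨g, hg⟩ : ∃ g : ℕ, h = (b + 1) + g := ⟨h - (b + 1), by omega⟩
  have hg1 : 1 ≤ g := by omega
  have t4 : Tendsto (fun ν : ℕ => 4 * ν) atTop atTop := tendsto_id.const_mul_atTop' (by norm_num)
  have e1 := hAR b h hb hb2 hh h11 δ hδ0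
  have e2 := t4.eventually (hSE b h J δ hJ hδ0)
  have e2b := t4.eventually (hSN b h δ hb hδ0)
  have e3 := t4.eventually (hSL b h δ hδ0)
  have e4 := t4.eventually (hC J δ (by omega) hδ0)
  have e5 : ∀ᶠ ν : ℕ in atTop, 3 * s * Real.log q ≤ δ * (4 * (ν : ℝ)) := by
    have h1 : Tendsto (fun ν : ℕ => δ * (4 * (ν : ℝ))) atTop atTop :=
      (tendsto_natCast_atTop_atTop.const_mul_atTop (by norm_num : (0 : ℝ) < 4)).const_mul_atTop hδ0
    exact h1.eventually_ge_atTop _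
  obtain ⟨ν0, hν0⟩ := eventually_atTop.1 (e1.and (e2.and (e2b.and (e3.and (e4.and (e5.and
    (eventually_ge_atTop (J ^ 2 + q + 2))))))))
  have hK0 : 8 * (3 * h - 4 * (b + 1)) ≠ 0 := by omega
  obtain ⟨p0, hp0, hp1, hp2⟩ := Nat.exists_prime_gt_modEq_one (k := 8 * (3 * h - 4 * (b + 1)))
    (8 * (3 * h - 4 * (b + 1)) * ν0 + 1) hK0
  obtain ⟨ν', hν'⟩ : ∃ ν', p0 = 8 * (3 * h - 4 * (b + 1)) * ν' + 1 := by
    have h1 := (Nat.modEq_iff_dvd' hp0.one_lt.le).1 hp2.symm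
    obtain ⟨c, hc⟩ := h1
    exact ⟨c, by omega⟩
  have hνν : ν0 ≤ ν' := by
    by_contra hc
    push Not at hc
    have h1 : 8 * (3 * h - 4 * (b + 1)) * ν' ≤ 8 * (3 * h - 4 * (b + 1)) * ν0 :=
      Nat.mul_le_mul_left _ hc.le
    omega
  obtain ⟨ν, hν⟩ : ∃ ν, ν = g * ν' := ⟨_, rfl⟩
  have hνge : ν0 ≤ ν := by
    rw [hν]
    nlinarith
  obtain ⟨f1, f2, f2b, f3, f4, f5, f6⟩ := hν0 ν hνge
  have hJ1 : 1 ≤ J ^ 2 := one_le_pow₀ (by omega)
  have hν'1 : 1 ≤ ν' := by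
    rcases Nat.eq_zero_or_pos ν' with h0 | h0
    · rw [h0, mul_zero] at hν
      omega
    · exact h0
  -- relations between the parameters
  have hp0' : p0 + 8 * (b + 1) * ν' = 6 * (4 * ν) + 1 := by
    rw [hν', hν]
    obtain ⟨d, hd⟩ : ∃ d, 3 * h = 4 * (b + 1) + d := ⟨3 * h - 4 * (b + 1), by omega⟩
    have h1 : 3 * h - 4 * (b + 1) = d := by omega
    rw [h1]
    have h2 : 3 * g = (b + 1) + d := by omega
    calc 8 * d * ν' + 1 + 8 * (b + 1) * ν' = 8 * ν' * ((b + 1) + d) + 1 := by ring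
      _ = 8 * ν' * (3 * g) + 1 := by rw [h2]
      _ = _ := by ring
  have hbν : 1 ≤ (b + 1) * ν' := Nat.mul_pos (by omega) hν'1
  have hsg : b + 1 < g := by omega
  have hsν : (b + 1) * ν' < ν := by
    rw [hν]
    exact Nat.mul_lt_mul_of_pos_right hsg hν'1
  have h8 : 8 * (b + 1) * ν' = 8 * ((b + 1) * ν') := by ring
  have hpr1 : 4 * (4 * ν) < p0 := by omega
  have hpr2 : p0 ≤ 6 * (4 * ν) := by omega
  have hm : (b + 1) * (3 * (4 * ν) - 1) =
      (b + 1) * (4 * ν - 1) + (h - (b + 1)) * (6 * (4 * ν) - p0 + 1) := by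
    have h1 : 6 * (4 * ν) - p0 + 1 = 8 * ((b + 1) * ν') := by omega
    have h2 : h - (b + 1) = g := by omega
    rw [h1, h2]
    have h3 : g * (8 * ((b + 1) * ν')) = (b + 1) * (8 * ν) := by rw [hν]; ring
    rw [h3, ← Nat.mul_add]
    congr 1
    omega
  have hqp : q < p0 := by omega
  have hne : DET b h (4 * ν) u ((b + 1) * (3 * (4 * ν) - 1)) ≠ 0 := by
    apply hNV b h (4 * ν) q p0 u hb hh hb2 (by omega) (by omega) (by omega) hp0 hpr1 hpr2 _ hq _ hm
    · have h1 : 4 * ((b + 1) * (3 * (4 * ν) - 1)) ≤ 4 * ((b + 1) * (3 * (4 * ν))) :=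
        Nat.mul_le_mul_left _ (Nat.mul_le_mul_left _ (by omega))
      have h2 : 2 * (b + 1) * (6 * (4 * ν)) ≤ h * (6 * (4 * ν)) := Nat.mul_le_mul_right _ (by omega)
      have h3 : h * (6 * (4 * ν)) ≤ h * (6 * (4 * ν) + 1) := Nat.mul_le_mul_left _ (by omega)
      have h4 : 4 * ((b + 1) * (3 * (4 * ν))) = 2 * (b + 1) * (6 * (4 * ν)) := by ring
      omega
    · intro hd
      have := Nat.le_of_dvd hq.1 hd
      omega
  have g0 := prod_formula hLP hNOD hEPB hSM b h (4 * ν) q J u hb hh (by omega) (by omega) hJ (by omega) hq hne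
  rw [prod_log_Bf b h (4 * ν) J hJ (by omega)] at g0
  have g1 : Real.log |((DET b h (4 * ν) u ((b + 1) * (3 * (4 * ν) - 1)) : ℚ) : ℝ)| ≤
      (4 * (ν : ℝ)) ^ 2 * (((b : ℝ) + 1) ^ 2 * (18 * Real.log (4 * (ν : ℝ)) + a1) -
        ((b : ℝ) + 1) * (5 * h - 11 * ((b : ℝ) + 1)) / 5 * (861 / 100) + δ) := by
    have h1 := f1 u hu
    have h2 : 0 < |((DET b h (4 * ν) u ((b + 1) * (3 * (4 * ν) - 1)) : ℚ) : ℝ)| :=
      abs_pos.2 (by exact_mod_cast hne)
    have h3 := Real.log_le_log h2 h1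
    rwa [Real.log_exp] at h3
  obtain ⟨n, hn⟩ : ∃ n : ℝ, n = 4 * (ν : ℝ) := ⟨_, rfl⟩
  have hcast : (((4 * ν : ℕ)) : ℝ) = n := by rw [hn]; push_cast; ring
  rw [← hn, ← hs] at g1
  rw [hcast] at f2 f2b f3 f4
  rw [← hs] at f2b f3 f4
  rw [← hn] at f5
  have hn1 : 1 ≤ n := by
    rw [hn]
    have : (1 : ℝ) ≤ ν := by exact_mod_cast (by omega : 1 ≤ ν)
    linarith
  have hJ0 : (0 : ℝ) < J := by exact_mod_cast (by omega : 0 < J)
  have g2 : (((b + 1) * (3 * (4 * ν) - 1) : ℕ) : ℝ) * Real.log q ≤ n ^ 2 * δ := by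
    have h1 : (((b + 1) * (3 * (4 * ν) - 1) : ℕ) : ℝ) ≤ 3 * s * n := by
      have h2 : (b + 1) * (3 * (4 * ν) - 1) ≤ 3 * (b + 1) * (4 * ν) := by
        calc (b + 1) * (3 * (4 * ν) - 1) ≤ (b + 1) * (3 * (4 * ν)) := Nat.mul_le_mul_left _ (by omega)
          _ = _ := by ring
      rw [← hs2, ← hcast]
      exact_mod_cast h2
    have h2 : 0 ≤ Real.log q := Real.log_natCast_nonneg q
    have h3 := mul_le_mul_of_nonneg_right h1 h2
    have h4 := mul_le_mul_of_nonneg_left f5 (by linarith : 0 ≤ n)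
    calc _ ≤ 3 * s * n * Real.log q := h3
      _ = n * (3 * s * Real.log q) := by ring
      _ ≤ n * (δ * n) := h4
      _ = _ := by ring
  have hlog : Real.log (6 * n / J) = Real.log 6 + Real.log n - Real.log J := by
    rw [Real.log_div (by positivity) hJ0.ne', Real.log_mul (by norm_num) (by linarith)]
  rw [hlog] at f4
  have f4' : ∑ p ∈ PS 0 (6 / J) (4 * ν), Real.log (Bs b h (4 * ν) p) ≤
      n ^ 2 * (-18 * s ^ 2 * (Real.log 6 + Real.log n - Real.log J - Real.eulerMascheroniConstant) +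
      C / J + δ) := f4
  have htot : n ^ 2 * δ + n ^ 2 * (s ^ 2 * (18 * Real.log n + a1) - s * (5 * h - 11 * s) / 5 * (861 / 100) + δ) +
      (n ^ 2 * (-18 * s ^ 2 * (Real.log 6 + Real.log n - Real.log J - Real.eulerMascheroniConstant) +
        C / J + δ) + n ^ 2 * (e0 (b + 1) h J + δ) +
        n ^ 2 * (-(18 / 5) * s * h + 81 / 400 * (2 * (h : ℝ) + s) ^ 2 + δ) +
        n ^ 2 * ((h : ℝ) * s / 2 + δ)) = -(n ^ 2 * δ) := by
    have h6 : -(7 * δ) = s ^ 2 * a1 - s * (5 * h - 11 * s) / 5 * (861 / 100) -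
      18 * s ^ 2 * Real.log 6 + 18 * s ^ 2 * Real.log J +
      18 * s ^ 2 * Real.eulerMascheroniConstant + C / J + e0 (b + 1) h J +
      (-(18 / 5) * s * h + 81 / 400 * (2 * (h : ℝ) + s) ^ 2) + h * s / 2 := by
      rw [hδ]; ring
    have h7 : -(n ^ 2 * δ) = n ^ 2 * (6 * δ + (s ^ 2 * a1 - s * (5 * h - 11 * s) / 5 * (861 / 100) -
      18 * s ^ 2 * Real.log 6 + 18 * s ^ 2 * Real.log J +
      18 * s ^ 2 * Real.eulerMascheroniConstant + C / J + e0 (b + 1) h J +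
      (-(18 / 5) * s * h + 81 / 400 * (2 * (h : ℝ) + s) ^ 2) + h * s / 2)) := by
      rw [← h6]; ring
    rw [h7]
    ring
  have hfin : 0 < n ^ 2 * δ := by positivity
  linarith

/-- **The windows theorem.** -/
theorem final_of (hAR : S_AR) (hNV : S_NV) (hLP : S_LP) (hNOD : S_NOD) (hEPB : S_EPB) (hSM : S_SM) (hSE : S_SE)
    (hSN : S_SN) (hSL : S_SL)
    (hSS : S_SS) (hNUM : S_NUM)
    (hW : ∀ s : ℕ, Odd s → ∃ j, Odd j ∧ s + 2 ≤ j ∧ 5 * j < 18 * s ∧ Irrational (zr j)) (s : ℕ) (hs : Odd s) :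
    ∃ j, Odd j ∧ s + 2 ≤ j ∧ 5 * j < 16 * s ∧ Irrational (zr j) := by
  obtain ⟨a, ha⟩ := hs
  rcases Nat.lt_or_ge a 2 with h0 | h0
  · -- `s = 1` and `s = 3`
    obtain ⟨j, hj1, hj2, hj3, hj4⟩ := hW s ⟨a, ha⟩
    refine ⟨j, hj1, hj2, ?_, hj4⟩
    obtain ⟨c, hc⟩ := hj1
    interval_cases a <;> omega
  · -- `h` is the smallest even number with `5 h ≥ 11 s`
    obtain ⟨g, hg1, hg2⟩ : ∃ g : ℕ, 11 * s ≤ 10 * g ∧ 10 * g < 11 * s + 10 :=
      ⟨(11 * s + 9) / 10, by omega, by omega⟩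
    have hg3 : 5 * (2 * g) ≤ 12 * (2 * a + 1) := by
      rcases Nat.lt_or_ge a 4 with h4 | h4
      · interval_cases a <;> omega
      · omega
    obtain ⟨e, he1, he2, he3, he4⟩ := main_of hAR hNV hLP hNOD hEPB hSM hSE hSN hSL hSS hNUM (2 * a) (2 * g)
      ⟨a, by ring⟩ (by omega) ⟨g, by ring⟩ (by omega) hg3
    refine ⟨e, he1, by omega, ?_, he4⟩
    obtain ⟨e', he'⟩ := he1
    omega

end

end Pool.Agent.H15.V
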