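import Pool.Agent.H15.V.Stm

/-!
# Project V: GRC, greedy distribution of the zeros with capacities and a floor
-/

set_option autoImplicit false
set_option linter.all false

namespace Pool.Agent.H15.V

open Pool.Agent.N334.W (mu UInt nx vd MT cv wcl Dcl G2 Hn PS)

namespace GRCaux

/-- the classes that can be chosen -/
noncomputable def av (M : ℕ) (e : Fin M → ℤ) (cap : Fin M → ℕ) (f : ℤ) (T : Fin M → ℕ) : Finset (Fin M) :=
  Finset.univ.filter fun a => T a < cap a ∧ f < e a - 2 * (T a : ℤ)

open Classical in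
/-- the choice -/
noncomputable def ch (M : ℕ) (e : Fin M → ℤ) (cap : Fin M → ℕ) (f : ℤ) (T : Fin M → ℕ) : Option (Fin M) :=
  if h : (av M e cap f T).Nonempty then
    some (Finset.exists_max_image (av M e cap f T) (fun a => e a - 2 * (T a : ℤ)) h).choose
  else none

lemma ch_some (M : ℕ) (e : Fin M → ℤ) (cap : Fin M → ℕ) (f : ℤ) (T : Fin M → ℕ) {a : Fin M}
    (ha : ch M e cap f T = some a) :
    T a < cap a ∧ f < e a - 2 * (T a : ℤ) ∧
      ∀ a', T a' < cap a' → e a' - 2 * (T a' : ℤ) ≤ e a - 2 * (T a : ℤ) := by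
  unfold ch at ha
  split_ifs at ha with h
  have hs := (Finset.exists_max_image (av M e cap f T) (fun a => e a - 2 * (T a : ℤ)) h).choose_spec
  rw [Option.some.inj ha] at hs
  obtain ⟨h1, h2⟩ := hs
  unfold av at h1
  rw [Finset.mem_filter] at h1
  refine ⟨h1.2.1, h1.2.2, ?_⟩
  intro a' ha'
  by_cases h3 : f < e a' - 2 * (T a' : ℤ)
  · exact h2 a' (by unfold av; rw [Finset.mem_filter]; exact ⟨Finset.mem_univ _, ha', h3⟩)
  · have := h1.2.2
    omega

lemma ch_none (M : ℕ) (e : Fin M → ℤ) (cap : Fin M → ℕ) (f : ℤ) (T : Fin M → ℕ)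
    (ha : ch M e cap f T = none) : ∀ a', T a' < cap a' → e a' - 2 * (T a' : ℤ) ≤ f := by
  unfold ch at ha
  split_ifs at ha with h
  intro a' ha'
  by_contra h3
  exact h ⟨a', by unfold av; rw [Finset.mem_filter]; exact ⟨Finset.mem_univ _, ha', not_le.1 h3⟩⟩

/-- the numbers of the previous choices -/
noncomputable def TT (M : ℕ) (e : Fin M → ℤ) (cap : Fin M → ℕ) (f : ℤ) : ℕ → Fin M → ℕ
  | 0 => fun _ => 0
  | i + 1 => fun a => TT M e cap f i a + if ch M e cap f (TT M e cap f i) = some a then 1 else 0

lemma TT_succ (M : ℕ) (e : Fin M → ℤ) (cap : Fin M → ℕ) (f : ℤ) (i : ℕ) (a : Fin M) :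
    TT M e cap f (i + 1) a = TT M e cap f i a + if ch M e cap f (TT M e cap f i) = some a then 1 else 0 := rfl

lemma TT_card (M : ℕ) (e : Fin M → ℤ) (cap : Fin M → ℕ) (f : ℤ) (i : ℕ) (a : Fin M) :
    ((Finset.range i).filter fun l => ch M e cap f (TT M e cap f l) = some a).card = TT M e cap f i a := by
  induction i with
  | zero => rfl
  | succ i ih =>
    rw [Finset.range_add_one, Finset.filter_insert, TT_succ]
    split_ifs with h
    · rw [Finset.card_insert_of_notMem (by simp), ih]
    · rw [ih, add_zero]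

lemma TT_le (M : ℕ) (e : Fin M → ℤ) (cap : Fin M → ℕ) (f : ℤ) (i : ℕ) (a : Fin M) :
    TT M e cap f i a ≤ cap a := by
  induction i with
  | zero => exact Nat.zero_le _
  | succ i ih =>
    rw [TT_succ]
    split_ifs with h
    · have := (ch_some M e cap f _ h).1
      omega
    · omega

/-- the value -/
noncomputable def wv (M : ℕ) (e : Fin M → ℤ) (cap : Fin M → ℕ) (f : ℤ) (T : Fin M → ℕ) : ℤ :=
  match ch M e cap f T with
  | some a => e a - 2 * (T a : ℤ)
  | none => f

lemma sum_le (M : ℕ) (e : Fin M → ℤ) (cap : Fin M → ℕ) (f : ℤ) (m : ℕ) :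
    ∑ i ∈ Finset.range m, (wv M e cap f (TT M e cap f i) - f) ≤
      ∑ a, ∑ j ∈ Finset.range (TT M e cap f m a), max 0 (e a - 2 * (j : ℤ) - f) := by
  induction m with
  | zero => simp [TT]
  | succ m ih =>
    rw [Finset.sum_range_succ]
    have key : ∀ a, ∑ j ∈ Finset.range (TT M e cap f (m + 1) a), max 0 (e a - 2 * (j : ℤ) - f) =
        ∑ j ∈ Finset.range (TT M e cap f m a), max 0 (e a - 2 * (j : ℤ) - f) +
          if ch M e cap f (TT M e cap f m) = some a then
            max 0 (e a - 2 * (TT M e cap f m a : ℤ) - f) else 0 := by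
      intro a
      rw [TT_succ]
      split_ifs with h
      · rw [Finset.sum_range_succ]
      · rw [add_zero, add_zero]
    simp only [key, Finset.sum_add_distrib]
    refine add_le_add ih ?_
    unfold wv
    cases h : ch M e cap f (TT M e cap f m) with
    | none => simp
    | some a =>
      simp only [Option.some.injEq, Finset.sum_ite_eq, Finset.mem_univ, if_true]
      exact le_max_right _ _

end GRCaux

open GRCaux in
theorem GRC : S_GRC := by
  intro M e cap f
  refine ⟨fun i => ch M e cap f (TT M e cap f i), fun i => wv M e cap f (TT M e cap f i), ?_, ?_, ?_⟩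
  · intro i
    simp only
    unfold wv
    cases h : ch M e cap f (TT M e cap f i) with
    | none => exact le_rfl
    | some a => exact (ch_some M e cap f _ h).2.1.le
  · intro i a
    simp only
    rw [TT_card]
    intro ha
    unfold wv
    cases h : ch M e cap f (TT M e cap f i) with
    | none => exact ch_none M e cap f _ h a ha
    | some a' => exact (ch_some M e cap f _ h).2.2 a ha
  · intro m
    refine (sum_le M e cap f m).trans (Finset.sum_le_sum fun a _ => ?_)
    refine Finset.sum_le_sum_of_subset_of_nonneg (Finset.range_subset_range.2 (TT_le M e cap f m a)) ?_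
    intro j _ _
    exact le_max_left _ _

end Pool.Agent.H15.V
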