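import Pool.Agent.H15.V.Stm

/-!
# Project V: the local functional is nondegenerate (`LOC`)
-/

open Polynomial

namespace Pool.Agent.H15.V

namespace LOCaux

noncomputable section

variable {F : Type*} [Field F]

/-- `z = X (1 - X)` -/
def zz (F : Type*) [Field F] : F[X] := X * (1 - X)

lemma zz_comp : (zz F).comp (1 - X) = zz F := by
  unfold zz
  simp
  ring

/-- `Y`-polynomials in `z` are symmetric -/
lemma comp_zz_comp (A : F[X]) : (A.comp (zz F)).comp (1 - X) = A.comp (zz F) := by
  rw [Polynomial.comp_assoc, zz_comp]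

/-- every polynomial is `A(z) + (1-2X) B(z)` -/
lemma decomp (h2 : (2 : F) ≠ 0) : ∀ (N : ℕ) (G : F[X]), G.degree < (2 * N : ℕ) →
    ∃ A B : F[X], A.degree < (N : ℕ) ∧ B.degree < (N : ℕ) ∧
      G = A.comp (zz F) + (1 - 2 * X) * B.comp (zz F) := by
  intro N
  induction N with
  | zero =>
    intro G hG
    refine ⟨0, 0, by simp, by simp, ?_⟩
    have : G = 0 := by
      rw [← Polynomial.degree_eq_bot]
      simpa using hG
    simp [this]
  | succ N ih =>
    intro G hG
    set Z : F[X] := X ^ 2 - X with hZ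
    have hZd : Z.natDegree = 2 := by
      rw [hZ]; compute_degree!
    have hZm : Z.Monic := by
      rw [hZ]; monicity!
    have hdiv := Polynomial.modByMonic_add_div G Z
    set Q := G /ₘ Z with hQ
    set R := G %ₘ Z with hR
    have hRd : R.natDegree < 2 := by
      have := Polynomial.natDegree_modByMonic_lt G hZm (by
        intro h
        rw [h] at hZd
        simp at hZd)
      rwa [hZd] at this
    have hR1 : R = C (R.coeff 1) * X + C (R.coeff 0) :=
      Polynomial.eq_X_add_C_of_natDegree_le_one (by omega)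
    have hQd : Q.degree < (2 * N : ℕ) := by
      by_cases hQ0 : Q = 0
      · rw [hQ0, degree_zero]
        exact WithBot.bot_lt_coe _
      · rw [Polynomial.degree_eq_natDegree hQ0]
        by_cases hG0 : G = 0
        · exfalso; apply hQ0; rw [hQ, hG0, Polynomial.zero_divByMonic]
        rw [Polynomial.degree_eq_natDegree hG0] at hG
        have h1 : G.natDegree < 2 * (N + 1) := by exact_mod_cast hG
        have h3 := Polynomial.natDegree_divByMonic G hZm
        rw [hZd] at h3
        have h4 : Q.natDegree = G.natDegree - 2 := h3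
        by_cases h5 : G.natDegree < 2
        · exfalso
          apply hQ0
          rw [hQ]
          apply (Polynomial.divByMonic_eq_zero_iff hZm).2
          rw [Polynomial.degree_eq_natDegree hG0, Polynomial.degree_eq_natDegree hZm.ne_zero, hZd]
          exact_mod_cast h5
        · have : Q.natDegree < 2 * N := by omega
          exact_mod_cast this
    obtain ⟨A, B, hA, hB, hAB⟩ := ih Q hQd
    refine ⟨C (R.coeff 0 + R.coeff 1 / 2) - X * A, C (-(R.coeff 1) / 2) - X * B, ?_, ?_, ?_⟩
    · apply lt_of_le_of_lt (Polynomial.degree_sub_le _ _)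
      rw [max_lt_iff]
      constructor
      · apply lt_of_le_of_lt Polynomial.degree_C_le
        exact_mod_cast Nat.succ_pos N
      · rw [Polynomial.degree_mul, Polynomial.degree_X]
        by_cases hA0 : A = 0
        · rw [hA0, degree_zero, WithBot.add_bot]
          exact WithBot.bot_lt_coe _
        · rw [Polynomial.degree_eq_natDegree hA0] at hA ⊢
          have h6 : A.natDegree < N := by exact_mod_cast hA
          have h7 : 1 + A.natDegree < N + 1 := by omega
          exact_mod_cast h7
    · apply lt_of_le_of_lt (Polynomial.degree_sub_le _ _)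
      rw [max_lt_iff]
      constructor
      · apply lt_of_le_of_lt Polynomial.degree_C_le
        exact_mod_cast Nat.succ_pos N
      · rw [Polynomial.degree_mul, Polynomial.degree_X]
        by_cases hA0 : B = 0
        · rw [hA0, degree_zero, WithBot.add_bot]
          exact WithBot.bot_lt_coe _
        · rw [Polynomial.degree_eq_natDegree hA0] at hB ⊢
          have h6 : B.natDegree < N := by exact_mod_cast hB
          have h7 : 1 + B.natDegree < N + 1 := by omega
          exact_mod_cast h7
    · have e1 : G = R + Z * Q := hdiv.symm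
      rw [e1, hAB]
      have hc1 : (C (R.coeff 0 + R.coeff 1 / 2) : F[X]) = C (R.coeff 0) + C (R.coeff 1 / 2) := by
        rw [C_add]
      have hc2 : (C (-(R.coeff 1) / 2) : F[X]) = - C (R.coeff 1 / 2) := by
        rw [neg_div, C_neg]
      have hc3 : (2 : F[X]) * C (R.coeff 1 / 2) = C (R.coeff 1) := by
        have : (2 : F[X]) = C 2 := (map_ofNat (C : F →+* F[X]) 2).symm
        rw [this, ← C_mul]
        congr 1
        field_simp
      rw [hc1, hc2]
      simp only [Polynomial.sub_comp, Polynomial.add_comp, Polynomial.mul_comp, Polynomial.C_comp,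
        Polynomial.X_comp, Polynomial.neg_comp]
      have hR1' : R = 2 * C (R.coeff 1 / 2) * X + C (R.coeff 0) := by
        rw [hc3]; exact hR1
      rw [hZ]
      have hzz : zz F = X * (1 - X) := rfl
      rw [hzz] 
      linear_combination hR1'

/-- the power series `(1-X)^(-d)` -/
def DD (F : Type*) [Field F] (d : ℕ) : PowerSeries F := (PowerSeries.invOneSubPow F d).val

lemma DD_eq (h s : ℕ) (hs : 1 ≤ s) : (PowerSeries.mk fun i => ((Nat.choose (h + s - 1 + i) i : ℕ) : F)) = DD F (h + s) := by
  unfold DD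
  rw [PowerSeries.invOneSubPow_val_eq_mk_sub_one_add_choose_of_pos F (h + s) (by omega)]
  ext i
  simp only [PowerSeries.coeff_mk]
  congr 1
  rw [← Nat.choose_symm_of_eq_add]
  omega

lemma mul_DD (d e : ℕ) : (1 - PowerSeries.X) ^ e * DD F (d + e) = DD F d :=
  PowerSeries.one_sub_pow_mul_invOneSubPow_val_add_eq_invOneSubPow_val F d e

/-- `coeff_{M-1} (1-2X)(1-X)^{-M} = 0` for `M ≥ 2` -/
lemma coeff_D_ge (M : ℕ) (hM : 2 ≤ M) : PowerSeries.coeff (M - 1) ((1 - 2 * PowerSeries.X) * DD F M) = 0 := by
  obtain ⟨m, rfl⟩ : ∃ m, M = m + 2 := ⟨M - 2, by omega⟩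
  have e1 : m + 2 - 1 = m + 1 := by omega
  rw [e1, sub_mul, one_mul, map_sub, mul_assoc]
  have h2 : (2 : PowerSeries F) * (PowerSeries.X * DD F (m + 2)) =
      PowerSeries.C (2 : F) * (PowerSeries.X * DD F (m + 2)) := by
    congr 1
  rw [h2, PowerSeries.coeff_C_mul, PowerSeries.coeff_succ_X_mul]
  unfold DD
  rw [PowerSeries.invOneSubPow_val_succ_eq_mk_add_choose, PowerSeries.coeff_mk, PowerSeries.coeff_mk]
  have h3 : Nat.choose (m + 1 + (m + 1)) (m + 1) = 2 * Nat.choose (m + 1 + m) (m + 1) := by
    have h4 := Nat.choose_succ_succ (m + 1 + m) m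
    have h5 : Nat.choose (m + 1 + m) m = Nat.choose (m + 1 + m) (m + 1) := by
      apply Nat.choose_symm_of_eq_add
      omega
    have e2 : m + 1 + (m + 1) = (m + 1 + m).succ := by omega
    rw [e2, show m + 1 = m.succ from rfl, h4]
    rw [show m.succ = m + 1 from rfl, h5]
    omega
  rw [h3]
  push_cast
  ring

/-- the functional `T(A) = coeff_{h-1} (1-2X) A (1-X)^{-h}` on powers of `z` -/
lemma coeff_zpow (h m : ℕ) (hh : 1 ≤ h) :
    PowerSeries.coeff (h - 1) ((1 - 2 * PowerSeries.X) * ((zz F ^ m : F[X]) : PowerSeries F) * DD F h) =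
      if m = h - 1 then 1 else 0 := by
  have hz : ((zz F ^ m : F[X]) : PowerSeries F) = PowerSeries.X ^ m * (1 - PowerSeries.X) ^ m := by
    unfold zz
    rw [mul_pow]
    simp
  rw [hz]
  by_cases hm : h ≤ m
  · rw [if_neg (by omega)]
    have : (1 - 2 * PowerSeries.X) * (PowerSeries.X ^ m * (1 - PowerSeries.X) ^ m) * DD F h =
        PowerSeries.X ^ m * ((1 - 2 * PowerSeries.X) * (1 - PowerSeries.X) ^ m * DD F h) := by ring
    rw [this]
    rw [PowerSeries.coeff_X_pow_mul', if_neg (by omega)]
  · obtain ⟨d, rfl⟩ : ∃ d, h = d + m := ⟨h - m, by omega⟩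
    have : (1 - 2 * PowerSeries.X) * (PowerSeries.X ^ m * (1 - PowerSeries.X) ^ m) * DD F (d + m) =
        PowerSeries.X ^ m * ((1 - 2 * PowerSeries.X) * ((1 - PowerSeries.X) ^ m * DD F (d + m))) := by ring
    rw [this, mul_DD, PowerSeries.coeff_X_pow_mul', if_pos (by omega)]
    have e1 : d + m - 1 - m = d - 1 := by omega
    rw [e1]
    by_cases hd : d = 1
    · rw [if_pos (by omega), hd]
      simp only [Nat.sub_self]
      rw [PowerSeries.coeff_zero_eq_constantCoeff_apply, map_mul]
      unfold DD
      rw [PowerSeries.invOneSubPow_val_eq_mk_sub_one_add_choose_of_pos F 1 (by omega)]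
      have h8 : PowerSeries.constantCoeff (PowerSeries.mk fun n => ((Nat.choose (1 - 1 + n) (1 - 1) : ℕ) : F)) = 1 := by
        rw [← PowerSeries.coeff_zero_eq_constantCoeff_apply, PowerSeries.coeff_mk]
        simp
      rw [h8]
      simp
    · rw [if_neg (by omega)]
      exact coeff_D_ge d (by omega)

/-- approximation by polynomials in `z` times `(1-X)^s` modulo `X^h` -/
lemma approx (s : ℕ) (A : F[X]) : ∀ h : ℕ, ∃ g : F[X], g.degree < (h : ℕ) ∧
    X ^ h ∣ A - g.comp (zz F) * (1 - X) ^ s := by
  intro h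
  induction h with
  | zero => exact ⟨0, by simp, by simp⟩
  | succ h ih =>
    obtain ⟨g, hg, B, hB⟩ := ih
    refine ⟨g + C (B.coeff 0) * X ^ h, ?_, ?_⟩
    · apply lt_of_le_of_lt (Polynomial.degree_add_le _ _)
      rw [max_lt_iff]
      constructor
      · exact lt_trans hg (by exact_mod_cast Nat.lt_succ_self h)
      · apply lt_of_le_of_lt (Polynomial.degree_C_mul_X_pow_le _ _)
        exact_mod_cast Nat.lt_succ_self h
    · have e1 : A - (g + C (B.coeff 0) * X ^ h).comp (zz F) * (1 - X) ^ s =
          X ^ h * (B - C (B.coeff 0) * (1 - X) ^ (h + s)) := by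
        simp only [add_comp, mul_comp, C_comp, pow_comp, X_comp]
        have e2 : zz F ^ h = X ^ h * (1 - X) ^ h := by unfold zz; rw [mul_pow]
        rw [e2, pow_add]
        linear_combination hB
      rw [e1, pow_succ]
      apply mul_dvd_mul_left
      rw [Polynomial.X_dvd_iff]
      simp [Polynomial.coeff_zero_eq_eval_zero]

/-- a polynomial in `z` divisible by `X^m` is divisible by `z^m` -/
lemma dvd_of_comp (P : F[X]) : ∀ m : ℕ, X ^ m ∣ P.comp (zz F) → X ^ m ∣ P := by
  intro m
  induction m with
  | zero => intro _; simp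
  | succ m ih =>
    intro h
    obtain ⟨Q, hQ⟩ := ih (dvd_trans (pow_dvd_pow X (Nat.le_succ m)) h)
    rw [hQ, pow_succ]
    apply mul_dvd_mul_left
    rw [Polynomial.X_dvd_iff]
    rw [hQ] at h
    simp only [mul_comp, pow_comp, X_comp] at h
    have e2 : zz F ^ m = X ^ m * (1 - X) ^ m := by unfold zz; rw [mul_pow]
    rw [e2, pow_succ, mul_assoc] at h
    have h3 := (mul_dvd_mul_iff_left (pow_ne_zero m (X_ne_zero (R := F)))).1 h
    rw [Polynomial.X_dvd_iff, Polynomial.coeff_zero_eq_eval_zero] at h3
    simp [zz] at h3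
    rw [Polynomial.coeff_zero_eq_eval_zero]
    exact h3

/-- `X^s + (1-X)^s` as a polynomial in `z` -/
def LL (F : Type*) [Field F] : ℕ → F[X]
  | 0 => 2
  | 1 => 1
  | (k + 2) => LL F (k + 1) - X * LL F k

lemma LL_comp : ∀ k : ℕ, (LL F k).comp (zz F) = (1 - X) ^ k + X ^ k ∧ (LL F (k + 1)).comp (zz F) = (1 - X) ^ (k + 1) + X ^ (k + 1) := by
  intro k
  induction k with
  | zero =>
    constructor
    · simp [LL]; norm_num
    · simp [LL]
  | succ k ih =>
    refine ⟨ih.2, ?_⟩
    rw [LL, sub_comp, mul_comp, X_comp, ih.1, ih.2]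
    unfold zz
    ring

lemma LL_coeff : ∀ k : ℕ, (LL F (k + 1)).coeff 0 = 1 := by
  intro k
  induction k with
  | zero => simp [LL]
  | succ k ih =>
    rw [LL]
    simp [ih]

lemma LL_deg : ∀ k : ℕ, (LL F k).natDegree ≤ k / 2 ∧ (LL F (k + 1)).natDegree ≤ (k + 1) / 2 := by
  intro k
  induction k with
  | zero =>
    constructor
    · have : (2 : F[X]) = C 2 := (map_ofNat (C : F →+* F[X]) 2).symm
      simp only [LL]
      rw [this, natDegree_C]
    · simp [LL]
  | succ k ih =>
    refine ⟨ih.2, ?_⟩
    rw [LL]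
    apply le_trans (natDegree_sub_le _ _)
    rw [max_le_iff]
    constructor
    · exact le_trans ih.2 (by omega)
    · apply le_trans natDegree_mul_le
      rw [natDegree_X]
      have := ih.1
      omega

/-- the main claim -/
lemma main_claim (h s : ℕ) (hs : Odd s) (h1 : 2 * s ≤ h) (h2 : 2 * h < 5 * s + 1) (q : F[X])
    (hq : q.degree < ((h - s : ℕ) : WithBot ℕ))
    (ht : ∀ j, j < h - s → PowerSeries.coeff (h - 1)
      ((1 - 2 * PowerSeries.X) * ((zz F ^ j * q.comp (zz F) : F[X]) : PowerSeries F) * DD F (h + s)) = 0) :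
    q = 0 := by
  have hs1 : 1 ≤ s := hs.pos
  obtain ⟨g, hg, B, hB⟩ := approx s (q.comp (zz F)) h
  -- the coefficients of `g`
  have hgc : ∀ j, j < h - s → g.coeff (h - 1 - j) = 0 := by
    intro j hj
    have h3 := ht j hj
    have e1 : q.comp (zz F) = g.comp (zz F) * (1 - X) ^ s + X ^ h * B := by
      linear_combination hB
    rw [e1] at h3
    have e2 : (1 - 2 * PowerSeries.X) * ((zz F ^ j * (g.comp (zz F) * (1 - X) ^ s + X ^ h * B) : F[X]) : PowerSeries F) * DD F (h + s)
        = (1 - 2 * PowerSeries.X) * ((zz F ^ j * g.comp (zz F) : F[X]) : PowerSeries F) * ((1 - PowerSeries.X) ^ s * DD F (h + s)) +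
          PowerSeries.X ^ h * ((1 - 2 * PowerSeries.X) * ((zz F ^ j * B : F[X]) : PowerSeries F) * DD F (h + s)) := by
      push_cast
      ring
    rw [e2, mul_DD, map_add, PowerSeries.coeff_X_pow_mul', if_neg (by omega), add_zero] at h3
    have e3 : ((zz F ^ j * g.comp (zz F) : F[X]) : PowerSeries F) =
        ∑ k ∈ Finset.range h, PowerSeries.C (g.coeff k) * ((zz F ^ (j + k) : F[X]) : PowerSeries F) := by
      have e4 : g.comp (zz F) = ∑ k ∈ Finset.range h, C (g.coeff k) * zz F ^ k := by
        rw [Polynomial.comp, Polynomial.eval₂_eq_sum_range' C (n := h)]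
        by_cases hg0 : g = 0
        · rw [hg0, natDegree_zero]; omega
        · rw [Polynomial.degree_eq_natDegree hg0] at hg
          exact_mod_cast hg
      rw [e4, Finset.mul_sum]
      have e5 : ∀ k, zz F ^ j * (C (g.coeff k) * zz F ^ k) = C (g.coeff k) * zz F ^ (j + k) := by
        intro k; rw [pow_add]; ring
      simp_rw [e5]
      rw [← Polynomial.coeToPowerSeries.ringHom_apply, map_sum]
      apply Finset.sum_congr rfl
      intro k _
      rw [map_mul]
      simp
    rw [e3, Finset.mul_sum, Finset.sum_mul, map_sum] at h3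
    have e6 : ∀ k ∈ Finset.range h, PowerSeries.coeff (h - 1) ((1 - 2 * PowerSeries.X) * (PowerSeries.C (g.coeff k) * ((zz F ^ (j + k) : F[X]) : PowerSeries F)) * DD F h) =
        if k = h - 1 - j then g.coeff k else 0 := by
      intro k _
      have e7 : (1 - 2 * PowerSeries.X) * (PowerSeries.C (g.coeff k) * ((zz F ^ (j + k) : F[X]) : PowerSeries F)) * DD F h
          = PowerSeries.C (g.coeff k) * ((1 - 2 * PowerSeries.X) * ((zz F ^ (j + k) : F[X]) : PowerSeries F) * DD F h) := by ring
      rw [e7, PowerSeries.coeff_C_mul, coeff_zpow h (j + k) (by omega)]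
      by_cases hk : k = h - 1 - j
      · rw [if_pos (by omega), if_pos hk, mul_one]
      · rw [if_neg (by omega), if_neg hk, mul_zero]
    rw [Finset.sum_congr rfl e6, Finset.sum_ite_eq', if_pos (by rw [Finset.mem_range]; omega)] at h3
    exact h3
  have hgd : g.natDegree ≤ s - 1 := by
    rw [Polynomial.natDegree_le_iff_coeff_eq_zero]
    intro k hk
    by_cases hkh : k < h
    · have := hgc (h - 1 - k) (by omega)
      rwa [show h - 1 - (h - 1 - k) = k by omega] at this
    · apply Polynomial.coeff_eq_zero_of_degree_lt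
      exact lt_of_lt_of_le hg (by exact_mod_cast (by omega : h ≤ k))
  -- the approximation `q1 / L`
  set L : F[X] := LL F s with hL
  have hLc : L.comp (zz F) = (1 - X) ^ s + X ^ s := (LL_comp s).1
  have hLd : L.natDegree ≤ s / 2 := (LL_deg s).1
  have hL0 : L.coeff 0 = 1 := by
    obtain ⟨k, hk⟩ : ∃ k, s = k + 1 := ⟨s - 1, by omega⟩
    rw [hL, hk]
    exact LL_coeff k
  set q1 : F[X] := L ^ 2 - X ^ s with hq1
  have hs2 : s / 2 + s / 2 + 1 = s := by
    obtain ⟨k, hk⟩ := hs
    omega
  have hL2d : (L ^ 2).natDegree < s := by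
    have := Polynomial.natDegree_pow_le (p := L) (n := 2)
    omega
  have hq1d : q1.natDegree = s := by
    rw [hq1]
    rw [Polynomial.natDegree_sub_eq_right_of_natDegree_lt]
    · exact natDegree_X_pow s
    · rw [natDegree_X_pow]; exact hL2d
  have hq1_0 : q1 ≠ 0 := by
    intro h0
    rw [h0, natDegree_zero] at hq1d
    omega
  have hq1c : q1.comp (zz F) - L.comp (zz F) * (1 - X) ^ s = X ^ (2 * s) := by
    rw [hq1, sub_comp, pow_comp, pow_comp, X_comp, hLc]
    unfold zz
    rw [mul_pow, two_mul s, pow_add]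
    ring
  -- `q L = q1 g`
  have hkey : q * L = q1 * g := by
    by_contra hne
    have hne' : q * L - q1 * g ≠ 0 := sub_ne_zero.2 hne
    have hd1 : X ^ (2 * s) ∣ (q * L - q1 * g).comp (zz F) := by
      have e1 : (q * L - q1 * g).comp (zz F) = X ^ (2 * s) * (L.comp (zz F) * (X ^ (h - 2 * s) * B) - g.comp (zz F)) := by
        rw [sub_comp, mul_comp, mul_comp]
        have e2 : (X : F[X]) ^ h = X ^ (2 * s) * X ^ (h - 2 * s) := by
          rw [← pow_add]; congr 1; omega
        rw [e2] at hB
        linear_combination L.comp (zz F) * hB - g.comp (zz F) * hq1c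
      rw [e1]
      exact dvd_mul_right _ _
    have hd2 := dvd_of_comp _ _ hd1
    have hd3 := Polynomial.natDegree_le_of_dvd hd2 hne'
    rw [natDegree_X_pow] at hd3
    have hq1g : (q1 * g).natDegree ≤ s + (s - 1) := le_trans natDegree_mul_le (by omega)
    have hqL : (q * L).natDegree < 2 * s := by
      by_cases hq0 : q = 0
      · rw [hq0, zero_mul, natDegree_zero]; omega
      · rw [Polynomial.degree_eq_natDegree hq0] at hq
        have hq' : q.natDegree < h - s := by exact_mod_cast hq
        have : (q * L).natDegree ≤ q.natDegree + L.natDegree := natDegree_mul_le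
        omega
    have hd4 : (q * L - q1 * g).natDegree ≤ max (q * L).natDegree (q1 * g).natDegree := natDegree_sub_le _ _
    have hd5 : (q * L - q1 * g).natDegree < 2 * s := lt_of_le_of_lt hd4 (by
      rw [max_lt_iff]; constructor
      · exact hqL
      · omega)
    omega
  -- coprimality
  have hcop : IsCoprime q1 L := by
    have hXL : IsCoprime (X ^ s : F[X]) L := by
      apply IsCoprime.pow_left
      refine (Polynomial.irreducible_X.coprime_iff_not_dvd).2 ?_
      rw [Polynomial.X_dvd_iff, hL0]
      exact one_ne_zero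
    have : q1 = -(X ^ s) + L * L := by rw [hq1]; ring
    rw [this]
    exact IsCoprime.add_mul_left_left hXL.neg_left L
  obtain ⟨c, hc⟩ : q1 ∣ q := hcop.dvd_of_dvd_mul_right ⟨g, hkey⟩
  have hgc2 : g = L * c := by
    have : q1 * g = q1 * (L * c) := by rw [← hkey, hc]; ring
    exact mul_left_cancel₀ hq1_0 this
  by_contra hq0
  have hc0 : c ≠ 0 := by
    intro h0
    rw [h0, mul_zero] at hc
    exact hq0 hc
  have hcd : s + c.natDegree < h - s := by
    rw [Polynomial.degree_eq_natDegree hq0] at hq
    have hq' : q.natDegree < h - s := by exact_mod_cast hq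
    rw [hc, natDegree_mul hq1_0 hc0, hq1d] at hq'
    exact hq'
  have hd : X ^ (h - 2 * s) ∣ c.comp (zz F) := by
    have e1 : X ^ h * B = X ^ (2 * s) * c.comp (zz F) := by
      rw [← hB, hgc2, hc, mul_comp, mul_comp]
      linear_combination c.comp (zz F) * hq1c
    have e2 : (X : F[X]) ^ h = X ^ (2 * s) * X ^ (h - 2 * s) := by
      rw [← pow_add]; congr 1; omega
    rw [e2, mul_assoc] at e1
    have e3 := mul_left_cancel₀ (pow_ne_zero (2 * s) (X_ne_zero (R := F))) e1
    rw [← e3]
    exact dvd_mul_right _ _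
  have hd2 := dvd_of_comp _ _ hd
  have hd3 := Polynomial.natDegree_le_of_dvd hd2 hc0
  rw [natDegree_X_pow] at hd3
  omega

/-- the tests may be arbitrary polynomials -/
lemma tests (h s N : ℕ) (G : F[X]) (ht : ∀ j, j < N → Lam h s (G * X ^ j) = 0) :
    ∀ T : F[X], T.degree < (N : ℕ) → Lam h s (G * T) = 0 := by
  have hadd : ∀ A B : F[X], Lam h s (A + B) = Lam h s A + Lam h s B := by
    intro A B
    unfold Lam
    rw [← map_add, ← add_mul]
    congr 2
    rw [add_comp]
    push_cast
    ring
  have hsmul : ∀ (a : F) (A : F[X]), Lam h s (C a * A) = a * Lam h s A := by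
    intro a A
    unfold Lam
    rw [← PowerSeries.coeff_C_mul, ← mul_assoc]
    congr 2
    rw [mul_comp, C_comp]
    push_cast
    ring
  intro T hT
  by_cases hN : N = 0
  · have : T = 0 := by
      rw [← Polynomial.degree_eq_bot]
      subst hN
      simpa using hT
    rw [this, mul_zero]
    have := hsmul 0 0
    simpa using this
  have hTn : T.natDegree < N := by
    by_cases hT0 : T = 0
    · rw [hT0, natDegree_zero]; omega
    · rw [Polynomial.degree_eq_natDegree hT0] at hT
      exact_mod_cast hT
  rw [Polynomial.as_sum_range' T N hTn, Finset.mul_sum]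
  have hsum : ∀ (S : Finset ℕ) (f : ℕ → F[X]), Lam h s (∑ i ∈ S, f i) = ∑ i ∈ S, Lam h s (f i) := by
    intro S f
    classical
    induction S using Finset.induction_on with
    | empty =>
      have := hsmul 0 0
      simpa using this
    | insert a S ha ih => rw [Finset.sum_insert ha, Finset.sum_insert ha, hadd, ih]
  rw [hsum]
  apply Finset.sum_eq_zero
  intro j hj
  rw [Finset.mem_range] at hj
  rw [← Polynomial.C_mul_X_pow_eq_monomial]
  have : G * (C (T.coeff j) * X ^ j) = C (T.coeff j) * (G * X ^ j) := by ring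
  rw [this, hsmul, ht j hj, mul_zero]

end

end LOCaux

open LOCaux in
/-- LOC -/
theorem LOC : S_LOC := by
  intro F _ h2 h s hs h1 h3 G hG ht
  have hs1 : 1 ≤ s := hs.pos
  have ht' := tests h s (2 * (h - s)) G ht
  obtain ⟨A, B, hA, hB, hAB⟩ := decomp h2 (h - s) G hG
  -- `Lam ((1-2X) z^j q(z)) = -2 coeff ...`
  have hodd : ∀ P : F[X], P.comp (1 - X) = P → Lam h s ((1 - 2 * X) * P) =
      -2 * PowerSeries.coeff (h - 1) ((1 - 2 * PowerSeries.X) * (P : PowerSeries F) * DD F (h + s)) := by
    intro P hP
    unfold Lam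
    rw [DD_eq h s hs1, mul_comp, hP]
    have e1 : (1 - 2 * X : F[X]).comp (1 - X) = -(1 - 2 * X) := by
      simp
      ring
    rw [e1]
    have e2 : ((-(1 - 2 * X) * P - (1 - 2 * X) * P : F[X]) : PowerSeries F) =
        PowerSeries.C (-2 : F) * ((1 - 2 * PowerSeries.X) * (P : PowerSeries F)) := by
      have : (PowerSeries.C (-2 : F)) = -2 := by
        rw [map_neg, map_ofNat]
      rw [this]
      push_cast
      have h22 : (((2 : F[X])) : PowerSeries F) = 2 := by
        have : (2 : F[X]) = C 2 := (map_ofNat (C : F →+* F[X]) 2).symm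
        rw [this, Polynomial.coe_C, map_ofNat]
      rw [h22]
      ring
    rw [e2, mul_assoc, PowerSeries.coeff_C_mul]
  have heven : ∀ P : F[X], P.comp (1 - X) = P → Lam h s P = 0 := by
    intro P hP
    unfold Lam
    rw [hP, sub_self]
    simp
  have hadd : ∀ A B : F[X], Lam h s (A + B) = Lam h s A + Lam h s B := by
    intro A B
    unfold Lam
    rw [← map_add, ← add_mul]
    congr 2
    rw [add_comp]
    push_cast
    ring
  have h2' : (-2 : F) ≠ 0 := neg_ne_zero.2 h2
  have hzd : ∀ j, j < h - s → (zz F ^ j).degree < (2 * (h - s) : ℕ) := by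
    intro j hj
    apply lt_of_le_of_lt Polynomial.degree_le_natDegree
    have : (zz F ^ j).natDegree ≤ 2 * j := by
      unfold zz
      apply le_trans natDegree_pow_le
      have : (X * (1 - X) : F[X]).natDegree ≤ 2 := by compute_degree
      nlinarith
    exact_mod_cast (by omega : (zz F ^ j).natDegree < 2 * (h - s))
  have hzd2 : ∀ j, j < h - s → ((1 - 2 * X) * zz F ^ j : F[X]).degree < ((2 * (h - s) : ℕ) : WithBot ℕ) := by
    intro j hj
    apply lt_of_le_of_lt Polynomial.degree_le_natDegree
    have h4 : (zz F ^ j).natDegree ≤ 2 * j := by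
      unfold zz
      apply le_trans natDegree_pow_le
      have : (X * (1 - X) : F[X]).natDegree ≤ 2 := by compute_degree
      nlinarith
    have h5 : (1 - 2 * X : F[X]).natDegree ≤ 1 := by compute_degree
    have h6 : ((1 - 2 * X) * zz F ^ j).natDegree ≤ (1 - 2 * X : F[X]).natDegree + (zz F ^ j).natDegree := natDegree_mul_le
    exact_mod_cast (by omega : ((1 - 2 * X) * zz F ^ j).natDegree < 2 * (h - s))
  -- `B = 0`
  have hB0 : B = 0 := by
    apply main_claim h s hs h1 h3 B hB
    intro j hj
    have h7 := ht' (zz F ^ j) (hzd j hj)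
    have e1 : G * zz F ^ j = (zz F ^ j * A.comp (zz F)) + (1 - 2 * X) * (zz F ^ j * B.comp (zz F)) := by
      rw [hAB]; ring
    rw [e1, hadd, heven, zero_add, hodd] at h7
    · exact (mul_eq_zero.1 h7).resolve_left h2'
    · rw [mul_comp, pow_comp, zz_comp, comp_zz_comp]
    · rw [mul_comp, pow_comp, zz_comp, comp_zz_comp]
  have hA0 : A = 0 := by
    apply main_claim h s hs h1 h3 A hA
    intro j hj
    have h7 := ht' ((1 - 2 * X) * zz F ^ j) (hzd2 j hj)
    have e1 : G * ((1 - 2 * X) * zz F ^ j) = (1 - 2 * X) * (zz F ^ j * A.comp (zz F)) := by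
      rw [hAB, hB0, zero_comp]; ring
    rw [e1, hodd] at h7
    · exact (mul_eq_zero.1 h7).resolve_left h2'
    · rw [mul_comp, pow_comp, zz_comp, comp_zz_comp]
  rw [hAB, hA0, hB0]
  simp

end Pool.Agent.H15.V
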