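import Pool.Agent.H15.V.Stm
import Pool.Graph.R_pool_sql_team_seeded_63374d34.N334.W.LP

/-!
# Project V: NOD, the primes `4n < p ≤ 6n`
-/

set_option autoImplicit false
set_option linter.all false

open Polynomial Pool.Agent.H337R2

namespace Pool.Agent.H15.V

open Pool.Agent.N334.W (mu UInt nx vd MT cv wcl Dcl G2 Hn PS)
open Pool.Agent.N334.W.LPaux (hasse_zero hasse_cast norm_int norm_sum)

namespace NODaux

/-- the basis -/
noncomputable def BZ (rt : ℕ → ℤ) (i : ℕ) : ℤ[X] := ∏ l ∈ Finset.range i, (X - C (rt l))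

theorem BZ_monic (rt : ℕ → ℤ) (i : ℕ) : (BZ rt i).Monic :=
  monic_prod_of_monic _ _ fun _ _ => monic_X_sub_C _

theorem BZ_natDegree (rt : ℕ → ℤ) (i : ℕ) : (BZ rt i).natDegree = i := by
  unfold BZ
  rw [natDegree_prod_of_monic _ _ fun l _ => monic_X_sub_C _,
    Finset.sum_congr rfl fun l _ => natDegree_X_sub_C _]
  simp

theorem BZ_dvd (rt : ℕ → ℤ) (i : ℕ) (a : ℤ) :
    (X - C a) ^ ((Finset.range i).filter fun l => rt l = a).card ∣ BZ rt i := by
  unfold BZ
  rw [← Finset.prod_filter_mul_prod_filter_not (Finset.range i) (fun l => rt l = a)]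
  refine Dvd.dvd.mul_right (dvd_of_eq ?_) _
  rw [Finset.prod_congr rfl (g := fun _ => X - C a), Finset.prod_const]
  intro l hl
  rw [(Finset.mem_filter.1 hl).2]

theorem tay_zero {F : ℤ[X]} {a : ℤ} {T l : ℕ} (h : (X - C a) ^ T ∣ F) (hl : l < T) :
    (taylor (a : ℚ) (F.map (Int.castRingHom ℚ))).coeff l = 0 := by
  rw [taylor_coeff, hasse_cast, hasse_zero h hl]
  simp

theorem tay_int {F : ℤ[X]} (a : ℤ) (p : ℕ) [Fact p.Prime] (l : ℕ) :
    padicNorm p ((taylor (a : ℚ) (F.map (Int.castRingHom ℚ))).coeff l) ≤ 1 := by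
  rw [taylor_coeff, hasse_cast]
  exact norm_int p _

theorem tay_bound {F : ℤ[X]} {a : ℤ} {T : ℕ} (h : (X - C a) ^ T ∣ F) (p : ℕ) [hp : Fact p.Prime] (l : ℕ) :
    padicNorm p ((taylor (a : ℚ) (F.map (Int.castRingHom ℚ))).coeff l) ≤ ((p : ℚ) ^ T)⁻¹ * (p : ℚ) ^ l := by
  have hp1 : (1 : ℚ) ≤ p := by exact_mod_cast hp.1.one_lt.le
  have hp0 : (0 : ℚ) < p := by linarith
  by_cases hl : l < T
  · rw [tay_zero h hl]
    simp only [padicNorm.zero]
    positivity
  · refine (tay_int a p l).trans ?_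
    rw [inv_mul_eq_div, le_div_iff₀ (by positivity), one_mul]
    exact pow_le_pow_right₀ hp1 (not_lt.1 hl)

theorem norm_pp (p : ℕ) [hp : Fact p.Prime] (N : ℕ) : padicNorm p ((p : ℚ) ^ N) = ((p : ℚ) ^ N)⁻¹ := by
  induction N with
  | zero => simp
  | succ N ih => rw [pow_succ, padicNorm.mul, ih, padicNorm.padicNorm_p_of_prime, mul_inv]

theorem partner {n p k : ℕ} (hp : p % 2 = 1) (hk : k ∈ Finset.Icc n (7 * n)) (h : k + p ≤ 7 * n ∨ n + p ≤ k) :
    ∃ c, n ≤ c ∧ 2 * c + p < 8 * n ∧ (c ≡ k [MOD p] ∨ 8 * n - c ≡ k [MOD p]) := by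
  rw [Finset.mem_Icc] at hk
  have key : ∀ k, n ≤ k → k + p ≤ 7 * n →
      ∃ c, n ≤ c ∧ 2 * c + p < 8 * n ∧ (c ≡ k [MOD p] ∨ 8 * n - c ≡ k [MOD p]) := by
    intro k h1 h2
    by_cases h3 : 2 * k + p < 8 * n
    · exact ⟨k, h1, h3, Or.inl rfl⟩
    · refine ⟨8 * n - p - k, by omega, by omega, Or.inr ?_⟩
      have h4 : 8 * n - (8 * n - p - k) = k + p := by omega
      rw [h4]
      exact Nat.add_modEq_right
  rcases h with h | h
  · exact key k hk.1 h
  · obtain ⟨c, h1, h2, h3⟩ := key (k - p) (by omega) (by omega)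
    refine ⟨c, h1, h2, ?_⟩
    have h4 : k - p ≡ k [MOD p] := by
      have : k = k - p + p := by omega
      conv_rhs => rw [this]
      exact Nat.add_modEq_right.symm
    exact h3.imp (fun h => h.trans h4) (fun h => h.trans h4)

/-- the bound of the linear form in terms of the orders of the zeros -/
theorem Lbound (hRD : S_RD) (hPB1 : S_PB1) (hPB2 : S_PB2) (hOMN : S_OMN)
    (b h n q p : ℕ) (u : ℕ → ℚ) (hb : Even b) (hn : 1 ≤ n) (hp : p.Prime) (h4 : 4 * n < p) (h6 : p ≤ 6 * n)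
    (hu : UInt q u) (F : ℤ[X]) (W : ℤ) (T : ℕ → ℕ) (hdvd : ∀ c, (X - C (nd n c)) ^ T c ∣ F)
    (hdeg : 2 * F.natDegree + 1 < h * (6 * n + 1)) (hW0 : -(h : ℤ) ≤ W)
    (hW1 : ∀ c, n ≤ c → 2 * c + p < 8 * n → (h : ℤ) + b - T c ≤ W)
    (hW2 : ∀ c, 1 ≤ c → c < n → T c ≤ b → (b : ℤ) - T c ≤ W) :
    padicNorm p ((q : ℚ) * NL b h n u (F.map (Int.castRingHom ℚ))) ≤ (p : ℚ) ^ W := by
  have : Fact p.Prime := ⟨hp⟩
  have hp1 : (1 : ℚ) ≤ p := by exact_mod_cast hp.one_lt.le
  have hp0 : (0 : ℚ) < p := by linarith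
  have hpodd : p % 2 = 1 := by
    rcases hp.eq_two_or_odd with h | h
    · omega
    · exact h
  have hR0 : (0 : ℚ) ≤ (p : ℚ) ^ W := by positivity
  obtain ⟨g, hg1, hg2⟩ := hRD b h n q p u hb hn hp h4 h6 hu
  set Q : ℚ[X] := F.map (Int.castRingHom ℚ) with hQ
  have hQd : 2 * Q.natDegree + 1 < h * (6 * n + 1) := by
    have : Q.natDegree ≤ F.natDegree := natDegree_map_le
    omega
  have h1 := hg2 Q hQd
  have hq1 : padicNorm p (q : ℚ) ≤ 1 := by exact_mod_cast norm_int p (q : ℤ)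
  -- the partial fraction coefficients
  have hpa1 : ∀ k ∈ sN n, (k + p ≤ 7 * n ∨ n + p ≤ k) → ∀ i, 1 ≤ i → i ≤ h →
      padicNorm p (pa (sN n) (mu h) (PN h n * Q.comp (xp n)) k i) ≤ (p : ℚ) ^ (W - b - i) := by
    intro k hk hk2 i hi1 hi2
    obtain ⟨c, hc1, hc2, hc3⟩ := partner hpodd hk hk2
    have h3 := hPB1 h n p k c i Q (((p : ℚ) ^ T c)⁻¹) hn hp h4 h6 hk (by omega) hc3
      (tay_bound (hdvd c) p) hi1 hi2
    refine h3.trans ?_
    have h5 : ((p : ℚ) ^ T c)⁻¹ * (p : ℚ) ^ (h - i) = (p : ℚ) ^ ((h : ℤ) - i - T c) := by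
      rw [zpow_sub₀ hp0.ne', zpow_natCast, inv_mul_eq_div]
      congr 1
      rw [← zpow_natCast]
      congr 1
      omega
    rw [h5]
    apply zpow_le_zpow_right₀ hp1
    have := hW1 c hc1 hc2
    omega
  have hpa2 : ∀ k ∈ sN n, ∀ i, 1 ≤ i → i ≤ h →
      padicNorm p (pa (sN n) (mu h) (PN h n * Q.comp (xp n)) k i) ≤ (p : ℚ) ^ W := by
    intro k hk i hi1 hi2
    by_cases hk2 : k + p ≤ 7 * n ∨ n + p ≤ k
    · refine (hpa1 k hk hk2 i hi1 hi2).trans ?_
      apply zpow_le_zpow_right₀ hp1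
      omega
    · push Not at hk2
      have h3 := hPB2 h n p k i F hn hp h4 h6 hk (by rw [Finset.mem_Icc]; omega) hk2.2 hi1 hi2
      refine h3.trans ?_
      rw [← zpow_natCast, ← zpow_neg]
      exact zpow_le_zpow_right₀ hp1 hW0
  -- the right hand side
  have e1 : padicNorm p (∑ i ∈ Finset.Icc 1 h, ∑ k ∈ sN n,
      pa (sN n) (mu h) (PN h n * Q.comp (xp n)) k i * g i k) ≤ (p : ℚ) ^ W := by
    refine norm_sum p _ _ _ hR0 fun i hi => norm_sum p _ _ _ hR0 fun k hk => ?_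
    rw [Finset.mem_Icc] at hi
    rw [padicNorm.mul]
    calc _ ≤ (p : ℚ) ^ W * 1 := by
          apply mul_le_mul (hpa2 k hk i hi.1 hi.2) (hg1 i k hi.1 hk) (padicNorm.nonneg _) hR0
      _ = _ := mul_one _
  -- the poles `k ≥ n + p`
  have e2 : padicNorm p (∑ k ∈ Finset.Icc (n + p) (7 * n), lam b h n p k Q) ≤ (p : ℚ) ^ W := by
    refine norm_sum p _ _ _ hR0 fun k hk => ?_
    rw [Finset.mem_Icc] at hk
    unfold lam
    refine norm_sum p _ _ _ hR0 fun i hi => ?_
    rw [Finset.mem_Icc] at hi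
    have h3 := hpa1 k (by rw [Finset.mem_Icc]; omega) (Or.inr hk.1) i hi.1 hi.2
    rw [padicNorm.div, padicNorm.mul]
    have h5 : padicNorm p ((p : ℚ) ^ (i + b)) = ((p : ℚ) ^ (i + b))⁻¹ := by
      exact norm_pp p (i + b)
    rw [h5, div_inv_eq_mul]
    have h6 : padicNorm p (((i - 1 + b).choose (i - 1) : ℕ) : ℚ) ≤ 1 := by
      exact_mod_cast norm_int p (((i - 1 + b).choose (i - 1) : ℕ) : ℤ)
    calc _ ≤ 1 * (p : ℚ) ^ (W - b - i) * (p : ℚ) ^ (i + b) := by
          apply mul_le_mul_of_nonneg_right _ (by positivity)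
          exact mul_le_mul h6 h3 (padicNorm.nonneg _) zero_le_one
      _ = _ := by
          rw [one_mul, ← zpow_natCast, ← zpow_add₀ hp0.ne']
          congr 1
          push_cast
          ring
  -- the nodes
  have e3 : padicNorm p (NS b h n Q) ≤ (p : ℚ) ^ W := by
    unfold NS
    refine norm_sum p _ _ _ hR0 fun c hc => norm_sum p _ _ _ hR0 fun k hk => ?_
    rw [Finset.mem_Icc] at hc
    rw [Finset.mem_range] at hk
    have h3 : -(c : ℚ) * (-(c : ℚ) + ((8 * n : ℕ) : ℚ)) = ((nd n c : ℤ) : ℚ) := by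
      unfold nd
      push_cast
      ring
    rw [h3, hQ, hasse_cast]
    by_cases hkT : k < T c
    · rw [hasse_zero (hdvd c) hkT]
      simpa using hR0
    · have h5 := (hOMN b h n p c hn hp h4 h6 hc.1 (by omega)).1 k (by omega)
      rw [padicNorm.mul]
      calc _ ≤ (p : ℚ) ^ (b - k) * 1 := by
            apply mul_le_mul h5 (norm_int p _) (padicNorm.nonneg _) (by positivity)
        _ = (p : ℚ) ^ (b - k) := mul_one _
        _ ≤ (p : ℚ) ^ W := by
            rw [← zpow_natCast]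
            apply zpow_le_zpow_right₀ hp1
            have := hW2 c hc.1 (by omega) (by omega)
            omega
  have h2 : (q : ℚ) * NL b h n u Q = ∑ i ∈ Finset.Icc 1 h, ∑ k ∈ sN n,
      pa (sN n) (mu h) (PN h n * Q.comp (xp n)) k i * g i k - (q : ℚ) * NS b h n Q -
        (q : ℚ) * ∑ k ∈ Finset.Icc (n + p) (7 * n), lam b h n p k Q := by
    rw [← h1]
    ring
  rw [h2]
  refine padicNorm.sub.trans (max_le (padicNorm.sub.trans (max_le e1 ?_)) ?_)
  · rw [padicNorm.mul]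
    calc _ ≤ 1 * (p : ℚ) ^ W := mul_le_mul hq1 e3 (padicNorm.nonneg _) zero_le_one
      _ = _ := one_mul _
  · rw [padicNorm.mul]
    calc _ ≤ 1 * (p : ℚ) ^ W := mul_le_mul hq1 e2 (padicNorm.nonneg _) zero_le_one
      _ = _ := one_mul _

/-- the sum of the exponents of a cluster -/
theorem sum_cluster (h β : ℕ) : ∑ j ∈ Finset.range (h + 2 * β + 1),
    max 0 (((h + 2 * β : ℕ) : ℤ) - 2 * (j : ℤ) - -(h : ℤ)) = (((h + β) * (h + β + 1) : ℕ) : ℤ) := by
  have h1 : h + 2 * β + 1 = (h + β + 1) + β := by ring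
  rw [h1, Finset.sum_range_add]
  have h2 : ∑ x ∈ Finset.range β, max 0 (((h + 2 * β : ℕ) : ℤ) - 2 * ((h + β + 1 + x : ℕ) : ℤ) - -(h : ℤ)) = 0 := by
    apply Finset.sum_eq_zero
    intro x _
    apply max_eq_left
    push_cast
    omega
  rw [h2, add_zero]
  have h3 : ∑ x ∈ Finset.range (h + β + 1), max 0 (((h + 2 * β : ℕ) : ℤ) - 2 * (x : ℤ) - -(h : ℤ)) =
      ∑ x ∈ Finset.range (h + β + 1), (2 * (h + β : ℤ) - 2 * (x : ℤ)) := by
    apply Finset.sum_congr rfl
    intro x hx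
    rw [Finset.mem_range] at hx
    rw [max_eq_right]
    · push_cast
      ring
    · push_cast
      omega
  rw [h3]
  have h4 : ∀ N : ℕ, ∑ x ∈ Finset.range (N + 1), (2 * (N : ℤ) - 2 * (x : ℤ)) = (N : ℤ) * (N + 1) := by
    intro N
    rw [Finset.sum_sub_distrib, Finset.sum_const, Finset.card_range, ← Finset.mul_sum]
    have h5 : (∑ i ∈ Finset.range (N + 1), (i : ℤ)) * 2 = ((N : ℤ) + 1) * N := by
      have := Finset.sum_range_id_mul_two (N + 1)
      rw [Nat.add_sub_cancel] at this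
      have h6 := congrArg (Nat.cast : ℕ → ℤ) this
      push_cast at h6
      linarith
    rw [nsmul_eq_mul]
    push_cast
    linarith
  have h5 := h4 (h + β)
  push_cast at h5 ⊢
  exact h5

/-- the sum of the exponents of a node -/
theorem sum_node (b h : ℕ) (hbh : b ≤ h) : ∑ j ∈ Finset.range (b + 1),
    max 0 ((b : ℤ) - 2 * (j : ℤ) - -(h : ℤ)) = (((b + 1) * h : ℕ) : ℤ) := by
  have h3 : ∑ x ∈ Finset.range (b + 1), max 0 ((b : ℤ) - 2 * (x : ℤ) - -(h : ℤ)) =
      ∑ x ∈ Finset.range (b + 1), ((b : ℤ) + h - 2 * (x : ℤ)) := by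
    apply Finset.sum_congr rfl
    intro x hx
    rw [Finset.mem_range] at hx
    rw [max_eq_right]
    · ring
    · omega
  rw [h3, Finset.sum_sub_distrib, Finset.sum_const, Finset.card_range, ← Finset.mul_sum]
  have h5 : (∑ i ∈ Finset.range (b + 1), (i : ℤ)) * 2 = ((b : ℤ) + 1) * b := by
    have := Finset.sum_range_id_mul_two (b + 1)
    rw [Nat.add_sub_cancel] at this
    have h6 := congrArg (Nat.cast : ℕ → ℤ) this
    push_cast at h6
    linarith
  rw [nsmul_eq_mul]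
  push_cast
  linarith

end NODaux

open NODaux

theorem NOD_of (hRD : S_RD) (hPB1 : S_PB1) (hPB2 : S_PB2) (hOMN : S_OMN) (hGRC : S_GRC)
    (hGB : Pool.Agent.N334.W.S_GB) : S_NOD := by
  intro b h n q p u hb hh hbh hn hp h4 h6 hu
  have : Fact p.Prime := ⟨hp⟩
  have hp1 : (1 : ℝ) ≤ p := by exact_mod_cast hp.one_lt.le
  have hp1q : (1 : ℚ) ≤ p := by exact_mod_cast hp.one_lt.le
  have hp0 : (0 : ℝ) < p := by linarith
  have hpodd : p % 2 = 1 := by
    rcases hp.eq_two_or_odd with h | h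
    · omega
    · exact h
  obtain ⟨m, hm⟩ : ∃ m, m = (b + 1) * (3 * n - 1) := ⟨_, rfl⟩
  obtain ⟨K, hK⟩ : ∃ K, K = (6 * n - p + 1) / 2 := ⟨_, rfl⟩
  obtain ⟨β, hβ⟩ : ∃ β, b = 2 * β := ⟨b / 2, by obtain ⟨r, hr⟩ := hb; omega⟩
  -- the classes
  let cl : ℕ → ℕ := fun a => if a < K then n + a else a - K + 1
  let e : Fin (K + (n - 1)) → ℤ := fun a => if a.1 < K then ((h + 2 * β : ℕ) : ℤ) else (b : ℤ)
  let cap : Fin (K + (n - 1)) → ℕ := fun a => if a.1 < K then h + 2 * β + 1 else b + 1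
  obtain ⟨c, w, hw0, hw1, hw2⟩ := hGRC (K + (n - 1)) e cap (-(h : ℤ))
  let rt : ℕ → ℤ := fun l => match c l with
    | some a => nd n (cl a.1)
    | none => 0
  have hcnt : ∀ (i : ℕ) (a : Fin (K + (n - 1))), ((Finset.range i).filter fun l => c l = some a).card ≤
      ((Finset.range i).filter fun l => rt l = nd n (cl a.1)).card := by
    intro i a
    apply Finset.card_le_card
    intro l hl
    rw [Finset.mem_filter] at hl ⊢
    refine ⟨hl.1, ?_⟩
    show (match c l with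
      | some a => nd n (cl a.1)
      | none => 0) = _
    rw [hl.2]
  -- the weights
  have hclu : ∀ i c', n ≤ c' → 2 * c' + p < 8 * n →
      (h : ℤ) + b - 2 * (((Finset.range i).filter fun l => rt l = nd n c').card : ℤ) ≤ w i := by
    intro i c' h1 h2
    have h3 : c' - n < K := by omega
    let a : Fin (K + (n - 1)) := ⟨c' - n, by omega⟩
    have h5 : cl a.1 = c' := by
      show (if c' - n < K then n + (c' - n) else c' - n - K + 1) = c'
      rw [if_pos h3]
      omega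
    have h6 := hcnt i a
    rw [h5] at h6
    have h7 := hw1 i a
    have h8 : e a = ((h + 2 * β : ℕ) : ℤ) := if_pos h3
    have h9 : cap a = h + 2 * β + 1 := if_pos h3
    rw [h8, h9] at h7
    by_cases h10 : ((Finset.range i).filter fun l => c l = some a).card < h + 2 * β + 1
    · have h11 := h7 h10
      push_cast at h11
      omega
    · have := hw0 i
      omega
  have hnod : ∀ i c', 1 ≤ c' → c' < n → ((Finset.range i).filter fun l => rt l = nd n c').card ≤ b →
      (b : ℤ) - 2 * (((Finset.range i).filter fun l => rt l = nd n c').card : ℤ) ≤ w i := by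
    intro i c' h1 h2 h3
    let a : Fin (K + (n - 1)) := ⟨K + (c' - 1), by omega⟩
    have h4 : ¬ (K + (c' - 1) < K) := by omega
    have h5 : cl a.1 = c' := by
      show (if K + (c' - 1) < K then n + (K + (c' - 1)) else K + (c' - 1) - K + 1) = c'
      rw [if_neg h4]
      omega
    have h6 := hcnt i a
    rw [h5] at h6
    have h7 := hw1 i a
    have h8 : e a = (b : ℤ) := if_neg h4
    have h9 : cap a = b + 1 := if_neg h4
    rw [h8, h9] at h7
    have h10 := h7 (by omega)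
    omega
  -- the basis
  set B : ℕ → ℚ[X] := fun i => (BZ rt i).map (Int.castRingHom ℚ) with hB
  have hBm : ∀ i, (B i).Monic ∧ (B i).natDegree = i := by
    intro i
    refine ⟨(BZ_monic rt i).map _, ?_⟩
    rw [hB]
    simp only
    rw [(BZ_monic rt i).natDegree_map, BZ_natDegree]
  let L : ℚ[X] →ₗ[ℚ] ℚ := (q : ℚ) • NL b h n u
  have hL : ∀ P, L P = (q : ℚ) * NL b h n u P := fun P => rfl
  let ρ : ℕ → ℝ := fun i => (p : ℝ) ^ ((w i : ℝ) / 2)
  have hρ : ∀ i, 0 ≤ ρ i := fun i => Real.rpow_nonneg hp0.le _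
  have key : ∀ i j, i < m → j < m → ((padicNorm p (L (B i * B j)) : ℚ) : ℝ) ≤ ρ i * ρ j := by
    intro i j hi hj
    have hBB : B i * B j = (BZ rt i * BZ rt j).map (Int.castRingHom ℚ) := by
      rw [Polynomial.map_mul]
    have hFd : (BZ rt i * BZ rt j).natDegree = i + j := by
      rw [(BZ_monic rt i).natDegree_mul (BZ_monic rt j), BZ_natDegree, BZ_natDegree]
    have hdeg : 2 * (BZ rt i * BZ rt j).natDegree + 1 < h * (6 * n + 1) := by
      rw [hFd]
      have h1 : 4 * m ≤ 2 * h * (3 * n - 1) := by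
        rw [hm]
        calc 4 * ((b + 1) * (3 * n - 1)) = 2 * (2 * (b + 1)) * (3 * n - 1) := by ring
          _ ≤ 2 * h * (3 * n - 1) := by gcongr
      have h2 : 2 * h * (3 * n - 1) + 3 * h = h * (6 * n + 1) := by
        obtain ⟨n', hn'⟩ : ∃ n', n = n' + 1 := ⟨n - 1, by omega⟩
        have h3 : 3 * n - 1 = 3 * n' + 2 := by omega
        rw [h3, hn']
        ring
      omega
    have h1 := Lbound hRD hPB1 hPB2 hOMN b h n q p u hb hn hp h4 h6 hu (BZ rt i * BZ rt j) ((w i + w j) / 2)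
      (fun c' => ((Finset.range i).filter fun l => rt l = nd n c').card +
        ((Finset.range j).filter fun l => rt l = nd n c').card)
      (by
        intro c'
        rw [pow_add]
        exact mul_dvd_mul (BZ_dvd rt i _) (BZ_dvd rt j _))
      hdeg
      (by
        have := hw0 i
        have := hw0 j
        omega)
      (by
        intro c' h1 h2
        have := hclu i c' h1 h2
        have := hclu j c' h1 h2
        push_cast
        omega)
      (by
        intro c' h1 h2 h3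
        have := hnod i c' h1 h2 (by omega)
        have := hnod j c' h1 h2 (by omega)
        push_cast
        omega)
    rw [hBB, hL]
    have h3 : ((padicNorm p ((q : ℚ) * NL b h n u ((BZ rt i * BZ rt j).map (Int.castRingHom ℚ))) : ℚ) : ℝ) ≤
        (((p : ℚ) ^ ((w i + w j) / 2) : ℚ) : ℝ) := by
      exact_mod_cast h1
    refine h3.trans ?_
    show (((p : ℚ) ^ ((w i + w j) / 2) : ℚ) : ℝ) ≤ (p : ℝ) ^ ((w i : ℝ) / 2) * (p : ℝ) ^ ((w j : ℝ) / 2)
    rw [← Real.rpow_add hp0]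
    push_cast
    rw [← Real.rpow_intCast]
    apply Real.rpow_le_rpow_of_exponent_le hp1
    have h4 : (((w i + w j) / 2 : ℤ) : ℝ) * 2 ≤ ((w i + w j : ℤ) : ℝ) := by
      have := Int.ediv_mul_le (w i + w j) (show (2 : ℤ) ≠ 0 by norm_num)
      exact_mod_cast this
    push_cast at h4
    linarith
  have hdet := hGB p hp L m B ρ hBm hρ key
  have hdet2 : (Matrix.of fun i j : Fin m => L (X ^ (i.1 + j.1))).det =
      (q : ℚ) ^ m * DET b h n u m := by
    have : (Matrix.of fun i j : Fin m => L (X ^ (i.1 + j.1))) =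
        (q : ℚ) • (Matrix.of fun i j : Fin m => NL b h n u (X ^ (i.1 + j.1))) := by
      ext i j
      rfl
    rw [this, Matrix.det_smul, Fintype.card_fin]
    rfl
  rw [hdet2] at hdet
  -- the product
  have hprod : ∏ i ∈ Finset.range m, ρ i ^ 2 = (((p : ℚ) ^ (∑ i ∈ Finset.range m, w i) : ℚ) : ℝ) := by
    have h1 : ∀ i ∈ Finset.range m, ρ i ^ 2 = (p : ℝ) ^ ((w i : ℤ) : ℝ) := by
      intro i _
      show ((p : ℝ) ^ ((w i : ℝ) / 2)) ^ 2 = _
      rw [← Real.rpow_natCast, ← Real.rpow_mul hp0.le]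
      congr 1
      push_cast
      ring
    rw [Finset.prod_congr rfl h1, ← Real.rpow_sum_of_pos hp0, ← Int.cast_sum, Real.rpow_intCast]
    push_cast
    rfl
  rw [hprod] at hdet
  have hdet3 : padicNorm p ((q : ℚ) ^ m * DET b h n u m) ≤ (p : ℚ) ^ (∑ i ∈ Finset.range m, w i) := by
    exact_mod_cast hdet
  rw [← hm]
  refine hdet3.trans (zpow_le_zpow_right₀ hp1q ?_)
  -- the exponent
  have h5 := hw2 m
  rw [Finset.sum_sub_distrib, Finset.sum_const, Finset.card_range, Fin.sum_univ_add] at h5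
  have h7 : ∀ a : Fin K, ∑ j ∈ Finset.range (cap (Fin.castAdd (n - 1) a)),
      max 0 (e (Fin.castAdd (n - 1) a) - 2 * (j : ℤ) - -(h : ℤ)) = (((h + β) * (h + β + 1) : ℕ) : ℤ) := by
    intro a
    have h8 : e (Fin.castAdd (n - 1) a) = ((h + 2 * β : ℕ) : ℤ) := if_pos a.2
    have h9 : cap (Fin.castAdd (n - 1) a) = h + 2 * β + 1 := if_pos a.2
    rw [h8, h9]
    exact sum_cluster h β
  have h10 : ∀ a : Fin (n - 1), ∑ j ∈ Finset.range (cap (Fin.natAdd K a)),
      max 0 (e (Fin.natAdd K a) - 2 * (j : ℤ) - -(h : ℤ)) = (((b + 1) * h : ℕ) : ℤ) := by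
    intro a
    have h11 : ¬ ((Fin.natAdd K a).1 < K) := by simp
    have h8 : e (Fin.natAdd K a) = (b : ℤ) := if_neg h11
    have h9 : cap (Fin.natAdd K a) = b + 1 := if_neg h11
    rw [h8, h9]
    exact sum_node b h (by omega)
  simp only [h7, h10, Finset.sum_const, Finset.card_univ, Fintype.card_fin] at h5
  unfold EN
  rw [← hm, ← hK]
  have h12 : b / 2 = β := by omega
  rw [h12]
  simp only [nsmul_eq_mul] at h5
  push_cast at h5 ⊢
  linarith

end Pool.Agent.H15.V
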