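import Pool.Agent.H15.V.Stm
import Pool.Graph.R_pool_sql_team_seeded_63374d34.N334.W.NUM

/-!
# Project V, part NUM: the final numerical inequality
-/

open Filter Topology

namespace Pool.Agent.H15.V

open Pool.Agent.N334.W (mu UInt nx vd MT cv wcl Dcl G2 Hn PS)
open Pool.Agent.N334.W.NUMaux (log_le_of_pow le_log_of_pow tendsto_Hn Hn_pred)

noncomputable section

namespace NUMaux

/-- numerical value of `a1` (it is `-11.9637…`) -/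
lemma a1_lt : a1 < -(1191 / 100) := by
  have l2a := Real.log_two_gt_d9
  have l2b := Real.log_two_lt_d9
  have h1 : Real.log (15 / 4) ≤ ((82 : ℕ) : ℝ) / ((43 : ℕ) : ℝ) * Real.log 2 :=
    log_le_of_pow (by norm_num) (by norm_num) (by norm_num)
  have h2 : Real.log (4 / 3) ≤ ((22 : ℕ) : ℝ) / ((53 : ℕ) : ℝ) * Real.log 2 :=
    log_le_of_pow (by norm_num) (by norm_num) (by norm_num)
  have h3 : Real.log (17 / 4) ≤ ((119 : ℕ) : ℝ) / ((57 : ℕ) : ℝ) * Real.log 2 :=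
    log_le_of_pow (by norm_num) (by norm_num) (by norm_num)
  have h4 : Real.log 3 ≤ ((65 : ℕ) : ℝ) / ((41 : ℕ) : ℝ) * Real.log 2 :=
    log_le_of_pow (by norm_num) (by norm_num) (by norm_num)
  have h5 : Real.log (7 / 2) ≤ ((47 : ℕ) : ℝ) / ((26 : ℕ) : ℝ) * Real.log 2 :=
    log_le_of_pow (by norm_num) (by norm_num) (by norm_num)
  have h6 : ((20 : ℕ) : ℝ) / ((7 : ℕ) : ℝ) * Real.log 2 ≤ Real.log (29 / 4) :=
    le_log_of_pow (by norm_num) (by norm_num)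
  have h7 : ((27 : ℕ) : ℝ) / ((10 : ℕ) : ℝ) * Real.log 2 ≤ Real.log (13 / 2) :=
    le_log_of_pow (by norm_num) (by norm_num)
  have e1 : Real.log (3 / 4) = - Real.log (4 / 3) := by
    rw [← Real.log_inv]; norm_num
  have e2 : Real.log (1 / 2) = - Real.log 2 := by
    rw [← Real.log_inv]; norm_num
  unfold a1 G2
  rw [e1, e2]
  push_cast at h1 h2 h3 h4 h5 h6 h7
  nlinarith [h1, h2, h3, h4, h5, h6, h7, l2a, l2b]

end NUMaux

open NUMaux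

theorem NUM : S_NUM := by
  intro s h C hs h1 h2
  set γ := Real.eulerMascheroniConstant with hγ
  have hγ2 : γ < 2 / 3 := Real.eulerMascheroniConstant_lt_two_thirds
  have hs' : (1 : ℝ) ≤ s := by exact_mod_cast hs
  have h1' : 11 * (s : ℝ) ≤ 5 * h := by exact_mod_cast h1
  have h2' : 5 * (h : ℝ) ≤ 12 * s := by exact_mod_cast h2
  have ha := a1_lt
  have l2a := Real.log_two_gt_d9
  have l2b := Real.log_two_lt_d9
  have l6 : ((137 : ℕ) : ℝ) / ((53 : ℕ) : ℝ) * Real.log 2 ≤ Real.log 6 :=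
    le_log_of_pow (by norm_num) (by norm_num)
  have l107 : Real.log (10 / 7) ≤ ((35 : ℕ) : ℝ) / ((68 : ℕ) : ℝ) * Real.log 2 :=
    log_le_of_pow (by norm_num) (by norm_num) (by norm_num)
  push_cast at l6 l107
  set A : ℝ := (s : ℝ) ^ 2 * a1 - (s : ℝ) * (5 * h - 11 * (s : ℝ)) / 5 * (861 / 100) -
    18 * (s : ℝ) ^ 2 * Real.log 6 + 18 * (s : ℝ) ^ 2 * γ +
    (-(18 / 5) * (s : ℝ) * h + 81 / 400 * (2 * (h : ℝ) + s) ^ 2) + (h : ℝ) * s / 2 -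
    (-(9 / 2) * ((h : ℝ) - 2 * s) ^ 2 * Real.log (10 / 7) +
      9 / 5 * (3 * (s : ℝ) ^ 2 - 3 * s * h + 9 / 4 * (h : ℝ) ^ 2) - 459 / 200 * (h : ℝ) ^ 2) with hA
  -- the limit is negative
  have hL : A + C * 0 + (18 * (s : ℝ) ^ 2 + 9 / 2 * (h : ℝ) ^ 2) * (1 - 0) +
      (9 * (h : ℝ) ^ 2 - 18 * s * h) * (γ - 1) - 9 / 4 * (h : ℝ) ^ 2 * (2 * γ - 0 - 1) < 0 := by
    have e1 : A + C * 0 + (18 * (s : ℝ) ^ 2 + 9 / 2 * (h : ℝ) ^ 2) * (1 - 0) +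
      (9 * (h : ℝ) ^ 2 - 18 * s * h) * (γ - 1) - 9 / 4 * (h : ℝ) ^ 2 * (2 * γ - 0 - 1) =
      (s : ℝ) ^ 2 * (a1 - 18 * Real.log 6) - (s : ℝ) * (5 * h - 11 * (s : ℝ)) / 5 * (861 / 100) +
        (-(18 / 5) * (s : ℝ) * h + 81 / 400 * (2 * (h : ℝ) + s) ^ 2) + (h : ℝ) * s / 2 -
        (9 / 5 * (3 * (s : ℝ) ^ 2 - 3 * s * h + 9 / 4 * (h : ℝ) ^ 2) - 459 / 200 * (h : ℝ) ^ 2) +
        (18 * (s : ℝ) ^ 2 + 9 / 2 * (h : ℝ) ^ 2) - (9 * (h : ℝ) ^ 2 - 18 * s * h) +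
        9 / 4 * (h : ℝ) ^ 2 +
        9 / 2 * ((h : ℝ) - 2 * s) ^ 2 * (γ + Real.log (10 / 7)) := by
      rw [hA]; ring
    rw [e1]
    have e2 : 9 / 2 * ((h : ℝ) - 2 * s) ^ 2 * (γ + Real.log (10 / 7)) ≤
        9 / 2 * ((h : ℝ) - 2 * s) ^ 2 * (2 / 3 + 0.35678) := by
      apply mul_le_mul_of_nonneg_left _ (by positivity)
      linarith
    have e4 : (s : ℝ) ^ 2 * (a1 - 18 * Real.log 6) ≤ (s : ℝ) ^ 2 * (-(1191 / 100) - 18 * 1.7917) := by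
      apply mul_le_mul_of_nonneg_left _ (by positivity)
      linarith
    have hs2 : (1 : ℝ) ≤ (s : ℝ) ^ 2 := by nlinarith
    -- the convex quadratic
    have e5 : 0 ≤ (5 * (h : ℝ) - 11 * s) * (12 * s - 5 * h) := by
      apply mul_nonneg <;> linarith
    have e6 : 0 ≤ (5 * (h : ℝ) - 11 * s) * s := by
      apply mul_nonneg <;> linarith
    have e7 : 0 ≤ (12 * s - 5 * (h : ℝ)) * s := by
      apply mul_nonneg <;> linarith
    nlinarith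
  have hD := tendsto_Hn
  have hE : Tendsto (fun J : ℕ => 1 / (J : ℝ)) atTop (𝓝 0) := tendsto_one_div_atTop_nhds_zero_nat
  have hlim : Tendsto (fun J : ℕ => A + C * (1 / (J : ℝ)) +
      (18 * (s : ℝ) ^ 2 + 9 / 2 * (h : ℝ) ^ 2) * (1 - 1 / (J : ℝ)) +
      (9 * (h : ℝ) ^ 2 - 18 * s * h) * ((Hn J - Real.log J) - 1) -
      9 / 4 * (h : ℝ) ^ 2 * (2 * (Hn J - Real.log J) - 1 / (J : ℝ) - 1)) atTop
      (𝓝 (A + C * 0 + (18 * (s : ℝ) ^ 2 + 9 / 2 * (h : ℝ) ^ 2) * (1 - 0) +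
      (9 * (h : ℝ) ^ 2 - 18 * s * h) * (γ - 1) - 9 / 4 * (h : ℝ) ^ 2 * (2 * γ - 0 - 1))) := by
    apply Tendsto.sub
    · apply Tendsto.add
      · apply Tendsto.add
        · exact tendsto_const_nhds.add (hE.const_mul C)
        · exact (tendsto_const_nhds.sub hE).const_mul _
      · exact (hD.sub tendsto_const_nhds).const_mul _
    · exact (((hD.const_mul 2).sub hE).sub tendsto_const_nhds).const_mul _
  have hev := hlim.eventually (gt_mem_nhds hL)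
  obtain ⟨J, hJ, hJ1⟩ := (hev.and (eventually_ge_atTop 2)).exists
  refine ⟨J, hJ1, ?_⟩
  have hfin : (s : ℝ) ^ 2 * a1 - (s : ℝ) * (5 * h - 11 * (s : ℝ)) / 5 * (861 / 100) -
    18 * (s : ℝ) ^ 2 * Real.log 6 + 18 * (s : ℝ) ^ 2 * Real.log J +
    18 * (s : ℝ) ^ 2 * γ + C / J + e0 s h J +
    (-(18 / 5) * (s : ℝ) * h + 81 / 400 * (2 * (h : ℝ) + s) ^ 2) + (h : ℝ) * s / 2 =
    A + C * (1 / (J : ℝ)) +
      (18 * (s : ℝ) ^ 2 + 9 / 2 * (h : ℝ) ^ 2) * (1 - 1 / (J : ℝ)) +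
      (9 * (h : ℝ) ^ 2 - 18 * s * h) * ((Hn J - Real.log J) - 1) -
      9 / 4 * (h : ℝ) ^ 2 * (2 * (Hn J - Real.log J) - 1 / (J : ℝ) - 1) := by
    unfold e0
    rw [Hn_pred (by omega : 1 ≤ J), hA]
    ring
  rw [hfin]
  exact hJ

end

end Pool.Agent.H15.V
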