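import Pool.Agent.H15.V.NVaux

/-!
# Project V: NV, non-vanishing
-/

set_option autoImplicit false
set_option linter.all false

open Polynomial Pool.Agent.H337R2

namespace Pool.Agent.H15.V

open Pool.Agent.N334.W (mu UInt nx vd MT cv wcl Dcl G2 Hn PS)
open Pool.Agent.N334.W.LPaux (hasse_zero hasse_cast norm_int norm_sum)

open NODaux NVaux

/-- NVc: the form of LOC that NV needs -/
def S_NVc : Prop := ∀ h s p : ℕ, p.Prime → p ≠ 2 → Odd s → 2 * s ≤ h → 2 * h < 5 * s + 1 → ∀ z : ℕ → ℤ,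
  (∀ j < 2 * (h - s), (p : ℤ) ∣ ∑ l ∈ Finset.range (2 * (h - s)), z l * Lam h s (X ^ (l + j) : ℤ[X])) →
  ∀ l < 2 * (h - s), (p : ℤ) ∣ z l

namespace NVaux

lemma norm_zpp (p : ℕ) [hp : Fact p.Prime] (z : ℤ) : padicNorm p ((p : ℚ) ^ z) = (p : ℚ) ^ (-z) := by
  obtain ⟨n, rfl | rfl⟩ := z.eq_nat_or_neg
  · rw [zpow_natCast, norm_pp, zpow_neg, zpow_natCast]
  · rw [zpow_neg, zpow_natCast, neg_neg, zpow_natCast, ← one_div, padicNorm.div, norm_pp]
    simp

/-- the node case -/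
lemma node_case (hOMN : S_OMN) {b h n p c0 : ℕ} (hn : 1 ≤ n) (hp : p.Prime) (h4 : 4 * n < p) (h6 : p ≤ 6 * n)
    (hc0 : 1 ≤ c0) (hc0n : c0 < n) (P G : ℤ[X]) (B : ℚ)
    (hG : ∀ c, 1 ≤ c → c < n → c ≠ c0 → (X - C (nd n c)) ^ (b + 1) ∣ G)
    (hG0 : padicNorm p (((taylor (nd n c0) G).coeff 0 : ℤ) : ℚ) = 1)
    (hNS : ∀ j, j < b + 1 →
      padicNorm p (NS b h n ((P * ((X - C (nd n c0)) ^ j * G)).map (Int.castRingHom ℚ))) ≤ B) :
    ∀ i, i < b + 1 → padicNorm p (((taylor (nd n c0) P).coeff i : ℤ) : ℚ) ≤ B * (p : ℚ) ^ i := by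
  have : Fact p.Prime := ⟨hp⟩
  obtain ⟨hO1, hO2⟩ := hOMN b h n p c0 hn hp h4 h6 hc0 hc0n
  have hd := descent (p := p) (b := b) (B := B) (fun k => om b h n (-(c0 : ℚ)) k)
    (fun i => (taylor (nd n c0) P * taylor (nd n c0) G).coeff i) hO1 hO2 (by
      intro a i hai
      have hr := hNS a (by omega)
      unfold NS at hr
      rw [Finset.sum_eq_single_of_mem c0 (Finset.mem_Icc.2 (by omega))] at hr
      · have e : ∑ k ∈ Finset.range (b + 1), om b h n (-(c0 : ℚ)) k *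
            (hasseDeriv k ((P * ((X - C (nd n c0)) ^ a * G)).map
              (Int.castRingHom ℚ))).eval (-(c0 : ℚ) * (-(c0 : ℚ) + ((8 * n : ℕ) : ℚ))) =
            ∑ j ∈ Finset.range (i + 1), om b h n (-(c0 : ℚ)) (a + j) *
              (((taylor (nd n c0) P * taylor (nd n c0) G).coeff j : ℤ) : ℚ) := by
          have hb1 : b + 1 = a + (i + 1) := by omega
          have hT : ∀ k, (taylor (nd n c0) (P * ((X - C (nd n c0)) ^ a * G))).coeff k =
              if a ≤ k then (taylor (nd n c0) P * taylor (nd n c0) G).coeff (k - a) else 0 := by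
            intro k
            have e2 : P * ((X - C (nd n c0)) ^ a * G) = (X - C (nd n c0)) ^ a * (P * G) := by ring
            rw [e2, taylor_mul, taylor_pow, tay_X, coeff_X_pow_mul', taylor_mul]
          rw [hb1, Finset.sum_range_add, Finset.sum_eq_zero, zero_add]
          · refine Finset.sum_congr rfl fun j _ => ?_
            rw [eval_nd, hT, if_pos (Nat.le_add_right a j), Nat.add_sub_cancel_left]
          · intro k hk
            rw [eval_nd, hT, if_neg (by have := Finset.mem_range.1 hk; omega)]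
            simp
        rw [e] at hr
        exact hr
      · intro c hc hcne
        rw [Finset.mem_Icc] at hc
        refine Finset.sum_eq_zero fun k hk => ?_
        have hdvd : (X - C (nd n c)) ^ (b + 1) ∣ P * ((X - C (nd n c0)) ^ a * G) :=
          Dvd.dvd.mul_left (Dvd.dvd.mul_left (hG c hc.1 (by omega) hcne) _) _
        obtain ⟨H, hH⟩ := hdvd
        rw [eval_nd, hH, taylor_mul, taylor_pow, tay_X, coeff_X_pow_mul',
          if_neg (by have := Finset.mem_range.1 hk; omega)]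
        simp)
  exact div_unit (N := b + 1) hG0 (fun i hi => hd i (by omega))

/-- the cluster case -/
lemma cluster_case (hCLU : S_CLU) (hNVc : S_NVc) {b h n p c0 : ℕ} (hb : Even b) (hh : Even h) (hbh : 2 * (b + 1) ≤ h)
    (h25 : 2 * h < 5 * (b + 1) + 1) (hn : 1 ≤ n) (hp : p.Prime) (h4 : 4 * n < p) (h6 : p ≤ 6 * n)
    (hc0 : n ≤ c0) (hc0n : 2 * c0 + p < 8 * n) (P G : ℤ[X]) (e : ℕ) (he : 2 * e = h + b) (i0 : ℕ)
    (hi0 : i0 < 2 * (h - (b + 1))) (v : ℚ)
    (hv0 : (taylor (nd n c0) P).coeff i0 ≠ 0)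
    (hv : v = padicNorm p (((taylor (nd n c0) P).coeff i0 : ℤ) : ℚ) * (p : ℚ) ^ ((e : ℤ) - i0))
    (hG0 : padicNorm p (((taylor (nd n c0) G).coeff 0 : ℤ) : ℚ) = 1)
    (hP : ∀ i, padicNorm p (((taylor (nd n c0) P).coeff i : ℤ) : ℚ) ≤ (v * ((p : ℚ) ^ e)⁻¹) * (p : ℚ) ^ i)
    (h1v : 1 ≤ v * ((p : ℚ) ^ e)⁻¹ * (p : ℚ) ^ (2 * (h - (b + 1)) - 1))
    (hla : ∀ j, j < 2 * (h - (b + 1)) →
      padicNorm p (lam b h n p (c0 + p) ((P * ((X - C (nd n c0)) ^ j * G)).map (Int.castRingHom ℚ)) +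
        lam b h n p (8 * n - c0) ((P * ((X - C (nd n c0)) ^ j * G)).map (Int.castRingHom ℚ))) ≤
        v * (p : ℚ) ^ ((e : ℤ) - j - 1)) : False := by
  have : Fact p.Prime := ⟨hp⟩
  have hp1 : (1 : ℚ) ≤ p := by exact_mod_cast hp.one_lt.le
  have hp1' : (1 : ℚ) < p := by exact_mod_cast hp.one_lt
  have hp0 : (0 : ℚ) < p := by linarith
  obtain ⟨r, hr⟩ : ∃ r, r = 2 * (h - (b + 1)) := ⟨_, rfl⟩
  rw [← hr] at hi0 h1v hla
  have hr1 : 1 ≤ r := by omega
  have hv00 : 0 < v := by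
    rw [hv]
    apply mul_pos _ (by positivity)
    exact lt_of_le_of_ne (padicNorm.nonneg _) (fun h => hv0 (by exact_mod_cast padicNorm.zero_of_padicNorm_eq_zero h.symm))
  obtain ⟨U, hU1, hU2⟩ := hCLU b h n p c0 hb hh (by omega) hn hp h4 h6 hc0 hc0n
  obtain ⟨ξ, hξ⟩ : ∃ ξ, ξ = nd n c0 := ⟨_, rfl⟩
  rw [← hξ] at hv0 hv hG0 hP hla hU2
  obtain ⟨θ, hθ⟩ : ∃ θ : ℤ, θ = 2 * c0 - 8 * n := ⟨_, rfl⟩
  have hθq : ((2 * c0 : ℚ) - 8 * n) = ((θ : ℤ) : ℚ) := by
    rw [hθ]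
    push_cast
    ring
  have hθ1 : padicNorm p ((θ : ℤ) : ℚ) = 1 := by
    rw [padicNorm.int_eq_one_iff]
    rintro ⟨k, hk⟩
    rcases le_or_gt k (-2) with h2 | h2
    · have h3 : (p : ℤ) * k ≤ p * (-2) := mul_le_mul_of_nonneg_left h2 (by omega)
      omega
    · have h3 : (p : ℤ) * (-1) ≤ p * k := mul_le_mul_of_nonneg_left (by omega) (by omega)
      omega
  -- the Taylor coefficients of `P G`
  obtain ⟨W, hW⟩ : ∃ W : ℕ → ℤ, ∀ l, W l = (taylor ξ P * taylor ξ G).coeff l := ⟨_, fun l => rfl⟩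
  have hWb : ∀ l, padicNorm p ((W l : ℤ) : ℚ) ≤ (v * ((p : ℚ) ^ e)⁻¹) * (p : ℚ) ^ l := by
    intro l
    rw [hW]
    exact mul_bound hP l
  obtain ⟨N, hN⟩ : ∃ N, N = r + ((P * G).natDegree + 1) := ⟨_, rfl⟩
  have hexp : ∀ j, (P * ((X - C ξ) ^ j * G)).map (Int.castRingHom ℚ) =
      ∑ l ∈ Finset.range N, C ((W l : ℤ) : ℚ) * (X - C ((ξ : ℤ) : ℚ)) ^ (l + j) := by
    intro j
    have e1 : P * ((X - C ξ) ^ j * G) = (X - C ξ) ^ j * (P * G) := by ring
    have e2 := tay_sum (P * G) ξ N (by omega)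
    rw [e1, e2, Finset.mul_sum, Polynomial.map_sum]
    refine Finset.sum_congr rfl fun l _ => ?_
    rw [hW, ← taylor_mul]
    rw [Polynomial.map_mul, Polynomial.map_mul, Polynomial.map_pow, Polynomial.map_pow, Polynomial.map_sub,
      Polynomial.map_X, Polynomial.map_C, Polynomial.map_C, pow_add]
    simp only [eq_intCast]
    ring
  -- the local functional
  have hloc : ∀ j, j < r → padicNorm p (∑ l ∈ Finset.range r,
      ((W l * θ ^ l * (p : ℤ) ^ l : ℤ) : ℚ) * ((Lam h (b + 1) (X ^ (l + j) : ℤ[X]) : ℤ) : ℚ)) ≤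
      v * ((p : ℚ) ^ (e + 1))⁻¹ := by
    intro j hj
    have h1 := hla j hj
    rw [hexp j, lam_sum, lam_sum, ← Finset.sum_add_distrib] at h1
    simp only [← mul_add] at h1
    obtain ⟨R, hR⟩ : ∃ R, R = v * (p : ℚ) ^ ((e : ℤ) - j - 1) := ⟨_, rfl⟩
    have hR0 : 0 ≤ R := by rw [hR]; positivity
    rw [← hR] at h1
    -- the terms
    have h2 : ∀ l ∈ Finset.range N, padicNorm p (((W l : ℤ) : ℚ) *
        (lam b h n p (c0 + p) ((X - C ((ξ : ℤ) : ℚ)) ^ (l + j)) +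
          lam b h n p (8 * n - c0) ((X - C ((ξ : ℤ) : ℚ)) ^ (l + j))) -
        ((W l : ℤ) : ℚ) * (U * ((θ : ℤ) : ℚ) ^ (l + j) * (p : ℚ) ^ (((l + j : ℕ) : ℤ) - h - b) *
          ((Lam h (b + 1) (X ^ (l + j) : ℤ[X]) : ℤ) : ℚ))) ≤ R := by
      intro l _
      rw [← mul_sub, padicNorm.mul]
      have h3 := hU2 (l + j)
      rw [hθq] at h3
      calc _ ≤ ((v * ((p : ℚ) ^ e)⁻¹) * (p : ℚ) ^ l) * (p : ℚ) ^ ((h : ℤ) + b - ((l + j : ℕ) : ℤ) - 1) :=
            mul_le_mul (hWb l) h3 (padicNorm.nonneg _) (by positivity)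
        _ = R := by
            rw [hR, ← zpow_natCast, ← zpow_neg, ← zpow_natCast, mul_assoc, mul_assoc, ← zpow_add₀ hp0.ne',
              ← zpow_add₀ hp0.ne']
            congr 2
            push_cast
            omega
    have h3 : padicNorm p (∑ l ∈ Finset.range N, ((W l : ℤ) : ℚ) * (U * ((θ : ℤ) : ℚ) ^ (l + j) *
        (p : ℚ) ^ (((l + j : ℕ) : ℤ) - h - b) * ((Lam h (b + 1) (X ^ (l + j) : ℤ[X]) : ℤ) : ℚ))) ≤ R := by
      have h4 := norm_sum p (Finset.range N) _ R hR0 h2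
      rw [Finset.sum_sub_distrib] at h4
      have h5 := padicNorm.sub (p := p) (q := (∑ l ∈ Finset.range N, ((W l : ℤ) : ℚ) *
        (lam b h n p (c0 + p) ((X - C ((ξ : ℤ) : ℚ)) ^ (l + j)) +
          lam b h n p (8 * n - c0) ((X - C ((ξ : ℤ) : ℚ)) ^ (l + j)))))
        (r := (∑ l ∈ Finset.range N, ((W l : ℤ) : ℚ) *
        (lam b h n p (c0 + p) ((X - C ((ξ : ℤ) : ℚ)) ^ (l + j)) +
          lam b h n p (8 * n - c0) ((X - C ((ξ : ℤ) : ℚ)) ^ (l + j)))) - ∑ l ∈ Finset.range N,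
        ((W l : ℤ) : ℚ) * (U * ((θ : ℤ) : ℚ) ^ (l + j) * (p : ℚ) ^ (((l + j : ℕ) : ℤ) - h - b) *
          ((Lam h (b + 1) (X ^ (l + j) : ℤ[X]) : ℤ) : ℚ)))
      rw [sub_sub_cancel] at h5
      exact h5.trans (max_le h1 h4)
    -- the terms with `r ≤ l`
    have h6 : padicNorm p (∑ l ∈ Finset.range r, ((W l : ℤ) : ℚ) * (U * ((θ : ℤ) : ℚ) ^ (l + j) *
        (p : ℚ) ^ (((l + j : ℕ) : ℤ) - h - b) * ((Lam h (b + 1) (X ^ (l + j) : ℤ[X]) : ℤ) : ℚ))) ≤ R := by
      rw [hN, Finset.sum_range_add] at h3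
      have h7 : padicNorm p (∑ x ∈ Finset.range ((P * G).natDegree + 1), ((W (r + x) : ℤ) : ℚ) *
          (U * ((θ : ℤ) : ℚ) ^ (r + x + j) *
          (p : ℚ) ^ (((r + x + j : ℕ) : ℤ) - h - b) * ((Lam h (b + 1) (X ^ (r + x + j) : ℤ[X]) : ℤ) : ℚ))) ≤ R := by
        refine norm_sum p _ _ R hR0 fun x _ => ?_
        rw [padicNorm.mul, padicNorm.mul, padicNorm.mul, padicNorm.mul, hU1, one_mul]
        have h8 : padicNorm p (((θ : ℤ) : ℚ) ^ (r + x + j)) ≤ 1 := by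
          exact_mod_cast norm_int p (θ ^ (r + x + j))
        have h9 : padicNorm p ((p : ℚ) ^ (((r + x + j : ℕ) : ℤ) - h - b)) =
            (p : ℚ) ^ ((h : ℤ) + b - ((r + x + j : ℕ) : ℤ)) := by
          rw [norm_zpp]
          congr 1
          ring
        rw [h9]
        have h10 : padicNorm p ((W (r + x) : ℤ) : ℚ) ≤ v * ((p : ℚ) ^ e)⁻¹ * (p : ℚ) ^ (r - 1) :=
          (norm_int p _).trans h1v
        calc _ ≤ (v * ((p : ℚ) ^ e)⁻¹ * (p : ℚ) ^ (r - 1)) * (1 * (p : ℚ) ^ ((h : ℤ) + b - ((r + x + j : ℕ) : ℤ)) * 1) := by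
              apply mul_le_mul h10 _ (mul_nonneg (mul_nonneg (padicNorm.nonneg _) (by positivity)) (padicNorm.nonneg _))
                (by positivity)
              apply mul_le_mul _ (norm_int p _) (padicNorm.nonneg _) (by positivity)
              exact mul_le_mul_of_nonneg_right h8 (by positivity)
          _ = v * (p : ℚ) ^ ((e : ℤ) - j - 1 - x) := by
              rw [one_mul, mul_one, ← zpow_natCast, ← zpow_neg, ← zpow_natCast, mul_assoc, mul_assoc,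
                ← zpow_add₀ hp0.ne', ← zpow_add₀ hp0.ne']
              congr 2
              push_cast
              omega
          _ ≤ R := by
              rw [hR]
              apply mul_le_mul_of_nonneg_left _ hv00.le
              apply zpow_le_zpow_right₀ hp1
              omega
      have h8 := padicNorm.sub (p := p) (q := (∑ l ∈ Finset.range r, ((W l : ℤ) : ℚ) * (U * ((θ : ℤ) : ℚ) ^ (l + j) *
        (p : ℚ) ^ (((l + j : ℕ) : ℤ) - h - b) * ((Lam h (b + 1) (X ^ (l + j) : ℤ[X]) : ℤ) : ℚ))) +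
        (∑ x ∈ Finset.range ((P * G).natDegree + 1), ((W (r + x) : ℤ) : ℚ) *
          (U * ((θ : ℤ) : ℚ) ^ (r + x + j) *
          (p : ℚ) ^ (((r + x + j : ℕ) : ℤ) - h - b) * ((Lam h (b + 1) (X ^ (r + x + j) : ℤ[X]) : ℤ) : ℚ))))
        (r := (∑ x ∈ Finset.range ((P * G).natDegree + 1), ((W (r + x) : ℤ) : ℚ) *
          (U * ((θ : ℤ) : ℚ) ^ (r + x + j) *
          (p : ℚ) ^ (((r + x + j : ℕ) : ℤ) - h - b) * ((Lam h (b + 1) (X ^ (r + x + j) : ℤ[X]) : ℤ) : ℚ))))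
      rw [add_sub_cancel_right] at h8
      exact h8.trans (max_le h3 h7)
    -- division by `U θ^j p^(j-h-b)`
    have h9 : ∑ l ∈ Finset.range r, ((W l : ℤ) : ℚ) * (U * ((θ : ℤ) : ℚ) ^ (l + j) *
        (p : ℚ) ^ (((l + j : ℕ) : ℤ) - h - b) * ((Lam h (b + 1) (X ^ (l + j) : ℤ[X]) : ℤ) : ℚ)) =
        (U * ((θ : ℤ) : ℚ) ^ j * (p : ℚ) ^ ((j : ℤ) - h - b)) * ∑ l ∈ Finset.range r,
      ((W l * θ ^ l * (p : ℤ) ^ l : ℤ) : ℚ) * ((Lam h (b + 1) (X ^ (l + j) : ℤ[X]) : ℤ) : ℚ) := by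
      rw [Finset.mul_sum]
      refine Finset.sum_congr rfl fun l _ => ?_
      have h10 : (p : ℚ) ^ (((l + j : ℕ) : ℤ) - h - b) = (p : ℚ) ^ l * (p : ℚ) ^ ((j : ℤ) - h - b) := by
        rw [← zpow_natCast, ← zpow_add₀ hp0.ne']
        congr 1
        push_cast
        ring
      rw [h10]
      push_cast
      ring
    rw [h9, padicNorm.mul, padicNorm.mul, padicNorm.mul, hU1, one_mul] at h6
    have h10 : padicNorm p (((θ : ℤ) : ℚ) ^ j) = 1 := by
      rw [← Int.cast_pow, padicNorm.int_eq_one_iff]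
      intro h11
      have hp' : Prime ((p : ℕ) : ℤ) := Nat.prime_iff_prime_int.1 hp
      rw [padicNorm.int_eq_one_iff] at hθ1
      exact hθ1 (hp'.dvd_of_dvd_pow h11)
    have h11 : padicNorm p ((p : ℚ) ^ ((j : ℤ) - h - b)) = (p : ℚ) ^ ((h : ℤ) + b - j) := by
      rw [norm_zpp]
      congr 1
      ring
    rw [h10, h11, one_mul, mul_comm, ← le_div_iff₀ (by positivity)] at h6
    refine h6.trans (le_of_eq ?_)
    rw [hR, mul_div_assoc, ← zpow_sub₀ hp0.ne', ← zpow_natCast, ← zpow_neg]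
    congr 2
    push_cast
    omega
  -- the integers `z`
  obtain ⟨D, hD⟩ : ∃ D : ℤ, D = (taylor ξ P).coeff i0 * (p : ℤ) ^ i0 := ⟨_, rfl⟩
  have hD0 : D ≠ 0 := by
    rw [hD]
    have : (p : ℤ) ≠ 0 := by exact_mod_cast hp.ne_zero
    exact mul_ne_zero hv0 (pow_ne_zero _ this)
  have hDn : padicNorm p (D : ℚ) = v * ((p : ℚ) ^ e)⁻¹ := by
    rw [hD, hv]
    push_cast
    rw [padicNorm.mul, norm_pp, mul_assoc]
    congr 1
    rw [← zpow_natCast, ← zpow_natCast, ← zpow_neg, ← zpow_neg, ← zpow_add₀ hp0.ne']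
    congr 1
    ring
  obtain ⟨ν, hν⟩ : ∃ ν : ℕ, padicNorm p (D : ℚ) = ((p : ℚ) ^ ν)⁻¹ := by
    refine ⟨padicValInt p D, ?_⟩
    rw [padicNorm.eq_zpow_of_nonzero (by exact_mod_cast hD0), padicValRat.of_int, zpow_neg, zpow_natCast]
  have hvν : v * ((p : ℚ) ^ e)⁻¹ = ((p : ℚ) ^ ν)⁻¹ := by rw [← hDn, hν]
  have hz : ∀ l, ∃ z : ℤ, W l * θ ^ l * (p : ℤ) ^ l = (p : ℤ) ^ ν * z := by
    intro l
    have h1 : padicNorm p ((W l * θ ^ l * (p : ℤ) ^ l : ℤ) : ℚ) ≤ (p : ℚ) ^ (-(ν : ℤ)) := by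
      push_cast
      rw [padicNorm.mul, padicNorm.mul, norm_pp, zpow_neg, zpow_natCast, ← hvν]
      have h8 : padicNorm p (((θ : ℤ) : ℚ) ^ l) ≤ 1 := by
        exact_mod_cast norm_int p (θ ^ l)
      calc _ ≤ (((v * ((p : ℚ) ^ e)⁻¹) * (p : ℚ) ^ l) * 1) * ((p : ℚ) ^ l)⁻¹ := by
            apply mul_le_mul_of_nonneg_right _ (by positivity)
            exact mul_le_mul (hWb l) h8 (padicNorm.nonneg _) (by positivity)
        _ = _ := by
            field_simp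
    have h2 := (padicNorm.dvd_iff_norm_le (p := p) (n := ν)).2 h1
    obtain ⟨z, hz⟩ := h2
    exact ⟨z, by rw [hz]; push_cast; ring⟩
  choose z hz using hz
  have hdiv := hNVc h (b + 1) p hp (by omega) (Even.add_one hb) hbh h25 z (by
    intro j hj
    rw [← hr] at hj ⊢
    have h1 := hloc j hj
    have h2 : ∑ l ∈ Finset.range r,
        ((W l * θ ^ l * (p : ℤ) ^ l : ℤ) : ℚ) * ((Lam h (b + 1) (X ^ (l + j) : ℤ[X]) : ℤ) : ℚ) =
        (p : ℚ) ^ ν * ((∑ l ∈ Finset.range r, z l * Lam h (b + 1) (X ^ (l + j) : ℤ[X]) : ℤ) : ℚ) := by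
      push_cast
      rw [Finset.mul_sum]
      refine Finset.sum_congr rfl fun l _ => ?_
      have h3 := congrArg (Int.cast : ℤ → ℚ) (hz l)
      push_cast at h3
      rw [h3]
      ring
    rw [h2, padicNorm.mul, norm_pp] at h1
    have h3 : v * ((p : ℚ) ^ (e + 1))⁻¹ = ((p : ℚ) ^ ν)⁻¹ * (p : ℚ)⁻¹ := by
      rw [← hvν, pow_succ, mul_inv]
      ring
    rw [h3] at h1
    have h4 : padicNorm p ((∑ l ∈ Finset.range r, z l * Lam h (b + 1) (X ^ (l + j) : ℤ[X]) : ℤ) : ℚ) ≤ (p : ℚ)⁻¹ :=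
      le_of_mul_le_mul_left h1 (by positivity)
    rw [← padicNorm.int_lt_one_iff]
    exact lt_of_le_of_lt h4 (inv_lt_one_of_one_lt₀ hp1'))
  rw [← hr] at hdiv
  -- the coefficients of `P`
  have hWs : ∀ l, l < r → padicNorm p ((W l : ℤ) : ℚ) ≤ (v * ((p : ℚ) ^ (e + 1))⁻¹) * (p : ℚ) ^ l := by
    intro l hl
    obtain ⟨z', hz'⟩ := hdiv l hl
    have h1 := hz l
    have h2 : padicNorm p ((W l * θ ^ l * (p : ℤ) ^ l : ℤ) : ℚ) ≤ v * ((p : ℚ) ^ (e + 1))⁻¹ := by
      rw [h1, hz']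
      have h3 : (((p : ℤ) ^ ν * ((p : ℤ) * z') : ℤ) : ℚ) = (p : ℚ) ^ (ν + 1) * (z' : ℚ) := by
        push_cast
        ring
      rw [h3, padicNorm.mul, norm_pp]
      calc _ ≤ ((p : ℚ) ^ (ν + 1))⁻¹ * 1 := mul_le_mul_of_nonneg_left (norm_int p _) (by positivity)
        _ = _ := by
          rw [mul_one, pow_succ, mul_inv, ← hvν, pow_succ, mul_inv]
          ring
    have h8 : padicNorm p (((θ : ℤ) : ℚ) ^ l) = 1 := by
      rw [← Int.cast_pow, padicNorm.int_eq_one_iff]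
      intro h11
      have hp' : Prime ((p : ℕ) : ℤ) := Nat.prime_iff_prime_int.1 hp
      rw [padicNorm.int_eq_one_iff] at hθ1
      exact hθ1 (hp'.dvd_of_dvd_pow h11)
    push_cast at h2
    rw [padicNorm.mul, padicNorm.mul, norm_pp, h8, mul_one, ← div_eq_mul_inv, div_le_iff₀ (by positivity)] at h2
    exact h2
  have hTs := div_unit (p := p) (T := taylor ξ P) (g := taylor ξ G) (B := v * ((p : ℚ) ^ (e + 1))⁻¹) (N := r)
    hG0 (fun i hi => by rw [← hW]; exact hWs i hi)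
  have h1 := hTs i0 hi0
  have h2 : padicNorm p (((taylor ξ P).coeff i0 : ℤ) : ℚ) = v * ((p : ℚ) ^ e)⁻¹ * (p : ℚ) ^ i0 := by
    rw [hv, mul_assoc, mul_assoc, ← zpow_natCast, ← zpow_natCast, ← zpow_neg, ← zpow_add₀ hp0.ne',
      ← zpow_add₀ hp0.ne']
    have : (e : ℤ) - i0 + (-(e : ℤ) + i0) = 0 := by ring
    rw [this]
    simp
  rw [h2, pow_succ, mul_inv] at h1
  have h3 : 0 < v * ((p : ℚ) ^ e)⁻¹ * (p : ℚ) ^ i0 := by positivity
  have h4 : v * (((p : ℚ) ^ e)⁻¹ * (p : ℚ)⁻¹) * (p : ℚ) ^ i0 = (v * ((p : ℚ) ^ e)⁻¹ * (p : ℚ) ^ i0) * (p : ℚ)⁻¹ := by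
    ring
  rw [h4] at h1
  have h5 : (p : ℚ)⁻¹ < 1 := inv_lt_one_of_one_lt₀ hp1'
  have h6 := mul_lt_mul_of_pos_left h5 h3
  linarith

end NVaux

theorem NV_of (hRD : S_RD) (hPB1 : S_PB1) (hPB2 : S_PB2) (hOMN : S_OMN) (hCLU : S_CLU) (hNVc : S_NVc) : S_NV := by
  intro b h n q p u hb hh hb2 hbh h25 hn hp h4 h6 hq hu m hm hm4 hdet
  have : Fact p.Prime := ⟨hp⟩
  have hp1 : (1 : ℚ) ≤ p := by exact_mod_cast hp.one_lt.le
  have hp1' : (1 : ℚ) < p := by exact_mod_cast hp.one_lt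
  have hp0 : (0 : ℚ) < p := by linarith
  have hpodd : p % 2 = 1 := by
    rcases hp.eq_two_or_odd with h | h
    · omega
    · exact h
  obtain ⟨β, hβ⟩ : ∃ β, b = 2 * β := ⟨b / 2, by obtain ⟨r, hr⟩ := hb; omega⟩
  obtain ⟨η, hη⟩ : ∃ η, h = 2 * η := ⟨h / 2, by obtain ⟨r, hr⟩ := hh; omega⟩
  obtain ⟨e, he⟩ : ∃ e, e = η + β := ⟨_, rfl⟩
  obtain ⟨r, hr⟩ : ∃ r, r = 2 * (h - (b + 1)) := ⟨_, rfl⟩
  obtain ⟨M, hM⟩ : ∃ M, M = (8 * n - p - 1) / 2 := ⟨_, rfl⟩
  have hMn : n ≤ M := by omega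
  have hM1 : ∀ c, c ≤ M ↔ 2 * c + p < 8 * n := by intro c; omega
  obtain ⟨mc, hmc⟩ : ∃ mc : ℕ → ℕ, ∀ c, mc c = if c < n then b + 1 else r := ⟨_, fun _ => rfl⟩
  obtain ⟨ec, hec⟩ : ∃ ec : ℕ → ℕ, ∀ c, ec c = if c < n then β else e := ⟨_, fun _ => rfl⟩
  have hr1 : e < r := by omega
  have hmc1 : ∀ c, 1 ≤ mc c := by
    intro c
    rw [hmc]
    split_ifs <;> omega
  have hsum : ∑ c ∈ Finset.Icc 1 M, mc c = m := by
    have h1 : Finset.Icc 1 M = Finset.Icc 1 (n - 1) ∪ Finset.Icc n M := by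
      ext c
      simp only [Finset.mem_Icc, Finset.mem_union]
      omega
    rw [h1, Finset.sum_union]
    · have h2 : ∑ c ∈ Finset.Icc 1 (n - 1), mc c = (b + 1) * (n - 1) := by
        rw [Finset.sum_congr rfl (g := fun _ => b + 1)]
        · rw [Finset.sum_const, Nat.card_Icc, smul_eq_mul, mul_comm, Nat.add_sub_cancel]
        · intro c hc
          rw [Finset.mem_Icc] at hc
          rw [hmc, if_pos (by omega)]
      have h3 : ∑ c ∈ Finset.Icc n M, mc c = (h - (b + 1)) * (6 * n - p + 1) := by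
        rw [Finset.sum_congr rfl (g := fun _ => r)]
        · rw [Finset.sum_const, Nat.card_Icc, smul_eq_mul, mul_comm, hr]
          have h4 : 6 * n - p + 1 = 2 * (M + 1 - n) := by omega
          rw [h4]
          ring
        · intro c hc
          rw [Finset.mem_Icc] at hc
          rw [hmc, if_neg (by omega)]
      rw [h2, h3, hm]
    · rw [Finset.disjoint_left]
      intro c h1 h2
      rw [Finset.mem_Icc] at h1 h2
      omega
  obtain ⟨P, hprim, hdeg, hker⟩ := Pool.Agent.N334.W.nv_kernel (NL b h n u) m hdet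
  have hne : ∀ c ∈ Finset.Icc 1 M, ∀ c' ∈ Finset.Icc 1 M, c ≠ c' →
      ((nd n c : ℤ) : ZMod p) ≠ ((nd n c' : ℤ) : ZMod p) := by
    intro c hc c' hc' hcc
    rw [Finset.mem_Icc] at hc hc'
    exact nd_ne hp h4 h6 hc.1 ((hM1 c).1 hc.2) hc'.1 ((hM1 c').1 hc'.2) hcc
  obtain ⟨cA, hcA, iA, hiA, hA1⟩ := claimA P hprim (Finset.Icc 1 M) (nd n) mc hne (by rw [hsum]; exact hdeg)
  -- the maximum
  obtain ⟨T, hT⟩ : ∃ T : ℕ → ℕ → ℚ, ∀ c i, T c i = padicNorm p (((taylor (nd n c) P).coeff i : ℤ) : ℚ) :=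
    ⟨_, fun _ _ => rfl⟩
  obtain ⟨⟨c0, i0⟩, hci, hmax⟩ := Finset.exists_max_image ((Finset.Icc 1 M).sigma fun c => Finset.range (mc c))
    (fun x => T x.1 x.2 * (p : ℚ) ^ ((ec x.1 : ℤ) - x.2)) ⟨⟨cA, iA⟩, by
      rw [Finset.mem_sigma]
      exact ⟨hcA, Finset.mem_range.2 hiA⟩⟩
  rw [Finset.mem_sigma] at hci
  obtain ⟨hc0, hi0⟩ := hci
  rw [Finset.mem_range] at hi0
  dsimp only at hc0 hi0
  obtain ⟨v, hv⟩ : ∃ v, v = T c0 i0 * (p : ℚ) ^ ((ec c0 : ℤ) - i0) := ⟨_, rfl⟩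
  have hmax' : ∀ c i, 1 ≤ c → c ≤ M → i < mc c → T c i * (p : ℚ) ^ ((ec c : ℤ) - i) ≤ v := by
    intro c i h1 h2 h3
    rw [hv]
    exact hmax ⟨c, i⟩ (by
      rw [Finset.mem_sigma, Finset.mem_Icc, Finset.mem_range]
      exact ⟨⟨h1, h2⟩, h3⟩)
  have hcA' := Finset.mem_Icc.1 hcA
  have hc0' := Finset.mem_Icc.1 hc0
  obtain ⟨Xx, hXx⟩ : ∃ Xx, Xx = r - 1 - e := ⟨_, rfl⟩
  have hXβ : β ≤ Xx := by omega
  have hXh : 2 * Xx + 1 ≤ h := by omega
  have h1v : 1 ≤ v * (p : ℚ) ^ Xx := by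
    have h1 := hmax' cA iA hcA'.1 hcA'.2 hiA
    rw [hT, hA1, one_mul] at h1
    calc (1 : ℚ) = (p : ℚ) ^ (-(Xx : ℤ)) * (p : ℚ) ^ Xx := by
          rw [← zpow_natCast, ← zpow_add₀ hp0.ne']
          simp
      _ ≤ (p : ℚ) ^ ((ec cA : ℤ) - iA) * (p : ℚ) ^ Xx := by
          apply mul_le_mul_of_nonneg_right _ (by positivity)
          apply zpow_le_zpow_right₀ hp1
          rw [hec]
          rw [hmc] at hiA
          split_ifs at hiA ⊢ <;> omega
      _ ≤ v * (p : ℚ) ^ Xx := mul_le_mul_of_nonneg_right h1 (by positivity)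
  have hv00 : 0 < v := by
    by_contra hcon
    push Not at hcon
    have : v * (p : ℚ) ^ Xx ≤ 0 := mul_nonpos_of_nonpos_of_nonneg hcon (by positivity)
    linarith
  -- the bound at the clusters
  have hclus : ∀ c, n ≤ c → c ≤ M → ∀ i, padicNorm p (((taylor (nd n c) P).coeff i : ℤ) : ℚ) ≤
      (v * ((p : ℚ) ^ e)⁻¹) * (p : ℚ) ^ i := by
    intro c h1 h2 i
    by_cases hi : i < r
    · have h3 := hmax' c i (by omega) h2 (by rw [hmc, if_neg (by omega)]; exact hi)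
      rw [hT, hec, if_neg (by omega), ← le_div_iff₀ (by positivity), div_eq_mul_inv, ← zpow_neg] at h3
      refine h3.trans (le_of_eq ?_)
      rw [← zpow_natCast, ← zpow_natCast, ← zpow_neg, mul_assoc, ← zpow_add₀ hp0.ne']
      congr 2
      ring
    · refine (norm_int p _).trans (h1v.trans ?_)
      rw [mul_assoc]
      apply mul_le_mul_of_nonneg_left _ hv00.le
      rw [← zpow_natCast, ← zpow_natCast, ← zpow_natCast, ← zpow_neg, ← zpow_add₀ hp0.ne']
      apply zpow_le_zpow_right₀ hp1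
      omega
  -- the product of the other nodes
  obtain ⟨G, hG⟩ : ∃ G : ℤ[X], G = ∏ c ∈ (Finset.Icc 1 M).erase c0, (X - C (nd n c)) ^ (mc c) := ⟨_, rfl⟩
  have hGdeg : G.natDegree + mc c0 = m := by
    rw [hG, natDegree_prod_of_monic _ _ fun c _ => (monic_X_sub_C _).pow _,
      Finset.sum_congr rfl fun c _ => (monic_X_sub_C _).natDegree_pow _]
    simp only [natDegree_X_sub_C, mul_one]
    rw [Finset.sum_erase_add _ _ hc0, hsum]
  have hGdvd : ∀ c, 1 ≤ c → c ≤ M → c ≠ c0 → (X - C (nd n c)) ^ (mc c) ∣ G := by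
    intro c h1 h2 h3
    rw [hG]
    exact Finset.dvd_prod_of_mem (fun c => (X - C (nd n c)) ^ (mc c))
      (Finset.mem_erase.2 ⟨h3, Finset.mem_Icc.2 ⟨h1, h2⟩⟩)
  have hG0 : padicNorm p (((taylor (nd n c0) G).coeff 0 : ℤ) : ℚ) = 1 := by
    rw [hG]
    apply prod_unit
    intro c hc
    have hc1 := Finset.mem_erase.1 hc
    exact hne c0 hc0 c hc1.2 (fun h => hc1.1 h.symm)
  -- the polynomials `F_j`
  obtain ⟨F, hF⟩ : ∃ F : ℕ → ℤ[X], ∀ j, F j = P * ((X - C (nd n c0)) ^ j * G) := ⟨_, fun _ => rfl⟩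
  have hFdeg0 : ∀ j, j < mc c0 → ((X - C (nd n c0)) ^ j * G).natDegree < m := by
    intro j hj
    refine lt_of_le_of_lt natDegree_mul_le ?_
    have h1 : ((X - C (nd n c0)) ^ j).natDegree ≤ j := natDegree_pow_le.trans (by
      rw [natDegree_X_sub_C, mul_one])
    omega
  have hFdeg : ∀ j, j < mc c0 → 2 * (F j).natDegree + 1 < h * (6 * n + 1) := by
    intro j hj
    have h1 : (F j).natDegree ≤ P.natDegree + ((X - C (nd n c0)) ^ j * G).natDegree := by
      rw [hF]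
      exact natDegree_mul_le
    have h2 := hFdeg0 j hj
    omega
  have hFker : ∀ j, j < mc c0 → NL b h n u ((F j).map (Int.castRingHom ℚ)) = 0 := by
    intro j hj
    rw [hF]
    exact hker _ (hFdeg0 j hj)
  -- the floor
  have hfloor : ((p : ℚ) ^ h)⁻¹ ≤ v * (p : ℚ) ^ (-(Xx : ℤ) - 1) := by
    calc ((p : ℚ) ^ h)⁻¹ = 1 * ((p : ℚ) ^ h)⁻¹ := (one_mul _).symm
      _ ≤ (v * (p : ℚ) ^ Xx) * ((p : ℚ) ^ h)⁻¹ := mul_le_mul_of_nonneg_right h1v (by positivity)
      _ ≤ v * (p : ℚ) ^ (-(Xx : ℤ) - 1) := by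
          rw [mul_assoc]
          apply mul_le_mul_of_nonneg_left _ hv00.le
          rw [← zpow_natCast, ← zpow_natCast, ← zpow_neg, ← zpow_add₀ hp0.ne']
          apply zpow_le_zpow_right₀ hp1
          omega
  -- the Taylor coefficients of `F_j` at the other clusters
  have hFoth : ∀ j, ∀ c, n ≤ c → c ≤ M → c ≠ c0 → ∀ l,
      padicNorm p ((taylor ((nd n c : ℤ) : ℚ) ((F j).map (Int.castRingHom ℚ))).coeff l) ≤
      ((v * ((p : ℚ) ^ e)⁻¹) * ((p : ℚ) ^ r)⁻¹) * (p : ℚ) ^ l := by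
    intro j c h1 h2 h3 l
    apply tay_mul_bound (P := P) _ (hclus c h1 h2)
    obtain ⟨H, hH⟩ := hGdvd c (by omega) h2 h3
    rw [hmc, if_neg (by omega)] at hH
    refine ⟨(X - C (nd n c0)) ^ j * H, ?_⟩
    rw [hF, hH]
    ring
  have hothS : (v * ((p : ℚ) ^ e)⁻¹) * ((p : ℚ) ^ r)⁻¹ * (p : ℚ) ^ (h + b) = v * (p : ℚ) ^ (-(Xx : ℤ) - 1) := by
    rw [mul_assoc, mul_assoc, ← zpow_natCast, ← zpow_natCast, ← zpow_natCast, ← zpow_neg, ← zpow_neg,
      ← zpow_add₀ hp0.ne', ← zpow_add₀ hp0.ne']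
    congr 2
    push_cast
    omega
  have hothS' : (v * ((p : ℚ) ^ e)⁻¹) * ((p : ℚ) ^ r)⁻¹ * (p : ℚ) ^ (h - 1) ≤ v * (p : ℚ) ^ (-(Xx : ℤ) - 1) := by
    rw [← hothS]
    apply mul_le_mul_of_nonneg_left _ (by positivity)
    exact pow_le_pow_right₀ hp1 (by omega)
  have hlamoth : ∀ j k c, k ∈ Finset.Icc (n + p) (7 * n) → n ≤ c → c ≤ M → c ≠ c0 →
      (c ≡ k [MOD p] ∨ 8 * n - c ≡ k [MOD p]) →
      padicNorm p (lam b h n p k ((F j).map (Int.castRingHom ℚ))) ≤ v * (p : ℚ) ^ (-(Xx : ℤ) - 1) := by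
    intro j k c hk h1 h2 h3 h5
    rw [Finset.mem_Icc] at hk
    rw [← hothS]
    exact lam_bound hPB1 hn hp h4 h6 (by rw [Finset.mem_Icc]; omega) (by omega) h5 (hFoth j c h1 h2 h3)
  by_cases hcn : c0 < n
  · -- the node case
    have hmc0 : mc c0 = b + 1 := by rw [hmc, if_pos hcn]
    have hec0 : ec c0 = β := by rw [hec, if_pos hcn]
    have hNS : ∀ j, j < b + 1 →
        padicNorm p (NS b h n ((P * ((X - C (nd n c0)) ^ j * G)).map (Int.castRingHom ℚ))) ≤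
          v * (p : ℚ) ^ (-(Xx : ℤ) - 1) := by
      intro j hj
      rw [← hF]
      have h1 := RDb hRD hPB1 hPB2 hb hn hp h4 h6 hu hq (F j) (hFdeg j (by omega)) (hFker j (by omega))
        (fun _ => (v * ((p : ℚ) ^ e)⁻¹) * ((p : ℚ) ^ r)⁻¹) (v * (p : ℚ) ^ (-(Xx : ℤ) - 1))
        (fun c h1 h2 => hFoth j c h1 ((hM1 c).2 h2) (by omega)) (fun c _ _ => hothS') hfloor
      have h2 : padicNorm p (∑ k ∈ Finset.Icc (n + p) (7 * n), lam b h n p k ((F j).map (Int.castRingHom ℚ))) ≤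
          v * (p : ℚ) ^ (-(Xx : ℤ) - 1) := by
        refine norm_sum p _ _ _ (by positivity) fun k hk => ?_
        have hk' := Finset.mem_Icc.1 hk
        obtain ⟨c, hc1, hc2, hc3⟩ := partner hpodd (n := n) (k := k) (by rw [Finset.mem_Icc]; omega) (Or.inr hk'.1)
        exact hlamoth j k c hk hc1 ((hM1 c).2 hc2) (by omega) hc3
      have h3 := padicNorm.sub (p := p) (q := NS b h n ((F j).map (Int.castRingHom ℚ)) +
        ∑ k ∈ Finset.Icc (n + p) (7 * n), lam b h n p k ((F j).map (Int.castRingHom ℚ)))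
        (r := ∑ k ∈ Finset.Icc (n + p) (7 * n), lam b h n p k ((F j).map (Int.castRingHom ℚ)))
      rw [add_sub_cancel_right] at h3
      exact h3.trans (max_le h1 h2)
    have h1 := node_case hOMN hn hp h4 h6 hc0'.1 hcn P G (v * (p : ℚ) ^ (-(Xx : ℤ) - 1))
      (by
        intro c h1 h2 h3
        have := hGdvd c h1 (by omega) h3
        rwa [hmc, if_pos h2] at this)
      hG0 hNS i0 (by omega)
    have h2 : v = padicNorm p (((taylor (nd n c0) P).coeff i0 : ℤ) : ℚ) * (p : ℚ) ^ ((β : ℤ) - i0) := by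
      rw [hv, hT, hec0]
    have h3 : v ≤ (v * (p : ℚ) ^ (-(Xx : ℤ) - 1) * (p : ℚ) ^ i0) * (p : ℚ) ^ ((β : ℤ) - i0) := by
      conv_lhs => rw [h2]
      exact mul_le_mul_of_nonneg_right h1 (by positivity)
    have h4' : (v * (p : ℚ) ^ (-(Xx : ℤ) - 1) * (p : ℚ) ^ i0) * (p : ℚ) ^ ((β : ℤ) - i0) =
        v * (p : ℚ) ^ ((β : ℤ) - Xx - 1) := by
      rw [mul_assoc, mul_assoc, ← zpow_natCast, ← zpow_add₀ hp0.ne', ← zpow_add₀ hp0.ne']
      congr 2
      ring
    rw [h4'] at h3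
    have h5 : (p : ℚ) ^ ((β : ℤ) - Xx - 1) < 1 := by
      apply zpow_lt_one_of_neg₀ hp1'
      omega
    have h6' := mul_lt_mul_of_pos_left h5 hv00
    linarith
  · -- the cluster case
    push Not at hcn
    have hmc0 : mc c0 = r := by rw [hmc, if_neg (by omega)]
    have hec0 : ec c0 = e := by rw [hec, if_neg (by omega)]
    have hv' : v = padicNorm p (((taylor (nd n c0) P).coeff i0 : ℤ) : ℚ) * (p : ℚ) ^ ((e : ℤ) - i0) := by
      rw [hv, hT, hec0]
    have hc02 := (hM1 c0).1 hc0'.2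
    refine cluster_case hCLU hNVc hb hh (by omega) h25 hn hp h4 h6 hcn hc02 P G e (by omega) i0
      (by omega) v ?_ hv' hG0 (hclus c0 hcn hc0'.2) ?_ ?_
    · intro h0
      rw [h0] at hv'
      simp at hv'
      linarith
    · refine h1v.trans (le_of_eq ?_)
      rw [mul_assoc, ← hr, ← zpow_natCast, ← zpow_natCast, ← zpow_natCast, ← zpow_neg, ← zpow_add₀ hp0.ne']
      congr 2
      omega
    · intro j hj
      rw [← hr] at hj
      rw [← hF]
      have hS0 : v * (p : ℚ) ^ (-(Xx : ℤ) - 1) ≤ v * (p : ℚ) ^ ((e : ℤ) - j - 1) := by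
        apply mul_le_mul_of_nonneg_left _ hv00.le
        apply zpow_le_zpow_right₀ hp1
        omega
      have hFc0 : ∀ l, padicNorm p ((taylor ((nd n c0 : ℤ) : ℚ) ((F j).map (Int.castRingHom ℚ))).coeff l) ≤
          ((v * ((p : ℚ) ^ e)⁻¹) * ((p : ℚ) ^ j)⁻¹) * (p : ℚ) ^ l := by
        intro l
        apply tay_mul_bound (P := P) _ (hclus c0 hcn hc0'.2)
        refine ⟨G, ?_⟩
        rw [hF]
        ring
      have h1 := RDb hRD hPB1 hPB2 hb hn hp h4 h6 hu hq (F j) (hFdeg j (by omega)) (hFker j (by omega))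
        (fun c => if c = c0 then (v * ((p : ℚ) ^ e)⁻¹) * ((p : ℚ) ^ j)⁻¹ else
          (v * ((p : ℚ) ^ e)⁻¹) * ((p : ℚ) ^ r)⁻¹) (v * (p : ℚ) ^ ((e : ℤ) - j - 1))
        (by
          intro c h1 h2 l
          by_cases hcc : c = c0
          · simp only [if_pos hcc]
            rw [hcc]
            exact hFc0 l
          · simp only [if_neg hcc]
            exact hFoth j c h1 ((hM1 c).2 h2) hcc l)
        (by
          intro c h1 h2
          by_cases hcc : c = c0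
          · simp only [if_pos hcc]
            rw [mul_assoc, mul_assoc]
            apply mul_le_mul_of_nonneg_left _ hv00.le
            rw [← zpow_natCast, ← zpow_natCast, ← zpow_natCast, ← zpow_neg, ← zpow_neg, ← zpow_add₀ hp0.ne',
              ← zpow_add₀ hp0.ne']
            apply zpow_le_zpow_right₀ hp1
            omega
          · simp only [if_neg hcc]
            exact hothS'.trans hS0)
        (hfloor.trans hS0)
      have hNS0 : NS b h n ((F j).map (Int.castRingHom ℚ)) = 0 := by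
        unfold NS
        refine Finset.sum_eq_zero fun c hc => Finset.sum_eq_zero fun k hk => ?_
        rw [Finset.mem_Icc] at hc
        have hdvd : (X - C (nd n c)) ^ (b + 1) ∣ F j := by
          rw [hF]
          refine Dvd.dvd.mul_left (Dvd.dvd.mul_left ?_ _) _
          have := hGdvd c hc.1 (by omega) (by omega)
          rwa [hmc, if_pos (by omega)] at this
        obtain ⟨H, hH⟩ := hdvd
        rw [eval_nd, hH, taylor_mul, taylor_pow, tay_X, coeff_X_pow_mul',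
          if_neg (by have := Finset.mem_range.1 hk; omega)]
        simp
      rw [hNS0, zero_add] at h1
      -- the poles of the class of `c0`
      have hk1 : c0 + p ∈ Finset.Icc (n + p) (7 * n) := by rw [Finset.mem_Icc]; omega
      have hk2 : 8 * n - c0 ∈ (Finset.Icc (n + p) (7 * n)).erase (c0 + p) := by
        rw [Finset.mem_erase, Finset.mem_Icc]
        omega
      rw [← Finset.add_sum_erase _ _ hk1, ← Finset.add_sum_erase _ _ hk2, ← add_assoc] at h1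
      have h2 : padicNorm p (∑ k ∈ ((Finset.Icc (n + p) (7 * n)).erase (c0 + p)).erase (8 * n - c0),
          lam b h n p k ((F j).map (Int.castRingHom ℚ))) ≤ v * (p : ℚ) ^ ((e : ℤ) - j - 1) := by
        refine norm_sum p _ _ _ (by positivity) fun k hk => ?_
        rw [Finset.mem_erase, Finset.mem_erase] at hk
        have hk' := Finset.mem_Icc.1 hk.2.2
        obtain ⟨c, hc1, hc2, hc3⟩ := partner hpodd (n := n) (k := k) (by rw [Finset.mem_Icc]; omega) (Or.inr hk'.1)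
        refine (hlamoth j k c hk.2.2 hc1 ((hM1 c).2 hc2) ?_ hc3).trans hS0
        rintro rfl
        rcases hc3 with h5 | h5
        · have h7 := (Nat.modEq_iff_dvd' (by omega)).1 h5
          obtain ⟨t, ht⟩ := h7
          rcases Nat.lt_or_ge t 2 with h8 | h8
          · have h9 : t = 0 ∨ t = 1 := by omega
            rcases h9 with h9 | h9
            · rw [h9] at ht
              omega
            · rw [h9, mul_one] at ht
              exact hk.2.1 (by omega)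
          · have h9 : p * 2 ≤ p * t := Nat.mul_le_mul_left p h8
            omega
        · rcases Nat.lt_or_ge k (8 * n - c) with h8 | h8
          · have h7 := (Nat.modEq_iff_dvd' h8.le).1 h5.symm
            obtain ⟨t, ht⟩ := h7
            rcases Nat.lt_or_ge t 1 with h9 | h9
            · have h10 : t = 0 := by omega
              rw [h10] at ht
              omega
            · rcases Nat.lt_or_ge t 2 with h10 | h10
              · have h11 : t = 1 := by omega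
                rw [h11, mul_one] at ht
                omega
              · have h11 : p * 2 ≤ p * t := Nat.mul_le_mul_left p h10
                omega
          · have h7 := (Nat.modEq_iff_dvd' h8).1 h5
            obtain ⟨t, ht⟩ := h7
            rcases Nat.lt_or_ge t 1 with h9 | h9
            · have h10 : t = 0 := by omega
              rw [h10] at ht
              exact hk.1 (by omega)
            · have h11 : p * 1 ≤ p * t := Nat.mul_le_mul_left p h9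
              omega
      have h3 := padicNorm.sub (p := p) (q := lam b h n p (c0 + p) ((F j).map (Int.castRingHom ℚ)) +
        lam b h n p (8 * n - c0) ((F j).map (Int.castRingHom ℚ)) +
        ∑ k ∈ ((Finset.Icc (n + p) (7 * n)).erase (c0 + p)).erase (8 * n - c0),
          lam b h n p k ((F j).map (Int.castRingHom ℚ)))
        (r := ∑ k ∈ ((Finset.Icc (n + p) (7 * n)).erase (c0 + p)).erase (8 * n - c0),
          lam b h n p k ((F j).map (Int.castRingHom ℚ)))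
      rw [add_sub_cancel_right] at h3
      exact h3.trans (max_le h1 h2)

end Pool.Agent.H15.V
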