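import Pool.Agent.H15.V.NV
import Pool.Agent.H15.V.LOC

/-!
# Project V: the form of LOC that NV needs
-/

set_option autoImplicit false
set_option linter.all false

open Polynomial

namespace Pool.Agent.H15.V

lemma Lam_add {F : Type*} [CommRing F] (h s : ℕ) (G H : F[X]) : Lam h s (G + H) = Lam h s G + Lam h s H := by
  unfold Lam
  rw [← map_add, ← add_mul, add_comp]
  congr 2
  push_cast
  ring

lemma Lam_C_mul {F : Type*} [CommRing F] (h s : ℕ) (a : F) (G : F[X]) : Lam h s (C a * G) = a * Lam h s G := by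
  unfold Lam
  rw [← PowerSeries.coeff_C_mul, ← mul_assoc, mul_comp, C_comp]
  congr 2
  push_cast
  ring

lemma Lam_sum {F : Type*} [CommRing F] (h s : ℕ) (S : Finset ℕ) (a : ℕ → F) (Q : ℕ → F[X]) :
    Lam h s (∑ l ∈ S, C (a l) * Q l) = ∑ l ∈ S, a l * Lam h s (Q l) := by
  induction S using Finset.induction_on with
  | empty =>
    simp only [Finset.sum_empty]
    have : (0 : F[X]) = C 0 * 0 := by simp
    rw [this, Lam_C_mul, zero_mul]
  | insert l S hl ih => rw [Finset.sum_insert hl, Finset.sum_insert hl, ← ih, Lam_add, Lam_C_mul]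

lemma Lam_map {R F : Type*} [CommRing R] [CommRing F] (φ : R →+* F) (h s : ℕ) (G : R[X]) :
    Lam h s (G.map φ) = φ (Lam h s G) := by
  unfold Lam
  have h1 : ∀ x : PowerSeries R, φ (PowerSeries.coeff (h - 1) x) = PowerSeries.coeff (h - 1) (PowerSeries.map φ x) :=
    fun x => (PowerSeries.coeff_map φ (h - 1) x).symm
  rw [h1, (PowerSeries.map φ).map_mul]
  congr 2
  · rw [← Polynomial.polynomial_map_coe, Polynomial.map_sub, Polynomial.map_comp]
    simp
  · ext i
    simp

theorem NVc_of (hLOC : S_LOC) : S_NVc := by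
  intro h s p hp hp2 hs hsh h25 z hz l hl
  have : Fact p.Prime := ⟨hp⟩
  obtain ⟨G, hG⟩ : ∃ G : (ZMod p)[X], G = ∑ l ∈ Finset.range (2 * (h - s)), C ((z l : ℤ) : ZMod p) * X ^ l := ⟨_, rfl⟩
  have h2 : (2 : ZMod p) ≠ 0 := by
    intro h2
    have h3 : ((2 : ℕ) : ZMod p) = 0 := by exact_mod_cast h2
    rw [ZMod.natCast_eq_zero_iff] at h3
    exact hp2 ((Nat.prime_dvd_prime_iff_eq hp Nat.prime_two).1 h3)
  have hGd : G.degree < (2 * (h - s) : ℕ) := by
    rw [hG]
    refine lt_of_le_of_lt (degree_sum_le _ _) ?_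
    rw [Finset.sup_lt_iff (WithBot.bot_lt_coe _)]
    intro i hi
    refine lt_of_le_of_lt (degree_C_mul_X_pow_le i _) ?_
    exact_mod_cast Finset.mem_range.1 hi
  have hG0 := hLOC (ZMod p) h2 h s hs hsh h25 G hGd (by
    intro j hj
    have h1 : G * X ^ j = ∑ l ∈ Finset.range (2 * (h - s)), C ((z l : ℤ) : ZMod p) * X ^ (l + j) := by
      rw [hG, Finset.sum_mul]
      refine Finset.sum_congr rfl fun l _ => ?_
      rw [pow_add]
      ring
    rw [h1, Lam_sum]
    have h3 : ∀ l, Lam h s (X ^ (l + j) : (ZMod p)[X]) = ((Lam h s (X ^ (l + j) : ℤ[X]) : ℤ) : ZMod p) := by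
      intro l
      have h4 := Lam_map (Int.castRingHom (ZMod p)) h s (X ^ (l + j) : ℤ[X])
      rw [Polynomial.map_pow, Polynomial.map_X] at h4
      exact h4
    have h5 := (ZMod.intCast_zmod_eq_zero_iff_dvd _ _).2 (hz j hj)
    rw [← h5]
    push_cast
    exact Finset.sum_congr rfl fun l _ => by rw [h3])
  have h6 : G.coeff l = ((z l : ℤ) : ZMod p) := by
    rw [hG, finsetSum_coeff]
    simp only [coeff_C_mul, coeff_X_pow]
    rw [Finset.sum_eq_single l]
    · simp
    · intro i _ hi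
      rw [if_neg (fun h => hi h.symm), mul_zero]
    · intro h
      exact absurd (Finset.mem_range.2 hl) h
  rw [hG0, coeff_zero] at h6
  exact (ZMod.intCast_zmod_eq_zero_iff_dvd _ _).1 h6.symm

end Pool.Agent.H15.V
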