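import Pool.Agent.H15.V.Stm

/-!
# Project WD, part OMP: the valuations of `ω(-c, k)`
-/

open Polynomial Pool.Agent.H337R2

namespace Pool.Agent.H15.V

open Pool.Agent.N334.W (mu UInt nx vd MT cv wcl Dcl G2 Hn PS)

noncomputable section

namespace OMPaux

lemma norm_nat_one {p : ℕ} [hp : Fact p.Prime] {m : ℕ} (h : ¬ p ∣ m) : padicNorm p ((m : ℕ) : ℚ) = 1 := by
  exact (padicNorm.nat_eq_one_iff (p := p) m).2 h

lemma pn_pow {p : ℕ} [hp : Fact p.Prime] (a : ℚ) (j : ℕ) :
    padicNorm p (a ^ j) = padicNorm p a ^ j := by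
  induction j with
  | zero => simp
  | succ m ih => rw [pow_succ, pow_succ, padicNorm.mul, ih]

/-- the norm of `-c + k` -/
lemma norm_shift {n p c k : ℕ} [hp : Fact p.Prime] (h2 : 6 * n < p) (hc1 : 1 ≤ c)
    (hc : c + p ≤ 7 * n) (hk : k ∈ sN n) :
    padicNorm p (-(c : ℚ) + (k : ℚ)) = if k = c + p then (p : ℚ)⁻¹ else 1 := by
  rw [sN, Finset.mem_Icc] at hk
  have h1 : -(c : ℚ) + (k : ℚ) = ((k - c : ℕ) : ℚ) := by
    rw [Nat.cast_sub (by omega)]; ring
  rw [h1]
  split_ifs with h
  · rw [h, Nat.add_sub_cancel_left]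
    exact padicNorm.padicNorm_p_of_prime
  · apply norm_nat_one
    rintro ⟨m, hm⟩
    have : m = 0 ∨ m = 1 ∨ 2 ≤ m := by omega
    rcases this with h | h | h
    · subst h; omega
    · subst h; omega
    · have : p * 2 ≤ p * m := Nat.mul_le_mul_left p h
      omega

lemma TSPN (h n : ℕ) (t : ℚ) : TS t (PN h n) =
    PowerSeries.C (((6 * n).factorial : ℚ) ^ h) *
      (PowerSeries.C 2 * PowerSeries.X + PowerSeries.C (2 * t + ((8 * n : ℕ) : ℚ))) := by
  unfold PN
  rw [map_mul, TS_C, map_add, map_mul, TS_X, TS_C]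
  have : TS t (2 : ℚ[X]) = PowerSeries.C 2 := by
    have h1 : (2 : ℚ[X]) = C 2 := (map_ofNat (C : ℚ →+* ℚ[X]) 2).symm
    rw [h1, TS_C]
  rw [this, map_add PowerSeries.C, map_mul PowerSeries.C]
  ring

end OMPaux

open OMPaux

theorem OMP : S_OMP := by
  intro b h n p c hn hp h2 hc1 hc
  have : Fact p.Prime := ⟨hp⟩
  have hp0 : (0 : ℚ) < p := by exact_mod_cast hp.pos
  have hp1 : (1 : ℚ) ≤ p := by exact_mod_cast hp.one_lt.le
  set d : ℚ := 2 * (-(c : ℚ)) + ((8 * n : ℕ) : ℚ) with hd
  -- the norm of `d`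
  have hdn : padicNorm p d = 1 := by
    have h1 : d = ((2 * (4 * n - c) : ℕ) : ℚ) := by
      rw [hd]
      have h3 : ((4 * n - c : ℕ) : ℚ) = ((4 * n : ℕ) : ℚ) - c := Nat.cast_sub (by omega)
      rw [Nat.cast_mul 2 (4 * n - c), h3]
      push_cast
      ring
    rw [h1]
    apply norm_nat_one
    rw [hp.dvd_mul]
    rintro (h | h)
    · have := Nat.le_of_dvd (by norm_num) h
      omega
    · have := Nat.le_of_dvd (by omega) h
      omega
  have hFn : padicNorm p (((6 * n).factorial : ℚ) ^ h) = 1 := by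
    rw [pn_pow, norm_nat_one, one_pow]
    rw [hp.dvd_factorial]
    omega
  -- the series
  set f : PowerSeries ℚ := RS (sN n) (mu h) (PN h n) (-(c : ℚ)) with hf
  set g : PowerSeries ℚ := PowerSeries.X + PowerSeries.C d with hg
  have hmem : c + p ∈ sN n := by rw [sN, Finset.mem_Icc]; omega
  have hprod : ∏ k ∈ sN n, (if k = c + p then (p : ℚ) else 1) ^ h = (p : ℚ) ^ h := by
    rw [Finset.prod_pow]
    rw [Finset.prod_ite_eq' (sN n) (c + p) (fun _ => (p : ℚ)), if_pos hmem]
  have hPBf : PB p (p : ℚ) ((p : ℚ) ^ h) f := by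
    have h1 : PB p (p : ℚ) 1 (TS (-(c : ℚ)) (PN h n)) := by
      rw [TSPN]
      have := PB.mul (p := p) (ρ := (p : ℚ)) (A := 1) (B := 1) hp0.le zero_le_one zero_le_one
        (PB.C (p := p) hp0.le zero_le_one hFn.le)
        (PB.lin (p := p) (u := 2) (a := 2 * (-(c : ℚ)) + ((8 * n : ℕ) : ℚ)) hp0.le zero_le_one hdn.le (by
          rw [one_mul]
          refine le_trans ?_ hp1
          exact_mod_cast padicNorm.of_nat (p := p) 2))
      simpa using this
    have h3 : PB p (p : ℚ) (∏ k ∈ sN n, (if k = c + p then (p : ℚ) else 1) ^ h)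
        (VV (sN n) (mu h) (-(c : ℚ))) := by
      unfold VV
      apply PB.prod _ _ _ hp0.le
      · intro i _
        split_ifs <;> positivity
      · intro k hk
        have hns := norm_shift h2 hc1 hc hk (p := p)
        have hne : -(c : ℚ) + (k : ℚ) ≠ 0 := by
          intro h0
          rw [h0, padicNorm.zero] at hns
          split_ifs at hns
          · have := inv_pos.2 hp0
            linarith
          · norm_num at hns
        apply PB.pow hp0.le
        · split_ifs <;> positivity
        · apply PB.iv hne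
          · rw [hns]
            split_ifs <;> simp
          · rw [hns]
            split_ifs
            · simp
            · simpa using hp1
    rw [hprod] at h3
    have := PB.mul hp0.le zero_le_one (by positivity) h1 h3
    rw [one_mul] at this
    exact this
  have hPBg : PB p (p : ℚ) 1 g := PB.linX hp0.le zero_le_one hdn.le (by rw [one_mul]; exact hp1)
  have hom : ∀ k, k ≤ b → om b h n (-(c : ℚ)) k = PowerSeries.coeff (b - k) (f * g ^ k) := by
    intro k hk
    unfold om
    rw [mul_pow]
    have : RS (sN n) (mu h) (PN h n) (-(c : ℚ)) * (PowerSeries.X ^ k *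
        (PowerSeries.X + PowerSeries.C (2 * (-(c : ℚ)) + ((8 * n : ℕ) : ℚ))) ^ k)
        = PowerSeries.X ^ k * (f * g ^ k) := by
      rw [hf, hg, hd]; ring
    rw [this, PowerSeries.coeff_X_pow_mul', if_pos hk]
  constructor
  · intro k hk
    rw [hom k hk]
    have h3 := PB.mul hp0.le (by positivity) (by positivity) hPBf (PB.pow hp0.le zero_le_one hPBg k)
    have h4 := h3 (b - k)
    rw [one_pow, mul_one, ← pow_add] at h4
    rw [show h + b - k = h + (b - k) by omega]
    exact h4
  · rw [hom b le_rfl, Nat.sub_self, PowerSeries.coeff_zero_eq_constantCoeff_apply, map_mul, map_pow]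
    have hg0 : PowerSeries.constantCoeff g = d := by
      rw [hg]; simp
    have hf0 : PowerSeries.constantCoeff f = ((6 * n).factorial : ℚ) ^ h * d *
        ∏ k ∈ sN n, ((-(c : ℚ) + (k : ℚ))⁻¹) ^ h := by
      rw [hf]
      unfold RS VV
      rw [TSPN, map_mul, map_mul, map_prod]
      congr 1
      · simp [hd]
      · apply Finset.prod_congr rfl
        intro k _
        rw [map_pow]
        congr 1
        rw [← PowerSeries.coeff_zero_eq_constantCoeff_apply]
        simp [iv]
    rw [hg0, hf0, padicNorm.mul, padicNorm.mul, padicNorm.mul, pn_pow d, hdn, hFn]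
    have h5 : padicNorm p (∏ k ∈ sN n, ((-(c : ℚ) + (k : ℚ))⁻¹) ^ h) = (p : ℚ) ^ h := by
      rw [← hprod]
      have h6 : ∀ s : Finset ℕ, s ⊆ sN n → padicNorm p (∏ k ∈ s, ((-(c : ℚ) + (k : ℚ))⁻¹) ^ h) =
          ∏ k ∈ s, (if k = c + p then (p : ℚ) else 1) ^ h := by
        intro s
        induction s using Finset.induction_on with
        | empty => intro _; simp
        | insert a s ha ih =>
          intro hs
          rw [Finset.prod_insert ha, Finset.prod_insert ha, padicNorm.mul,
            ih (fun x hx => hs (Finset.mem_insert_of_mem hx)), pn_pow]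
          congr 2
          have := norm_shift h2 hc1 hc (hs (Finset.mem_insert_self a s)) (p := p)
          rw [← one_div, padicNorm.div, padicNorm.one, this]
          split_ifs <;> simp
      exact h6 _ (Finset.Subset.refl _)
    rw [h5]
    simp

end

end Pool.Agent.H15.V
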