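import Pool.Agent.H15.V.Stm
import Pool.Graph.R_pool_sql_team_seeded_63374d34.N334.W.CBD

/-!
# Project V, part PB1: partial fraction coefficients at the poles with a partner in their class modulo `p`
-/

open Polynomial
open Pool.Agent.H337R2 hiding mu

namespace Pool.Agent.H15.V

open Pool.Agent.N334.W (mu UInt nx vd MT cv wcl Dcl G2 Hn PS CBD_lin CBD_lin_dvd)

noncomputable section

namespace PBaux

/-- the node factor -/
lemma comp_node (n c : ℕ) :
    (X - C ((nd n c : ℤ) : ℚ)).comp (xp n) = (X + C (c : ℚ)) * (X + C (((8 * n : ℕ) : ℚ) - c)) := by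
  unfold xp nd
  rw [Polynomial.sub_comp, Polynomial.X_comp, Polynomial.C_comp]
  push_cast
  simp only [Polynomial.C_mul, Polynomial.C_sub, Polynomial.C_neg, Polynomial.C_add]
  ring

section
variable {p : ℕ} [hp : Fact p.Prime]

lemma PB_node (n k c : ℕ) (hc : c ≤ 8 * n) (h : c ≡ k [MOD p] ∨ 8 * n - c ≡ k [MOD p]) :
    PB p (p : ℚ) (p : ℚ)⁻¹ (TS (-(k : ℚ)) ((X - C ((nd n c : ℤ) : ℚ)).comp (xp n))) := by
  have hp0 : (0 : ℚ) < p := p_pos'
  rw [comp_node, map_mul, TS_lin, TS_lin]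
  have e1 : (-(k : ℚ) + (c : ℚ)) = ((-((k : ℤ) - c) : ℤ) : ℚ) := by push_cast; ring
  have e2 : (-(k : ℚ) + (((8 * n : ℕ) : ℚ) - (c : ℚ))) =
      ((-((k : ℤ) - ((8 * n - c : ℕ) : ℤ)) : ℤ) : ℚ) := by
    push_cast [Nat.cast_sub hc]; ring
  rcases h with h | h
  · have h1 := CBD_lin_dvd (p := p) _ ((dvd_neg).2 (Nat.modEq_iff_dvd.1 h)) _ e1
    have h2 := CBD_lin (p := p) _ _ e2
    have := PB.mul hp0.le (inv_nonneg.2 hp0.le) zero_le_one h1 h2
    simpa using this
  · have h1 := CBD_lin (p := p) _ _ e1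
    have h2 := CBD_lin_dvd (p := p) _ ((dvd_neg).2 (Nat.modEq_iff_dvd.1 h)) _ e2
    have := PB.mul hp0.le zero_le_one (inv_nonneg.2 hp0.le) h1 h2
    simpa using this

lemma PB_sum {ι : Type*} {ρ A : ℚ} (s : Finset ι) (f : ι → PowerSeries ℚ) (hρ : 0 ≤ ρ) (hA : 0 ≤ A)
    (hf : ∀ i ∈ s, PB p ρ A (f i)) : PB p ρ A (∑ i ∈ s, f i) := by
  intro j
  rw [map_sum]
  exact padicNorm.sum_le' (fun i hi => hf i hi j) (by positivity)

/-- Taylor expansion at a node -/
lemma taylor_sum (Q : ℚ[X]) (ξ : ℚ) :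
    Q = ∑ l ∈ Finset.range (Q.natDegree + 1), C ((taylor ξ Q).coeff l) * (X - C ξ) ^ l := by
  have h := Polynomial.sum_taylor_eq Q ξ
  rw [Polynomial.sum_over_range' _ (by simp) (Q.natDegree + 1) (by rw [Polynomial.natDegree_taylor]; omega)] at h
  exact h.symm

lemma PB_comp (n k c : ℕ) (Q : ℚ[X]) (A : ℚ) (hc : c ≤ 8 * n)
    (h : c ≡ k [MOD p] ∨ 8 * n - c ≡ k [MOD p])
    (hQ : ∀ l, padicNorm p ((taylor ((nd n c : ℤ) : ℚ) Q).coeff l) ≤ A * (p : ℚ) ^ l) :
    PB p (p : ℚ) A (TS (-(k : ℚ)) (Q.comp (xp n))) := by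
  have hp0 : (0 : ℚ) < p := p_pos'
  have hA : 0 ≤ A := by
    have := hQ 0
    rw [pow_zero, mul_one] at this
    exact (padicNorm.nonneg _).trans this
  conv => rw [taylor_sum Q ((nd n c : ℤ) : ℚ)]
  rw [Polynomial.sum_comp, map_sum]
  apply PB_sum _ _ hp0.le hA
  intro l _
  rw [Polynomial.mul_comp, Polynomial.C_comp, Polynomial.pow_comp, map_mul, map_pow, TS_C]
  have h1 := PB.pow hp0.le (inv_nonneg.2 hp0.le) (PB_node (p := p) n k c hc h) l
  have hApl : (0 : ℚ) ≤ A * (p : ℚ) ^ l := by positivity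
  have h2 := PB.mul hp0.le hApl (by positivity) (PB.C hp0.le hApl (hQ l)) h1
  have e : A * (p : ℚ) ^ l * ((p : ℚ)⁻¹) ^ l = A := by
    rw [mul_assoc, ← mul_pow, mul_inv_cancel₀ hp0.ne', one_pow, mul_one]
  rw [e] at h2
  exact h2

/-- `(6n)!` contains exactly one factor `p` -/
lemma norm_fac {n : ℕ} (h4 : 4 * n < p) (h6 : p ≤ 6 * n) (h : ℕ) :
    padicNorm p (((6 * n).factorial : ℚ) ^ h) = ((p : ℚ)⁻¹) ^ h := by
  rw [padicNorm_pow', norm_factorial]
  · have h1 : 6 * n / p = 1 := by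
      rw [Nat.div_eq_iff hp.out.pos]
      omega
    rw [h1]
    simp
  · have h2 : 2 ≤ p := hp.out.two_le
    nlinarith

lemma PB_PN {n : ℕ} (h k : ℕ) (h4 : 4 * n < p) (h6 : p ≤ 6 * n) :
    PB p (p : ℚ) (((p : ℚ)⁻¹) ^ h) (TS (-(k : ℚ)) (PN h n)) := by
  have hp0 : (0 : ℚ) < p := p_pos'
  unfold PN
  rw [map_mul, TS_C, TS_lin2]
  have h2 : PB p (p : ℚ) 1 (PowerSeries.C 2 * PowerSeries.X +
      PowerSeries.C (2 * -(k : ℚ) + ((8 * n : ℕ) : ℚ))) := by
    apply PB.lin hp0.le zero_le_one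
    · have := padicNorm.of_int (p := p) (((8 * n : ℕ) : ℤ) - 2 * k)
      push_cast at this ⊢
      rw [show (2 : ℚ) * -(k : ℚ) + 8 * n = 8 * n - 2 * k by ring]
      exact this
    · rw [one_mul]
      have := padicNorm.of_int (p := p) 2
      push_cast at this
      exact this.trans p_one'
  have := PB.mul hp0.le (by positivity) zero_le_one
    (PB.C hp0.le (by positivity) (norm_fac (p := p) h4 h6 h).le) h2
  simpa using this

end

end PBaux

open PBaux in
theorem PB1 : S_PB1 := by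
  intro h n p k c i Q A hn hpp h4 h6 hk hc hck hQ hi1 hi
  have hp : Fact p.Prime := ⟨hpp⟩
  have hp0 : (0 : ℚ) < p := p_pos'
  have hp1 : (1 : ℚ) ≤ p := p_one'
  have hA : 0 ≤ A := by
    have := hQ 0
    rw [pow_zero, mul_one] at this
    exact (padicNorm.nonneg _).trans this
  obtain ⟨k', hk'⟩ : ∃ k', k' = if k + p ≤ 7 * n then k + p else k - p := ⟨_, rfl⟩
  have hkI := Finset.mem_Icc.1 hk
  have hpart : ∀ m ∈ (sN n).erase k, (p : ℤ) ∣ (m : ℤ) - k → m = k' := by
    intro m hm hd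
    have hmk := Finset.ne_of_mem_erase hm
    have hm' := Finset.mem_Icc.1 (Finset.mem_of_mem_erase hm)
    obtain ⟨z, hz⟩ := hd
    have hpz : (0 : ℤ) < p := by exact_mod_cast hpp.pos
    have hz1 : z < 2 := by
      by_contra hcon
      have : (p : ℤ) * 2 ≤ p * z := mul_le_mul_of_nonneg_left (by omega) hpz.le
      omega
    have hz2 : -2 < z := by
      by_contra hcon
      have : (p : ℤ) * z ≤ p * (-2) := mul_le_mul_of_nonneg_left (by omega) hpz.le
      omega
    have hz0 : z ≠ 0 := by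
      rintro rfl
      omega
    have hz3 : z = 1 ∨ z = -1 := by omega
    rw [hk']
    rcases hz3 with rfl | rfl
    · rw [if_pos (by omega)]
      omega
    · rw [if_neg (by omega)]
      omega
  unfold pa
  rw [if_pos hi]
  have hPE := PB.mul hp0.le (by positivity) hA (PB_PN (p := p) h k h4 h6)
    (PB_comp (p := p) n k c Q A hc hck hQ)
  rw [← map_mul] at hPE
  have h1 := pfc_bound (p := p) (sN n) (mu h) _ k (p : ℚ) _
    (fun m => if m = k' then (p : ℚ) else 1) hp0.le (by positivity) hPE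
    (by
      intro m hm _
      have hmk := Finset.ne_of_mem_erase hm
      have hm' := Finset.mem_Icc.1 (Finset.mem_of_mem_erase hm)
      have h1 : ((m : ℤ) - k) ≠ 0 := by
        intro h; apply hmk; omega
      have h2 : |(m : ℤ) - k| < (p : ℤ) ^ 2 := by
        have h3 : (2 : ℤ) ≤ p := by exact_mod_cast hpp.two_le
        have h5 : |(m : ℤ) - k| < 2 * p := by
          rw [abs_lt]
          omega
        nlinarith
      have h3 := norm_small (p := p) h1 h2
      push_cast at h3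
      rw [h3]
      by_cases hd : (p : ℤ) ∣ (m : ℤ) - k
      · rw [if_pos hd, if_pos (hpart m hm hd)]
        simp
      · rw [if_neg hd]
        split_ifs
        · simp [hp1]
        · simp [hp1])
    (by
      intro m _
      split_ifs
      · exact hp0.le
      · exact zero_le_one) (mu h k - i)
  have hprod : ∏ m ∈ (sN n).erase k, (if m = k' then (p : ℚ) else 1) ^ mu h m ≤ (p : ℚ) ^ h := by
    have : ∀ m, mu h m = h := fun _ => rfl
    simp only [this]
    rw [Finset.prod_pow]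
    apply pow_le_pow_left₀
    · exact Finset.prod_nonneg fun m _ => by split_ifs <;> positivity
    · rw [Finset.prod_ite_eq' ((sN n).erase k) k' (fun _ => (p : ℚ))]
      split_ifs
      · exact le_rfl
      · exact hp1
  have hmu : mu h k = h := rfl
  rw [hmu] at h1 ⊢
  refine h1.trans ?_
  have e : ((p : ℚ)⁻¹) ^ h * (p : ℚ) ^ h = 1 := by
    rw [← mul_pow, inv_mul_cancel₀ hp0.ne', one_pow]
  calc ((p : ℚ)⁻¹) ^ h * A * (∏ m ∈ (sN n).erase k, (if m = k' then (p : ℚ) else 1) ^ mu h m) *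
        (p : ℚ) ^ (h - i) ≤ ((p : ℚ)⁻¹) ^ h * A * (p : ℚ) ^ h * (p : ℚ) ^ (h - i) := by
        gcongr
    _ = A * (((p : ℚ)⁻¹) ^ h * (p : ℚ) ^ h) * (p : ℚ) ^ (h - i) := by ring
    _ = A * (p : ℚ) ^ (h - i) := by rw [e, mul_one]

end

end Pool.Agent.H15.V
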