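import Pool.Agent.H15.V.PB1
import Pool.Graph.R_pool_sql_team_seeded_63374d34.N334.W.RED

/-!
# Project V, part PB2: partial fraction coefficients at the poles without a partner in their class modulo `p`
-/

open Polynomial
open Pool.Agent.H337R2 hiding mu

namespace Pool.Agent.H15.V

open Pool.Agent.N334.W (mu UInt nx vd MT cv wcl Dcl G2 Hn PS)

noncomputable section

namespace PBaux

/-- the integral polynomial -/
def Gz (n : ℕ) (Q : ℤ[X]) : ℤ[X] :=
  (2 * X + C ((8 * n : ℕ) : ℤ)) * Q.comp (X * (X + C ((8 * n : ℕ) : ℤ)))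

lemma map_Gz (h n : ℕ) (Q : ℤ[X]) : PN h n * (Q.map (Int.castRingHom ℚ)).comp (xp n) =
    C (((6 * n).factorial : ℚ) ^ h) * (Gz n Q).map (Int.castRingHom ℚ) := by
  unfold Gz PN xp
  rw [Polynomial.map_mul, Polynomial.map_comp, Polynomial.map_mul,
    Polynomial.map_add, Polynomial.map_add, Polynomial.map_mul]
  have h8 : (C (8 : ℚ) : ℚ[X]) = 8 := map_ofNat C 8
  simp [h8, mul_assoc]

end PBaux

open PBaux in
theorem PB2 : S_PB2 := by
  intro h n p k i Q hn hpp h4 h6 hk hkp hkn hi1 hi
  have hp : Fact p.Prime := ⟨hpp⟩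
  have hp0 : (0 : ℚ) < p := p_pos'
  have hp1 : (1 : ℚ) ≤ p := p_one'
  have hkI := Finset.mem_Icc.1 hk
  have hkp' : ¬ (k + p ≤ 7 * n) := by
    intro hc
    apply hkp
    rw [Finset.mem_Icc]
    omega
  rw [map_Gz]
  unfold pa
  rw [if_pos hi]
  have hPE : PB p (1 : ℚ) (((p : ℚ)⁻¹) ^ h)
      (TS (-(k : ℚ)) (C (((6 * n).factorial : ℚ) ^ h) * (Gz n Q).map (Int.castRingHom ℚ))) := by
    rw [map_mul, TS_C]
    have := PB.mul zero_le_one (by positivity) zero_le_one
      (PB.C zero_le_one (by positivity) (norm_fac (p := p) h4 h6 h).le)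
      (Pool.Agent.N334.W.Red.PB_map (p := p) (Gz n Q) k)
    simpa using this
  have h1 := pfc_bound (p := p) (sN n) (mu h) _ k (1 : ℚ) _
    (fun _ => 1) zero_le_one (by positivity) hPE
    (by
      intro m hm _
      have hmk := Finset.ne_of_mem_erase hm
      have hm' := Finset.mem_Icc.1 (Finset.mem_of_mem_erase hm)
      have h2 : padicNorm p ((m : ℚ) - k) = 1 := by
        have h3 : ((m : ℚ) - k) = (((m : ℤ) - k : ℤ) : ℚ) := by push_cast; rfl
        rw [h3, padicNorm.int_eq_one_iff]
        rintro ⟨z, hz⟩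
        have hpz : (0 : ℤ) < p := by exact_mod_cast hpp.pos
        have hz1 : z < 2 := by
          by_contra hcon
          have : (p : ℤ) * 2 ≤ p * z := mul_le_mul_of_nonneg_left (by omega) hpz.le
          omega
        have hz2 : -2 < z := by
          by_contra hcon
          have : (p : ℤ) * z ≤ p * (-2) := mul_le_mul_of_nonneg_left (by omega) hpz.le
          omega
        have hz0 : z ≠ 0 := by
          rintro rfl
          omega
        have hz3 : z = 1 ∨ z = -1 := by omega
        rcases hz3 with rfl | rfl <;> omega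
      rw [h2]
      simp) (fun _ _ => zero_le_one) (mu h k - i)
  refine h1.trans (le_of_eq ?_)
  simp

end

end Pool.Agent.H15.V
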