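import Pool.Agent.H15.V.Stm
import Pool.Agent.H15.V.OM1
import Pool.Graph.R_pool_sql_team_seeded_63374d34.N334.W.RED

/-!
# Project V, part RD: exact decomposition of the linear form, `4n < p ≤ 6n`
-/

open Polynomial Pool.Agent.H337R2

namespace Pool.Agent.H15.V

open Pool.Agent.N334.W (mu UInt nx vd MT cv wcl Dcl G2 Hn PS)
open Pool.Agent.N334.W.Red (I I.add I.neg I.mul I.sum I.int I.nat hs_split)

noncomputable section

namespace RDaux

lemma coeff_form (b h n c : ℕ) (hb : Even b) (P : ℚ[X])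
    (hdeg : P.degree < (QQ (sN n) (mu h)).degree) (hc : c < n) :
    PowerSeries.coeff b (RS (sN n) (mu h) P (-(c : ℚ))) = ∑ i ∈ Finset.Icc 1 h, ∑ k ∈ sN n,
      ((Nat.choose (i - 1 + b) (i - 1) : ℕ) : ℚ) * pa (sN n) (mu h) P k i *
        (1 / ((k : ℚ) - c) ^ (i + b)) := by
  rw [coeff_RS (sN n) (mu h) P hdeg _ (by
    intro m hm h0
    have hm' := (Finset.mem_Icc.1 hm).1
    have : (m : ℚ) = c := by linarith
    have : m = c := by exact_mod_cast this
    omega) b, Finset.sum_comm, hb.neg_one_pow]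
  have hmu : ∀ k, mu h k = h := fun _ => rfl
  apply Finset.sum_congr rfl
  intro k _
  simp only [hmu]
  refine Finset.sum_nbij' (fun j => h - j) (fun i => h - i) ?_ ?_ ?_ ?_ ?_
  · intro j hj
    rw [Finset.mem_range] at hj
    rw [Finset.mem_Icc]
    omega
  · intro i hi
    rw [Finset.mem_Icc] at hi
    rw [Finset.mem_range]
    omega
  · intro j hj
    rw [Finset.mem_range] at hj
    omega
  · intro i hi
    rw [Finset.mem_Icc] at hi
    omega
  · intro j hj
    rw [Finset.mem_range] at hj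
    unfold Pool.Agent.H337R2.pa
    rw [if_pos (by omega : h - j ≤ h), (by omega : h - (h - j) = j),
      (by ring : -(c : ℚ) + k = k - c)]
    ring

/-- `hs` up to the term `1/p^e` is `p`-integral for `M < 2p` -/
lemma hs_two {p : ℕ} [hp : Fact p.Prime] (e M : ℕ) (hM : M < 2 * p) :
    I p (hs e M - if p ≤ M then 1 / (p : ℚ) ^ e else 0) := by
  have h1 : hs e M - (if p ≤ M then 1 / (p : ℚ) ^ e else 0) =
      ∑ l ∈ Finset.range M, (1 / ((l : ℚ) + 1) ^ e - if l = p - 1 then 1 / (p : ℚ) ^ e else 0) := by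
    rw [Finset.sum_sub_distrib, Finset.sum_ite_eq']
    unfold Pool.Agent.H337R2.hs
    congr 1
    have hp1 : 1 ≤ p := hp.out.one_lt.le
    by_cases h : p ≤ M
    · rw [if_pos h, if_pos (Finset.mem_range.2 (by omega))]
    · rw [if_neg h, if_neg (by rw [Finset.mem_range]; omega)]
  rw [h1]
  apply I.sum
  intro l hl
  rw [Finset.mem_range] at hl
  have hp1 : 1 ≤ p := hp.out.one_lt.le
  split_ifs with h
  · have h2 : ((l : ℚ) + 1) = (p : ℚ) := by
      rw [h, Nat.cast_sub hp1]; push_cast; ring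
    rw [h2, sub_self]
    exact (I.int (p := p) 0)
  · rw [sub_zero]
    unfold Pool.Agent.N334.W.Red.I
    have h2 : padicNorm p ((l : ℚ) + 1) = 1 := by
      have : ((l : ℚ) + 1) = ((l + 1 : ℕ) : ℚ) := by push_cast; rfl
      rw [this, padicNorm.nat_eq_one_iff]
      rintro ⟨m, hm⟩
      have : m = 0 ∨ m = 1 ∨ 2 ≤ m := by omega
      rcases this with h' | h' | h'
      · subst h'; omega
      · subst h'; omega
      · have : p * 2 ≤ p * m := Nat.mul_le_mul_left p h'
        omega
    rw [padicNorm.div, Pool.Agent.N334.W.Red.norm_pow, h2]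
    simp

end RDaux

open RDaux in
theorem RD_of : S_OM1 → S_RD := by
  intro OM1 b h n q p u hb hn hp h4 h6 hu
  have : Fact p.Prime := ⟨hp⟩
  refine ⟨fun i k => ((Nat.choose (i - 1 + b) (i - 1) : ℕ) : ℚ) *
    ((q : ℚ) * u (i + b) - (q : ℚ) * (hs (i + b) (k - n) -
      if p ≤ k - n then 1 / (p : ℚ) ^ (i + b) else 0)), ?_, ?_⟩
  · intro i k hi hk
    have hk' := Finset.mem_Icc.1 hk
    obtain ⟨z, hz⟩ := hu.2 (i + b)
    change I p (((Nat.choose (i - 1 + b) (i - 1) : ℕ) : ℚ) *
      ((q : ℚ) * u (i + b) - (q : ℚ) * (hs (i + b) (k - n) -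
        if p ≤ k - n then 1 / (p : ℚ) ^ (i + b) else 0)))
    rw [hz, sub_eq_add_neg]
    exact (I.nat _).mul ((I.int z).add (((I.nat q).mul (hs_two _ _ (by omega))).neg))
  intro Q hdeg
  rw [NL_apply]
  set F := PN h n * Q.comp (xp n) with hF
  have hdegF : F.degree < (QQ (sN n) (mu h)).degree := by
    rw [Polynomial.degree_eq_natDegree (QQ_monic _ _).ne_zero, QQ_natDegree]
    refine lt_of_le_of_lt Polynomial.degree_le_natDegree ?_
    have h1 : F.natDegree ≤ 2 * Q.natDegree + 1 := by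
      rw [hF]
      refine Polynomial.natDegree_mul_le.trans ?_
      have h2 : (PN h n).natDegree ≤ 1 := by
        unfold PN
        compute_degree
      have h3 : (Q.comp (xp n)).natDegree ≤ 2 * Q.natDegree := by
        refine Polynomial.natDegree_comp_le.trans ?_
        have h4 : (xp n).natDegree ≤ 2 := by
          unfold xp
          compute_degree
        calc _ ≤ Q.natDegree * 2 := Nat.mul_le_mul le_rfl h4
          _ = _ := by ring
      omega
    have h6 : ∑ k ∈ sN n, mu h k = h * (6 * n + 1) := by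
      rw [Finset.sum_const, Nat.card_Icc, smul_eq_mul]
      have : 7 * n + 1 - n = 6 * n + 1 := by omega
      rw [this]
      ring
    rw [h6]
    exact_mod_cast lt_of_le_of_lt h1 hdeg
  have hsum : NS b h n Q =
      ∑ i ∈ Finset.Icc 1 h, ∑ k ∈ sN n, ((Nat.choose (i - 1 + b) (i - 1) : ℕ) : ℚ) *
        pa (sN n) (mu h) F k i * ∑ c ∈ Finset.Icc 1 (n - 1), (1 / ((k : ℚ) - c) ^ (i + b)) := by
    unfold NS
    have h1 : ∀ c ∈ Finset.Icc 1 (n - 1), ∑ k ∈ Finset.range (b + 1), om b h n (-(c : ℚ)) k *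
      (hasseDeriv k Q).eval (-(c : ℚ) * (-(c : ℚ) + ((8 * n : ℕ) : ℚ))) =
      ∑ i ∈ Finset.Icc 1 h, ∑ k ∈ sN n, ((Nat.choose (i - 1 + b) (i - 1) : ℕ) : ℚ) *
        pa (sN n) (mu h) F k i * (1 / ((k : ℚ) - c) ^ (i + b)) := by
      intro c hc
      rw [Finset.mem_Icc] at hc
      rw [← OM1 b h n (-(c : ℚ)) Q, ← hF, coeff_form b h n c hb F hdegF (by omega)]
    rw [Finset.sum_congr rfl h1, Finset.sum_comm]
    apply Finset.sum_congr rfl
    intro i _
    rw [Finset.sum_comm]
    apply Finset.sum_congr rfl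
    intro k _
    rw [Finset.mul_sum]
  have hlam : ∑ k ∈ Finset.Icc (n + p) (7 * n), lam b h n p k Q =
      ∑ i ∈ Finset.Icc 1 h, ∑ k ∈ sN n, ((Nat.choose (i - 1 + b) (i - 1) : ℕ) : ℚ) *
        pa (sN n) (mu h) F k i * (if p ≤ k - n then 1 / (p : ℚ) ^ (i + b) else 0) := by
    unfold lam
    rw [Finset.sum_comm]
    apply Finset.sum_congr rfl
    intro i _
    have hset : Finset.Icc (n + p) (7 * n) = (sN n).filter fun k => p ≤ k - n := by
      ext k
      rw [Finset.mem_filter, sN, Finset.mem_Icc, Finset.mem_Icc]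
      have := hp.pos
      omega
    rw [hset, Finset.sum_filter]
    apply Finset.sum_congr rfl
    intro k _
    split_ifs
    · rw [← hF]; ring
    · ring
  have hxf : xf b h n u F = ∑ i ∈ Finset.Icc 1 h, ∑ k ∈ sN n,
      ((Nat.choose (i - 1 + b) (i - 1) : ℕ) : ℚ) * pa (sN n) (mu h) F k i *
        (u (i + b) - hs (i + b) (k - 1)) := by
    unfold xf
    apply Finset.sum_congr rfl
    intro i _
    rw [Finset.sum_mul, ← Finset.sum_sub_distrib, Finset.mul_sum]
    apply Finset.sum_congr rfl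
    intro k _
    ring
  rw [hxf, hsum, hlam, ← Finset.sum_add_distrib, ← Finset.sum_add_distrib, Finset.mul_sum]
  apply Finset.sum_congr rfl
  intro i hi
  rw [← Finset.sum_add_distrib, ← Finset.sum_add_distrib, Finset.mul_sum]
  apply Finset.sum_congr rfl
  intro k hk
  have hk' := Finset.mem_Icc.1 hk
  have e1 := hs_split (i + b) k (n - 1) (by omega)
  have e2 : k - 1 - (n - 1) = k - n := by omega
  rw [e2] at e1
  rw [e1]
  ring

theorem RD : S_RD := RD_of OM1

end

end Pool.Agent.H15.V
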