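import Pool.Agent.H15.V.Stm

/-!
# The linear form modulo `p`-integral numbers, `p > 2n`
-/

open Polynomial Pool.Agent.H337R2

namespace Pool.Agent.H15.V

open Pool.Agent.N334.W (mu UInt nx vd MT cv wcl Dcl G2 Hn PS)

noncomputable section

set_option linter.unusedSectionVars false

namespace Red

/-- `p`-integral rational numbers -/
def I (p : ℕ) (x : ℚ) : Prop := padicNorm p x ≤ 1

variable {p : ℕ} [hp : Fact p.Prime]

lemma I.add {x y : ℚ} (hx : I p x) (hy : I p y) : I p (x + y) :=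
  padicNorm.nonarchimedean.trans (max_le hx hy)

lemma I.neg {x : ℚ} (hx : I p x) : I p (-x) := by
  unfold I
  rw [padicNorm.neg]
  exact hx

lemma I.mul {x y : ℚ} (hx : I p x) (hy : I p y) : I p (x * y) := by
  unfold I
  rw [padicNorm.mul]
  exact mul_le_one₀ hx (padicNorm.nonneg _) hy

lemma I.sum {ι : Type*} (s : Finset ι) (f : ι → ℚ) (h : ∀ i ∈ s, I p (f i)) : I p (∑ i ∈ s, f i) :=
  padicNorm.sum_le' h zero_le_one

lemma I.int (z : ℤ) : I p z := padicNorm.of_int z

lemma I.nat (z : ℕ) : I p z := padicNorm.of_nat z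

lemma norm_pow (x : ℚ) (e : ℕ) : padicNorm p (x ^ e) = padicNorm p x ^ e := by
  induction e with
  | zero => simp
  | succ m ih => rw [pow_succ, pow_succ, padicNorm.mul, ih]

lemma I.hs (e M : ℕ) (hM : M < p) : I p (hs e M) := by
  unfold Pool.Agent.H337R2.hs
  apply I.sum
  intro l hl
  rw [Finset.mem_range] at hl
  unfold I
  have h1 : padicNorm p ((l : ℚ) + 1) = 1 := by
    have : ((l : ℚ) + 1) = ((l + 1 : ℕ) : ℚ) := by push_cast; rfl
    rw [this, padicNorm.nat_eq_one_iff]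
    intro hd
    have := Nat.le_of_dvd (Nat.succ_pos l) hd
    omega
  rw [padicNorm.div, norm_pow, h1]
  simp

lemma hs_split (e k m : ℕ) (hm : m + 1 ≤ k) :
    hs e (k - 1) = hs e (k - 1 - m) + ∑ c ∈ Finset.Icc 1 m, 1 / ((k : ℚ) - c) ^ e := by
  induction m with
  | zero => simp
  | succ m ih =>
    rw [ih (by omega), Finset.sum_Icc_succ_top (by omega)]
    have h1 : k - 1 - m = (k - 1 - (m + 1)) + 1 := by omega
    have h2 : hs e (k - 1 - m) = hs e (k - 1 - (m + 1)) + 1 / ((k : ℚ) - ((m + 1 : ℕ) : ℚ)) ^ e := by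
      rw [h1]
      unfold Pool.Agent.H337R2.hs
      rw [Finset.sum_range_succ]
      congr 3
      have h3 : ((k - 1 - (m + 1) : ℕ) : ℚ) = (k : ℚ) - 1 - (m + 1) := by
        rw [Nat.cast_sub (by omega), Nat.cast_sub (by omega)]
        push_cast
        ring
      rw [h3]
      push_cast
      ring
    rw [h2]
    ring

/-- the integral polynomial -/
def Fz (h n : ℕ) (Q : ℤ[X]) : ℤ[X] :=
  C (((6 * n).factorial : ℤ) ^ h) * (2 * X + C ((8 * n : ℕ) : ℤ)) *
    Q.comp (X * (X + C ((8 * n : ℕ) : ℤ)))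

lemma map_Fz (h n : ℕ) (Q : ℤ[X]) : (Fz h n Q).map (Int.castRingHom ℚ) =
    PN h n * (Q.map (Int.castRingHom ℚ)).comp (xp n) := by
  unfold Fz PN xp
  rw [Polynomial.map_mul, Polynomial.map_mul, Polynomial.map_comp, Polynomial.map_mul,
    Polynomial.map_add, Polynomial.map_add, Polynomial.map_mul]
  have h4 : (C (8 : ℚ) : ℚ[X]) = 8 := map_ofNat C 8
  simp [h4]

lemma PB_map (P : ℤ[X]) (k : ℕ) : PB p 1 1 (TS (-(k : ℚ)) (P.map (Int.castRingHom ℚ))) := by
  intro j
  have h1 : PowerSeries.coeff j (TS (-(k : ℚ)) (P.map (Int.castRingHom ℚ))) =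
      (((taylor (-(k : ℤ)) P).coeff j : ℤ) : ℚ) := by
    have h2 : TS (-(k : ℚ)) (P.map (Int.castRingHom ℚ)) =
        ((taylor (-(k : ℚ)) (P.map (Int.castRingHom ℚ)) : ℚ[X]) : PowerSeries ℚ) := rfl
    rw [h2, Polynomial.coeff_coe]
    have h3 : taylor (-(k : ℚ)) (P.map (Int.castRingHom ℚ)) =
        (taylor (-(k : ℤ)) P).map (Int.castRingHom ℚ) := by
      rw [Polynomial.map_taylor]
      simp
    rw [h3, Polynomial.coeff_map]
    rfl
  rw [h1, one_pow, mul_one]
  exact padicNorm.of_int _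

lemma I.pa (h n : ℕ) (hpn : 6 * n < p) (P : ℤ[X]) (k i : ℕ) (hk : k ∈ sN n) :
    I p (pa (sN n) (mu h) (P.map (Int.castRingHom ℚ)) k i) := by
  unfold Pool.Agent.H337R2.pa
  split_ifs with hi
  · have h1 := pfc_bound (p := p) (sN n) (mu h) (P.map (Int.castRingHom ℚ)) k 1 1 (fun _ => 1)
      zero_le_one zero_le_one (PB_map P k) (by
        intro m hm _
        have hmk := Finset.ne_of_mem_erase hm
        have hm' := Finset.mem_Icc.1 (Finset.mem_of_mem_erase hm)
        have hk' := Finset.mem_Icc.1 hk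
        have h2 : padicNorm p ((m : ℚ) - k) = 1 := by
          have h3 : ((m : ℚ) - k) = (((m : ℤ) - k : ℤ) : ℚ) := by push_cast; rfl
          rw [h3, padicNorm.int_eq_one_iff]
          intro hd
          have h4 := Int.eq_zero_of_abs_lt_dvd hd (by
            rw [abs_lt]
            constructor <;> omega)
          omega
        rw [h2]
        simp) (fun _ _ => zero_le_one) (mu h k - i)
    change padicNorm p _ ≤ 1
    simpa using h1
  · exact (I.nat (p := p) 0)

lemma coeff_form (b h n c : ℕ) (hb : Even b) (P : ℚ[X])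
    (hdeg : P.degree < (QQ (sN n) (mu h)).degree) (hc : c < n) :
    PowerSeries.coeff b (RS (sN n) (mu h) P (-(c : ℚ))) = ∑ i ∈ Finset.Icc 1 h, ∑ k ∈ sN n,
      ((Nat.choose (i - 1 + b) (i - 1) : ℕ) : ℚ) * pa (sN n) (mu h) P k i *
        (1 / ((k : ℚ) - c) ^ (i + b)) := by
  rw [coeff_RS (sN n) (mu h) P hdeg _ (by
    intro m hm h0
    have hm' := (Finset.mem_Icc.1 hm).1
    have : (m : ℚ) = c := by linarith
    have : m = c := by exact_mod_cast this
    omega) b, Finset.sum_comm, hb.neg_one_pow]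
  have hmu : ∀ k, mu h k = h := fun _ => rfl
  apply Finset.sum_congr rfl
  intro k _
  simp only [hmu]
  refine Finset.sum_nbij' (fun j => h - j) (fun i => h - i) ?_ ?_ ?_ ?_ ?_
  · intro j hj
    rw [Finset.mem_range] at hj
    rw [Finset.mem_Icc]
    omega
  · intro i hi
    rw [Finset.mem_Icc] at hi
    rw [Finset.mem_range]
    omega
  · intro j hj
    rw [Finset.mem_range] at hj
    omega
  · intro i hi
    rw [Finset.mem_Icc] at hi
    omega
  · intro j hj
    rw [Finset.mem_range] at hj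
    unfold Pool.Agent.H337R2.pa
    rw [if_pos (by omega : h - j ≤ h), (by omega : h - (h - j) = j),
      (by ring : -(c : ℚ) + k = k - c)]
    ring

end Red

open Red in
theorem RED_of : S_OM1 → S_RED := by
  intro OM1 b h n q p u Q hb hn hp hpn hu hdeg
  have : Fact p.Prime := ⟨hp⟩
  change Red.I p _
  rw [NL_apply]
  set m := 7 * n - p with hm
  have hmn : m < n := by omega
  set F := PN h n * (Q.map (Int.castRingHom ℚ)).comp (xp n) with hF
  have hFz : F = (Fz h n Q).map (Int.castRingHom ℚ) := (map_Fz h n Q).symm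
  have hdegF : F.degree < (QQ (sN n) (mu h)).degree := by
    rw [Polynomial.degree_eq_natDegree (QQ_monic _ _).ne_zero, QQ_natDegree]
    refine lt_of_le_of_lt Polynomial.degree_le_natDegree ?_
    have h1 : F.natDegree ≤ 2 * Q.natDegree + 1 := by
      rw [hF]
      refine Polynomial.natDegree_mul_le.trans ?_
      have h2 : (PN h n).natDegree ≤ 1 := by
        unfold PN
        compute_degree
      have h3 : ((Q.map (Int.castRingHom ℚ)).comp (xp n)).natDegree ≤ 2 * Q.natDegree := by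
        refine Polynomial.natDegree_comp_le.trans ?_
        have h4 : (xp n).natDegree ≤ 2 := by
          unfold xp
          compute_degree
        have h5 := Polynomial.natDegree_map_le (f := Int.castRingHom ℚ) (p := Q)
        calc _ ≤ Q.natDegree * 2 := Nat.mul_le_mul h5 h4
          _ = _ := by ring
      omega
    have h6 : ∑ k ∈ sN n, mu h k = h * (6 * n + 1) := by
      rw [Finset.sum_const, Nat.card_Icc, smul_eq_mul]
      have : 7 * n + 1 - n = 6 * n + 1 := by omega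
      rw [this]
      ring
    rw [h6]
    exact_mod_cast lt_of_le_of_lt h1 hdeg
  have hsum : ∑ c ∈ Finset.Icc 1 m, ∑ k ∈ Finset.range (b + 1), om b h n (-(c : ℚ)) k *
      (hasseDeriv k (Q.map (Int.castRingHom ℚ))).eval (-(c : ℚ) * (-(c : ℚ) + ((8 * n : ℕ) : ℚ))) =
      ∑ i ∈ Finset.Icc 1 h, ∑ k ∈ sN n, ((Nat.choose (i - 1 + b) (i - 1) : ℕ) : ℚ) *
        pa (sN n) (mu h) F k i * ∑ c ∈ Finset.Icc 1 m, (1 / ((k : ℚ) - c) ^ (i + b)) := by
    have h1 : ∀ c ∈ Finset.Icc 1 m, ∑ k ∈ Finset.range (b + 1), om b h n (-(c : ℚ)) k *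
      (hasseDeriv k (Q.map (Int.castRingHom ℚ))).eval (-(c : ℚ) * (-(c : ℚ) + ((8 * n : ℕ) : ℚ))) =
      ∑ i ∈ Finset.Icc 1 h, ∑ k ∈ sN n, ((Nat.choose (i - 1 + b) (i - 1) : ℕ) : ℚ) *
        pa (sN n) (mu h) F k i * (1 / ((k : ℚ) - c) ^ (i + b)) := by
      intro c hc
      rw [Finset.mem_Icc] at hc
      rw [← OM1 b h n (-(c : ℚ)) (Q.map (Int.castRingHom ℚ)), ← hF,
        coeff_form b h n c hb F hdegF (by omega)]
    rw [Finset.sum_congr rfl h1, Finset.sum_comm]
    apply Finset.sum_congr rfl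
    intro i _
    rw [Finset.sum_comm]
    apply Finset.sum_congr rfl
    intro k _
    rw [Finset.mul_sum]
  rw [hsum]
  have hxf : xf b h n u F = ∑ i ∈ Finset.Icc 1 h, ∑ k ∈ sN n,
      ((Nat.choose (i - 1 + b) (i - 1) : ℕ) : ℚ) * pa (sN n) (mu h) F k i *
        (u (i + b) - hs (i + b) (k - 1)) := by
    unfold xf
    apply Finset.sum_congr rfl
    intro i _
    rw [Finset.sum_mul, ← Finset.sum_sub_distrib, Finset.mul_sum]
    apply Finset.sum_congr rfl
    intro k _
    ring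
  rw [hxf, ← Finset.sum_add_distrib, Finset.mul_sum]
  apply I.sum
  intro i hi
  rw [← Finset.sum_add_distrib, Finset.mul_sum]
  apply I.sum
  intro k hk
  have hk' := Finset.mem_Icc.1 hk
  have e1 := hs_split (i + b) k m (by omega)
  have e2 : (q : ℚ) * (((Nat.choose (i - 1 + b) (i - 1) : ℕ) : ℚ) * pa (sN n) (mu h) F k i *
        (u (i + b) - hs (i + b) (k - 1)) + ((Nat.choose (i - 1 + b) (i - 1) : ℕ) : ℚ) *
        pa (sN n) (mu h) F k i * ∑ c ∈ Finset.Icc 1 m, (1 / ((k : ℚ) - c) ^ (i + b))) =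
      ((Nat.choose (i - 1 + b) (i - 1) : ℕ) : ℚ) * pa (sN n) (mu h) F k i *
        ((q : ℚ) * u (i + b) + (q : ℚ) * -hs (i + b) (k - 1 - m)) := by
    rw [e1]
    ring
  rw [e2]
  obtain ⟨z, hz⟩ := hu.2 (i + b)
  rw [hz]
  refine ((I.nat _).mul ?_).mul ((I.int z).add ((I.nat q).mul (I.neg (I.hs _ _ ?_))))
  · rw [hFz]
    exact I.pa h n hpn _ k i hk
  · omega

end

end Pool.Agent.H15.V
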