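import Pool.Agent.H15.V.Stm

/-!
# The sum of the exponents over `6n < p ≤ 7n`
-/

open Filter Topology

namespace Pool.Agent.H15.V

open Pool.Agent.N334.W (PS S_PN)

noncomputable section

/-- **SL** from PN -/
theorem SL_of (hPN : S_PN) : S_SL := by
  intro b h ε hε
  have h1 := hPN 6 7 0 (7 * ((h : ℝ) * ((b : ℝ) + 1))) (-((h : ℝ) * ((b : ℝ) + 1)))
    (by norm_num) (by norm_num)
  have e : (0 : ℝ) * Real.log (7 / 6) + 7 * ((h : ℝ) * ((b : ℝ) + 1)) * (7 - 6) +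
      -((h : ℝ) * ((b : ℝ) + 1)) * ((7 ^ 2 - 6 ^ 2) / 2) = (h : ℝ) * ((b : ℝ) + 1) / 2 := by ring
  rw [e] at h1
  have h2 := h1.eventually (gt_mem_nhds (show (h : ℝ) * ((b : ℝ) + 1) / 2 <
    (h : ℝ) * ((b : ℝ) + 1) / 2 + ε by linarith))
  filter_upwards [h2, eventually_gt_atTop 0] with n hn hn0
  have hn' : (0 : ℝ) < (n : ℝ) ^ 2 := by positivity
  rw [div_lt_iff₀ hn'] at hn
  have h3 : ∑ p ∈ PS 6 7 n, ((h * (b + 1) * (7 * n - p) : ℕ) : ℝ) * Real.log p =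
      ∑ p ∈ PS 6 7 n, (0 * (n : ℝ) ^ 2 / p + 7 * ((h : ℝ) * ((b : ℝ) + 1)) * n +
        -((h : ℝ) * ((b : ℝ) + 1)) * p) * Real.log p := by
    refine Finset.sum_congr rfl fun p hp => ?_
    have hp3 : p ≤ 7 * n := by
      unfold PS at hp
      rw [Finset.mem_filter, Finset.mem_range] at hp
      have h5 : ⌊(7 : ℝ) * n⌋₊ = 7 * n := by
        have : (7 : ℝ) * n = ((7 * n : ℕ) : ℝ) := by push_cast; ring
        rw [this, Nat.floor_natCast]
      omega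
    congr 1
    push_cast [Nat.cast_sub hp3]
    ring
  rw [h3]
  linarith

end

end Pool.Agent.H15.V
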