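import Pool.Agent.H15.V.Stm

/-!
# WD/SM: the small primes

The determinant is computed with the basis `CP n i = ∏_{l < i} (x + 16 n ^ 2 - l ^ 2)`; at `x = t (t + 4 n)`
these polynomials are products of consecutive integers, so they are divisible by factorials.
-/

open Polynomial Pool.Agent.H337R2

namespace Pool.Agent.H15.V

open Pool.Agent.N334.W (mu UInt nx vd MT cv wcl Dcl G2 Hn PS)

noncomputable section

/-! ### determinants -/

private lemma sm_expand (m : ℕ) (P : ℚ[X]) (h : P.natDegree < m) :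
    P = ∑ k : Fin m, (P.coeff k) • (X ^ (k : ℕ) : ℚ[X]) := by
  conv_lhs => rw [P.as_sum_range' m h]
  rw [Fin.sum_univ_eq_sum_range (fun k => (P.coeff k) • (X ^ k : ℚ[X])) m]
  apply Finset.sum_congr rfl
  intro k _
  rw [← Polynomial.C_mul_X_pow_eq_monomial, Polynomial.smul_eq_C_mul]

private lemma sm_gram (N : ℚ[X] →ₗ[ℚ] ℚ) (m : ℕ) {α : Type} [Fintype α] (P : α → ℚ[X])
    (h : ∀ a, (P a).natDegree < m) :
    (Matrix.of fun a b : α => N (P a * P b)) =
      (Matrix.of fun (a : α) (k : Fin m) => (P a).coeff (k : ℕ)) *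
        (Matrix.of fun i j : Fin m => N (X ^ (i.1 + j.1))) *
        (Matrix.of fun (a : α) (k : Fin m) => (P a).coeff (k : ℕ)).transpose := by
  ext a b
  rw [Matrix.of_apply, Matrix.mul_apply]
  conv_lhs => rw [sm_expand m (P a) (h a), sm_expand m (P b) (h b), Finset.mul_sum, map_sum]
  apply Finset.sum_congr rfl
  intro l _
  rw [Matrix.mul_apply, Matrix.transpose_apply, Matrix.of_apply, Finset.sum_mul, Finset.sum_mul,
    map_sum]
  apply Finset.sum_congr rfl
  intro k _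
  rw [Matrix.of_apply, Matrix.of_apply, smul_mul_smul_comm, ← pow_add, map_smul, smul_eq_mul]
  ring

private lemma sm_det_monic (N : ℚ[X] →ₗ[ℚ] ℚ) (m : ℕ) (P : ℕ → ℚ[X])
    (hP : ∀ i < m, (P i).Monic ∧ (P i).natDegree = i) :
    (Matrix.of fun i j : Fin m => N (P i * P j)).det =
      (Matrix.of fun i j : Fin m => N (X ^ (i.1 + j.1))).det := by
  have h1 := sm_gram N m (fun i : Fin m => P i) (fun i => by rw [(hP i i.2).2]; exact i.2)
  have h2 : (Matrix.of fun (a : Fin m) (k : Fin m) => (P a).coeff (k : ℕ)).det = 1 := by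
    rw [Matrix.det_of_isLowerTriangular]
    · apply Finset.prod_eq_one
      intro i _
      rw [Matrix.of_apply]
      have h3 := (hP i i.2).1
      rw [Polynomial.Monic, Polynomial.leadingCoeff, (hP i i.2).2] at h3
      exact h3
    · intro i j hij
      rw [Matrix.of_apply]
      apply Polynomial.coeff_eq_zero_of_natDegree_lt
      rw [(hP i i.2).2]
      exact hij
  rw [h1, Matrix.det_mul, Matrix.det_mul, Matrix.det_transpose, h2, one_mul, mul_one]

private lemma sm_prod_sq (m : ℕ) (N : Fin m → Fin m → ℚ) (V : ℕ → ℚ) (hV : ∀ i, 0 ≤ V i)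
    (h : ∀ i j : Fin m, N i j ^ 2 ≤ V i * V j) (σ : Equiv.Perm (Fin m)) :
    ∏ i, N (σ i) i ≤ ∏ i ∈ Finset.range m, V i := by
  have hP : 0 ≤ ∏ i ∈ Finset.range m, V i := Finset.prod_nonneg fun i _ => hV i
  have h1 : (∏ i, N (σ i) i) ^ 2 ≤ (∏ i ∈ Finset.range m, V i) ^ 2 := by
    calc (∏ i, N (σ i) i) ^ 2 = ∏ i, N (σ i) i ^ 2 := by rw [Finset.prod_pow]
      _ ≤ ∏ i, (V (σ i) * V i) := by
          refine Finset.prod_le_prod (fun i _ => sq_nonneg _) fun i _ => h _ _
      _ = (∏ i, V (σ i : Fin m)) * ∏ i : Fin m, V i := Finset.prod_mul_distrib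
      _ = (∏ i : Fin m, V i) * ∏ i : Fin m, V i := by
          rw [Equiv.prod_comp σ (fun i : Fin m => V i)]
      _ = (∏ i ∈ Finset.range m, V i) ^ 2 := by
          rw [Finset.prod_range, sq]
  exact le_of_sq_le_sq h1 hP

private lemma sm_padic_det (p : ℕ) [Fact p.Prime] (m : ℕ) (M : Matrix (Fin m) (Fin m) ℚ)
    (V : ℕ → ℚ) (hV : ∀ i, 0 ≤ V i) (h : ∀ i j : Fin m, padicNorm p (M i j) ^ 2 ≤ V i * V j) :
    padicNorm p M.det ≤ ∏ i ∈ Finset.range m, V i := by
  rw [Matrix.det_apply]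
  refine padicNorm.sum_le' (fun σ _ => ?_) (Finset.prod_nonneg fun i _ => hV i)
  have hs : padicNorm p (Equiv.Perm.sign σ • ∏ i, M (σ i) i) = ∏ i, padicNorm p (M (σ i) i) := by
    have h1 : padicNorm p (∏ i, M (σ i) i) = ∏ i, padicNorm p (M (σ i) i) := by
      classical
      refine Finset.induction_on (Finset.univ : Finset (Fin m)) ?_ ?_
      · simp
      · intro a s ha ih
        rw [Finset.prod_insert ha, Finset.prod_insert ha, padicNorm.mul, ih]
    rcases Int.units_eq_one_or (Equiv.Perm.sign σ) with hσ | hσ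
    · rw [hσ, one_smul, h1]
    · rw [hσ, Units.neg_smul, one_smul, padicNorm.neg, h1]
  rw [hs]
  exact sm_prod_sq m (fun i j => padicNorm p (M i j)) V hV h σ

/-! ### norms -/

section norms

variable {p : ℕ} [hp : Fact p.Prime]

private lemma sm_pow (a : ℚ) (n : ℕ) : padicNorm p (a ^ n) = padicNorm p a ^ n := by
  induction n with
  | zero => simp
  | succ n ih => rw [pow_succ, pow_succ, padicNorm.mul, ih]

private lemma sm_inv_le {a : ℤ} {l : ℕ} (ha : a ≠ 0) (hlt : |a| < (p : ℤ) ^ (l + 1)) :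
    (padicNorm p (a : ℚ))⁻¹ ≤ (p : ℚ) ^ l := by
  have ha' : (a : ℚ) ≠ 0 := by exact_mod_cast ha
  rw [padicNorm.eq_zpow_of_nonzero ha', padicValRat.of_int, ← zpow_neg, neg_neg, zpow_natCast]
  have h1 : ((p : ℤ) ^ padicValInt p a) ∣ a := padicValInt_dvd a
  have h2 := Int.natAbs_dvd_natAbs.2 h1
  rw [Int.natAbs_pow, Int.natAbs_natCast] at h2
  have h3 := Nat.le_of_dvd (Int.natAbs_pos.2 ha) h2
  have h4 : p ^ padicValInt p a < p ^ (l + 1) := by
    refine lt_of_le_of_lt h3 ?_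
    have h5 : ((a.natAbs : ℕ) : ℤ) < ((p ^ (l + 1) : ℕ) : ℤ) := by
      rw [Int.natCast_natAbs]
      push_cast
      exact hlt
    exact_mod_cast h5
  have h5 := (Nat.pow_lt_pow_iff_right hp.out.one_lt).1 h4
  exact pow_le_pow_right₀ (by exact_mod_cast hp.out.one_lt.le) (by omega)

private lemma sm_inv_le_nat {a l : ℕ} (ha : a ≠ 0) (hlt : a < p ^ (l + 1)) :
    (padicNorm p (a : ℚ))⁻¹ ≤ (p : ℚ) ^ l := by
  have h := sm_inv_le (p := p) (a := (a : ℤ)) (l := l) (by exact_mod_cast ha) (by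
    rw [abs_of_nonneg (Int.natCast_nonneg a)]
    exact_mod_cast hlt)
  rwa [Int.cast_natCast] at h

private lemma sm_fac (N : ℕ) : padicNorm p ((N.factorial : ℕ) : ℚ) =
    ∏ j ∈ Finset.range N, padicNorm p ((j + 1 : ℕ) : ℚ) := by
  induction N with
  | zero => simp
  | succ N ih =>
    rw [Nat.factorial_succ, Nat.cast_mul, padicNorm.mul, ih, Finset.prod_range_succ, mul_comm]

private lemma sm_fac_pos (N : ℕ) : 0 < padicNorm p ((N.factorial : ℕ) : ℚ) :=
  lt_of_le_of_ne (padicNorm.nonneg _)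
    (Ne.symm (padicNorm.nonzero (by exact_mod_cast Nat.factorial_ne_zero N)))

private lemma sm_PB_add {ρ A : ℚ} {f g : PowerSeries ℚ}
    (hf : PB p ρ A f) (hg : PB p ρ A g) : PB p ρ A (f + g) := by
  intro j
  rw [map_add]
  exact (padicNorm.nonarchimedean).trans (max_le (hf j) (hg j))

private lemma sm_PB_neg {ρ A : ℚ} {f : PowerSeries ℚ} (hf : PB p ρ A f) : PB p ρ A (-f) := by
  intro j
  rw [map_neg, padicNorm.neg]
  exact hf j

/-- `∏_{l<N} (X + a + l)` -/
private def fN (a : ℤ) (N : ℕ) : PowerSeries ℚ :=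
  ∏ l ∈ Finset.range N, (PowerSeries.X + PowerSeries.C ((a : ℚ) + l))

private lemma fN_shift (a : ℤ) (N : ℕ) :
    fN (a + 1) (N + 1) = fN a (N + 1) + PowerSeries.C ((N + 1 : ℕ) : ℚ) * fN (a + 1) N := by
  unfold fN
  rw [Finset.prod_range_succ _ N, Finset.prod_range_succ' _ N]
  have h : ∀ l ∈ Finset.range N, (PowerSeries.X + PowerSeries.C ((a : ℚ) + ((l + 1 : ℕ) : ℚ))) =
      (PowerSeries.X + PowerSeries.C (((a + 1 : ℤ) : ℚ) + l) : PowerSeries ℚ) := by
    intro l _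
    push_cast
    congr 2
    ring
  rw [Finset.prod_congr rfl h]
  have h2 : (PowerSeries.X + PowerSeries.C (((a + 1 : ℤ) : ℚ) + N) : PowerSeries ℚ) =
      (PowerSeries.X + PowerSeries.C ((a : ℚ) + (0 : ℕ))) + PowerSeries.C ((N + 1 : ℕ) : ℚ) := by
    rw [add_assoc, ← map_add]
    congr 2
    push_cast
    ring
  rw [h2]
  ring

private lemma sm_linInt {ρ : ℚ} (hρ1 : 1 ≤ ρ) (b : ℤ) :
    PB p ρ 1 (PowerSeries.X + PowerSeries.C (b : ℚ)) :=
  PB.linX (by linarith) zero_le_one (padicNorm.of_int b) (by linarith)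

private lemma sm_PB_fN {M : ℕ} (ρ : ℚ) (hρ1 : 1 ≤ ρ)
    (hρ : ∀ l : ℕ, 1 ≤ l → l ≤ M → (padicNorm p (l : ℚ))⁻¹ ≤ ρ) (N : ℕ) (hN : N ≤ M) :
    ∀ a : ℤ, PB p ρ (padicNorm p ((N.factorial : ℕ) : ℚ)) (fN a N) := by
  have hρ0 : (0 : ℚ) ≤ ρ := by linarith
  have key : ∀ l : ℕ, 1 ≤ l → l ≤ M → 1 ≤ padicNorm p (l : ℚ) * ρ := by
    intro l h1 h2
    have h3 : 0 < padicNorm p (l : ℚ) := by
      refine lt_of_le_of_ne (padicNorm.nonneg _) (Ne.symm (padicNorm.nonzero ?_))
      exact_mod_cast (by omega : l ≠ 0)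
    have h4 := hρ l h1 h2
    calc (1 : ℚ) = padicNorm p (l : ℚ) * (padicNorm p (l : ℚ))⁻¹ := (mul_inv_cancel₀ h3.ne').symm
      _ ≤ _ := by gcongr
  induction N with
  | zero =>
    intro a
    have := PB.one (p := p) hρ0
    simpa [fN] using this
  | succ N ih =>
    have ih := ih (by omega)
    have hfac : padicNorm p (((N + 1).factorial : ℕ) : ℚ) =
        padicNorm p ((N + 1 : ℕ) : ℚ) * padicNorm p ((N.factorial : ℕ) : ℚ) := by
      rw [Nat.factorial_succ, Nat.cast_mul, padicNorm.mul]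
    -- the case `a = 0`
    have h0 : PB p ρ (padicNorm p (((N + 1).factorial : ℕ) : ℚ)) (fN 0 (N + 1)) := by
      have hprod : ∀ K : ℕ, K ≤ N → PB p ρ (padicNorm p ((K.factorial : ℕ) : ℚ))
          (∏ l ∈ Finset.range K, (PowerSeries.X + PowerSeries.C (((l + 1 : ℕ) : ℚ)))) := by
        intro K
        induction K with
        | zero => intro _; simpa using PB.one (p := p) hρ0
        | succ K ihK =>
          intro hK
          rw [Finset.prod_range_succ, Nat.factorial_succ, Nat.cast_mul, padicNorm.mul, mul_comm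
            (padicNorm p ((K + 1 : ℕ) : ℚ))]
          exact PB.mul hρ0 (padicNorm.nonneg _) (padicNorm.nonneg _) (ihK (by omega))
            (PB.linX hρ0 (padicNorm.nonneg _) le_rfl (key (K + 1) (by omega) (by omega)))
      unfold fN
      rw [Finset.prod_range_succ', hfac, mul_comm (padicNorm p ((N + 1 : ℕ) : ℚ))]
      apply PB.mul hρ0 (padicNorm.nonneg _) (padicNorm.nonneg _)
      · have := hprod N le_rfl
        simpa using this
      · apply PB.linX hρ0 (padicNorm.nonneg _)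
        · simp [padicNorm.nonneg]
        · exact key (N + 1) (by omega) (by omega)
    have hmul : ∀ a : ℤ, PB p ρ (padicNorm p (((N + 1).factorial : ℕ) : ℚ))
        (PowerSeries.C ((N + 1 : ℕ) : ℚ) * fN a N) := by
      intro a
      rw [hfac]
      exact PB.mul hρ0 (padicNorm.nonneg _) (padicNorm.nonneg _)
        (PB.C hρ0 (padicNorm.nonneg _) le_rfl) (ih a)
    intro a
    induction a using Int.induction_on with
    | zero => exact h0
    | succ i hi =>
      rw [fN_shift]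
      exact sm_PB_add hi (hmul _)
    | pred i hi =>
      have h := fN_shift (-(i : ℤ) - 1) N
      rw [sub_add_cancel] at h
      have h2 : fN (-(i : ℤ) - 1) (N + 1) =
          fN (-(i : ℤ)) (N + 1) + -(PowerSeries.C ((N + 1 : ℕ) : ℚ) * fN (-(i : ℤ)) N) := by
        rw [h]; ring
      rw [h2]
      exact sm_PB_add hi (sm_PB_neg (hmul _))

end norms

private lemma prod_sym (b : ℤ) (i : ℕ) :
    ∏ l ∈ Finset.range (i + 1), ((PowerSeries.X + PowerSeries.C ((b - l : ℤ) : ℚ)) *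
      (PowerSeries.X + PowerSeries.C ((b + l : ℤ) : ℚ))) =
    (PowerSeries.X + PowerSeries.C (b : ℚ)) * fN (b - i) (2 * i + 1) := by
  induction i with
  | zero =>
    simp [fN]
  | succ i ih =>
    rw [Finset.prod_range_succ, ih]
    have h : fN (b - ((i + 1 : ℕ) : ℤ)) (2 * (i + 1) + 1) =
        (PowerSeries.X + PowerSeries.C ((b - ((i + 1 : ℕ) : ℤ) : ℤ) : ℚ)) * fN (b - i) (2 * i + 1) *
          (PowerSeries.X + PowerSeries.C ((b + ((i + 1 : ℕ) : ℤ) : ℤ) : ℚ)) := by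
      unfold fN
      rw [show 2 * (i + 1) + 1 = (2 * i + 1 + 1) + 1 by ring, Finset.prod_range_succ,
        Finset.prod_range_succ' _ (2 * i + 1)]
      have h1 : ∀ l ∈ Finset.range (2 * i + 1),
          (PowerSeries.X + PowerSeries.C (((b - ((i + 1 : ℕ) : ℤ) : ℤ) : ℚ) + ((l + 1 : ℕ) : ℚ)) :
            PowerSeries ℚ) = PowerSeries.X + PowerSeries.C (((b - (i : ℤ) : ℤ) : ℚ) + (l : ℚ)) := by
        intro l _
        push_cast
        congr 2
        ring
      rw [Finset.prod_congr rfl h1]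
      have h2 : (PowerSeries.X + PowerSeries.C (((b - ((i + 1 : ℕ) : ℤ) : ℤ) : ℚ) +
          ((2 * i + 1 + 1 : ℕ) : ℚ)) : PowerSeries ℚ) =
          PowerSeries.X + PowerSeries.C ((b + ((i + 1 : ℕ) : ℤ) : ℤ) : ℚ) := by
        push_cast
        congr 2
        ring
      rw [h2]
      have h3 : (PowerSeries.X + PowerSeries.C (((b - ((i + 1 : ℕ) : ℤ) : ℤ) : ℚ) +
          ((0 : ℕ) : ℚ)) : PowerSeries ℚ) =
          PowerSeries.X + PowerSeries.C ((b - ((i + 1 : ℕ) : ℤ) : ℤ) : ℚ) := by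
        simp
      rw [h3]
      ring
    rw [h]
    ring

/-! ### the polynomials `CP n i` -/

/-- `∏_{l < i} (x + 16 n ^ 2 - l ^ 2)` -/
private def CP (n i : ℕ) : ℚ[X] := ∏ l ∈ Finset.range i, (X + C (16 * (n : ℚ) ^ 2 - (l : ℚ) ^ 2))

private lemma CP_monic (n i : ℕ) : (CP n i).Monic ∧ (CP n i).natDegree = i := by
  unfold CP
  constructor
  · exact Polynomial.monic_prod_of_monic _ _ fun _ _ => Polynomial.monic_X_add_C _
  · rw [Polynomial.natDegree_prod_of_monic _ _ fun _ _ => Polynomial.monic_X_add_C _,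
      Finset.sum_congr rfl fun l _ => Polynomial.natDegree_X_add_C _]
    simp

private lemma TS_CP (n k i : ℕ) : TS (-(k : ℚ)) ((CP n i).comp (xp n)) =
    ∏ l ∈ Finset.range i, ((PowerSeries.X + PowerSeries.C ((4 * n - k - l : ℤ) : ℚ)) *
      (PowerSeries.X + PowerSeries.C ((4 * n - k + l : ℤ) : ℚ))) := by
  unfold CP
  rw [Polynomial.prod_comp, map_prod]
  apply Finset.prod_congr rfl
  intro l _
  rw [Polynomial.add_comp, Polynomial.X_comp, Polynomial.C_comp]
  have : xp n + C (16 * (n : ℚ) ^ 2 - (l : ℚ) ^ 2) =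
      (X + C (4 * (n : ℚ) - l)) * (X + C (4 * (n : ℚ) + l)) := by
    unfold xp
    simp only [map_sub, map_add, map_mul, map_pow, Nat.cast_mul, Nat.cast_ofNat]
    have e1 : (C (4 : ℚ)) = 4 := rfl
    have e3 : (C (8 : ℚ)) = 8 := rfl
    have e4 : (C (16 : ℚ)) = 16 := rfl
    have e2 : (C (2 : ℚ)) = 2 := rfl
    rw [e1, e3, e4]
    ring
  rw [this, map_mul, TS_lin, TS_lin]
  push_cast
  congr 3 <;> ring

section

variable {p : ℕ} [hp : Fact p.Prime]

private lemma PB_CP {n M : ℕ} (ρ : ℚ) (hρ1 : 1 ≤ ρ)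
    (hρ : ∀ l : ℕ, 1 ≤ l → l ≤ M → (padicNorm p (l : ℚ))⁻¹ ≤ ρ) (i : ℕ) (hi : 2 * i ≤ M + 1)
    (k : ℕ) :
    PB p ρ (padicNorm p (((2 * i - 1).factorial : ℕ) : ℚ)) (TS (-(k : ℚ)) ((CP n i).comp (xp n))) := by
  have hρ0 : (0 : ℚ) ≤ ρ := by linarith
  rw [TS_CP]
  rcases i with _ | i
  · simpa using PB.one (p := p) hρ0
  · have h := prod_sym (4 * n - k) i
    rw [h]
    have h2 := PB.mul hρ0 zero_le_one (padicNorm.nonneg _) (sm_linInt (p := p) hρ1 (4 * n - k))
      (sm_PB_fN ρ hρ1 hρ (2 * i + 1) (by omega) (4 * n - k - i))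
    rw [one_mul] at h2
    rw [show 2 * (i + 1) - 1 = 2 * i + 1 by omega]
    exact h2

/-! ### the poles -/

private lemma prod_norm (n k : ℕ) (hk : k ∈ sN n) :
    ∏ m ∈ (sN n).erase k, padicNorm p (-(k : ℚ) + m) =
      padicNorm p (((k - n).factorial : ℕ) : ℚ) * padicNorm p (((7 * n - k).factorial : ℕ) : ℚ) := by
  have hk' := hk
  rw [sN, Finset.mem_Icc] at hk'
  have h1 : (sN n).erase k = Finset.Ico n k ∪ Finset.Ioc k (7 * n) := by
    ext m
    simp only [sN, Finset.mem_erase, Finset.mem_Icc, Finset.mem_union, Finset.mem_Ico,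
      Finset.mem_Ioc]
    omega
  have h2 : Disjoint (Finset.Ico n k) (Finset.Ioc k (7 * n)) := by
    rw [Finset.disjoint_left]
    intro m hm hm'
    rw [Finset.mem_Ico] at hm
    rw [Finset.mem_Ioc] at hm'
    omega
  rw [h1, Finset.prod_union h2, sm_fac, sm_fac]
  congr 1
  · refine Finset.prod_nbij' (fun m => k - 1 - m) (fun j => k - 1 - j) ?_ ?_ ?_ ?_ ?_
    · intro m hm
      rw [Finset.mem_Ico] at hm
      rw [Finset.mem_range]
      omega
    · intro j hj
      rw [Finset.mem_range] at hj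
      rw [Finset.mem_Ico]
      omega
    · intro m hm
      rw [Finset.mem_Ico] at hm
      omega
    · intro j hj
      rw [Finset.mem_range] at hj
      omega
    · intro m hm
      rw [Finset.mem_Ico] at hm
      have h3 : (-(k : ℚ) + m) = -((k - 1 - m + 1 : ℕ) : ℚ) := by
        have h4 : k - 1 - m + 1 = k - m := by omega
        rw [h4, Nat.cast_sub (by omega)]
        ring
      rw [h3, padicNorm.neg]
  · refine Finset.prod_nbij' (fun m => m - k - 1) (fun j => k + 1 + j) ?_ ?_ ?_ ?_ ?_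
    · intro m hm
      rw [Finset.mem_Ioc] at hm
      rw [Finset.mem_range]
      omega
    · intro j hj
      rw [Finset.mem_range] at hj
      rw [Finset.mem_Ioc]
      omega
    · intro m hm
      rw [Finset.mem_Ioc] at hm
      omega
    · intro j hj
      rw [Finset.mem_range] at hj
      omega
    · intro m hm
      rw [Finset.mem_Ioc] at hm
      have h3 : (-(k : ℚ) + m) = ((m - k - 1 + 1 : ℕ) : ℚ) := by
        have h4 : m - k - 1 + 1 = m - k := by omega
        rw [h4, Nat.cast_sub (by omega)]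
        ring
      rw [h3]

private lemma prod_le (n k : ℕ) (hk : k ∈ sN n) :
    padicNorm p (((6 * n).factorial : ℕ) : ℚ) *
      ∏ m ∈ (sN n).erase k, (padicNorm p (-(k : ℚ) + m))⁻¹ ≤ 1 := by
  have hk' := hk
  rw [sN, Finset.mem_Icc] at hk'
  rw [Finset.prod_inv_distrib, prod_norm n k hk]
  have h1 : (6 * n).factorial = (6 * n).choose (k - n) * ((k - n).factorial * (7 * n - k).factorial) := by
    rw [← mul_assoc]
    have h2 := Nat.choose_mul_factorial_mul_factorial (n := 6 * n) (k := k - n) (by omega)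
    rw [show 6 * n - (k - n) = 7 * n - k by omega] at h2
    exact h2.symm
  have h2 := sm_fac_pos (p := p) (k - n)
  have h3 := sm_fac_pos (p := p) (7 * n - k)
  rw [← div_eq_mul_inv, div_le_one (mul_pos h2 h3), h1, Nat.cast_mul, padicNorm.mul, Nat.cast_mul,
    padicNorm.mul]
  have h4 : padicNorm p (((6 * n).choose (k - n) : ℕ) : ℚ) ≤ 1 := padicNorm.of_nat _
  calc _ ≤ 1 * (padicNorm p (((k - n).factorial : ℕ) : ℚ) *
        padicNorm p (((7 * n - k).factorial : ℕ) : ℚ)) :=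
        mul_le_mul_of_nonneg_right h4 (mul_pos h2 h3).le
    _ = _ := one_mul _

private lemma PB_poles {n : ℕ} (ρ : ℚ) (hρ1 : 1 ≤ ρ)
    (hρ : ∀ a : ℤ, a ≠ 0 → |a| ≤ 8 * n → (padicNorm p (a : ℚ))⁻¹ ≤ ρ) (h k : ℕ) (hk : k ∈ sN n) :
    PB p ρ 1 (PowerSeries.C (((6 * n).factorial : ℚ) ^ h) *
      VV ((sN n).erase k) (mu h) (-(k : ℚ))) := by
  have hρ0 : (0 : ℚ) ≤ ρ := by linarith
  have hk' := hk
  rw [sN, Finset.mem_Icc] at hk'
  have h1 : PowerSeries.C (((6 * n).factorial : ℚ) ^ h) *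
      VV ((sN n).erase k) (mu h) (-(k : ℚ)) =
      (PowerSeries.C (((6 * n).factorial : ℕ) : ℚ) *
        ∏ m ∈ (sN n).erase k, iv (-(k : ℚ) + m)) ^ h := by
    unfold VV
    rw [mul_pow, map_pow, Finset.prod_pow]
  have h2 : PB p ρ (∏ m ∈ (sN n).erase k, (padicNorm p (-(k : ℚ) + m))⁻¹)
      (∏ m ∈ (sN n).erase k, iv (-(k : ℚ) + m)) := by
    refine PB.prod _ _ _ hρ0 (fun m _ => inv_nonneg.2 (padicNorm.nonneg _)) fun m hm => ?_
    have hmk : m ≠ k := Finset.ne_of_mem_erase hm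
    have hm' := Finset.mem_of_mem_erase hm
    rw [sN, Finset.mem_Icc] at hm'
    have hne : -(k : ℚ) + m ≠ 0 := by
      intro h0
      apply hmk
      have : (m : ℚ) = k := by linarith
      exact_mod_cast this
    refine PB.iv hne le_rfl ?_
    have h3 := hρ ((m : ℤ) - k) (by omega) (by rw [abs_le]; omega)
    push_cast at h3
    rwa [show (m : ℚ) - k = -(k : ℚ) + m by ring] at h3
  have h3 := PB.mul hρ0 (padicNorm.nonneg _)
    (Finset.prod_nonneg fun m _ => inv_nonneg.2 (padicNorm.nonneg _))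
    (PB.C (p := p) (a := (((6 * n).factorial : ℕ) : ℚ)) hρ0 (padicNorm.nonneg _) le_rfl) h2
  have h4 := PB.mono hρ0 h3 (prod_le n k hk)
  have h5 := PB.pow hρ0 zero_le_one h4 h
  rw [one_pow] at h5
  rw [h1]
  exact h5

private lemma sm_TS_lin2 (c a : ℚ) :
    TS c (2 * X + C a) = PowerSeries.C 2 * PowerSeries.X + PowerSeries.C (2 * c + a) := by
  rw [map_add, map_mul, TS_X, TS_C]
  have : TS c 2 = PowerSeries.C 2 := by
    rw [map_ofNat, map_ofNat]
  rw [this, mul_add, ← map_mul, map_add]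
  ring

/-- the bound of the partial fraction coefficients -/
private lemma pa_le {n : ℕ} (ρ : ℚ) (hρ1 : 1 ≤ ρ)
    (hρ : ∀ a : ℤ, a ≠ 0 → |a| ≤ 8 * n → (padicNorm p (a : ℚ))⁻¹ ≤ ρ) (h k : ℕ) (hk : k ∈ sN n)
    (E : ℚ[X]) (A : ℚ) (hA : 0 ≤ A) (hE : PB p ρ A (TS (-(k : ℚ)) E)) (i : ℕ) (hi : i ≤ h) :
    padicNorm p (pa (sN n) (mu h) (PN h n * E) k i) ≤ A * ρ ^ (h - i) := by
  have hρ0 : (0 : ℚ) ≤ ρ := by linarith
  unfold pa
  rw [if_pos hi]
  unfold pfc PN
  have h1 : TS (-(k : ℚ)) (C (((6 * n).factorial : ℚ) ^ h) * (2 * X + C ((8 * n : ℕ) : ℚ)) * E) *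
      VV ((sN n).erase k) (mu h) (-(k : ℚ)) =
      (PowerSeries.C (((6 * n).factorial : ℚ) ^ h) *
        VV ((sN n).erase k) (mu h) (-(k : ℚ))) *
      ((PowerSeries.C 2 * PowerSeries.X + PowerSeries.C (2 * (-(k : ℚ)) + ((8 * n : ℕ) : ℚ))) *
        TS (-(k : ℚ)) E) := by
    rw [map_mul, map_mul, TS_C, sm_TS_lin2]
    ring
  rw [h1]
  have h2 : PB p ρ 1 (PowerSeries.C 2 * PowerSeries.X +
      PowerSeries.C (2 * (-(k : ℚ)) + ((8 * n : ℕ) : ℚ))) := by
    apply PB.lin hρ0 zero_le_one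
    · have := padicNorm.of_int (p := p) (2 * (-(k : ℤ)) + (8 * n : ℕ))
      push_cast at this ⊢
      exact this
    · rw [one_mul]
      have := padicNorm.of_int (p := p) 2
      push_cast at this
      exact this.trans hρ1
  have h3 := PB.mul hρ0 zero_le_one (mul_nonneg zero_le_one hA) (PB_poles ρ hρ1 hρ h k hk)
    (PB.mul hρ0 zero_le_one hA h2 hE)
  have h4 := h3 (h - i)
  rw [one_mul, one_mul] at h4
  exact h4

private lemma hs_le {N l : ℕ} (hN : N < p ^ (l + 1)) (e m : ℕ) (hm : m ≤ N) :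
    padicNorm p (hs e m) ≤ ((p : ℚ) ^ l) ^ e := by
  unfold hs
  apply padicNorm.sum_le' _ (by positivity)
  intro j hj
  rw [Finset.mem_range] at hj
  rw [padicNorm.div, padicNorm.one, sm_pow, one_div, ← inv_pow]
  apply pow_le_pow_left₀ (inv_nonneg.2 (padicNorm.nonneg _))
  have := sm_inv_le_nat (p := p) (a := j + 1) (l := l) (by omega) (by omega)
  push_cast at this
  exact this

end

/-- SM: the small primes -/
theorem SM : S_SM := by
  intro b h n q p l u hn hpp hlt hu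
  have : Fact p.Prime := ⟨hpp⟩
  set m := (b + 1) * (3 * n - 1) with hm
  have hp1 : (1 : ℚ) ≤ p := by exact_mod_cast hpp.one_lt.le
  set ρ : ℚ := (p : ℚ) ^ l with hρdef
  have hρ1 : 1 ≤ ρ := one_le_pow₀ hp1
  have hρ0 : 0 ≤ ρ := by linarith
  have hρa : ∀ a : ℤ, a ≠ 0 → |a| ≤ 8 * n → (padicNorm p (a : ℚ))⁻¹ ≤ ρ := by
    intro a ha ha'
    apply sm_inv_le ha
    have h1 : ((2 * m + 8 * n : ℕ) : ℤ) < ((p ^ (l + 1) : ℕ) : ℤ) := by exact_mod_cast hlt
    push_cast at h1
    have h2 : (0 : ℤ) ≤ m := Int.natCast_nonneg _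
    linarith
  have hρl : ∀ a : ℕ, 1 ≤ a → a ≤ 2 * m → (padicNorm p (a : ℚ))⁻¹ ≤ ρ := fun a ha ha' =>
    sm_inv_le_nat (by omega) (by omega)
  -- the linear form
  have key : ∀ i j : ℕ, i < m → j < m →
      padicNorm p ((q : ℚ) * NL b h n u (CP n i * CP n j)) ≤
        ρ ^ (h + b) * (padicNorm p (((2 * i - 1).factorial : ℕ) : ℚ) *
          padicNorm p (((2 * j - 1).factorial : ℕ) : ℚ)) := by
    intro i j hi hj
    set A : ℚ := padicNorm p (((2 * i - 1).factorial : ℕ) : ℚ) *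
      padicNorm p (((2 * j - 1).factorial : ℕ) : ℚ) with hA
    have hA0 : 0 ≤ A := mul_nonneg (padicNorm.nonneg _) (padicNorm.nonneg _)
    have hW : 0 ≤ ρ ^ (h + b) * A := by positivity
    have hE : ∀ k ∈ sN n, PB p ρ A (TS (-(k : ℚ)) ((CP n i * CP n j).comp (xp n))) := by
      intro k _
      rw [Polynomial.mul_comp, map_mul]
      exact PB.mul hρ0 (padicNorm.nonneg _) (padicNorm.nonneg _)
        (PB_CP ρ hρ1 hρl i (by omega) k) (PB_CP ρ hρ1 hρl j (by omega) k)
    have hpa : ∀ i' : ℕ, 1 ≤ i' → i' ≤ h → ∀ k ∈ sN n,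
        padicNorm p (pa (sN n) (mu h) (PN h n * (CP n i * CP n j).comp (xp n)) k i') ≤
          A * ρ ^ (h - i') := fun i' _ hi' k hk =>
      pa_le ρ hρ1 hρa h k hk _ A hA0 (hE k hk) i' hi'
    rw [NL_apply]
    unfold xf
    rw [Finset.mul_sum]
    apply padicNorm.sum_le' _ hW
    intro i' hi'
    rw [Finset.mem_Icc] at hi'
    obtain ⟨z, hz⟩ := hu.2 (i' + b)
    have e : ∀ (c : ℚ) (a h' : ℕ → ℚ) (u0 : ℚ),
        (q : ℚ) * (c * ((∑ k ∈ sN n, a k) * u0 - ∑ k ∈ sN n, a k * h' k)) =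
        c * (∑ k ∈ sN n, a k * ((q : ℚ) * u0) - ∑ k ∈ sN n, (q : ℚ) * (a k * h' k)) := by
      intro c a h' u0
      rw [← Finset.sum_mul, ← Finset.mul_sum]; ring
    rw [e, padicNorm.mul]
    have hc : padicNorm p ((Nat.choose (i' - 1 + b) (i' - 1) : ℕ) : ℚ) ≤ 1 := padicNorm.of_nat _
    refine (mul_le_mul_of_nonneg_right hc (padicNorm.nonneg _)).trans ?_
    rw [one_mul]
    refine padicNorm.sub.trans (max_le ?_ ?_)
    · apply padicNorm.sum_le' _ hW
      intro k hk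
      rw [padicNorm.mul, hz]
      have h1 : padicNorm p ((z : ℤ) : ℚ) ≤ 1 := padicNorm.of_int z
      calc _ ≤ (A * ρ ^ (h - i')) * 1 :=
            mul_le_mul (hpa i' hi'.1 hi'.2 k hk) h1 (padicNorm.nonneg _) (by positivity)
        _ = ρ ^ (h - i') * A := by ring
        _ ≤ ρ ^ (h + b) * A :=
            mul_le_mul_of_nonneg_right (pow_le_pow_right₀ hρ1 (by omega)) hA0
    · apply padicNorm.sum_le' _ hW
      intro k hk
      have hk' := hk
      rw [sN, Finset.mem_Icc] at hk'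
      rw [padicNorm.mul, padicNorm.mul]
      have h0 : padicNorm p (q : ℚ) ≤ 1 := padicNorm.of_nat _
      have h1 := hs_le (p := p) hlt (i' + b) (k - 1) (by omega)
      have h2 := hpa i' hi'.1 hi'.2 k hk
      calc _ ≤ 1 * ((A * ρ ^ (h - i')) * ρ ^ (i' + b)) := by
            refine mul_le_mul h0 (mul_le_mul h2 h1 (padicNorm.nonneg _) (by positivity))
              (mul_nonneg (padicNorm.nonneg _) (padicNorm.nonneg _)) zero_le_one
        _ = ρ ^ (h - i' + (i' + b)) * A := by rw [pow_add]; ring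
        _ = ρ ^ (h + b) * A := by
            congr 2
            omega
  -- the determinant
  have h1 : (q : ℚ) ^ m * DET b h n u m =
      ((q : ℚ) • (Matrix.of fun i j : Fin m => NL b h n u (CP n i * CP n j))).det := by
    rw [Matrix.det_smul, Fintype.card_fin, DET,
      ← sm_det_monic (NL b h n u) m (CP n) (fun i _ => CP_monic n i)]
  rw [h1]
  have h2 := sm_padic_det p m
    ((q : ℚ) • (Matrix.of fun i j : Fin m => NL b h n u (CP n i * CP n j)))
    (fun i => ρ ^ (h + b) * padicNorm p (((2 * i - 1).factorial : ℕ) : ℚ) ^ 2)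
    (fun i => by positivity) (by
      intro i j
      have h3 := key i j i.2 j.2
      have h4 : (((q : ℚ) • (Matrix.of fun i j : Fin m => NL b h n u (CP n i * CP n j))) i j) =
          (q : ℚ) * NL b h n u (CP n i * CP n j) := by
        rw [Matrix.smul_apply, Matrix.of_apply, smul_eq_mul]
      rw [h4]
      calc _ ≤ (ρ ^ (h + b) * (padicNorm p (((2 * (i : ℕ) - 1).factorial : ℕ) : ℚ) *
            padicNorm p (((2 * (j : ℕ) - 1).factorial : ℕ) : ℚ))) ^ 2 :=
            pow_le_pow_left₀ (padicNorm.nonneg _) h3 2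
        _ = _ := by ring)
  refine h2.trans (le_of_eq ?_)
  rw [Finset.prod_mul_distrib, Finset.prod_const, Finset.card_range, ← pow_mul ρ (h + b) m]

end

end Pool.Agent.H15.V
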