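import Pool.Agent.H15.V.Stm

/-!
# The sum of the exponents over `21n/5 < p ≤ 6n`
-/

open Filter Topology

namespace Pool.Agent.H15.V

open Pool.Agent.N334.W (PS S_PN)

noncomputable section

/-- upper bound of the exponent -/
lemma SN_EN_le (b h n p : ℕ) (hb : Even b) (hn : 1 ≤ n) (hp : p ≤ 6 * n) :
    (EN b h n p : ℝ) ≤ (6 * (n : ℝ) - p) / 2 * ((2 * (h : ℝ) + (b + 1)) ^ 2 / 4) -
      2 * ((b : ℝ) + 1) * h * n + ((2 * (h : ℝ) + (b + 1)) ^ 2 / 4 + ((b : ℝ) + 1) * h) := by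
  obtain ⟨g, hg⟩ := hb
  have hb2 : b / 2 = g := by omega
  have hbR : (b : ℝ) = 2 * g := by rw [hg]; push_cast; ring
  have h1 : (((6 * n - p + 1) / 2 : ℕ) : ℝ) ≤ (6 * (n : ℝ) - p) / 2 + 1 / 2 := by
    have h2 : ((6 * n - p + 1) / 2) * 2 ≤ 6 * n - p + 1 := Nat.div_mul_le_self _ _
    have h3 : (((6 * n - p + 1) / 2 : ℕ) : ℝ) * 2 ≤ ((6 * n - p + 1 : ℕ) : ℝ) := by exact_mod_cast h2
    rw [Nat.cast_add, Nat.cast_sub hp] at h3
    push_cast at h3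
    linarith
  have hm : ((((b + 1) * (3 * n - 1) : ℕ)) : ℝ) = ((b : ℝ) + 1) * (3 * n - 1) := by
    rw [Nat.cast_mul, Nat.cast_sub (by omega)]
    push_cast
    ring
  have hn1 : (((n - 1 : ℕ)) : ℝ) = (n : ℝ) - 1 := by
    rw [Nat.cast_sub hn]
    push_cast
    ring
  have h0 : (EN b h n p : ℝ) = -(h : ℝ) * (((b : ℝ) + 1) * (3 * n - 1)) +
      (((6 * n - p + 1) / 2 : ℕ) : ℝ) * (((h : ℝ) + g) * (h + g + 1)) +
      ((n : ℝ) - 1) * (((b : ℝ) + 1) * h) := by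
    unfold EN
    rw [hb2]
    have e1 : ((((b + 1) * (3 * n - 1) : ℕ) : ℤ) : ℝ) = ((((b + 1) * (3 * n - 1) : ℕ)) : ℝ) := by
      rw [Int.cast_natCast]
    have e2 : (((((n - 1) * ((b + 1) * h)) : ℕ) : ℤ) : ℝ) = (((n - 1 : ℕ)) : ℝ) * (((b : ℝ) + 1) * h) := by
      rw [Int.cast_natCast]
      push_cast
      ring
    generalize (6 * n - p + 1) / 2 = D
    rw [Int.cast_add, Int.cast_add, Int.cast_mul, Int.cast_mul, e1, e2, hm, hn1]
    push_cast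
    ring
  have hA : ((h : ℝ) + g) * (h + g + 1) ≤ (2 * (h : ℝ) + (b + 1)) ^ 2 / 4 := by
    rw [hbR]
    nlinarith
  have hA0 : 0 ≤ ((h : ℝ) + g) * (h + g + 1) := by positivity
  have hx : 0 ≤ (6 * (n : ℝ) - p) / 2 + 1 / 2 := by
    have : (p : ℝ) ≤ 6 * n := by exact_mod_cast hp
    linarith
  have h2 : (((6 * n - p + 1) / 2 : ℕ) : ℝ) * (((h : ℝ) + g) * (h + g + 1)) ≤
      ((6 * (n : ℝ) - p) / 2 + 1 / 2) * ((2 * (h : ℝ) + (b + 1)) ^ 2 / 4) :=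
    mul_le_mul h1 hA hA0 hx
  have hB : 0 ≤ (2 * (h : ℝ) + (b + 1)) ^ 2 / 4 := by positivity
  have hC : 0 ≤ ((b : ℝ) + 1) * h := by positivity
  rw [h0]
  nlinarith

/-- **SN** from PN -/
theorem SN_of (hPN : S_PN) : S_SN := by
  intro b h ε hb hε
  obtain ⟨A, hA⟩ : ∃ A : ℝ, A = (2 * (h : ℝ) + (b + 1)) ^ 2 / 4 := ⟨_, rfl⟩
  obtain ⟨B, hB⟩ : ∃ B : ℝ, B = ((b : ℝ) + 1) * h := ⟨_, rfl⟩
  have h1 := hPN (21 / 5) 6 0 (3 * A - 2 * B + ε / 4) (-(A / 2)) (by norm_num) (by norm_num)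
  have e : (0 : ℝ) * Real.log (6 / (21 / 5)) + (3 * A - 2 * B + ε / 4) * (6 - 21 / 5) +
      -(A / 2) * ((6 ^ 2 - (21 / 5) ^ 2) / 2) = -(18 / 5) * B + 81 / 100 * A + 9 / 20 * ε := by ring
  rw [e] at h1
  have h2 := h1.eventually (gt_mem_nhds (show -(18 / 5) * B + 81 / 100 * A + 9 / 20 * ε <
    -(18 / 5) * B + 81 / 100 * A + ε by linarith))
  have h4 : ∀ᶠ n : ℕ in atTop, (A + B) / (ε / 4) ≤ (n : ℝ) :=
    tendsto_natCast_atTop_atTop.eventually (eventually_ge_atTop _)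
  filter_upwards [h2, eventually_gt_atTop 0, h4] with n hn hn0 hn4
  have hn' : (0 : ℝ) < (n : ℝ) ^ 2 := by positivity
  rw [div_lt_iff₀ hn'] at hn
  rw [div_le_iff₀ (by positivity)] at hn4
  have h3 : ∑ p ∈ PS (21 / 5) 6 n, (EN b h n p : ℝ) * Real.log p ≤
      ∑ p ∈ PS (21 / 5) 6 n, (0 * (n : ℝ) ^ 2 / p + (3 * A - 2 * B + ε / 4) * n +
        -(A / 2) * p) * Real.log p := by
    refine Finset.sum_le_sum fun p hp => ?_
    have hp3 : p ≤ 6 * n := by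
      unfold PS at hp
      rw [Finset.mem_filter, Finset.mem_range] at hp
      have h5 : ⌊(6 : ℝ) * n⌋₊ = 6 * n := by
        have : (6 : ℝ) * n = ((6 * n : ℕ) : ℝ) := by push_cast; ring
        rw [this, Nat.floor_natCast]
      omega
    refine mul_le_mul_of_nonneg_right ?_ (Real.log_natCast_nonneg p)
    have h6 := SN_EN_le b h n p hb (by omega) hp3
    rw [← hA, ← hB] at h6
    have h7 : 2 * ((b : ℝ) + 1) * h * n = 2 * B * n := by rw [hB]; ring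
    rw [h7] at h6
    rw [zero_mul, zero_div]
    linarith
  refine h3.trans (hn.le.trans (le_of_eq ?_))
  rw [hA, hB]
  ring

end

end Pool.Agent.H15.V
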