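import Pool.Agent.H15.V.AR
import Pool.Agent.H15.V.ASY
import Pool.Agent.H15.V.CBD
import Pool.Agent.H15.V.CLU
import Pool.Agent.H15.V.DOM
import Pool.Agent.H15.V.EPB
import Pool.Agent.H15.V.Fin
import Pool.Agent.H15.V.GRC
import Pool.Agent.H15.V.LF
import Pool.Agent.H15.V.LOC
import Pool.Agent.H15.V.LP
import Pool.Agent.H15.V.NOD
import Pool.Agent.H15.V.NUM
import Pool.Agent.H15.V.NV
import Pool.Agent.H15.V.NVc
import Pool.Agent.H15.V.OM1
import Pool.Agent.H15.V.OM2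
import Pool.Agent.H15.V.OMN
import Pool.Agent.H15.V.OMP
import Pool.Agent.H15.V.PB1
import Pool.Agent.H15.V.PB2
import Pool.Agent.H15.V.RD
import Pool.Agent.H15.V.RED
import Pool.Agent.H15.V.SE
import Pool.Agent.H15.V.SL
import Pool.Agent.H15.V.SM
import Pool.Agent.H15.V.SN
import Pool.Agent.H15.V.SS
import Pool.Graph.R_pool_sql_team_seeded_63374d34.N334.W.Main

/-!
# Project V: the windows theorem with the ratio `16/5`
-/

open Pool.Agent.H337R2

namespace Pool.Agent.H15.V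

theorem AR_pf : S_AR :=
  AR_of LF OM1 OM2 (N334.W.ARCH_of N334.W.AND N334.W.GV N334.W.PT N334.W.RR) (N334.W.CL_of N334.W.CL1 N334.W.CL2)
    DOM ASY

theorem NV_pf : S_NV := NV_of RD PB1 PB2 OMN CLU (NVc_of LOC)

/-- **The windows theorem.** For every odd `s ≥ 1` there is an odd `j`, `s + 2 ≤ j`, `5 j < 16 s`, with `ζ(j)` irrational. -/
theorem windows (s : ℕ) (hs : Odd s) : ∃ j, Odd j ∧ s + 2 ≤ j ∧ 5 * j < 16 * s ∧ Irrational (zr j) :=
  final_of AR_pf NV_pf (LP_of (RED_of OM1) OMP N334.W.GB) (NOD_of RD PB1 PB2 OMN GRC N334.W.GB)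
    (EPB_of CBD N334.W.GR N334.W.GB) SM (SE_of N334.W.thm_PN) (SN_of N334.W.thm_PN) (SL_of N334.W.thm_PN)
    (SS_of N334.W.ME) NUM N334.W.windows s hs

end Pool.Agent.H15.V
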