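import Pool.Agent.H15.V.Stm
import Pool.Agent.H15.V.NOD
import Pool.Graph.R_pool_sql_team_seeded_63374d34.N334.W.NV

/-!
# Project V: NV, auxiliary results
-/

set_option autoImplicit false
set_option linter.all false

open Polynomial Pool.Agent.H337R2

namespace Pool.Agent.H15.V

open Pool.Agent.N334.W (mu UInt nx vd MT cv wcl Dcl G2 Hn PS)
open Pool.Agent.N334.W.LPaux (hasse_zero hasse_cast norm_int norm_sum)

namespace NVaux

open NODaux

lemma tay_cast (F : ℤ[X]) (a : ℤ) (l : ℕ) :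
    (taylor (a : ℚ) (F.map (Int.castRingHom ℚ))).coeff l = (((taylor a F).coeff l : ℤ) : ℚ) := by
  rw [taylor_coeff, hasse_cast, taylor_coeff]

lemma eval_nd (F : ℤ[X]) (n c k : ℕ) :
    (hasseDeriv k (F.map (Int.castRingHom ℚ))).eval (-(c : ℚ) * (-(c : ℚ) + ((8 * n : ℕ) : ℚ))) =
      (((taylor (nd n c) F).coeff k : ℤ) : ℚ) := by
  have h3 : -(c : ℚ) * (-(c : ℚ) + ((8 * n : ℕ) : ℚ)) = ((nd n c : ℤ) : ℚ) := by
    unfold nd
    push_cast
    ring
  rw [h3, hasse_cast, taylor_coeff]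

lemma tay_sum (F : ℤ[X]) (a : ℤ) (N : ℕ) (hN : F.natDegree < N) :
    F = ∑ l ∈ Finset.range N, C ((taylor a F).coeff l) * (X - C a) ^ l := by
  conv_lhs => rw [← sum_taylor_eq F a]
  rw [Polynomial.sum_over_range' _ _ N (by rw [natDegree_taylor]; exact hN)]
  intro i
  simp

lemma tay_X (a : ℤ) : taylor a (X - C a) = X := by
  rw [map_sub, taylor_X, taylor_C, add_sub_cancel_right]

/-- the coefficients of a product with an integral polynomial -/
lemma mul_bound {p : ℕ} [hp : Fact p.Prime] {T g : ℤ[X]} {A : ℚ}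
    (hT : ∀ i, padicNorm p ((T.coeff i : ℤ) : ℚ) ≤ A * (p : ℚ) ^ i) (i : ℕ) :
    padicNorm p (((T * g).coeff i : ℤ) : ℚ) ≤ A * (p : ℚ) ^ i := by
  have hp1 : (1 : ℚ) ≤ p := by exact_mod_cast hp.1.one_lt.le
  have hA : 0 ≤ A := by
    have := (padicNorm.nonneg _).trans (hT 0)
    simpa using this
  rw [coeff_mul]
  push_cast
  refine padicNorm.sum_le' (fun j hj => ?_) (by positivity)
  have h1 := Finset.HasAntidiagonal.mem_antidiagonal.1 hj
  rw [padicNorm.mul]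
  calc padicNorm p ((T.coeff j.1 : ℤ) : ℚ) * padicNorm p ((g.coeff j.2 : ℤ) : ℚ)
      ≤ (A * (p : ℚ) ^ j.1) * 1 :=
        mul_le_mul (hT j.1) (padicNorm.of_int _) (padicNorm.nonneg _) (by positivity)
    _ = A * (p : ℚ) ^ j.1 := mul_one _
    _ ≤ A * (p : ℚ) ^ i := by
        apply mul_le_mul_of_nonneg_left _ hA
        exact pow_le_pow_right₀ hp1 (by omega)

lemma tay_mul_bound {p : ℕ} [hp : Fact p.Prime] {P F : ℤ[X]} {a : ℤ} {T : ℕ} {A : ℚ}
    (hF : (X - C a) ^ T * P ∣ F)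
    (hP : ∀ i, padicNorm p (((taylor a P).coeff i : ℤ) : ℚ) ≤ A * (p : ℚ) ^ i) (l : ℕ) :
    padicNorm p ((taylor (a : ℚ) (F.map (Int.castRingHom ℚ))).coeff l) ≤ A * ((p : ℚ) ^ T)⁻¹ * (p : ℚ) ^ l := by
  have hp1 : (1 : ℚ) ≤ p := by exact_mod_cast hp.1.one_lt.le
  have hp0 : (0 : ℚ) < p := by linarith
  have hA : 0 ≤ A := by
    have := (padicNorm.nonneg _).trans (hP 0)
    simpa using this
  obtain ⟨G, hG⟩ := hF
  rw [tay_cast, hG, mul_assoc, taylor_mul, taylor_pow, tay_X, coeff_X_pow_mul']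
  by_cases hl : T ≤ l
  · rw [if_pos hl, taylor_mul]
    refine (mul_bound hP _).trans (le_of_eq ?_)
    have : (p : ℚ) ^ l = (p : ℚ) ^ T * (p : ℚ) ^ (l - T) := by
      rw [← pow_add]
      congr 1
      omega
    rw [this]
    field_simp
  · rw [if_neg hl]
    simp only [Int.cast_zero, padicNorm.zero]
    positivity

/-- division by a polynomial with a unit as the constant term -/
lemma div_unit {p : ℕ} [hp : Fact p.Prime] {T g : ℤ[X]} {B : ℚ} {N : ℕ}
    (hg : padicNorm p ((g.coeff 0 : ℤ) : ℚ) = 1)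
    (hW : ∀ i, i < N → padicNorm p (((T * g).coeff i : ℤ) : ℚ) ≤ B * (p : ℚ) ^ i) :
    ∀ i, i < N → padicNorm p ((T.coeff i : ℤ) : ℚ) ≤ B * (p : ℚ) ^ i := by
  have hp1 : (1 : ℚ) ≤ p := by exact_mod_cast hp.1.one_lt.le
  have hp0 : (0 : ℚ) < p := by linarith
  intro i
  induction i using Nat.strong_induction_on with
  | _ i ih =>
    intro hi
    have hB : 0 ≤ B := by
      have := (padicNorm.nonneg _).trans (hW 0 (by omega))
      simpa using this
    have h1 : (T * g).coeff i = ∑ k ∈ Finset.range i, T.coeff k * g.coeff (i - k) + T.coeff i * g.coeff 0 := by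
      rw [coeff_mul, Finset.Nat.sum_antidiagonal_eq_sum_range_succ_mk, Finset.sum_range_succ]
      simp
    have h2 : ((T.coeff i : ℤ) : ℚ) * ((g.coeff 0 : ℤ) : ℚ) = (((T * g).coeff i : ℤ) : ℚ) -
        ((∑ k ∈ Finset.range i, T.coeff k * g.coeff (i - k) : ℤ) : ℚ) := by
      rw [h1]
      push_cast
      ring
    have h3 : padicNorm p ((T.coeff i : ℤ) : ℚ) = padicNorm p (((T.coeff i : ℤ) : ℚ) * ((g.coeff 0 : ℤ) : ℚ)) := by
      rw [padicNorm.mul, hg, mul_one]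
    rw [h3, h2]
    refine padicNorm.sub.trans (max_le (hW i hi) ?_)
    push_cast
    refine padicNorm.sum_le' (fun j hj => ?_) (by positivity)
    have hj' : j < i := Finset.mem_range.1 hj
    rw [padicNorm.mul]
    calc padicNorm p ((T.coeff j : ℤ) : ℚ) * padicNorm p ((g.coeff (i - j) : ℤ) : ℚ)
        ≤ (B * (p : ℚ) ^ j) * 1 :=
          mul_le_mul (ih j hj' (by omega)) (padicNorm.of_int _) (padicNorm.nonneg _) (by positivity)
      _ = B * (p : ℚ) ^ j := mul_one _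
      _ ≤ B * (p : ℚ) ^ i := by
          apply mul_le_mul_of_nonneg_left _ hB
          exact pow_le_pow_right₀ hp1 hj'.le

/-- triangular descent -/
lemma descent {p : ℕ} [hp : Fact p.Prime] {b : ℕ} {B : ℚ} (ω : ℕ → ℚ) (w : ℕ → ℤ)
    (h1 : ∀ k, k ≤ b → padicNorm p (ω k) ≤ (p : ℚ) ^ (b - k))
    (h2 : padicNorm p (ω b) = 1)
    (h3 : ∀ a i, a + i = b → padicNorm p (∑ j ∈ Finset.range (i + 1), ω (a + j) * (w j : ℚ)) ≤ B) :
    ∀ i, i ≤ b → padicNorm p (w i : ℚ) ≤ B * (p : ℚ) ^ i := by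
  have hp1 : (1 : ℚ) ≤ p := by exact_mod_cast hp.out.one_lt.le
  have hp0 : (0 : ℚ) < p := by linarith
  have hB : 0 ≤ B := (padicNorm.nonneg _).trans (h3 b 0 (by omega))
  intro i
  induction i using Nat.strong_induction_on with
  | _ i ih =>
    intro hi
    have h4 := h3 (b - i) i (by omega)
    rw [Finset.sum_range_succ, show b - i + i = b by omega] at h4
    have h5 : padicNorm p (∑ j ∈ Finset.range i, ω (b - i + j) * (w j : ℚ)) ≤ B * (p : ℚ) ^ i := by
      refine padicNorm.sum_le' (fun j hj => ?_) (by positivity)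
      have hj' : j < i := Finset.mem_range.1 hj
      rw [padicNorm.mul]
      have h6 := h1 (b - i + j) (by omega)
      have h7 := ih j hj' (by omega)
      have e : b - (b - i + j) = i - j := by omega
      rw [e] at h6
      calc padicNorm p (ω (b - i + j)) * padicNorm p (w j : ℚ)
          ≤ (p : ℚ) ^ (i - j) * (B * (p : ℚ) ^ j) :=
            mul_le_mul h6 h7 (padicNorm.nonneg _) (by positivity)
        _ = B * ((p : ℚ) ^ (i - j) * (p : ℚ) ^ j) := by ring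
        _ = B * (p : ℚ) ^ i := by rw [← pow_add]; congr 2; omega
    have h8 : ω b * (w i : ℚ) = (∑ j ∈ Finset.range i, ω (b - i + j) * (w j : ℚ) + ω b * (w i : ℚ)) -
        ∑ j ∈ Finset.range i, ω (b - i + j) * (w j : ℚ) := by ring
    have h9 : padicNorm p (ω b * (w i : ℚ)) ≤ B * (p : ℚ) ^ i := by
      rw [h8]
      refine padicNorm.sub.trans (max_le (h4.trans ?_) h5)
      exact le_mul_of_one_le_right hB (one_le_pow₀ hp1)
    rw [padicNorm.mul, h2, one_mul] at h9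
    exact h9

/-- a primitive polynomial has a Taylor coefficient that is a unit -/
lemma claimA {p : ℕ} [hp : Fact p.Prime] (P : ℤ[X]) (hprim : P.IsPrimitive) (S : Finset ℕ) (ξ : ℕ → ℤ)
    (mc : ℕ → ℕ)
    (hξ : ∀ c ∈ S, ∀ c' ∈ S, c ≠ c' → ((ξ c : ℤ) : ZMod p) ≠ ((ξ c' : ℤ) : ZMod p))
    (hdeg : P.natDegree < ∑ c ∈ S, mc c) :
    ∃ c ∈ S, ∃ i, i < mc c ∧ padicNorm p (((taylor (ξ c) P).coeff i : ℤ) : ℚ) = 1 := by
  by_contra hcon
  push Not at hcon
  set φ : ℤ →+* ZMod p := Int.castRingHom (ZMod p) with hφ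
  have hloc : ∀ c ∈ S, (X - C ((ξ c : ℤ) : ZMod p)) ^ (mc c) ∣ P.map φ := by
    intro c hc
    have hWp : ∀ i < mc c, ((taylor (ξ c) P).map φ).coeff i = 0 := by
      intro i hi
      rw [coeff_map]
      change (((taylor (ξ c) P).coeff i : ℤ) : ZMod p) = 0
      rw [ZMod.intCast_zmod_eq_zero_iff_dvd, ← padicNorm.int_lt_one_iff]
      exact lt_of_le_of_ne (padicNorm.of_int _) (hcon c hc i hi)
    have hX := X_pow_dvd_iff.2 hWp
    rw [map_taylor, taylor_apply, ← X_sub_C_pow_dvd_iff] at hX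
    exact hX
  have hall : (∏ c ∈ S, (X - C ((ξ c : ℤ) : ZMod p)) ^ (mc c)) ∣ P.map φ := by
    refine Finset.prod_dvd_of_coprime ?_ hloc
    intro c hc c' hc' hcc
    refine IsCoprime.pow (isCoprime_X_sub_C_of_isUnit_sub ?_)
    rw [isUnit_iff_ne_zero, sub_ne_zero]
    exact hξ c hc c' hc' hcc
  have hP0 : P.map φ = 0 := by
    by_contra hcon2
    have h1 := natDegree_le_of_dvd hall hcon2
    have h2 : (∏ c ∈ S, (X - C ((ξ c : ℤ) : ZMod p)) ^ (mc c)).natDegree = ∑ c ∈ S, mc c := by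
      rw [natDegree_prod_of_monic _ _ fun c _ => (monic_X_sub_C _).pow _]
      rw [Finset.sum_congr rfl fun c _ => (monic_X_sub_C _).natDegree_pow _]
      simp only [natDegree_X_sub_C, mul_one]
    have h3 : (P.map φ).natDegree ≤ P.natDegree := natDegree_map_le
    omega
  have hdvd : C ((p : ℕ) : ℤ) ∣ P := by
    rw [C_dvd_iff_dvd_coeff]
    intro i
    have h1 : (P.map φ).coeff i = 0 := by rw [hP0, coeff_zero]
    rw [coeff_map] at h1
    exact (ZMod.intCast_zmod_eq_zero_iff_dvd _ _).1 h1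
  have hunit := hprim _ hdvd
  rw [Int.isUnit_iff] at hunit
  have := hp.1.two_le
  omega

/-- the value of the product of the other nodes is a unit -/
lemma prod_unit {p : ℕ} [hp : Fact p.Prime] (S : Finset ℕ) (ξ : ℕ → ℤ) (mc : ℕ → ℕ) (a : ℤ)
    (hξ : ∀ c ∈ S, (a : ZMod p) ≠ ((ξ c : ℤ) : ZMod p)) :
    padicNorm p (((taylor a (∏ c ∈ S, (X - C (ξ c)) ^ (mc c))).coeff 0 : ℤ) : ℚ) = 1 := by
  rw [taylor_coeff_zero, eval_prod, padicNorm.int_eq_one_iff]
  intro h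
  have hp' : Prime ((p : ℕ) : ℤ) := Nat.prime_iff_prime_int.1 hp.1
  obtain ⟨c, hc, h1⟩ := (hp'.dvd_finset_prod_iff _).1 h
  rw [eval_pow] at h1
  have h2 := hp'.dvd_of_dvd_pow h1
  rw [eval_sub, eval_X, eval_C] at h2
  refine hξ c hc ?_
  rw [ZMod.intCast_eq_intCast_iff_dvd_sub]
  have := (dvd_neg (a := (p : ℤ))).2 h2
  rwa [neg_sub] at this

/-- the nodes are distinct modulo `p` -/
lemma nd_ne {n p c c' : ℕ} (hp : p.Prime) (h4 : 4 * n < p) (h6 : p ≤ 6 * n) (hc : 1 ≤ c)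
    (hc2 : 2 * c + p < 8 * n) (hc' : 1 ≤ c') (hc2' : 2 * c' + p < 8 * n) (hne : c ≠ c') :
    ((nd n c : ℤ) : ZMod p) ≠ ((nd n c' : ℤ) : ZMod p) := by
  intro h
  rw [ZMod.intCast_eq_intCast_iff_dvd_sub] at h
  have e : nd n c' - nd n c = ((c : ℤ) - c') * (8 * n - c - c') := by
    unfold nd
    push_cast
    ring
  rw [e] at h
  have hp' : Prime ((p : ℕ) : ℤ) := Nat.prime_iff_prime_int.1 hp
  rcases hp'.dvd_or_dvd h with h1 | h1
  · have h2 := Int.eq_zero_of_abs_lt_dvd h1 (by rw [abs_lt]; omega)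
    omega
  · obtain ⟨k, hk⟩ := h1
    rcases le_or_gt k 1 with h2 | h2
    · have h3 : (p : ℤ) * k ≤ p * 1 := mul_le_mul_of_nonneg_left h2 (by omega)
      omega
    · have h3 : (p : ℤ) * 2 ≤ p * k := mul_le_mul_of_nonneg_left (by omega) (by omega)
      omega

/-- the bound of `lam` -/
lemma lam_bound (hPB1 : S_PB1) {b h n p k c : ℕ} {Q : ℚ[X]} {A : ℚ} (hn : 1 ≤ n) (hp : p.Prime) (h4 : 4 * n < p)
    (h6 : p ≤ 6 * n) (hk : k ∈ sN n) (hc : c ≤ 8 * n) (hck : c ≡ k [MOD p] ∨ 8 * n - c ≡ k [MOD p])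
    (hA : ∀ l, padicNorm p ((taylor ((nd n c : ℤ) : ℚ) Q).coeff l) ≤ A * (p : ℚ) ^ l) :
    padicNorm p (lam b h n p k Q) ≤ A * (p : ℚ) ^ (h + b) := by
  have : Fact p.Prime := ⟨hp⟩
  have hp1 : (1 : ℚ) ≤ p := by exact_mod_cast hp.one_lt.le
  have hp0 : (0 : ℚ) < p := by linarith
  have hA0 : 0 ≤ A := by
    have := (padicNorm.nonneg _).trans (hA 0)
    simpa using this
  unfold lam
  refine norm_sum p _ _ _ (by positivity) fun i hi => ?_
  rw [Finset.mem_Icc] at hi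
  have h3 := hPB1 h n p k c i Q A hn hp h4 h6 hk hc hck hA hi.1 hi.2
  rw [padicNorm.div, padicNorm.mul, norm_pp p (i + b), div_inv_eq_mul]
  have h6 : padicNorm p (((i - 1 + b).choose (i - 1) : ℕ) : ℚ) ≤ 1 := by
    exact_mod_cast norm_int p (((i - 1 + b).choose (i - 1) : ℕ) : ℤ)
  calc _ ≤ 1 * (A * (p : ℚ) ^ (h - i)) * (p : ℚ) ^ (i + b) := by
        apply mul_le_mul_of_nonneg_right _ (by positivity)
        exact mul_le_mul h6 h3 (padicNorm.nonneg _) zero_le_one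
    _ = A * ((p : ℚ) ^ (h - i) * (p : ℚ) ^ (i + b)) := by ring
    _ = A * (p : ℚ) ^ (h + b) := by
        rw [← pow_add]
        congr 2
        omega

/-- the decomposition for a polynomial in the kernel: the nodes and the `lam` of the poles `k ≥ n + p` -/
lemma RDb (hRD : S_RD) (hPB1 : S_PB1) (hPB2 : S_PB2) {b h n q p : ℕ} {u : ℕ → ℚ} (hb : Even b) (hn : 1 ≤ n)
    (hp : p.Prime) (h4 : 4 * n < p) (h6 : p ≤ 6 * n) (hu : UInt q u) (hq : ¬ p ∣ q) (F : ℤ[X])
    (hdeg : 2 * F.natDegree + 1 < h * (6 * n + 1)) (h0 : NL b h n u (F.map (Int.castRingHom ℚ)) = 0)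
    (A : ℕ → ℚ) (S : ℚ)
    (hA : ∀ c, n ≤ c → 2 * c + p < 8 * n →
      ∀ l, padicNorm p ((taylor ((nd n c : ℤ) : ℚ) (F.map (Int.castRingHom ℚ))).coeff l) ≤ A c * (p : ℚ) ^ l)
    (hS1 : ∀ c, n ≤ c → 2 * c + p < 8 * n → A c * (p : ℚ) ^ (h - 1) ≤ S) (hS2 : ((p : ℚ) ^ h)⁻¹ ≤ S) :
    padicNorm p (NS b h n (F.map (Int.castRingHom ℚ)) +
      ∑ k ∈ Finset.Icc (n + p) (7 * n), lam b h n p k (F.map (Int.castRingHom ℚ))) ≤ S := by
  have : Fact p.Prime := ⟨hp⟩
  have hp1 : (1 : ℚ) ≤ p := by exact_mod_cast hp.one_lt.le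
  have hp0 : (0 : ℚ) < p := by linarith
  have hpodd : p % 2 = 1 := by
    rcases hp.eq_two_or_odd with h | h
    · omega
    · exact h
  have hS0 : 0 ≤ S := (by positivity : (0 : ℚ) ≤ ((p : ℚ) ^ h)⁻¹).trans hS2
  have hqn : padicNorm p (q : ℚ) = 1 := (padicNorm.nat_eq_one_iff q).2 hq
  obtain ⟨g, hg1, hg2⟩ := hRD b h n q p u hb hn hp h4 h6 hu
  set Q : ℚ[X] := F.map (Int.castRingHom ℚ) with hQ
  have hQd : 2 * Q.natDegree + 1 < h * (6 * n + 1) := by
    have : Q.natDegree ≤ F.natDegree := natDegree_map_le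
    omega
  have h1 := hg2 Q hQd
  rw [h0, zero_add] at h1
  have h2 : padicNorm p (NS b h n Q + ∑ k ∈ Finset.Icc (n + p) (7 * n), lam b h n p k Q) =
      padicNorm p ((q : ℚ) * (NS b h n Q + ∑ k ∈ Finset.Icc (n + p) (7 * n), lam b h n p k Q)) := by
    rw [padicNorm.mul, hqn, one_mul]
  rw [h2, h1]
  refine norm_sum p _ _ _ hS0 fun i hi => norm_sum p _ _ _ hS0 fun k hk => ?_
  rw [Finset.mem_Icc] at hi
  rw [padicNorm.mul]
  have hpa : padicNorm p (pa (sN n) (mu h) (PN h n * Q.comp (xp n)) k i) ≤ S := by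
    by_cases hk2 : k + p ≤ 7 * n ∨ n + p ≤ k
    · obtain ⟨c, hc1, hc2, hc3⟩ := partner hpodd hk hk2
      have h3 := hPB1 h n p k c i Q (A c) hn hp h4 h6 hk (by omega) hc3 (hA c hc1 hc2) hi.1 hi.2
      have hA0 : 0 ≤ A c := by
        have := (padicNorm.nonneg _).trans (hA c hc1 hc2 0)
        simpa using this
      refine h3.trans (le_trans ?_ (hS1 c hc1 hc2))
      apply mul_le_mul_of_nonneg_left _ hA0
      exact pow_le_pow_right₀ hp1 (by omega)
    · push Not at hk2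
      exact (hPB2 h n p k i F hn hp h4 h6 hk (by rw [Finset.mem_Icc]; omega) hk2.2 hi.1 hi.2).trans hS2
  calc _ ≤ S * 1 := mul_le_mul hpa (hg1 i k hi.1 hk) (padicNorm.nonneg _) hS0
    _ = _ := mul_one _

/-- linearity of `lam` -/
lemma lam_sum (b h n p k : ℕ) (s : Finset ℕ) (a : ℕ → ℚ) (Q : ℕ → ℚ[X]) :
    lam b h n p k (∑ l ∈ s, C (a l) * Q l) = ∑ l ∈ s, a l * lam b h n p k (Q l) := by
  induction s using Finset.induction_on with
  | empty =>
    simp only [Finset.sum_empty]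
    unfold lam
    refine Finset.sum_eq_zero fun i _ => ?_
    have h1 : PN h n * (0 : ℚ[X]).comp (xp n) = C 0 * 0 := by simp
    rw [h1, N334.W.pa_C_mul]
    simp
  | insert l s hl ih =>
    rw [Finset.sum_insert hl, Finset.sum_insert hl, ← ih]
    unfold lam
    rw [Finset.mul_sum, ← Finset.sum_add_distrib]
    refine Finset.sum_congr rfl fun i _ => ?_
    have h1 : PN h n * (C (a l) * Q l + ∑ l ∈ s, C (a l) * Q l).comp (xp n) =
        C (a l) * (PN h n * (Q l).comp (xp n)) + PN h n * (∑ l ∈ s, C (a l) * Q l).comp (xp n) := by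
      rw [add_comp, mul_comp, C_comp]
      ring
    rw [h1, N334.W.pa_add, N334.W.pa_C_mul]
    ring

end NVaux

end Pool.Agent.H15.V
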