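import Pool.Agent.H15.V.Defs

/-!
# Project V (windows, ratio `16/5`): statements of the parts

Each part is a proposition `S_XX`; the proof goes to its own file `Pool/Agent/H15/V/XX.lean` with the theorem
`Pool.Agent.H15.V.XX : S_XX` (or `XX_of : S_YY → … → S_XX` if it uses other parts).
The general parts of `N334.W` are used as they are.
-/

open Polynomial Pool.Agent.H337R2 Filter Topology

namespace Pool.Agent.H15.V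

open Pool.Agent.N334.W (mu UInt nx vd MT cv wcl Dcl G2 Hn PS)

noncomputable section

/-! ### the linear form -/

/-- LF: the linear form -/
def S_LF : Prop := ∀ (b h n : ℕ) (u : ℕ → ℚ) (Q : ℚ[X]), Even b → 2 ≤ b → Even h → 1 ≤ n →
  (∀ e, Odd e → b + 3 ≤ e → e < b + h → ((u e : ℚ) : ℝ) = zr e) →
  2 * Q.natDegree + 3 ≤ h * (6 * n + 1) →
  HasSum (fun t : ℕ => ((PowerSeries.coeff b
      (RS (sN n) (mu h) (PN h n * Q.comp (xp n)) (t : ℚ)) : ℚ) : ℝ))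
    ((NL b h n u Q : ℚ) : ℝ)

/-- OM1: the `t`-th term in terms of the derivatives of `Q` at `x(t)` -/
def S_OM1 : Prop := ∀ (b h n : ℕ) (t : ℚ) (Q : ℚ[X]),
  PowerSeries.coeff b (RS (sN n) (mu h) (PN h n * Q.comp (xp n)) t) =
    ∑ k ∈ Finset.range (b + 1), om b h n t k * (hasseDeriv k Q).eval (t * (t + ((8 * n : ℕ) : ℚ)))

/-- OM2: bound of `ω(t,k)` -/
def S_OM2 : Prop := ∀ b h : ℕ, ∃ K : ℝ, 0 < K ∧ ∀ n t k : ℕ, 1 ≤ n → k ≤ b →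
  |((om b h n (t : ℚ) k : ℚ) : ℝ)| ≤ K * Rt h n t * (2 * (t : ℝ) + 8 * n) ^ k

/-! ### archimedean part -/

/-- DOM: domination by the classical weight. With `Φ(x) = x log x - x`, `n = 4ν`, `t = n τ`: the logarithm of
the quotient is at most `n (s F(τ) + (h - 11s/5) (Φ(6) - Φ(τ+7) + Φ(τ+1)) + 13 s log n)` up to small errors, where
`F(τ) = (11/5) (Φ(6) - Φ(τ+7) + Φ(τ+1)) + 2 (Φ(τ+29/4) - Φ(τ+3/4)) ≤ 10` (the maximum is `9.99096…`, at `τ = 2.53…`)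
and `Φ(6) - Φ(7) + Φ(1) = -2.8708… ≤ -287/100`. The shift by `5` in `3ν + 5` gives a factor `≥ (t+3ν)^(18 s)`. -/
def S_DOM : Prop := ∀ (s h : ℕ) (K ε : ℝ), 1 ≤ s → 11 * s ≤ 5 * h → 0 < K → 0 < ε →
  ∀ᶠ ν : ℕ in atTop, ∀ t : ℕ,
    K * Rt h (4 * ν) t * ((t : ℝ) + 32 * ν) ^ (6 * s + 2) ≤
      Real.exp (4 * (ν : ℝ) * ((s : ℝ) * (13 * Real.log (4 * (ν : ℝ)) + 10) -
        ((h : ℝ) - 11 / 5 * s) * (287 / 100) + ε)) * wcl (32 * ν) (3 * ν + 5) t ^ s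

/-- ASY: size of the classical determinant -/
def S_ASY : Prop := ∀ ε : ℝ, 0 < ε → ∀ᶠ ν : ℕ in atTop,
  (12 * (ν : ℝ) - 1) * (4 * (ν : ℝ) * (13 * Real.log (4 * (ν : ℝ)) + 10)) +
    Real.log (Dcl (32 * ν) (3 * ν + 5) (12 * ν - 1)) ≤
      (4 * (ν : ℝ)) ^ 2 * (18 * Real.log (4 * (ν : ℝ)) + a1 + ε)

/-- AR: the archimedean bound -/
def S_AR : Prop := ∀ b h : ℕ, Even b → 2 ≤ b → Even h → 11 * (b + 1) ≤ 5 * h → ∀ ε : ℝ, 0 < ε →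
  ∀ᶠ ν : ℕ in atTop, ∀ u : ℕ → ℚ,
    (∀ e, Odd e → b + 3 ≤ e → e < b + h → ((u e : ℚ) : ℝ) = zr e) →
    |((DET b h (4 * ν) u ((b + 1) * (3 * (4 * ν) - 1)) : ℚ) : ℝ)| ≤
      Real.exp ((4 * (ν : ℝ)) ^ 2 * (((b : ℝ) + 1) ^ 2 * (18 * Real.log (4 * (ν : ℝ)) + a1) -
        ((b : ℝ) + 1) * (5 * h - 11 * ((b : ℝ) + 1)) / 5 * (861 / 100) + ε))

/-! ### p-adic part: the ranges `p ≤ 21n/5` and `6n < p` -/

/-- RED: the linear form modulo `p`-integral numbers, `p > 6n` -/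
def S_RED : Prop := ∀ (b h n q p : ℕ) (u : ℕ → ℚ) (Q : ℤ[X]), Even b → 1 ≤ n → p.Prime → 6 * n < p →
  UInt q u → 2 * Q.natDegree + 1 < h * (6 * n + 1) →
  padicNorm p ((q : ℚ) * (NL b h n u (Q.map (Int.castRingHom ℚ)) +
    ∑ c ∈ Finset.Icc 1 (7 * n - p), ∑ k ∈ Finset.range (b + 1), om b h n (-(c : ℚ)) k *
      (hasseDeriv k (Q.map (Int.castRingHom ℚ))).eval (-(c : ℚ) * (-(c : ℚ) + ((8 * n : ℕ) : ℚ))))) ≤ 1

/-- OMP: the valuations of `ω(-c, k)`, `p > 6n` -/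
def S_OMP : Prop := ∀ (b h n p c : ℕ), 1 ≤ n → p.Prime → 6 * n < p → 1 ≤ c → c + p ≤ 7 * n →
  (∀ k, k ≤ b → padicNorm p (om b h n (-(c : ℚ)) k) ≤ (p : ℚ) ^ (h + b - k)) ∧
  padicNorm p (om b h n (-(c : ℚ)) b) = (p : ℚ) ^ h

/-- LP: the large primes -/
def S_LP : Prop := ∀ (b h n q p : ℕ) (u : ℕ → ℚ), Even b → 2 * (b + 1) ≤ h → 1 ≤ n → p.Prime → 6 * n < p →
  UInt q u → padicNorm p ((q : ℚ) ^ ((b + 1) * (3 * n - 1)) * DET b h n u ((b + 1) * (3 * n - 1))) ≤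
    (p : ℚ) ^ (h * (b + 1) * (7 * n - p))

/-- CBD: the linear form of products of node polynomials, `p > √(8n)` -/
def S_CBD : Prop := ∀ (b h n q p j : ℕ) (u : ℕ → ℚ) (r : ℕ → ℕ) (w : ℤ), 1 ≤ n → p.Prime → 8 * n < p ^ 2 →
  UInt q u → (∀ i, r i ≤ 8 * n) →
  (∀ k ∈ Finset.Icc n (7 * n), (h : ℤ) * ((Np n p k : ℤ) - ((6 * n / p : ℕ) : ℤ)) + b -
    (((Finset.range j).filter fun i => r i ≡ k [MOD p] ∨ 8 * n - r i ≡ k [MOD p]).card : ℤ) ≤ w) →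
  padicNorm p ((q : ℚ) * NL b h n u (∏ i ∈ Finset.range j, XN n (r i))) ≤ (p : ℚ) ^ w

/-- EPB: the primes `√(8n) < p ≤ 6n` -/
def S_EPB : Prop := ∀ (b h n q p : ℕ) (u : ℕ → ℚ), 1 ≤ n → p.Prime → 8 * n < p ^ 2 → p ≤ 6 * n →
  UInt q u → ((padicNorm p ((q : ℚ) ^ ((b + 1) * (3 * n - 1)) * DET b h n u ((b + 1) * (3 * n - 1))) : ℚ) : ℝ) ≤
    (p : ℝ) ^ EP b h n p

/-- SM: the small primes -/
def S_SM : Prop := ∀ (b h n q p l : ℕ) (u : ℕ → ℚ), 1 ≤ n → p.Prime →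
  2 * ((b + 1) * (3 * n - 1)) + 8 * n < p ^ (l + 1) → UInt q u →
  padicNorm p ((q : ℚ) ^ ((b + 1) * (3 * n - 1)) * DET b h n u ((b + 1) * (3 * n - 1))) ≤
    ((p : ℚ) ^ l) ^ ((h + b) * ((b + 1) * (3 * n - 1))) *
      ∏ i ∈ Finset.range ((b + 1) * (3 * n - 1)), padicNorm p (((2 * i - 1).factorial : ℕ) : ℚ) ^ 2

/-! ### p-adic part: the range `4n < p ≤ 6n` -/

/-- RD: for `4n < p ≤ 6n` the linear form plus the sum over the nodes `-c`, `c < n`, plus the terms `lam`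
of the poles `k ≥ n + p` is a combination of the partial fraction coefficients with `p`-integral coefficients -/
def S_RD : Prop := ∀ (b h n q p : ℕ) (u : ℕ → ℚ), Even b → 1 ≤ n → p.Prime → 4 * n < p →
  p ≤ 6 * n → UInt q u → ∃ g : ℕ → ℕ → ℚ, (∀ i k, 1 ≤ i → k ∈ sN n → padicNorm p (g i k) ≤ 1) ∧
  ∀ Q : ℚ[X], 2 * Q.natDegree + 1 < h * (6 * n + 1) →
  (q : ℚ) * (NL b h n u Q + NS b h n Q + ∑ k ∈ Finset.Icc (n + p) (7 * n), lam b h n p k Q) =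
    ∑ i ∈ Finset.Icc 1 h, ∑ k ∈ sN n, pa (sN n) (mu h) (PN h n * Q.comp (xp n)) k i * g i k

/-- PB1: partial fraction coefficients at the poles with a partner in their class modulo `p`, `4n < p ≤ 6n`;
`A` bounds the Taylor coefficients of `Q` at a node congruent to `x(-k)` -/
def S_PB1 : Prop := ∀ (h n p k c i : ℕ) (Q : ℚ[X]) (A : ℚ), 1 ≤ n → p.Prime → 4 * n < p → p ≤ 6 * n →
  k ∈ sN n → c ≤ 8 * n → (c ≡ k [MOD p] ∨ 8 * n - c ≡ k [MOD p]) →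
  (∀ l, padicNorm p ((taylor ((nd n c : ℤ) : ℚ) Q).coeff l) ≤ A * (p : ℚ) ^ l) → 1 ≤ i → i ≤ h →
  padicNorm p (pa (sN n) (mu h) (PN h n * Q.comp (xp n)) k i) ≤ A * (p : ℚ) ^ (h - i)

/-- PB2: partial fraction coefficients at the poles without a partner in their class modulo `p`, `4n < p ≤ 6n` -/
def S_PB2 : Prop := ∀ (h n p k i : ℕ) (Q : ℤ[X]), 1 ≤ n → p.Prime → 4 * n < p → p ≤ 6 * n →
  k ∈ sN n → k + p ∉ sN n → k < n + p → 1 ≤ i → i ≤ h →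
  padicNorm p (pa (sN n) (mu h) (PN h n * (Q.map (Int.castRingHom ℚ)).comp (xp n)) k i) ≤ ((p : ℚ) ^ h)⁻¹

/-- OMN: the valuations of `ω(-c, k)`, `1 ≤ c < n`, `4n < p ≤ 6n` -/
def S_OMN : Prop := ∀ (b h n p c : ℕ), 1 ≤ n → p.Prime → 4 * n < p → p ≤ 6 * n → 1 ≤ c → c < n →
  (∀ k, k ≤ b → padicNorm p (om b h n (-(c : ℚ)) k) ≤ (p : ℚ) ^ (b - k)) ∧
  padicNorm p (om b h n (-(c : ℚ)) b) = 1

/-- GRC: greedy distribution of the zeros with capacities and a floor -/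
def S_GRC : Prop := ∀ (M : ℕ) (e : Fin M → ℤ) (cap : Fin M → ℕ) (f : ℤ), ∃ (c : ℕ → Option (Fin M)) (w : ℕ → ℤ),
  (∀ i, f ≤ w i) ∧
  (∀ i a, ((Finset.range i).filter fun l => c l = some a).card < cap a →
    e a - 2 * (((Finset.range i).filter fun l => c l = some a).card : ℤ) ≤ w i) ∧
  ∀ m : ℕ, ∑ i ∈ Finset.range m, (w i - f) ≤
    ∑ a, ∑ j ∈ Finset.range (cap a), max 0 (e a - 2 * (j : ℤ) - f)

/-- NOD: the primes `4n < p ≤ 6n` -/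
def S_NOD : Prop := ∀ (b h n q p : ℕ) (u : ℕ → ℚ), Even b → Even h → 2 * (b + 1) ≤ h → 1 ≤ n → p.Prime →
  4 * n < p → p ≤ 6 * n → UInt q u →
  padicNorm p ((q : ℚ) ^ ((b + 1) * (3 * n - 1)) * DET b h n u ((b + 1) * (3 * n - 1))) ≤ (p : ℚ) ^ EN b h n p

/-- CLU: the leading term of the linear form at a class with two poles, `4n < p ≤ 6n`; the class of
`k` consists of the poles `k, k+p`, its mirror image of `8n-k-p, 8n-k` -/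
def S_CLU : Prop := ∀ (b h n p k : ℕ), Even b → Even h → 2 ≤ h → 1 ≤ n → p.Prime → 4 * n < p → p ≤ 6 * n →
  n ≤ k → 2 * k + p < 8 * n → ∃ U : ℚ, padicNorm p U = 1 ∧ ∀ l : ℕ,
    padicNorm p (lam b h n p (k + p) ((X - C ((nd n k : ℤ) : ℚ)) ^ l) +
        lam b h n p (8 * n - k) ((X - C ((nd n k : ℤ) : ℚ)) ^ l) -
      U * ((2 * k : ℚ) - 8 * n) ^ l * (p : ℚ) ^ ((l : ℤ) - h - b) * (Lam h (b + 1) (X ^ l : ℤ[X]) : ℤ)) ≤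
      (p : ℚ) ^ ((h : ℤ) + b - l - 1)

/-- LOC: the local functional is nondegenerate on the polynomials of degree less than `2 (h - s)` -/
def S_LOC : Prop := ∀ (F : Type) [Field F], (2 : F) ≠ 0 → ∀ (h s : ℕ), Odd s → 2 * s ≤ h → 2 * h < 5 * s + 1 →
  ∀ G : F[X], G.degree < (2 * (h - s) : ℕ) → (∀ j, j < 2 * (h - s) → Lam h s (G * X ^ j) = 0) → G = 0

/-- NV: non-vanishing -/
def S_NV : Prop := ∀ (b h n q p : ℕ) (u : ℕ → ℚ), Even b → Even h → 2 ≤ b → 2 * (b + 1) < h →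
  2 * h < 5 * (b + 1) + 1 → 1 ≤ n → p.Prime → 4 * n < p → p ≤ 6 * n → ¬ p ∣ q → UInt q u →
  ∀ m, m = (b + 1) * (n - 1) + (h - (b + 1)) * (6 * n - p + 1) → 4 * m ≤ h * (6 * n + 1) →
  DET b h n u m ≠ 0

/-! ### sums over primes -/

/-- SE: the sum of the exponents over `6n/J < p ≤ 21n/5` -/
def S_SE : Prop := ∀ (b h J : ℕ) (ε : ℝ), 2 ≤ J → 0 < ε → ∀ᶠ n : ℕ in atTop,
  ∑ p ∈ PS (6 / J) (21 / 5) n, EP b h n p * Real.log p ≤ (n : ℝ) ^ 2 * (e0 (b + 1) h J + ε)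

/-- SN: the sum of the exponents over `21n/5 < p ≤ 6n` -/
def S_SN : Prop := ∀ (b h : ℕ) (ε : ℝ), Even b → 0 < ε → ∀ᶠ n : ℕ in atTop,
  ∑ p ∈ PS (21 / 5) 6 n, (EN b h n p : ℝ) * Real.log p ≤
    (n : ℝ) ^ 2 * (-(18 / 5) * ((b : ℝ) + 1) * h + 81 / 400 * (2 * (h : ℝ) + (b + 1)) ^ 2 + ε)

/-- SL: the sum of the exponents over `6n < p ≤ 7n` -/
def S_SL : Prop := ∀ (b h : ℕ) (ε : ℝ), 0 < ε → ∀ᶠ n : ℕ in atTop,
  ∑ p ∈ PS 6 7 n, ((h * (b + 1) * (7 * n - p) : ℕ) : ℝ) * Real.log p ≤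
    (n : ℝ) ^ 2 * ((h : ℝ) * (b + 1) / 2 + ε)

/-- SS: the sum over the small primes -/
def S_SS : Prop := ∀ b h : ℕ, ∃ C : ℝ, ∀ (J : ℕ) (ε : ℝ), 1 ≤ J → 0 < ε → ∀ᶠ n : ℕ in atTop,
  ∑ p ∈ PS 0 (6 / J) n, Real.log
    (((p : ℝ) ^ Nat.log p (2 * ((b + 1) * (3 * n - 1)) + 8 * n)) ^ ((h + b) * ((b + 1) * (3 * n - 1))) *
      ∏ i ∈ Finset.range ((b + 1) * (3 * n - 1)),
        ((padicNorm p (((2 * i - 1).factorial : ℕ) : ℚ) : ℚ) : ℝ) ^ 2) ≤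
    (n : ℝ) ^ 2 * (-18 * ((b : ℝ) + 1) ^ 2 * (Real.log (6 * n / J) - Real.eulerMascheroniConstant) +
      C / J + ε)

/-- NUM: the final numerical inequality -/
def S_NUM : Prop := ∀ (s h : ℕ) (C : ℝ), 1 ≤ s → 11 * s ≤ 5 * h → 5 * h ≤ 12 * s → ∃ J : ℕ, 2 ≤ J ∧
  (s : ℝ) ^ 2 * a1 - (s : ℝ) * (5 * h - 11 * (s : ℝ)) / 5 * (861 / 100) -
    18 * (s : ℝ) ^ 2 * Real.log 6 + 18 * (s : ℝ) ^ 2 * Real.log J +
    18 * (s : ℝ) ^ 2 * Real.eulerMascheroniConstant + C / J + e0 s h J +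
    (-(18 / 5) * (s : ℝ) * h + 81 / 400 * (2 * (h : ℝ) + s) ^ 2) + (h : ℝ) * s / 2 < 0

end

end Pool.Agent.H15.V
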